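import Pool.Agent.Helper1.LG.Defs
import Pool.Agent.Helper40.KS.Win

set_option autoImplicit false

/-!
LG-S. The number of rough positions (`BSp` in `Defs.lean`).

Let `H = ⌊C log x⌋`. `Bs x h a` injects (by `i ↦ a + h i + k Ps x`, `k` fixed and large so that the
numbers are positive; the gcd does not change) into an interval of `2 H + 1` integers, all
without prime factor `≤ √log x`. Apply `Pool.Agent.Helper40.KS.rough_up` (or `selUp'` directly) with
`h = 2 H + 1` and `k` maximal with `2^(0.38 k) ≤ h` and `2^(0.19 k) ≤ √log x`, so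
`k ≥ c loglog x` for large `x`: the number is at most `C' h/k ≤ C1 log x/loglog x`.
-/

open Finset

namespace Pool.Agent.Helper1.LG

theorem bsp : BSp := by
  classical
  intro C hC
  obtain ⟨B, hB, K, hup⟩ := Pool.Agent.Helper40.KS.rough_up
  have tl : Filter.Tendsto (fun x : ℝ => Real.log (Real.log x)) Filter.atTop Filter.atTop :=
    Real.tendsto_log_atTop.comp Real.tendsto_log_atTop
  obtain ⟨X1, hX1⟩ := Filter.eventually_atTop.1
    (((tl.eventually_ge_atTop ((K : ℝ) + 1)).and (tl.eventually_ge_atTop 2)).and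
      (Real.tendsto_log_atTop.eventually_ge_atTop (1 / C ^ 2 + 1 / C + 1)))
  refine ⟨6 * B * C, max X1 3, by positivity, le_max_right _ _, ?_⟩
  intro x hx Y h hinj hh a
  obtain ⟨⟨e1, e2⟩, e3⟩ := hX1 x ((le_max_left _ _).trans hx)
  set L := Real.log x with hL
  have hC2 : 0 < 1 / C ^ 2 := by positivity
  have hC1 : 0 < 1 / C := by positivity
  have hL1 : 1 ≤ L := by linarith
  have hL0 : 0 < L := by linarith
  have hLC : 1 ≤ C * L := by
    have : 1 / C ≤ L := by linarith
    rw [div_le_iff₀ hC] at this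
    linarith
  have hsq : Real.sqrt L ≤ C * L := by
    rw [Real.sqrt_le_left (by positivity)]
    have : 1 / C ^ 2 ≤ L := by linarith
    rw [div_le_iff₀ (by positivity)] at this
    nlinarith
  set k := ⌊Real.log L⌋₊ with hk
  have hkl : (k : ℝ) ≤ Real.log L := Nat.floor_le (by linarith)
  have hku : Real.log L < k + 1 := Nat.lt_floor_add_one _
  have hkK : K ≤ k := by
    have : (K : ℝ) < k + 1 := by linarith
    have h2 : K < k + 1 := by exact_mod_cast this
    omega
  have hk0 : (0 : ℝ) < k := by linarith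
  have hl2 : 0 < Real.log 2 := Real.log_pos (by norm_num)
  have hl2' : Real.log 2 < 0.7 := by
    have := Real.log_two_lt_d9
    linarith
  have hexp : ∀ c : ℝ, 0 ≤ c → c ≤ 0.5 → (2 : ℝ) ^ (c * (k : ℝ)) ≤ Real.sqrt L := by
    intro c hc0 hc
    rw [Real.sqrt_eq_rpow, Real.rpow_def_of_pos (by norm_num), Real.rpow_def_of_pos hL0]
    apply Real.exp_le_exp.2
    have h1 : c * (k : ℝ) ≤ 0.5 * Real.log L := mul_le_mul hc hkl hk0.le (by norm_num)
    have h2 : 0 ≤ c * (k : ℝ) := by positivity
    nlinarith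
  set H := ⌊C * L⌋₊ with hH
  have hHl : (H : ℝ) ≤ C * L := Nat.floor_le (by linarith)
  have hHu : C * L < H + 1 := Nat.lt_floor_add_one _
  have hP1 : 0 < Ps x := primorial_pos _
  set N := H * Ps x with hN
  have hHN : H ≤ N := Nat.le_mul_of_pos_right _ hP1
  -- the shifts are integers between `-H` and `H`
  have hhi : ∀ i, -(H : ℤ) ≤ h i ∧ h i ≤ H := by
    intro i
    have h1 := abs_le.1 (hh i)
    constructor
    · by_contra hc
      push Not at hc
      have h2 : h i + 1 ≤ -(H : ℤ) := by omega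
      have h3 : (h i : ℝ) + 1 ≤ -(H : ℝ) := by exact_mod_cast h2
      linarith
    · by_contra hc
      push Not at hc
      have h2 : (H : ℤ) + 1 ≤ h i := by omega
      have h3 : (H : ℝ) + 1 ≤ h i := by exact_mod_cast h2
      linarith
  set f : Fin Y → ℕ := fun i => ((a : ℤ) + h i + N).toNat with hf
  have hfc : ∀ i, ((f i : ℕ) : ℤ) = (a : ℤ) + h i + N := by
    intro i
    rw [hf]
    apply Int.toNat_of_nonneg
    have := hhi i
    have h2 : (H : ℤ) ≤ N := by exact_mod_cast hHN
    omega
  have hfinj : Function.Injective f := by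
    intro i j hij
    apply hinj
    have h1 := hfc i
    have h2 := hfc j
    rw [hij] at h1
    omega
  have hmain := hup k hkK (a + N - H) (2 * H + 1) (by
    push_cast
    have h1 := hexp 0.38 (by norm_num) (by norm_num)
    linarith) ((Bs x h a).image f) (by
    intro n hn
    obtain ⟨i, hi, rfl⟩ := Finset.mem_image.1 hn
    have h1 := hhi i
    have h2 := hfc i
    refine ⟨by omega, by omega, ?_⟩
    intro p hp hpd
    by_contra hcon
    push Not at hcon
    have hps : (p : ℝ) ≤ Real.sqrt L := hcon.trans (hexp 0.19 (by norm_num) (by norm_num))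
    have hpf : p ≤ ⌊Real.sqrt L⌋₊ := Nat.le_floor hps
    have hpP : p ∣ Ps x := by
      unfold Ps
      exact (hp.dvd_primorial_iff).2 hpf
    have hpg : (p : ℤ) ∣ (a : ℤ) + h i := by
      have h3 : (p : ℤ) ∣ (a : ℤ) + h i + N := by
        rw [← h2]; exact_mod_cast hpd
      have h4 : (p : ℤ) ∣ (N : ℤ) := by
        rw [hN]
        exact_mod_cast Dvd.dvd.mul_left hpP H
      exact (dvd_add_left h4).1 h3
    have hg : Int.gcd ((a : ℤ) + h i) (Ps x) = 1 := by
      have := hi
      unfold Bs at this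
      exact (Finset.mem_filter.1 this).2
    have h5 : (p : ℤ) ∣ ((Int.gcd ((a : ℤ) + h i) (Ps x) : ℕ) : ℤ) :=
      Int.dvd_coe_gcd hpg (by exact_mod_cast hpP)
    rw [hg] at h5
    have h6 : p ∣ 1 := by exact_mod_cast h5
    exact hp.one_lt.ne' (Nat.dvd_one.1 h6))
  rw [Finset.card_image_of_injective _ hfinj] at hmain
  refine hmain.trans ?_
  push_cast
  have hlog : 0 < Real.log L := by linarith
  have e4 : (2 * (H : ℝ) + 1) ≤ 3 * (C * L) := by linarith
  have e5 : Real.log L / 2 ≤ k := by linarith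
  have e6 : (2 * (H : ℝ) + 1) / k ≤ 3 * (C * L) / (Real.log L / 2) :=
    div_le_div₀ (by positivity) e4 (by positivity) e5
  calc B * ((2 * (H : ℝ) + 1) / k) ≤ B * (3 * (C * L) / (Real.log L / 2)) :=
        mul_le_mul_of_nonneg_left e6 hB.le
    _ = 6 * B * C * L / Real.log L := by field_simp; ring

end Pool.Agent.Helper1.LG
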