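import Pool.Agent.Helper1.LG.Defs
import Pool.Agent.Helper74.MT.BVError
import Pool.Agent.Helper28.MT.BVErrorU
import Pool.Agent.Helper83.MT.Wt
import Pool.Agent.Helper83.MT.Comb

set_option autoImplicit false

/-!
LG-B. Bombieri-Vinogradov for the weights `nu`, with the maximum over the reduced classes
(`BVp` in `Defs.lean`).

For every `x` and `d > 0` choose the class `c d` coprime to `d` for which
`|∑_{n ≤ x, n ≡ c (d)} Λ n wt g x n - (1/φ(d)) ∑ Λ n wt g x n|` is largest (classes modulo `d`: a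
maximum over a finite set, `Finset.exists_max_image` over `(range (d+1)).filter (Coprime · d)`, the
expression only depends on `c mod d`), and apply
`Pool.Agent.Helper74.MT.BVError.bvError : BVError` (`Pool.Agent.Helper1.MT.Defs`) with `W = 1`,
`A + 1`. The difference between `Λ n wt g x n` and `nu g x n` are the prime powers `q^j`, `j ≥ 2`,
with `x^(1/2) < q^j < x`: `∑ Λ(n) wt ≤ G ∑_{q^j > √x, j ≥ 2} log q / q^j ≤ C x^(-1/5)`, for every
class and in the total. So `Er d = max + 2 C x^(-1/5)`, and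
`∑_{U, ∏ U ≤ lev²} k^|U| ≤ lev² ∑ k^|U|/∏U ≤ x^(2/81) · exp(k C) (log x)^k`
(`Pool.Agent.Helper74.MT.BVAux.sum_powerset_le`), so the second part is `O(x^(-1/6))`.
See also Helper74/MT/BVAux.lean, Helper83/MT/Wt.lean, Helper83/MT/SumPrime.lean (the same
step with `(log x)^A` saving) and Helper72/MT/SumPrimeU.lean.
-/

open Finset Filter
open scoped ArithmeticFunction.vonMangoldt

namespace Pool.Agent.Helper1.LG

open Pool.Agent.Helper1.MT (PS lev)
open Pool.Agent.Helper18.BV (wt IsWt)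
open Pool.Agent.Helper83.MT (err err_mod err_nonneg exists_max_class nonprime_bound)

/-- The weights of the prime powers are small. -/
theorem nu_diff {g : ℝ → ℝ} (hg : IsWt g) {G : ℝ} (hG0 : 0 < G) (hG : ∀ v, |g v| ≤ G) {x : ℝ}
    (hx : 3 ≤ x) {δ : ℝ} (hδ : ∀ T : Finset ℕ,
      (∀ n ∈ T, ¬ n.Prime ∧ x ^ (1 / 2 : ℝ) < n ∧ (n : ℝ) ≤ x) → ∑ n ∈ T, Λ n / n ≤ δ)
    (F : Finset ℕ) (hF : F ⊆ Icc 1 ⌊x⌋₊) :
    0 ≤ ∑ n ∈ F, Λ n * wt g x n - ∑ n ∈ F, nu g x n ∧
      ∑ n ∈ F, Λ n * wt g x n - ∑ n ∈ F, nu g x n ≤ G * δ := by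
  have hx0 : 0 < x := by linarith
  have hwt0 : ∀ n : ℕ, 0 ≤ Λ n * wt g x n := fun n =>
    mul_nonneg ArithmeticFunction.vonMangoldt_nonneg (Pool.Agent.Helper18.BV.wt_nonneg hg _ _)
  have h1 : ∑ n ∈ F, Λ n * wt g x n - ∑ n ∈ F, nu g x n =
      ∑ n ∈ F.filter (fun n => ¬ n.Prime), Λ n * wt g x n := by
    symm
    rw [Finset.sum_filter, ← Finset.sum_sub_distrib]
    apply Finset.sum_congr rfl
    intro n _
    unfold nu
    by_cases hp : n.Prime
    · simp [hp]
    · simp [hp]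
  rw [h1]
  refine ⟨Finset.sum_nonneg fun n _ => hwt0 n, ?_⟩
  set T := (F.filter (fun n => ¬ n.Prime)).filter (fun n : ℕ => x ^ (1 / 2 : ℝ) < n) with hT
  have h3 : ∑ n ∈ F.filter (fun n => ¬ n.Prime), Λ n * wt g x n =
      ∑ n ∈ T, Λ n * wt g x n := by
    symm
    apply Finset.sum_subset (Finset.filter_subset _ _)
    intro n hn hn'
    have h4 : (n : ℝ) ≤ x ^ (1 / 2 : ℝ) := by
      by_contra hlt
      exact hn' (Finset.mem_filter.2 ⟨hn, not_le.1 hlt⟩)
    rw [Pool.Agent.Helper18.BV.wt_zero hg (by linarith) h4, mul_zero]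
  rw [h3]
  have h4 : ∑ n ∈ T, Λ n * wt g x n ≤ G * ∑ n ∈ T, Λ n / n := by
    rw [Finset.mul_sum]
    apply Finset.sum_le_sum
    intro n _
    unfold wt
    have h5 : Λ n * (g (Real.log n / Real.log x) / n) =
        g (Real.log n / Real.log x) * (Λ n / n) := by ring
    rw [h5]
    exact mul_le_mul_of_nonneg_right ((le_abs_self _).trans (hG _))
      (div_nonneg ArithmeticFunction.vonMangoldt_nonneg (Nat.cast_nonneg _))
  refine h4.trans (mul_le_mul_of_nonneg_left (hδ T ?_) hG0.le)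
  intro n hn
  rw [hT, Finset.mem_filter, Finset.mem_filter] at hn
  refine ⟨hn.1.2, hn.2, ?_⟩
  exact (Nat.le_floor_iff hx0.le).1 (Finset.mem_Icc.1 (hF hn.1.1)).2

theorem bvp : BVp := by
  intro g hg k A hA
  obtain ⟨G, hG0, hG⟩ := Pool.Agent.Helper44.BV.IsWt_bdd hg
  obtain ⟨C3, hC3, hM⟩ := Pool.Agent.Helper44.sum_primesUpTo_bounds
  obtain ⟨C2, hC2, hnp⟩ := nonprime_bound
  obtain ⟨XB, hXB, hBV⟩ := Pool.Agent.Helper74.MT.bvError g hg k 1 one_pos (A + 1) (by positivity)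
  set K : ℝ := 4 * G * C2 * Real.exp (k * C3) with hK
  have hK0 : 0 < K := by positivity
  -- the threshold
  have ev : ∀ᶠ x : ℝ in atTop, (2 : ℝ) ≤ Real.log x :=
    Real.tendsto_log_atTop.eventually (eventually_ge_atTop _)
  have ev2 : ∀ᶠ x : ℝ in atTop, K * Real.log x ^ (2 + (k : ℝ) + A) ≤ x ^ (1 / 16 : ℝ) := by
    have h := (isLittleO_log_rpow_rpow_atTop (2 + (k : ℝ) + A)
      (show (0 : ℝ) < 1 / 16 by norm_num)).bound (show (0 : ℝ) < 1 / K by positivity)
    filter_upwards [h, eventually_ge_atTop (1 : ℝ)] with x hx hx1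
    rw [Real.norm_of_nonneg (Real.rpow_nonneg (Real.log_nonneg hx1) _),
      Real.norm_of_nonneg (Real.rpow_nonneg (by linarith) _)] at hx
    calc K * Real.log x ^ (2 + (k : ℝ) + A) ≤ K * (1 / K * x ^ (1 / 16 : ℝ)) := by gcongr
      _ = x ^ (1 / 16 : ℝ) := by field_simp
  obtain ⟨X2, hX2⟩ := eventually_atTop.1 (ev.and ev2)
  refine ⟨max XB X2, hXB.trans (le_max_left _ _), ?_⟩
  intro x hx
  have hxB : XB ≤ x := (le_max_left _ _).trans hx
  obtain ⟨hlog2, hlogK⟩ := hX2 x ((le_max_right _ _).trans hx)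
  have hx3 : 3 ≤ x := hXB.trans hxB
  have hx0 : 0 < x := by linarith
  have hx1 : 1 ≤ x := by linarith
  have hlog0 : 0 < Real.log x := by linarith
  set δ : ℝ := C2 * Real.log x ^ 2 * x ^ (-(1 / 8) : ℝ) with hδ
  have hδ0 : 0 ≤ δ := by positivity
  obtain ⟨cm, hcm, hmax⟩ := exists_max_class (err g x) (err_mod g x)
  refine ⟨fun d => err g x d (cm d) + 2 * (G * δ), ?_, ?_, ?_⟩
  · intro d
    have := err_nonneg g x d (cm d)
    positivity
  · intro d c hd hc
    have h1 := nu_diff hg hG0 hG hx3 (hnp x hx3)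
      ((Icc 1 ⌊x⌋₊).filter (fun n => n ≡ c [MOD d])) (Finset.filter_subset _ _)
    have h2 := nu_diff hg hG0 hG hx3 (hnp x hx3) (Icc 1 ⌊x⌋₊) (Finset.Subset.refl _)
    have h3 := hmax d c hc
    have h4 : err g x d c = |∑ n ∈ (Icc 1 ⌊x⌋₊).filter (fun n => n ≡ c [MOD d]), Λ n * wt g x n -
      (1 / (d.totient : ℝ)) * ∑ n ∈ Icc 1 ⌊x⌋₊, Λ n * wt g x n| := rfl
    have hphi : 1 / (d.totient : ℝ) ≤ 1 := by
      rw [div_le_one (by exact_mod_cast Nat.totient_pos.2 hd)]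
      exact_mod_cast Nat.totient_pos.2 hd
    have hphi0 : 0 ≤ 1 / (d.totient : ℝ) := by positivity
    set a1 := ∑ n ∈ (Icc 1 ⌊x⌋₊).filter (fun n => n ≡ c [MOD d]), Λ n * wt g x n
    set a2 := ∑ n ∈ (Icc 1 ⌊x⌋₊).filter (fun n => n ≡ c [MOD d]), nu g x n
    set b1 := ∑ n ∈ Icc 1 ⌊x⌋₊, Λ n * wt g x n
    have hb2 : Mn g x = ∑ n ∈ Icc 1 ⌊x⌋₊, nu g x n := rfl
    rw [← hb2] at h2
    set b2 := Mn g x
    set φ := 1 / (d.totient : ℝ)
    have h5 : |a2 - φ * b2| ≤ |a1 - φ * b1| + 2 * (G * δ) := by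
      have e : a2 - φ * b2 = (a1 - φ * b1) - ((a1 - a2) - φ * (b1 - b2)) := by ring
      rw [e]
      refine (abs_sub _ _).trans ?_
      have h6 : |(a1 - a2) - φ * (b1 - b2)| ≤ 2 * (G * δ) := by
        rw [abs_le]
        have h7 : 0 ≤ φ * (b1 - b2) := mul_nonneg hphi0 h2.1
        have h8 : φ * (b1 - b2) ≤ 1 * (G * δ) :=
          mul_le_mul hphi h2.2 h2.1 (by norm_num)
        constructor <;> linarith [h1.1, h1.2, mul_nonneg hG0.le hδ0]
      linarith
    refine h5.trans ?_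
    rw [← h4]
    linarith
  · -- the sum
    have hB := hBV x hxB cm hcm
    set R : ℕ := lev x with hR
    have hRx : (R : ℝ) ≤ x ^ (1 / 81 : ℝ) := by
      rw [hR]; unfold lev
      exact Nat.floor_le (by positivity)
    have hRx1 : (R : ℝ) ≤ x := by
      refine hRx.trans ?_
      calc x ^ (1 / 81 : ℝ) ≤ x ^ (1 : ℝ) := Real.rpow_le_rpow_of_exponent_le hx1 (by norm_num)
        _ = x := Real.rpow_one x
    set F := (PS R 1).powerset.filter (fun U => ∏ p ∈ U, p ≤ R ^ 2) with hF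
    have hFp : ∀ U ∈ F, 0 < ∏ p ∈ U, p := by
      intro U hU
      rw [hF, mem_filter, mem_powerset] at hU
      apply Finset.prod_pos
      intro p hp
      have := hU.1 hp
      unfold PS at this
      rw [mem_filter] at this
      exact this.2.1.pos
    have hB' : ∑ U ∈ F, (k : ℝ) ^ U.card * err g x (∏ p ∈ U, p) (cm (∏ p ∈ U, p)) ≤
        1 / Real.log x ^ (A + 1) := by
      refine le_trans (le_of_eq ?_) hB
      apply Finset.sum_congr rfl
      intro U _
      rw [one_mul]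
      rfl
    have hcount : ∑ U ∈ F, (k : ℝ) ^ U.card ≤
        x ^ (2 / 81 : ℝ) * (Real.exp (k * C3) * Real.log x ^ (k : ℝ)) := by
      calc ∑ U ∈ F, (k : ℝ) ^ U.card
          ≤ ∑ U ∈ F, x ^ (2 / 81 : ℝ) * ((k : ℝ) ^ U.card / ((∏ p ∈ U, p : ℕ) : ℝ)) := by
            apply Finset.sum_le_sum
            intro U hU
            have hP0 : (0 : ℝ) < ((∏ p ∈ U, p : ℕ) : ℝ) := by exact_mod_cast hFp U hU
            have hPx : ((∏ p ∈ U, p : ℕ) : ℝ) ≤ x ^ (2 / 81 : ℝ) := by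
              have h1 : ∏ p ∈ U, p ≤ R ^ 2 := (mem_filter.1 hU).2
              calc ((∏ p ∈ U, p : ℕ) : ℝ) ≤ (R : ℝ) ^ 2 := by exact_mod_cast h1
                _ ≤ (x ^ (1 / 81 : ℝ)) ^ 2 := by gcongr
                _ = x ^ (2 / 81 : ℝ) := by
                    rw [← Real.rpow_natCast, ← Real.rpow_mul hx0.le]; norm_num
            have h2 : (k : ℝ) ^ U.card =
                ((∏ p ∈ U, p : ℕ) : ℝ) * ((k : ℝ) ^ U.card / ((∏ p ∈ U, p : ℕ) : ℝ)) := by
              field_simp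
            calc (k : ℝ) ^ U.card =
                ((∏ p ∈ U, p : ℕ) : ℝ) * ((k : ℝ) ^ U.card / ((∏ p ∈ U, p : ℕ) : ℝ)) := h2
              _ ≤ x ^ (2 / 81 : ℝ) * ((k : ℝ) ^ U.card / ((∏ p ∈ U, p : ℕ) : ℝ)) := by
                  apply mul_le_mul_of_nonneg_right hPx
                  positivity
        _ = x ^ (2 / 81 : ℝ) * ∑ U ∈ F, ((k : ℝ) ^ U.card / ((∏ p ∈ U, p : ℕ) : ℝ)) := by
            rw [Finset.mul_sum]
        _ ≤ x ^ (2 / 81 : ℝ) * (Real.exp (k * C3) * Real.log x ^ (k : ℝ)) := by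
            apply mul_le_mul_of_nonneg_left _ (by positivity)
            refine le_trans ?_ (Pool.Agent.Helper74.MT.sum_powerset_le hM R 1 x (by linarith) hRx1
              k (Nat.cast_nonneg _))
            apply Finset.sum_le_sum_of_subset_of_nonneg
            · rw [hF]; exact Finset.filter_subset _ _
            · intro U _ _; positivity
    have hsmall : 2 * (G * δ) * (x ^ (2 / 81 : ℝ) * (Real.exp (k * C3) * Real.log x ^ (k : ℝ))) ≤
        1 / 2 * (1 / Real.log x ^ A) := by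
      have e1 : 2 * (G * δ) * (x ^ (2 / 81 : ℝ) * (Real.exp (k * C3) * Real.log x ^ (k : ℝ))) =
          1 / 2 * ((K * Real.log x ^ (2 + (k : ℝ))) * x ^ (-(65 / 648) : ℝ)) := by
        have e2 : x ^ (-(65 / 648) : ℝ) = x ^ (-(1 / 8) : ℝ) * x ^ (2 / 81 : ℝ) := by
          rw [← Real.rpow_add hx0]; norm_num
        have e3 : Real.log x ^ (2 + (k : ℝ)) = Real.log x ^ 2 * Real.log x ^ (k : ℝ) := by
          rw [Real.rpow_add hlog0]
          norm_num
        rw [e2, e3, hδ, hK]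
        ring
      rw [e1]
      apply mul_le_mul_of_nonneg_left _ (by norm_num)
      have hLA : 0 < Real.log x ^ A := Real.rpow_pos_of_pos hlog0 _
      rw [le_div_iff₀ hLA]
      have e4 : K * Real.log x ^ (2 + (k : ℝ)) * x ^ (-(65 / 648) : ℝ) * Real.log x ^ A =
          (K * Real.log x ^ (2 + (k : ℝ) + A)) * x ^ (-(65 / 648) : ℝ) := by
        rw [Real.rpow_add hlog0 (2 + (k : ℝ)) A]
        ring
      rw [e4]
      calc (K * Real.log x ^ (2 + (k : ℝ) + A)) * x ^ (-(65 / 648) : ℝ)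
          ≤ x ^ (1 / 16 : ℝ) * x ^ (-(65 / 648) : ℝ) := by gcongr
        _ = x ^ (1 / 16 - 65 / 648 : ℝ) := by
            rw [← Real.rpow_add hx0]; congr 1
        _ ≤ 1 := Real.rpow_le_one_of_one_le_of_nonpos hx1 (by norm_num)
    calc ∑ U ∈ F, (k : ℝ) ^ U.card *
          (err g x (∏ p ∈ U, p) (cm (∏ p ∈ U, p)) + 2 * (G * δ))
        = ∑ U ∈ F, (k : ℝ) ^ U.card * err g x (∏ p ∈ U, p) (cm (∏ p ∈ U, p)) +
          2 * (G * δ) * ∑ U ∈ F, (k : ℝ) ^ U.card := by
          rw [Finset.mul_sum, ← Finset.sum_add_distrib]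
          apply Finset.sum_congr rfl
          intro U _
          ring
      _ ≤ 1 / Real.log x ^ (A + 1) +
          2 * (G * δ) * (x ^ (2 / 81 : ℝ) * (Real.exp (k * C3) * Real.log x ^ (k : ℝ))) := by
          gcongr
      _ ≤ 1 / 2 * (1 / Real.log x ^ A) + 1 / 2 * (1 / Real.log x ^ A) := by
          refine add_le_add ?_ hsmall
          have hLA : 0 < Real.log x ^ A := Real.rpow_pos_of_pos hlog0 _
          rw [Real.rpow_add hlog0, Real.rpow_one, mul_comm, one_div_mul_one_div_rev]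
          rw [mul_comm (Real.log x ^ A) 2]
          exact one_div_le_one_div_of_le (by positivity) (by gcongr)
      _ = 1 / Real.log x ^ A := by ring

end Pool.Agent.Helper1.LG
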