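import Pool.Agent.Helper1.LG.Defs

set_option autoImplicit false

/-!
LG-C1. Counting assignments (`Comb` in `Defs.lean`).

First part: an admissible assignment has a support of size at most `k = ∑ K j`; the assignments with
support of size `≤ k` are the images of `Fin k → Option (Fin Y × Fin J)` (list the pairs
`(i, φ i)`), so there are at most `(1 + Y J)^k`. (Or by induction on `k`.)
Second part: drop the admissibility. The assignments supported in `B` correspond to
`B → Option (Fin J)`, the `q`-tuples to `B → (Fin q → Option (Fin J))`, and the summand is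
`∏_{i∈B} (1 if all entries at i are none, P otherwise)`, so the sum is at most
`∏_{i∈B} (1 + ((J+1)^q - 1) P)` (`Finset.prod_univ_sum`).
-/

open Finset

namespace Pool.Agent.Helper1.LG

open Pool.Agent.Helper1.MT (supp cls)

private lemma comb_supp_card {Y J : ℕ} (K : Fin J → ℕ) (φ : Asg Y J) (hφ : φ ∈ adm Y K) :
    (supp φ).card ≤ ∑ j, K j := by
  have hsub : supp φ ⊆ (univ : Finset (Fin J)).biUnion (fun j => cls φ j) := by
    intro i hi
    simp only [supp, mem_filter, mem_univ, true_and] at hi
    obtain ⟨j, hj⟩ := Option.ne_none_iff_exists'.1 hi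
    simp only [mem_biUnion, mem_univ, true_and, cls, mem_filter]
    exact ⟨j, hj⟩
  have hK : ∀ j, (cls φ j).card ≤ K j := by
    simpa [adm] using hφ
  calc (supp φ).card ≤ ((univ : Finset (Fin J)).biUnion (fun j => cls φ j)).card :=
        card_le_card hsub
    _ ≤ ∑ j, (cls φ j).card := card_biUnion_le
    _ ≤ ∑ j, K j := sum_le_sum (fun j _ => hK j)

private lemma comb_list {Y J : ℕ} (k : ℕ) (φ : Asg Y J) (hk : (supp φ).card ≤ k) :
    ∃ L : Fin k → Option (Fin Y × Fin J), ∀ i j, φ i = some j ↔ ∃ t, L t = some (i, j) := by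
  classical
  refine ⟨fun t => ((supp φ).toList[(t : ℕ)]?).bind (fun i => (φ i).map (fun j => (i, j))), ?_⟩
  intro i j
  constructor
  · intro h
    have hi : i ∈ (supp φ).toList := by
      rw [mem_toList]
      simp [supp, h]
    obtain ⟨t, ht⟩ := List.mem_iff_getElem?.1 hi
    have htl : t < (supp φ).toList.length := by
      by_contra hcon
      rw [List.getElem?_eq_none (not_lt.1 hcon)] at ht
      exact absurd ht (by simp)
    rw [length_toList] at htl
    exact ⟨⟨t, lt_of_lt_of_le htl hk⟩, by simp [ht, h]⟩
  · rintro ⟨t, ht⟩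
    simp only [Option.bind_eq_some_iff, Option.map_eq_some_iff, Prod.mk.injEq] at ht
    obtain ⟨i', _, j', hj', rfl, rfl⟩ := ht
    exact hj'

private lemma comb_card {Y J : ℕ} (K : Fin J → ℕ) :
    ((adm Y K).card : ℝ) ≤ (1 + (Y : ℝ) * J) ^ (∑ j, K j) := by
  classical
  have hex : ∀ φ : Asg Y J, ∃ L : Fin (∑ j, K j) → Option (Fin Y × Fin J),
      φ ∈ adm Y K → ∀ i j, φ i = some j ↔ ∃ t, L t = some (i, j) := by
    intro φ
    by_cases hφ : φ ∈ adm Y K
    · obtain ⟨L, hL⟩ := comb_list _ φ (comb_supp_card K φ hφ)
      exact ⟨L, fun _ => hL⟩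
    · exact ⟨fun _ => none, fun h => absurd h hφ⟩
  choose L hL using hex
  have hle : (adm Y K).card ≤
      (univ : Finset (Fin (∑ j, K j) → Option (Fin Y × Fin J))).card := by
    refine card_le_card_of_injOn L (fun _ _ => by simp) ?_
    intro φ hφ ψ hψ heq
    have h1 := hL φ hφ
    have h2 := hL ψ hψ
    funext i
    apply Option.ext
    intro j
    rw [h1 i j, h2 i j, heq]
  have hcard : (univ : Finset (Fin (∑ j, K j) → Option (Fin Y × Fin J))).card =
      (Y * J + 1) ^ (∑ j, K j) := by
    simp
  rw [hcard] at hle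
  calc ((adm Y K).card : ℝ) ≤ (((Y * J + 1) ^ (∑ j, K j) : ℕ) : ℝ) := by exact_mod_cast hle
    _ = (1 + (Y : ℝ) * J) ^ (∑ j, K j) := by push_cast; ring

private lemma comb_sum {Y J : ℕ} (K : Fin J → ℕ) (q : ℕ) (P : ℝ) (hP : 0 ≤ P)
    (B : Finset (Fin Y)) :
    ∑ Φ ∈ (Fintype.piFinset (fun _ : Fin q => (adm Y K).filter (fun φ => supp φ ⊆ B))),
        P ^ (univ.filter (fun i => ∃ l, Φ l i ≠ none)).card ≤
        (1 + ((J : ℝ) + 1) ^ q * P) ^ B.card := by
  classical
  set w : (Fin q → Option (Fin J)) → ℝ := fun x => if ∃ l, x l ≠ none then P else 1 with hw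
  set T : Fin Y → Finset (Fin q → Option (Fin J)) :=
    fun i => if i ∈ B then univ else {fun _ => none} with hT
  have hw0 : ∀ x, 0 ≤ w x := by
    intro x
    simp only [hw]
    split_ifs
    · exact hP
    · exact zero_le_one
  set e : (Fin q → Asg Y J) ↪ (Fin Y → Fin q → Option (Fin J)) :=
    ⟨fun Φ i l => Φ l i, fun Φ Ψ h => by
      funext l i
      exact congrFun (congrFun h i) l⟩ with he
  have hval : ∀ Φ : Fin q → Asg Y J, P ^ (univ.filter (fun i => ∃ l, Φ l i ≠ none)).card =
      ∏ i, w (e Φ i) := by
    intro Φ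
    simp only [hw, he, Function.Embedding.coeFn_mk]
    rw [prod_ite]
    simp
  calc ∑ Φ ∈ (Fintype.piFinset (fun _ : Fin q => (adm Y K).filter (fun φ => supp φ ⊆ B))),
        P ^ (univ.filter (fun i => ∃ l, Φ l i ≠ none)).card
      = ∑ Φ ∈ (Fintype.piFinset (fun _ : Fin q => (adm Y K).filter (fun φ => supp φ ⊆ B))),
        ∏ i, w (e Φ i) := sum_congr rfl (fun Φ _ => hval Φ)
    _ = ∑ x ∈ (Fintype.piFinset (fun _ : Fin q =>
          (adm Y K).filter (fun φ => supp φ ⊆ B))).map e, ∏ i, w (x i) := by
        rw [sum_map]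
    _ ≤ ∑ x ∈ Fintype.piFinset T, ∏ i, w (x i) := by
        refine sum_le_sum_of_subset_of_nonneg ?_ (fun x _ _ => prod_nonneg (fun i _ => hw0 _))
        intro x hx
        rw [mem_map] at hx
        obtain ⟨Φ, hΦ, rfl⟩ := hx
        rw [Fintype.mem_piFinset] at hΦ ⊢
        intro i
        simp only [hT]
        split_ifs with hi
        · exact mem_univ _
        · rw [mem_singleton]
          funext l
          have h1 := (mem_filter.1 (hΦ l)).2
          by_contra hne
          have hne' : Φ l i ≠ none := hne
          exact hi (h1 (by simp [supp, hne']))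
    _ = ∏ i, ∑ x ∈ T i, w x := (prod_univ_sum T (fun _ x => w x)).symm
    _ ≤ ∏ i : Fin Y, (if i ∈ B then (1 + ((J : ℝ) + 1) ^ q * P) else 1) := by
        refine prod_le_prod (fun i _ => sum_nonneg (fun x _ => hw0 x)) ?_
        intro i _
        simp only [hT]
        split_ifs with hi
        · have hsplit : ∀ x : Fin q → Option (Fin J),
              w x ≤ (if x = (fun _ => none) then 1 else 0) + P := by
            intro x
            simp only [hw]
            by_cases hx : ∃ l, x l ≠ none
            · rw [if_pos hx]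
              split_ifs <;> linarith
            · rw [if_neg hx]
              have : x = fun _ => none := by
                funext l
                by_contra hne
                exact hx ⟨l, hne⟩
              rw [if_pos this]
              linarith
          calc ∑ x : Fin q → Option (Fin J), w x
              ≤ ∑ x : Fin q → Option (Fin J), ((if x = (fun _ => none) then 1 else 0) + P) :=
                sum_le_sum (fun x _ => hsplit x)
            _ = 1 + ((J : ℝ) + 1) ^ q * P := by
                rw [sum_add_distrib]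
                simp
        · rw [sum_singleton]
          simp [hw]
    _ = (1 + ((J : ℝ) + 1) ^ q * P) ^ B.card := by
        rw [prod_ite]
        simp

theorem comb : Comb := by
  intro Y J K
  exact ⟨comb_card K, fun q P hP B => comb_sum K q P hP B⟩

end Pool.Agent.Helper1.LG
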