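import Pool.Agent.Helper1.LG.SumOne

set_option autoImplicit false

/-!
LG-C4. The sum of the fourth powers (`SumFour` in `Defs.lean`).

`gg ^ 4 = ∑_{Φ : Fin 4 → adm} [U ⊆ B n] ± ∏_i ∏_l v n i (ofO (Φ l i))`, `U = ⋃ supp (Φ l)`, words
`W i l = ofO (Φ l i)`, `UW W = U`, `|U| ≤ 4 ∑ K j ≤ u0`, level `≤ 4 ∑ K j lv (md j) ≤ 1/50`. By `est`
every term is at most `M dn(U) ∏_i |E (W i)| + ε1 + ε2 M dn(U) Plow^|U|`, `|E (W i)| ≤ c5 Plow` for
`i ∈ U` (`bound`) and `1` otherwise (`E_blank`), `Plow ≤ c5 Plow`. Sum over `Φ` for each `a`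
with `comb`, `q = 4`, `P = c5 Plow`.
-/

open Finset

namespace Pool.Agent.Helper1.LG

open Pool.Agent.Helper1.MT (supp cls)

namespace SumFourAux

open SumOneAux

variable {Y J : ℕ}

/-- The word of four assignments. -/
def W4 (Φ : Fin 4 → Asg Y J) : Fin Y → Fin 4 → Lt J := fun i l => ofO (Φ l i)

theorem mem_UW4 (Φ : Fin 4 → Asg Y J) (i : Fin Y) : i ∈ UW (W4 Φ) ↔ ∃ l, Φ l i ≠ none := by
  unfold UW W4
  simp only [mem_filter, mem_univ, true_and]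
  constructor
  · intro h
    by_contra hc
    push Not at hc
    apply h
    funext l
    show ofO (Φ l i) = Lt.one
    rw [hc l]
    rfl
  · rintro ⟨l, hl⟩ h
    apply hl
    have := congrFun h l
    exact (ofO_eq_one _).1 this

theorem UW4_eq (Φ : Fin 4 → Asg Y J) :
    UW (W4 Φ) = univ.filter (fun i => ∃ l, Φ l i ≠ none) := by
  ext i
  rw [mem_UW4]
  simp

theorem UW4_sub (Φ : Fin 4 → Asg Y J) (B : Finset (Fin Y)) :
    UW (W4 Φ) ⊆ B ↔ ∀ l, supp (Φ l) ⊆ B := by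
  constructor
  · intro h l i hi
    apply h
    rw [mem_UW4]
    unfold supp at hi
    exact ⟨l, (mem_filter.1 hi).2⟩
  · intro h i hi
    rw [mem_UW4] at hi
    obtain ⟨l, hl⟩ := hi
    apply h l
    unfold supp
    exact mem_filter.2 ⟨mem_univ _, hl⟩

theorem card_UW4 {K : Fin J → ℕ} {Φ : Fin 4 → Asg Y J} (h : ∀ l, Φ l ∈ adm Y K) :
    (UW (W4 Φ)).card ≤ 4 * ∑ j, K j := by
  have h1 : UW (W4 Φ) ⊆ univ.biUnion (fun l => supp (Φ l)) := by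
    intro i hi
    rw [mem_UW4] at hi
    obtain ⟨l, hl⟩ := hi
    rw [mem_biUnion]
    refine ⟨l, mem_univ _, ?_⟩
    unfold supp
    exact mem_filter.2 ⟨mem_univ _, hl⟩
  refine ((card_le_card h1).trans card_biUnion_le).trans ?_
  refine (sum_le_sum (fun l _ => card_supp_le (h l))).trans ?_
  rw [sum_const, card_univ, Fintype.card_fin, smul_eq_mul]

theorem lev4 {R : Fr Y J} (hR : R.Ok) {Φ : Fin 4 → Asg Y J} (h : ∀ l, Φ l ∈ adm Y R.K) :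
    ∑ i, ∑ l, R.lv (W4 Φ i l) ≤ 1 / 50 := by
  rw [sum_comm]
  refine le_trans ?_ hR.lev4
  refine (sum_le_sum (fun l _ => sum_lv (h l) R.lv hR.lv_nonneg hR.lv_one)).trans ?_
  rw [sum_const, card_univ, Fintype.card_fin, nsmul_eq_mul]
  norm_num

/-- The sign of four assignments. -/
noncomputable def sgn (Φ : Fin 4 → Asg Y J) : ℝ := ∏ l, (-1 : ℝ) ^ (supp (Φ l)).card

theorem abs_sgn (Φ : Fin 4 → Asg Y J) : |sgn Φ| = 1 := by
  unfold sgn
  rw [abs_prod]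
  refine prod_eq_one (fun l _ => ?_)
  rw [abs_pow, abs_neg, abs_one, one_pow]

theorem gg_four (K : Fin J → ℕ) (B : Finset (Fin Y)) (v : Fin Y → Lt J → ℝ) :
    gg K B v ^ 4 = ∑ Φ ∈ Fintype.piFinset (fun _ : Fin 4 => adm Y K),
      if UW (W4 Φ) ⊆ B then sgn Φ * ∏ i, ∏ l, v i (W4 Φ i l) else 0 := by
  have h1 : gg K B v ^ 4 = ∏ _l : Fin 4, gg K B v := by
    rw [prod_const, card_univ, Fintype.card_fin]
  rw [h1]
  unfold gg
  simp only [sum_filter]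
  rw [Finset.prod_univ_sum]
  refine sum_congr rfl (fun Φ _ => ?_)
  rw [Finset.prod_ite_zero]
  by_cases hc : UW (W4 Φ) ⊆ B
  · rw [if_pos hc, if_pos (fun l _ => (UW4_sub Φ B).1 hc l), prod_mul_distrib]
    unfold sgn
    congr 1
    rw [prod_comm]
    rfl
  · rw [if_neg hc, if_neg (fun h => hc ((UW4_sub Φ B).2 (fun l => h l (mem_univ _))))]

theorem prod_E4 {R : Fr Y J} (hR : R.Ok) (Φ : Fin 4 → Asg Y J) :
    |∏ i, R.E (W4 Φ i)| ≤ (R.c5 * R.Plow) ^ (UW (W4 Φ)).card := by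
  rw [abs_prod]
  have h0 : 0 ≤ R.c5 * R.Plow := mul_nonneg (le_trans zero_le_one hR.c5_ge) hR.Plow_nonneg
  have h1 : ∏ i, |R.E (W4 Φ i)| = ∏ i ∈ UW (W4 Φ), |R.E (W4 Φ i)| := by
    symm
    apply prod_subset (subset_univ _)
    intro i _ hi
    unfold UW at hi
    rw [mem_filter, not_and, not_not] at hi
    rw [hi (mem_univ _), hR.E_blank, abs_one]
  rw [h1]
  calc ∏ i ∈ UW (W4 Φ), |R.E (W4 Φ i)| ≤ ∏ _i ∈ UW (W4 Φ), (R.c5 * R.Plow) := by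
        refine prod_le_prod (fun i _ => abs_nonneg _) (fun i hi => hR.bound _ ?_)
        unfold UW at hi
        exact (mem_filter.1 hi).2
    _ = (R.c5 * R.Plow) ^ (UW (W4 Φ)).card := prod_const _

theorem sum_dn4 (K : Fin J → ℕ) (Ω : Finset ℕ) (B : ℕ → Finset (Fin Y)) (P : ℝ) (hP : 0 ≤ P) :
    ∑ Φ ∈ Fintype.piFinset (fun _ : Fin 4 => adm Y K),
      dn Ω B (UW (W4 Φ)) * P ^ (UW (W4 Φ)).card ≤
      avg Ω (fun a => (1 + ((J : ℝ) + 1) ^ 4 * P) ^ (B a).card) := by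
  have h1 : ∑ Φ ∈ Fintype.piFinset (fun _ : Fin 4 => adm Y K),
      dn Ω B (UW (W4 Φ)) * P ^ (UW (W4 Φ)).card =
      avg Ω (fun a => ∑ Φ ∈ Fintype.piFinset (fun _ : Fin 4 => adm Y K),
        if UW (W4 Φ) ⊆ B a then P ^ (UW (W4 Φ)).card else 0) := by
    unfold avg
    rw [sum_comm (s := Ω), sum_div]
    refine sum_congr rfl (fun Φ _ => ?_)
    rw [dn_eq]
    unfold avg
    rw [div_mul_eq_mul_div, sum_mul]
    congr 1
    refine sum_congr rfl (fun a _ => ?_)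
    rw [ite_mul, one_mul, zero_mul]
  rw [h1]
  refine avg_mono _ _ _ (fun a _ => ?_)
  refine le_trans (le_of_eq ?_) ((comb Y J K).2 4 P hP (B a))
  rw [← sum_filter]
  have h2 : (Fintype.piFinset (fun _ : Fin 4 => adm Y K)).filter (fun Φ => UW (W4 Φ) ⊆ B a) =
      Fintype.piFinset (fun _ : Fin 4 => (adm Y K).filter (fun φ => supp φ ⊆ B a)) := by
    ext Φ
    simp only [mem_filter, Fintype.mem_piFinset, UW4_sub]
    exact ⟨fun h l => ⟨h.1 l, h.2 l⟩, fun h => ⟨fun l => (h l).1, fun l => (h l).2⟩⟩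
  rw [h2]
  refine sum_congr rfl (fun Φ _ => ?_)
  rw [UW4_eq]

end SumFourAux

open SumOneAux SumFourAux

theorem sumFour : SumFour := by
  intro Y J R hR
  have hc5 : 0 ≤ R.c5 * R.Plow := mul_nonneg (le_trans zero_le_one hR.c5_ge) hR.Plow_nonneg
  have h1 : ∑ n ∈ R.F, R.ν n * gg R.K (R.B n) (R.v n) ^ 4 =
      ∑ Φ ∈ Fintype.piFinset (fun _ : Fin 4 => adm Y R.K), sgn Φ *
        ∑ n ∈ R.F.filter (fun n => UW (W4 Φ) ⊆ R.B n),
          R.ν n * ∏ i, ∏ l, R.v n i (W4 Φ i l) := by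
    simp only [gg_four, mul_sum]
    rw [sum_comm]
    refine sum_congr rfl (fun Φ _ => ?_)
    rw [sum_filter]
    refine sum_congr rfl (fun n _ => ?_)
    by_cases hc : UW (W4 Φ) ⊆ R.B n
    · rw [if_pos hc, if_pos hc]
      ring
    · rw [if_neg hc, if_neg hc, mul_zero]
  have h2 : ∀ Φ ∈ Fintype.piFinset (fun _ : Fin 4 => adm Y R.K), sgn Φ *
        ∑ n ∈ R.F.filter (fun n => UW (W4 Φ) ⊆ R.B n),
          R.ν n * ∏ i, ∏ l, R.v n i (W4 Φ i l) ≤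
      R.ε1 + R.M * (1 + R.ε2) *
        (dn R.Ω R.B (UW (W4 Φ)) * (R.c5 * R.Plow) ^ (UW (W4 Φ)).card) := by
    intro Φ hΦ
    rw [Fintype.mem_piFinset] at hΦ
    have hcard : (UW (W4 Φ)).card ≤ R.u0 := by
      have h3 := card_UW4 hΦ
      have h4 := hR.u0_ge
      omega
    have h3 := hR.est (W4 Φ) hcard (lev4 hR hΦ)
    set X := ∑ n ∈ R.F.filter (fun n => UW (W4 Φ) ⊆ R.B n),
      R.ν n * ∏ i, ∏ l, R.v n i (W4 Φ i l) with hX
    have hd := SumOneAux.dn_nonneg R.Ω R.B (UW (W4 Φ))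
    have hMd : 0 ≤ R.M * dn R.Ω R.B (UW (W4 Φ)) := mul_nonneg hR.M_nonneg hd
    have h4 : |R.M * dn R.Ω R.B (UW (W4 Φ)) * ∏ i, R.E (W4 Φ i)| ≤
        R.M * dn R.Ω R.B (UW (W4 Φ)) * (R.c5 * R.Plow) ^ (UW (W4 Φ)).card := by
      rw [abs_mul, abs_of_nonneg hMd]
      exact mul_le_mul_of_nonneg_left (prod_E4 hR Φ) hMd
    have h5 : R.Plow ^ (UW (W4 Φ)).card ≤ (R.c5 * R.Plow) ^ (UW (W4 Φ)).card := by
      refine pow_le_pow_left₀ hR.Plow_nonneg ?_ _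
      have := mul_le_mul_of_nonneg_right hR.c5_ge hR.Plow_nonneg
      linarith
    have h6 : R.ε2 * R.M * dn R.Ω R.B (UW (W4 Φ)) * R.Plow ^ (UW (W4 Φ)).card ≤
        R.ε2 * R.M * dn R.Ω R.B (UW (W4 Φ)) * (R.c5 * R.Plow) ^ (UW (W4 Φ)).card :=
      mul_le_mul_of_nonneg_left h5 (mul_nonneg (mul_nonneg hR.e2_nonneg hR.M_nonneg) hd)
    have h7 : |X| ≤ R.ε1 + R.M * (1 + R.ε2) *
        (dn R.Ω R.B (UW (W4 Φ)) * (R.c5 * R.Plow) ^ (UW (W4 Φ)).card) := by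
      have h8 : |X| ≤ |X - R.M * dn R.Ω R.B (UW (W4 Φ)) * ∏ i, R.E (W4 Φ i)| +
          |R.M * dn R.Ω R.B (UW (W4 Φ)) * ∏ i, R.E (W4 Φ i)| := by
        have := abs_add_le (X - R.M * dn R.Ω R.B (UW (W4 Φ)) * ∏ i, R.E (W4 Φ i))
          (R.M * dn R.Ω R.B (UW (W4 Φ)) * ∏ i, R.E (W4 Φ i))
        rwa [sub_add_cancel] at this
      linarith
    refine le_trans (le_abs_self _) ?_
    rw [abs_mul, abs_sgn, one_mul]
    exact h7
  rw [h1]
  refine (sum_le_sum h2).trans ?_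
  rw [sum_add_distrib, ← mul_sum, sum_const, Fintype.card_piFinset, prod_const, card_univ,
    Fintype.card_fin, nsmul_eq_mul]
  have h3 := sum_dn4 R.K R.Ω R.B (R.c5 * R.Plow) hc5
  have h4 : 0 ≤ R.M * (1 + R.ε2) := mul_nonneg hR.M_nonneg (by
    have := hR.e2_nonneg
    linarith)
  have h5 := mul_le_mul_of_nonneg_left h3 h4
  push_cast
  linarith

end Pool.Agent.Helper1.LG
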