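import Pool.Agent.Helper1.LG.Comb

set_option autoImplicit false

/-!
LG-C3. The sum with the majorants (`SumTwo` in `Defs.lean`).

The sum is `∑_m ∑_{φ,ψ ∈ adm} ∑_{n, {m} ∪ supp φ ∪ supp ψ ⊆ B n} ν n (-1)^(|supp φ|+|supp ψ|)
∏_i ∏_l v n i (W i l)` with `W i = ![ofO (φ i), ofO (ψ i), if i = m then .maj else .one, .one]`,
`UW W = {m} ∪ supp φ ∪ supp ψ` of size `≤ 2 ∑ K j + 1 ≤ u0`, level `≤ lev2`. Apply `est`.
Error: `∑_m ∑_{φ,ψ} (ε1 + ε2 M dn(U) Plow^|U|)`, `Plow ≤ 1`, for each `a` there are `|B a|` values of `m`,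
and `comb` with `q = 2`.
Main term, for each `a`: `∑_{m∈B a} ∑_{φ,ψ} ± ∏_i E (W i)`. For `i ≠ m` the factor vanishes unless
`φ i = ψ i`. So write `φ = φ⁰[m ↦ o]`, `ψ = φ⁰[m ↦ o']` (`Function.update`) with `φ⁰ m = none`,
`φ⁰ ∈ adm`, supported in `B a`; `φ ∈ adm` iff `o ∈ insertNone s`, `s = {j : card (cls φ⁰ j) < K j}`. The
signs are `1` for `none`, `-1` otherwise (relative to `φ⁰`). By `quad` the sum over `o, o'` is at most
`Pall ((J - |s|)/J + t2)`, and `J - |s| = #{j : card (cls φ⁰ j) = K j} ≤ ∑_j card (cls φ⁰ j)/K j`.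
The factors `∏_{i≠m} E(W i) = ∏_i ev e (φ⁰ i) ≥ 0`. Drop the condition `φ⁰ m = none`. Finally
`∑_φ ∏_i ev e (φ i) card (cls φ j) = ∑_{i∈B} ∑_{φ, φ i = j} ∏ ev ≤ |B| e j SS` (remove the mode at
`i`; this keeps `adm`).
-/

open Finset

namespace Pool.Agent.Helper1.LG

open Pool.Agent.Helper1.MT (supp cls)

namespace SumTwoAux

/-- The sign of an optional mode. -/
def sg {J : ℕ} (o : Option (Fin J)) : ℝ := if o = none then 1 else -1

lemma sg_sq {J : ℕ} (o : Option (Fin J)) : sg o * sg o = 1 := by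
  unfold sg; split_ifs <;> norm_num

lemma mem_supp {Y J : ℕ} (φ : Asg Y J) (i : Fin Y) : i ∈ supp φ ↔ φ i ≠ none := by
  simp [supp]

lemma mem_cls {Y J : ℕ} (φ : Asg Y J) (j : Fin J) (i : Fin Y) : i ∈ cls φ j ↔ φ i = some j := by
  simp [cls]

lemma mem_adm {Y J : ℕ} (K : Fin J → ℕ) (φ : Asg Y J) :
    φ ∈ adm Y K ↔ ∀ j, (cls φ j).card ≤ K j := by
  simp [adm]

lemma sign_eq {Y J : ℕ} (φ : Asg Y J) : (-1 : ℝ) ^ (supp φ).card = ∏ i, sg (φ i) := by
  unfold sg supp
  rw [← Finset.prod_const, Finset.prod_filter]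
  refine Finset.prod_congr rfl fun i _ => ?_
  by_cases h : φ i = none <;> simp [h]

/-- The words. -/
def wW {Y J : ℕ} (m : Fin Y) (φ ψ : Asg Y J) : Fin Y → Fin 4 → Lt J :=
  fun i => ![ofO (φ i), ofO (ψ i), if i = m then .maj else .one, .one]

lemma ofO_eq_one {J : ℕ} (o : Option (Fin J)) : ofO o = Lt.one ↔ o = none := by
  cases o <;> simp [ofO]

lemma blank_iff {J : ℕ} (o o' : Option (Fin J)) (l : Lt J) :
    (![ofO o, ofO o', l, Lt.one] : Fin 4 → Lt J) = blank J ↔ o = none ∧ o' = none ∧ l = .one := by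
  constructor
  · intro h
    have h0 := congrFun h 0
    have h1 := congrFun h 1
    have h2 := congrFun h 2
    simp [blank] at h0 h1 h2
    exact ⟨(ofO_eq_one o).1 h0, (ofO_eq_one o').1 h1, h2⟩
  · rintro ⟨rfl, rfl, rfl⟩
    funext i
    fin_cases i <;> rfl

lemma UW_wW {Y J : ℕ} (m : Fin Y) (φ ψ : Asg Y J) :
    UW (wW m φ ψ) = insert m (supp φ ∪ supp ψ) := by
  ext i
  simp only [UW, mem_filter, mem_univ, true_and, mem_insert, mem_union, mem_supp, wW, ne_eq,
    blank_iff]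
  by_cases h : i = m
  · simp [h]
  · simp only [h, if_false, false_or]
    tauto

lemma sum_ofO {Y J : ℕ} (f : Lt J → ℝ) (hf : f .one = 0) (φ : Asg Y J) :
    ∑ i, f (ofO (φ i)) = ∑ j, ((cls φ j).card : ℝ) * f (.md j) := by
  have h1 : ∀ i, f (ofO (φ i)) = ∑ j, if φ i = some j then f (.md j) else 0 := by
    intro i
    cases h : φ i with
    | none => simp [ofO, hf]
    | some k =>
      simp only [ofO, Option.some.injEq]
      rw [Finset.sum_ite_eq]
      simp
  rw [Finset.sum_congr rfl fun i _ => h1 i, Finset.sum_comm]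
  refine Finset.sum_congr rfl fun j _ => ?_
  rw [← Finset.sum_filter, Finset.sum_const, nsmul_eq_mul]
  rfl

lemma card_supp {Y J : ℕ} (φ : Asg Y J) : (supp φ).card = ∑ j, (cls φ j).card := by
  have h := sum_ofO (fun l : Lt J => if l = .one then 0 else 1) (by simp) φ
  have h2 : ∑ i, (fun l : Lt J => if l = .one then (0 : ℝ) else 1) (ofO (φ i)) =
      ((supp φ).card : ℝ) := by
    simp only [ofO_eq_one]
    unfold supp
    rw [Finset.card_filter]
    push_cast
    refine Finset.sum_congr rfl fun i _ => ?_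
    by_cases h : φ i = none <;> simp [h]
  rw [h2] at h
  have h3 : ((supp φ).card : ℝ) = ((∑ j, (cls φ j).card : ℕ) : ℝ) := by
    rw [h]; push_cast
    refine Finset.sum_congr rfl fun j _ => ?_
    simp
  exact_mod_cast h3

/-- The admissible assignments supported in `B`. -/
def aB {Y J : ℕ} (K : Fin J → ℕ) (B : Finset (Fin Y)) : Finset (Asg Y J) :=
  (adm Y K).filter (fun φ => supp φ ⊆ B)

lemma mem_aB {Y J : ℕ} (K : Fin J → ℕ) (B : Finset (Fin Y)) (φ : Asg Y J) :
    φ ∈ aB K B ↔ φ ∈ adm Y K ∧ supp φ ⊆ B := by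
  simp [aB]

lemma cls_update {Y J : ℕ} (φ : Asg Y J) (m : Fin Y) (hm : φ m = none) (o : Option (Fin J))
    (j : Fin J) : (cls (Function.update φ m o) j).card =
      (cls φ j).card + if o = some j then 1 else 0 := by
  have hmem : m ∉ cls φ j := by rw [mem_cls, hm]; simp
  by_cases ho : o = some j
  · have : cls (Function.update φ m o) j = insert m (cls φ j) := by
      ext i
      rw [mem_insert, mem_cls, mem_cls]
      by_cases h : i = m
      · subst h; simp [ho]
      · simp [h]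
    rw [this, card_insert_of_notMem hmem, if_pos ho]
  · have : cls (Function.update φ m o) j = cls φ j := by
      ext i
      rw [mem_cls, mem_cls]
      by_cases h : i = m
      · subst h; simp [ho, hm]
      · simp [Function.update_of_ne h]
    rw [this, if_neg ho, add_zero]

lemma supp_update {Y J : ℕ} (φ : Asg Y J) (m : Fin Y) (o : Option (Fin J)) (B : Finset (Fin Y))
    (hmB : m ∈ B) (hB : supp φ ⊆ B) : supp (Function.update φ m o) ⊆ B := by
  intro i hi
  rw [mem_supp] at hi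
  by_cases h : i = m
  · rw [h]; exact hmB
  · rw [Function.update_of_ne h] at hi
    exact hB ((mem_supp φ i).2 hi)

/-- The modes that are not used up. -/
def fr {Y J : ℕ} (K : Fin J → ℕ) (φ : Asg Y J) : Finset (Fin J) :=
  univ.filter (fun j => (cls φ j).card < K j)

lemma mem_ins {Y J : ℕ} (K : Fin J → ℕ) (φ : Asg Y J) (o : Option (Fin J)) :
    o ∈ insertNone (fr K φ) ↔ ∀ j, o = some j → (cls φ j).card < K j := by
  cases o with
  | none => simp
  | some k => simp [fr]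

lemma fiber {Y J : ℕ} (K : Fin J → ℕ) (B : Finset (Fin Y)) (m : Fin Y) (hm : m ∈ B)
    (g : Asg Y J → ℝ) :
    ∑ φ ∈ aB K B, g φ = ∑ φ ∈ (aB K B).filter (fun φ => φ m = none),
      ∑ o ∈ insertNone (fr K φ), g (Function.update φ m o) := by
  rw [Finset.sum_sigma']
  symm
  refine Finset.sum_nbij' (fun x => Function.update x.1 m x.2)
    (fun φ => ⟨Function.update φ m none, φ m⟩) ?_ ?_ ?_ ?_ ?_
  · rintro ⟨φ, o⟩ h
    simp only [mem_sigma, mem_filter, mem_aB, mem_adm, mem_ins] at h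
    obtain ⟨⟨⟨h1, h2⟩, h3⟩, h4⟩ := h
    simp only [mem_aB, mem_adm]
    refine ⟨fun j => ?_, supp_update φ m o B hm h2⟩
    rw [cls_update φ m h3 o j]
    split_ifs with ho
    · exact h4 j ho
    · simpa using h1 j
  · intro φ h
    simp only [mem_aB, mem_adm] at h
    obtain ⟨h1, h2⟩ := h
    have hn : (Function.update φ m none) m = none := by simp
    have hu : Function.update (Function.update φ m none) m (φ m) = φ := by
      rw [Function.update_idem, Function.update_eq_self]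
    have hc : ∀ j, (cls φ j).card = (cls (Function.update φ m none) j).card +
        if φ m = some j then 1 else 0 := by
      intro j
      have := cls_update (Function.update φ m none) m hn (φ m) j
      rwa [hu] at this
    simp only [mem_sigma, mem_filter, mem_aB, mem_adm, mem_ins]
    refine ⟨⟨⟨fun j => ?_, supp_update φ m none B hm h2⟩, hn⟩, fun j hj => ?_⟩
    · have := hc j; have := h1 j; omega
    · have h3 := hc j; have h4 := h1 j
      rw [if_pos hj] at h3
      omega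
  · rintro ⟨φ, o⟩ h
    simp only [mem_sigma, mem_filter] at h
    have h3 := h.1.2
    simp only [Function.update_idem, Function.update_self]
    congr 1
    rw [← h3, Function.update_eq_self]
  · intro φ _
    simp only [Function.update_idem, Function.update_eq_self]
  · intro x _
    rfl

lemma fmain {Y J : ℕ} (R : Fr Y J) (hR : R.Ok) (o o' : Option (Fin J)) :
    sg o * sg o' * R.E ![ofO o, ofO o', .one, .one] = if o = o' then ev R.e o else 0 := by
  cases o with
  | none =>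
    cases o' with
    | none =>
      have h : (![Lt.one, Lt.one, Lt.one, Lt.one] : Fin 4 → Lt J) = blank J := by
        funext i; fin_cases i <;> rfl
      simp only [ofO, h, hR.E_blank, ev, sg, if_true]
      norm_num
    | some j =>
      simp only [ofO, hR.mean2 j, mul_zero]
      rw [if_neg (by simp)]
  | some i =>
    cases o' with
    | none =>
      simp only [ofO, hR.mean1 i, mul_zero]
      rw [if_neg (by simp)]
    | some j =>
      by_cases h : i = j
      · subst h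
        simp only [ofO, hR.sq i, ev, sg_sq, if_true, one_mul]
      · simp only [ofO, hR.orth i j h, mul_zero]
        rw [if_neg (by simpa using h)]

/-- The factor at the position `m`. -/
def Hm {Y J : ℕ} (R : Fr Y J) (o o' : Option (Fin J)) : ℝ :=
  sg o * sg o' * R.E ![ofO o, ofO o', .maj, .one]

lemma term_eq {Y J : ℕ} (R : Fr Y J) (hR : R.Ok) (m : Fin Y) (φ ψ : Asg Y J) :
    (-1 : ℝ) ^ (supp φ).card * (-1) ^ (supp ψ).card * ∏ i, R.E (wW m φ ψ i) =
      Hm R (φ m) (ψ m) * ∏ i ∈ univ.erase m, if φ i = ψ i then ev R.e (φ i) else 0 := by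
  rw [sign_eq, sign_eq, ← Finset.prod_mul_distrib, ← Finset.prod_mul_distrib,
    ← Finset.mul_prod_erase univ _ (mem_univ m)]
  congr 1
  · simp only [wW, Hm, if_true]
  · refine Finset.prod_congr rfl fun i hi => ?_
    have hi' : i ≠ m := (mem_erase.1 hi).1
    rw [← fmain R hR]
    simp only [wW, if_neg hi']

lemma term_update {Y J : ℕ} (R : Fr Y J) (hR : R.Ok) (m : Fin Y) (φ ψ : Asg Y J)
    (hφ : φ m = none) (hψ : ψ m = none) (o o' : Option (Fin J)) :
    (-1 : ℝ) ^ (supp (Function.update φ m o)).card * (-1) ^ (supp (Function.update ψ m o')).card *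
      ∏ i, R.E (wW m (Function.update φ m o) (Function.update ψ m o') i) =
      if φ = ψ then (∏ i, ev R.e (φ i)) * Hm R o o' else 0 := by
  rw [term_eq R hR]
  simp only [Function.update_self]
  have h1 : ∏ i ∈ univ.erase m, (if Function.update φ m o i = Function.update ψ m o' i then
      ev R.e (Function.update φ m o i) else 0) =
      ∏ i ∈ univ.erase m, if φ i = ψ i then ev R.e (φ i) else 0 := by
    refine Finset.prod_congr rfl fun i hi => ?_
    have hi' : i ≠ m := (mem_erase.1 hi).1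
    rw [Function.update_of_ne hi', Function.update_of_ne hi']
  rw [h1]
  by_cases h : φ = ψ
  · subst h
    rw [if_pos rfl]
    simp only [if_true]
    rw [← Finset.mul_prod_erase univ _ (mem_univ m), hφ]
    simp only [ev]
    ring
  · rw [if_neg h]
    obtain ⟨i, hi⟩ := Function.ne_iff.1 h
    have him : i ≠ m := by rintro rfl; exact hi (by rw [hφ, hψ])
    rw [Finset.prod_eq_zero (mem_erase.2 ⟨him, mem_univ i⟩) (by rw [if_neg hi]), mul_zero]

lemma ev_nonneg {Y J : ℕ} (R : Fr Y J) (hR : R.Ok) (o : Option (Fin J)) : 0 ≤ ev R.e o := by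
  cases o with
  | none => simp [ev]
  | some j => exact hR.e_nonneg j

lemma fr_card {Y J : ℕ} (K : Fin J → ℕ) (hK : ∀ j, 0 < K j) (φ : Asg Y J) :
    (J : ℝ) - (fr K φ).card ≤ ∑ j, ((cls φ j).card : ℝ) / K j := by
  have h1 : (J : ℝ) - (fr K φ).card = ∑ j : Fin J, if (cls φ j).card < K j then (0 : ℝ) else 1 := by
    have h2 : ((fr K φ).card : ℝ) = ∑ j : Fin J, if (cls φ j).card < K j then (1 : ℝ) else 0 := by
      unfold fr
      rw [Finset.card_filter]
      push_cast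
      rfl
    have h3 : (J : ℝ) = ∑ j : Fin J, (1 : ℝ) := by simp
    rw [h2]
    nth_rewrite 1 [h3]
    rw [← Finset.sum_sub_distrib]
    refine Finset.sum_congr rfl fun j _ => ?_
    split_ifs <;> norm_num
  rw [h1]
  refine Finset.sum_le_sum fun j _ => ?_
  have hk : (0 : ℝ) < K j := by exact_mod_cast hK j
  split_ifs with h
  · positivity
  · rw [le_div_iff₀ hk, one_mul]
    exact_mod_cast not_lt.1 h

lemma main_m {Y J : ℕ} (R : Fr Y J) (hR : R.Ok) (B : Finset (Fin Y)) (m : Fin Y) (hm : m ∈ B) :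
    ∑ φ ∈ aB R.K B, ∑ ψ ∈ aB R.K B, (-1 : ℝ) ^ (supp φ).card * (-1) ^ (supp ψ).card *
      ∏ i, R.E (wW m φ ψ i) ≤
    ∑ φ ∈ aB R.K B, (∏ i, ev R.e (φ i)) *
      (R.Pall * ((∑ j, ((cls φ j).card : ℝ) / R.K j) / J + R.t2)) := by
  have hJ : (0 : ℝ) < J := by exact_mod_cast hR.J_pos
  have hP : ∀ φ : Asg Y J, 0 ≤ ∏ i, ev R.e (φ i) := fun φ =>
    Finset.prod_nonneg fun i _ => ev_nonneg R hR _
  have h1 : ∑ φ ∈ aB R.K B, ∑ ψ ∈ aB R.K B, (-1 : ℝ) ^ (supp φ).card * (-1) ^ (supp ψ).card *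
      ∏ i, R.E (wW m φ ψ i) =
      ∑ φ ∈ (aB R.K B).filter (fun φ => φ m = none), (∏ i, ev R.e (φ i)) *
        ∑ o ∈ insertNone (fr R.K φ), ∑ o' ∈ insertNone (fr R.K φ), Hm R o o' := by
    rw [fiber R.K B m hm]
    refine Finset.sum_congr rfl fun φ hφ => ?_
    have hφm : φ m = none := (mem_filter.1 hφ).2
    rw [Finset.mul_sum]
    refine Finset.sum_congr rfl fun o _ => ?_
    rw [fiber R.K B m hm]
    have h2 : ∀ ψ ∈ (aB R.K B).filter (fun φ => φ m = none), ∑ o' ∈ insertNone (fr R.K ψ),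
        ((-1 : ℝ) ^ (supp (Function.update φ m o)).card *
        (-1) ^ (supp (Function.update ψ m o')).card *
        ∏ i, R.E (wW m (Function.update φ m o) (Function.update ψ m o') i)) =
        if φ = ψ then (∏ i, ev R.e (φ i)) * ∑ o' ∈ insertNone (fr R.K φ), Hm R o o' else 0 := by
      intro ψ hψ
      have hψm : ψ m = none := (mem_filter.1 hψ).2
      rw [Finset.sum_congr rfl fun o' _ => term_update R hR m φ ψ hφm hψm o o']
      by_cases h : φ = ψ
      · subst h
        simp only [if_true]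
        rw [Finset.mul_sum]
      · simp only [if_neg h, Finset.sum_const_zero]
    rw [Finset.sum_congr rfl h2, Finset.sum_ite_eq, if_pos hφ]
  rw [h1]
  refine le_trans (Finset.sum_le_sum fun φ hφ => mul_le_mul_of_nonneg_left
    (c := R.Pall * ((∑ j, ((cls φ j).card : ℝ) / R.K j) / J + R.t2)) ?_ (hP φ)) ?_
  · refine le_trans (hR.quad (fr R.K φ)) ?_
    refine mul_le_mul_of_nonneg_left ?_ hR.Pall_nonneg
    have := div_le_div_of_nonneg_right (fr_card R.K hR.K_pos φ) hJ.le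
    linarith
  · refine Finset.sum_le_sum_of_subset_of_nonneg (filter_subset _ _) fun φ _ _ => ?_
    refine mul_nonneg (hP φ) (mul_nonneg hR.Pall_nonneg (add_nonneg ?_ hR.t2_nonneg))
    positivity

lemma sum_cls {Y J : ℕ} (R : Fr Y J) (hR : R.Ok) (B : Finset (Fin Y)) (j : Fin J) :
    ∑ φ ∈ aB R.K B, (∏ i, ev R.e (φ i)) * ((cls φ j).card : ℝ) ≤
      B.card * R.e j * SS R.K R.e B := by
  have hP : ∀ φ : Asg Y J, 0 ≤ ∏ i, ev R.e (φ i) := fun φ =>
    Finset.prod_nonneg fun i _ => ev_nonneg R hR _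
  have h1 : ∀ φ ∈ aB R.K B, (∏ i, ev R.e (φ i)) * ((cls φ j).card : ℝ) =
      ∑ i ∈ B, if φ i = some j then ∏ i, ev R.e (φ i) else 0 := by
    intro φ hφ
    have hsub : supp φ ⊆ B := ((mem_aB _ _ _).1 hφ).2
    have h2 : cls φ j = B.filter (fun i => φ i = some j) := by
      ext i
      rw [mem_cls, mem_filter]
      refine ⟨fun h => ⟨hsub ((mem_supp φ i).2 (by rw [h]; simp)), h⟩, fun h => h.2⟩
    rw [h2, ← Finset.sum_filter, Finset.sum_const, nsmul_eq_mul, mul_comm]
  rw [Finset.sum_congr rfl h1, Finset.sum_comm]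
  have h3 : ∀ i ∈ B, ∑ φ ∈ aB R.K B, (if φ i = some j then ∏ i, ev R.e (φ i) else 0) ≤
      R.e j * SS R.K R.e B := by
    intro i hi
    rw [← Finset.sum_filter]
    have h4 : ∀ φ ∈ (aB R.K B).filter (fun φ => φ i = some j), ∏ i, ev R.e (φ i) =
        R.e j * (fun ψ : Asg Y J => ∏ i, ev R.e (ψ i)) (Function.update φ i none) := by
      intro φ hφ
      have hφi : φ i = some j := (mem_filter.1 hφ).2
      simp only
      rw [← Finset.mul_prod_erase univ _ (mem_univ i), hφi,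
        ← Finset.mul_prod_erase univ (fun k => ev R.e (Function.update φ i none k)) (mem_univ i)]
      simp only [Function.update_self, ev, one_mul]
      congr 1
      refine Finset.prod_congr rfl fun k hk => ?_
      rw [Function.update_of_ne (mem_erase.1 hk).1]
    rw [Finset.sum_congr rfl h4, ← Finset.mul_sum]
    refine mul_le_mul_of_nonneg_left ?_ (hR.e_nonneg j)
    have hinj : Set.InjOn (fun φ : Asg Y J => Function.update φ i none)
        ((aB R.K B).filter (fun φ => φ i = some j)) := by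
      intro φ hφ ψ hψ h
      have hφi : φ i = some j := (mem_filter.1 hφ).2
      have hψi : ψ i = some j := (mem_filter.1 hψ).2
      funext k
      by_cases hk : k = i
      · rw [hk, hφi, hψi]
      · have := congrFun h k
        simpa only [Function.update_of_ne hk] using this
    rw [← Finset.sum_image (f := fun ψ : Asg Y J => ∏ i, ev R.e (ψ i)) hinj]
    refine Finset.sum_le_sum_of_subset_of_nonneg ?_ fun φ _ _ => hP φ
    intro ψ hψ
    obtain ⟨φ, hφ, rfl⟩ := mem_image.1 hψ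
    obtain ⟨h5, h6⟩ := mem_filter.1 hφ
    obtain ⟨h7, h8⟩ := (mem_aB _ _ _).1 h5
    refine mem_filter.2 ⟨(mem_adm _ _).2 fun k => ?_, supp_update φ i none B hi h8⟩
    refine le_trans (card_le_card ?_) ((mem_adm _ _).1 h7 k)
    intro l hl
    rw [mem_cls] at hl ⊢
    by_cases hk : l = i
    · rw [hk, Function.update_self] at hl
      simp at hl
    · rwa [Function.update_of_ne hk] at hl
  refine le_trans (Finset.sum_le_sum h3) ?_
  rw [Finset.sum_const, nsmul_eq_mul, mul_assoc]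

lemma main_a {Y J : ℕ} (R : Fr Y J) (hR : R.Ok) (B : Finset (Fin Y)) :
    ∑ m ∈ B, ∑ φ ∈ aB R.K B, ∑ ψ ∈ aB R.K B, (-1 : ℝ) ^ (supp φ).card * (-1) ^ (supp ψ).card *
      ∏ i, R.E (wW m φ ψ i) ≤
    B.card * R.Pall * ((∑ j, B.card * R.e j / R.K j) / J + R.t2) * SS R.K R.e B := by
  have hJ : (0 : ℝ) < J := by exact_mod_cast hR.J_pos
  have hm : ∀ m ∈ B, ∑ φ ∈ aB R.K B, ∑ ψ ∈ aB R.K B, (-1 : ℝ) ^ (supp φ).card *
      (-1) ^ (supp ψ).card * ∏ i, R.E (wW m φ ψ i) ≤
      R.Pall * ((∑ j, B.card * R.e j / R.K j) / J + R.t2) * SS R.K R.e B := by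
    intro m hm
    refine le_trans (main_m R hR B m hm) ?_
    have h1 : ∑ φ ∈ aB R.K B, (∏ i, ev R.e (φ i)) *
        (R.Pall * ((∑ j, ((cls φ j).card : ℝ) / R.K j) / J + R.t2)) =
        R.Pall * ((∑ j, (∑ φ ∈ aB R.K B, (∏ i, ev R.e (φ i)) * ((cls φ j).card : ℝ)) / R.K j) / J +
          R.t2 * SS R.K R.e B) := by
      have h2 : ∑ j, (∑ φ ∈ aB R.K B, (∏ i, ev R.e (φ i)) * ((cls φ j).card : ℝ)) / R.K j =
          ∑ φ ∈ aB R.K B, (∏ i, ev R.e (φ i)) * ∑ j, ((cls φ j).card : ℝ) / R.K j := by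
        rw [Finset.sum_congr rfl fun j _ => Finset.sum_div _ _ _, Finset.sum_comm]
        refine Finset.sum_congr rfl fun φ _ => ?_
        rw [Finset.mul_sum]
        refine Finset.sum_congr rfl fun j _ => ?_
        rw [mul_div_assoc]
      rw [h2, Finset.sum_div]
      unfold SS
      change _ = R.Pall * (_ + R.t2 * ∑ φ ∈ aB R.K B, ∏ i, ev R.e (φ i))
      rw [Finset.mul_sum (aB R.K B) _ R.t2, ← Finset.sum_add_distrib, Finset.mul_sum]
      refine Finset.sum_congr rfl fun φ _ => ?_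
      ring
    rw [h1, mul_assoc]
    refine mul_le_mul_of_nonneg_left ?_ hR.Pall_nonneg
    rw [add_mul, div_mul_eq_mul_div]
    refine add_le_add_left (div_le_div_of_nonneg_right ?_ hJ.le) _
    rw [Finset.sum_mul]
    refine Finset.sum_le_sum fun j _ => ?_
    rw [div_mul_eq_mul_div]
    exact div_le_div_of_nonneg_right (sum_cls R hR B j) (Nat.cast_nonneg _)
  refine le_trans (Finset.sum_le_sum hm) ?_
  rw [Finset.sum_const, nsmul_eq_mul]
  apply le_of_eq
  ring

lemma expand {Y J : ℕ} (K : Fin J → ℕ) (B : Finset (Fin Y)) (v : Fin Y → Lt J → ℝ)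
    (h1 : ∀ i, v i .one = 1) :
    gg K B v ^ 2 * ∑ m ∈ B, v m .maj =
      ∑ m, ∑ φ ∈ adm Y K, ∑ ψ ∈ adm Y K, if insert m (supp φ ∪ supp ψ) ⊆ B then
        (-1 : ℝ) ^ (supp φ).card * (-1) ^ (supp ψ).card * ∏ i, ∏ l, v i (wW m φ ψ i l) else 0 := by
  have hA : gg K B v = ∑ φ ∈ adm Y K, if supp φ ⊆ B then
      (-1 : ℝ) ^ (supp φ).card * ∏ i, v i (ofO (φ i)) else 0 := by
    unfold gg
    rw [Finset.sum_filter]
  have hB : ∑ m ∈ B, v m .maj = ∑ m, if m ∈ B then v m .maj else 0 := by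
    rw [Finset.sum_ite_mem, univ_inter]
  rw [hA, hB, sq, Finset.sum_mul_sum, Finset.mul_sum]
  refine Finset.sum_congr rfl fun m _ => ?_
  rw [Finset.sum_mul]
  refine Finset.sum_congr rfl fun φ _ => ?_
  rw [Finset.sum_mul]
  refine Finset.sum_congr rfl fun ψ _ => ?_
  have hW : ∏ i, ∏ l, v i (wW m φ ψ i l) =
      (∏ i, v i (ofO (φ i))) * (∏ i, v i (ofO (ψ i))) * v m .maj := by
    have h2 : ∏ i, v i (if i = m then .maj else .one) = v m .maj := by
      rw [Finset.prod_eq_single m]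
      · rw [if_pos rfl]
      · intro i _ hi
        rw [if_neg hi, h1]
      · intro h; exact absurd (mem_univ m) h
    rw [← h2, ← Finset.prod_mul_distrib, ← Finset.prod_mul_distrib]
    refine Finset.prod_congr rfl fun i _ => ?_
    rw [Fin.prod_univ_four]
    simp only [wW, Matrix.cons_val_zero, Matrix.cons_val_one, Matrix.cons_val]
    rw [h1, mul_one]
  rw [hW]
  by_cases h2 : supp φ ⊆ B
  · by_cases h3 : supp ψ ⊆ B
    · by_cases h4 : m ∈ B
      · rw [if_pos h2, if_pos h3, if_pos h4,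
          if_pos (insert_subset_iff.2 ⟨h4, union_subset_iff.2 ⟨h2, h3⟩⟩)]
        ring
      · rw [if_neg h4, mul_zero, if_neg fun h => h4 (insert_subset_iff.1 h).1]
    · rw [if_neg h3, mul_zero, zero_mul,
        if_neg fun h => h3 (union_subset_iff.1 (insert_subset_iff.1 h).2).2]
  · rw [if_neg h2, zero_mul, zero_mul,
      if_neg fun h => h2 (union_subset_iff.1 (insert_subset_iff.1 h).2).1]

lemma dnsum {Y J : ℕ} (K : Fin J → ℕ) (Ω : Finset ℕ) (B : ℕ → Finset (Fin Y))
    (c : Fin Y → Asg Y J → Asg Y J → ℝ) :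
    ∑ m, ∑ φ ∈ adm Y K, ∑ ψ ∈ adm Y K, dn Ω B (insert m (supp φ ∪ supp ψ)) * c m φ ψ =
      avg Ω (fun a => ∑ m ∈ B a, ∑ φ ∈ aB K (B a), ∑ ψ ∈ aB K (B a), c m φ ψ) := by
  have h1 : ∀ a, ∑ m ∈ B a, ∑ φ ∈ aB K (B a), ∑ ψ ∈ aB K (B a), c m φ ψ =
      ∑ m, ∑ φ ∈ adm Y K, ∑ ψ ∈ adm Y K,
        if insert m (supp φ ∪ supp ψ) ⊆ B a then c m φ ψ else 0 := by
    intro a
    have h2 : ∑ m ∈ B a, ∑ φ ∈ aB K (B a), ∑ ψ ∈ aB K (B a), c m φ ψ =
        ∑ m, if m ∈ B a then ∑ φ ∈ aB K (B a), ∑ ψ ∈ aB K (B a), c m φ ψ else 0 := by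
      rw [Finset.sum_ite_mem, univ_inter]
    rw [h2]
    refine Finset.sum_congr rfl fun m _ => ?_
    by_cases h4 : m ∈ B a
    · rw [if_pos h4]
      unfold aB
      rw [Finset.sum_filter]
      refine Finset.sum_congr rfl fun φ _ => ?_
      by_cases h5 : supp φ ⊆ B a
      · rw [if_pos h5, Finset.sum_filter]
        refine Finset.sum_congr rfl fun ψ _ => ?_
        by_cases h6 : supp ψ ⊆ B a
        · rw [if_pos h6, if_pos (insert_subset_iff.2 ⟨h4, union_subset_iff.2 ⟨h5, h6⟩⟩)]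
        · rw [if_neg h6, if_neg fun h => h6 (union_subset_iff.1 (insert_subset_iff.1 h).2).2]
      · rw [if_neg h5]
        symm
        refine Finset.sum_eq_zero fun ψ _ => ?_
        rw [if_neg fun h => h5 (union_subset_iff.1 (insert_subset_iff.1 h).2).1]
    · rw [if_neg h4]
      symm
      apply Finset.sum_eq_zero
      intro φ _
      apply Finset.sum_eq_zero
      intro ψ _
      rw [if_neg fun h => h4 (insert_subset_iff.1 h).1]
  unfold avg dn
  simp only [h1]
  symm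
  rw [Finset.sum_comm, Finset.sum_div]
  refine Finset.sum_congr rfl fun m _ => ?_
  rw [Finset.sum_comm, Finset.sum_div]
  refine Finset.sum_congr rfl fun φ _ => ?_
  rw [Finset.sum_comm, Finset.sum_div]
  refine Finset.sum_congr rfl fun ψ _ => ?_
  rw [← Finset.sum_filter, Finset.sum_const, nsmul_eq_mul, div_mul_eq_mul_div]

lemma avg_le (Ω : Finset ℕ) (f g : ℕ → ℝ) (h : ∀ a ∈ Ω, f a ≤ g a) : avg Ω f ≤ avg Ω g :=
  div_le_div_of_nonneg_right (Finset.sum_le_sum h) (Nat.cast_nonneg _)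

lemma err_a {Y J : ℕ} (R : Fr Y J) (hR : R.Ok) (B : Finset (Fin Y)) :
    ∑ m ∈ B, ∑ φ ∈ aB R.K B, ∑ ψ ∈ aB R.K B,
      R.Plow ^ (insert m (supp φ ∪ supp ψ)).card ≤
    B.card * (1 + ((J : ℝ) + 1) ^ 2 * R.Plow) ^ B.card := by
  have h1 : ∀ m ∈ B, ∑ φ ∈ aB R.K B, ∑ ψ ∈ aB R.K B,
      R.Plow ^ (insert m (supp φ ∪ supp ψ)).card ≤
      (1 + ((J : ℝ) + 1) ^ 2 * R.Plow) ^ B.card := by
    intro m _
    refine le_trans ?_ ((comb Y J R.K).2 2 R.Plow hR.Plow_nonneg B)
    have h2 : ∑ Φ ∈ (Fintype.piFinset (fun _ : Fin 2 =>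
        (adm Y R.K).filter (fun φ => supp φ ⊆ B))),
        R.Plow ^ (univ.filter (fun i => ∃ l, Φ l i ≠ none)).card =
        ∑ x ∈ aB R.K B ×ˢ aB R.K B, R.Plow ^ (supp x.1 ∪ supp x.2).card := by
      refine Finset.sum_nbij' (fun Φ => (Φ 0, Φ 1)) (fun x => ![x.1, x.2]) ?_ ?_ ?_ ?_ ?_
      · intro Φ hΦ
        rw [Fintype.mem_piFinset] at hΦ
        exact mem_product.2 ⟨hΦ 0, hΦ 1⟩
      · intro x hx
        rw [Fintype.mem_piFinset]
        obtain ⟨h3, h4⟩ := mem_product.1 hx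
        intro l
        fin_cases l
        · exact h3
        · exact h4
      · intro Φ _
        funext l
        fin_cases l <;> rfl
      · intro x _
        rfl
      · intro Φ _
        congr 2
        ext i
        simp only [mem_filter, mem_univ, true_and, mem_union, mem_supp, Fin.exists_fin_two]
    rw [h2, Finset.sum_product]
    refine Finset.sum_le_sum fun φ _ => Finset.sum_le_sum fun ψ _ => ?_
    exact pow_le_pow_of_le_one hR.Plow_nonneg hR.Plow_le (card_le_card (subset_insert _ _))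
  refine le_trans (Finset.sum_le_sum h1) ?_
  rw [Finset.sum_const, nsmul_eq_mul]

lemma term_le {Y J : ℕ} (R : Fr Y J) (hR : R.Ok) (m : Fin Y) (φ ψ : Asg Y J)
    (hφ : φ ∈ adm Y R.K) (hψ : ψ ∈ adm Y R.K) :
    (-1 : ℝ) ^ (supp φ).card * (-1) ^ (supp ψ).card *
      ∑ n ∈ R.F.filter (fun n => insert m (supp φ ∪ supp ψ) ⊆ R.B n),
        R.ν n * ∏ i, ∏ l, R.v n i (wW m φ ψ i l) ≤
      R.M * (dn R.Ω R.B (insert m (supp φ ∪ supp ψ)) *
        ((-1 : ℝ) ^ (supp φ).card * (-1) ^ (supp ψ).card * ∏ i, R.E (wW m φ ψ i))) +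
      (R.ε1 + R.ε2 * R.M * (dn R.Ω R.B (insert m (supp φ ∪ supp ψ)) *
        R.Plow ^ (insert m (supp φ ∪ supp ψ)).card)) := by
  have hc : ∀ χ ∈ adm Y R.K, (supp χ).card ≤ ∑ j, R.K j := by
    intro χ hχ
    rw [card_supp]
    exact Finset.sum_le_sum fun j _ => (mem_adm _ _).1 hχ j
  have hl : ∀ χ ∈ adm Y R.K, ∑ i, R.lv (ofO (χ i)) ≤ ∑ j, (R.K j : ℝ) * R.lv (.md j) := by
    intro χ hχ
    rw [sum_ofO R.lv hR.lv_one]
    refine Finset.sum_le_sum fun j _ => mul_le_mul_of_nonneg_right ?_ (hR.lv_nonneg _)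
    exact_mod_cast (mem_adm _ _).1 hχ j
  have h1 : (UW (wW m φ ψ)).card ≤ R.u0 := by
    rw [UW_wW]
    have h2 := card_insert_le m (supp φ ∪ supp ψ)
    have h3 := card_union_le (supp φ) (supp ψ)
    have h4 := hc φ hφ
    have h5 := hc ψ hψ
    have h6 := hR.u0_ge
    omega
  have h2 : ∑ i, ∑ l, R.lv (wW m φ ψ i l) ≤ 1 / 50 := by
    have h3 : ∑ i, ∑ l, R.lv (wW m φ ψ i l) =
        ∑ i, R.lv (ofO (φ i)) + ∑ i, R.lv (ofO (ψ i)) + R.lv .maj := by
      have h4 : ∑ i, R.lv (if i = m then .maj else .one) = R.lv .maj := by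
        rw [Finset.sum_eq_single m]
        · rw [if_pos rfl]
        · intro i _ hi
          rw [if_neg hi, hR.lv_one]
        · intro h; exact absurd (mem_univ m) h
      rw [← h4, ← Finset.sum_add_distrib, ← Finset.sum_add_distrib]
      refine Finset.sum_congr rfl fun i _ => ?_
      rw [Fin.sum_univ_four]
      simp only [wW, Matrix.cons_val_zero, Matrix.cons_val_one, Matrix.cons_val]
      rw [hR.lv_one, add_zero]
    rw [h3]
    have h4 := hl φ hφ
    have h5 := hl ψ hψ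
    have h6 := hR.lev2
    linarith
  have h3 := hR.est (wW m φ ψ) h1 h2
  rw [UW_wW] at h3
  have h4 : ((-1 : ℝ) ^ (supp φ).card * (-1) ^ (supp ψ).card) = 1 ∨
      ((-1 : ℝ) ^ (supp φ).card * (-1) ^ (supp ψ).card) = -1 := by
    rw [← pow_add]
    exact neg_one_pow_eq_or ℝ _
  have h5 := abs_le.1 h3
  obtain ⟨h6, h7⟩ := h5
  rcases h4 with h4 | h4
  · rw [h4]
    nlinarith
  · rw [h4]
    nlinarith

end SumTwoAux

theorem sumTwo : SumTwo := by
  intro Y J R hR
  open SumTwoAux in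
  have h1 : ∑ n ∈ R.F, R.ν n * gg R.K (R.B n) (R.v n) ^ 2 * ∑ m ∈ R.B n, R.v n m .maj =
      ∑ m, ∑ φ ∈ adm Y R.K, ∑ ψ ∈ adm Y R.K, (-1 : ℝ) ^ (supp φ).card * (-1) ^ (supp ψ).card *
      ∑ n ∈ R.F.filter (fun n => insert m (supp φ ∪ supp ψ) ⊆ R.B n),
        R.ν n * ∏ i, ∏ l, R.v n i (wW m φ ψ i l) := by
    have h2 : ∀ n ∈ R.F, R.ν n * gg R.K (R.B n) (R.v n) ^ 2 * ∑ m ∈ R.B n, R.v n m .maj =
        ∑ m, ∑ φ ∈ adm Y R.K, ∑ ψ ∈ adm Y R.K,
          (-1 : ℝ) ^ (supp φ).card * (-1) ^ (supp ψ).card *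
          if insert m (supp φ ∪ supp ψ) ⊆ R.B n then
            R.ν n * ∏ i, ∏ l, R.v n i (wW m φ ψ i l) else 0 := by
      intro n _
      rw [mul_assoc, expand R.K (R.B n) (R.v n) (hR.v_one n), Finset.mul_sum]
      refine Finset.sum_congr rfl fun m _ => ?_
      rw [Finset.mul_sum]
      refine Finset.sum_congr rfl fun φ _ => ?_
      rw [Finset.mul_sum]
      refine Finset.sum_congr rfl fun ψ _ => ?_
      split_ifs
      · ring
      · ring
    rw [Finset.sum_congr rfl h2, Finset.sum_comm]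
    refine Finset.sum_congr rfl fun m _ => ?_
    rw [Finset.sum_comm]
    refine Finset.sum_congr rfl fun φ _ => ?_
    rw [Finset.sum_comm]
    refine Finset.sum_congr rfl fun ψ _ => ?_
    rw [← Finset.mul_sum, ← Finset.sum_filter]
  rw [h1]
  open SumTwoAux in
  refine le_trans (Finset.sum_le_sum fun m _ => Finset.sum_le_sum fun φ hφ =>
    Finset.sum_le_sum fun ψ hψ => term_le R hR m φ ψ hφ hψ) ?_
  simp only [Finset.sum_add_distrib, ← Finset.mul_sum]
  rw [SumTwoAux.dnsum, SumTwoAux.dnsum R.K R.Ω R.B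
    (fun m φ ψ => R.Plow ^ (insert m (supp φ ∪ supp ψ)).card)]
  refine add_le_add ?_ (add_le_add ?_ ?_)
  · exact mul_le_mul_of_nonneg_left (SumTwoAux.avg_le _ _ _ fun a _ =>
      SumTwoAux.main_a R hR (R.B a)) hR.M_nonneg
  · apply le_of_eq
    simp only [Finset.sum_const, nsmul_eq_mul, Finset.card_univ, Fintype.card_fin]
    ring
  · exact mul_le_mul_of_nonneg_left (SumTwoAux.avg_le _ _ _ fun a _ =>
      SumTwoAux.err_a R hR (R.B a)) (mul_nonneg hR.e2_nonneg hR.M_nonneg)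

end Pool.Agent.Helper1.LG
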