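import Pool.Agent.Helper1.LG.SumOne
import Pool.Agent.Helper1.LG.SumTwo
import Pool.Agent.Helper1.LG.SumFour

set_option autoImplicit false

/-!
LG-C5. The conclusion of the second part (`CoreEnd` in `Defs.lean`).

Let `S1 = ∑ ν g²`, `S2 = ∑ ν g² ∑_{m∈B n} v n m maj`, `S4 = ∑ ν g⁴`,
`T = exp((J+1)⁴ c5 Plow b)`, `Z` the set of `n ∈ F` with `v n m maj < 1` for all `m ∈ B n`. For `n ∉ Z`
the inner sum is at least `1` (`v_maj`), so `S1 - S2 ≤ ∑_{n∈Z} ν g² ≤ (∑_Z ν)^(1/2) S4^(1/2)`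
(`Finset.sum_mul_sq_le_sq_mul_sq` or `inner_mul_le_norm_mul_norm`), i.e.
`(S1 - S2)² ≤ (∑_Z ν) S4` if `S1 - S2 ≥ 0`.
`(1 + (J+1)² Plow)^|B| ≤ (1 + (J+1)⁴ c5 Plow)^|B| ≤ T` (`1 + y ≤ exp y`, `|B| ≤ b`).
`S1 ≥ M avg SS - ε1 #² - ε2 M T`, `S2 ≤ (1/4) M avg SS + ε1 Y #² + ε2 M b T`, `SS ≥ 1` (the assignment
`none`), `avg SS ≥ 1`, so `S1 - S2 ≥ M (3/4 - 1/16) - M/16 ≥ M/2`, and
`S4 ≤ M (1 + ε2) T + M/16 ≤ M (2T + 1)`. Hence `∑_Z ν ≥ (M/2)²/(M (2T+1))` (trivial if `M = 0`).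
-/

open Finset

namespace Pool.Agent.Helper1.LG

open Pool.Agent.Helper1.MT (supp cls)

private lemma ce_avg_le {Ω : Finset ℕ} {f g : ℕ → ℝ} (h : ∀ a ∈ Ω, f a ≤ g a) :
    avg Ω f ≤ avg Ω g := by
  unfold avg
  exact div_le_div_of_nonneg_right (sum_le_sum h) (Nat.cast_nonneg _)

private lemma ce_avg_const {Ω : Finset ℕ} (hΩ : Ω.Nonempty) (c : ℝ) :
    avg Ω (fun _ => c) = c := by
  unfold avg
  have h : (Ω.card : ℝ) ≠ 0 := by
    exact_mod_cast (Finset.card_pos.2 hΩ).ne'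
  rw [sum_const, nsmul_eq_mul, mul_div_cancel_left₀ _ h]

private lemma ce_avg_mul {Ω : Finset ℕ} (c : ℝ) (f : ℕ → ℝ) :
    avg Ω (fun a => c * f a) = c * avg Ω f := by
  unfold avg
  rw [← mul_sum, mul_div_assoc]

private lemma ce_none_mem {Y J : ℕ} (K : Fin J → ℕ) :
    (fun _ => none : Asg Y J) ∈ adm Y K := by
  simp [adm, cls]

private lemma ce_SS_ge {Y J : ℕ} (K : Fin J → ℕ) (e : Fin J → ℝ) (he : ∀ j, 0 ≤ e j)
    (B : Finset (Fin Y)) : 1 ≤ SS K e B := by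
  unfold SS
  have hmem : (fun _ => none : Asg Y J) ∈ (adm Y K).filter (fun φ => supp φ ⊆ B) := by
    rw [mem_filter]
    exact ⟨ce_none_mem K, by simp [supp]⟩
  have hnn : ∀ φ ∈ (adm Y K).filter (fun φ => supp φ ⊆ B), 0 ≤ ∏ i, ev e (φ i) := by
    intro φ _
    apply prod_nonneg
    intro i _
    cases φ i with
    | none => simp [ev]
    | some j => simpa [ev] using he j
  calc (1 : ℝ) = ∏ i : Fin Y, ev e ((fun _ => none : Asg Y J) i) := by simp [ev]
    _ ≤ _ := single_le_sum (f := fun φ : Asg Y J => ∏ i, ev e (φ i)) hnn hmem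

theorem coreEnd : CoreEnd := by
  intro Y J R hR b hb h1 h2 h3
  obtain ⟨a0, ha0⟩ := hR.O_ne
  have hb0 : 0 ≤ b := (Nat.cast_nonneg _).trans (hb a0 ha0)
  have hM := hR.M_nonneg
  have hP := hR.Plow_nonneg
  have hPa := hR.Pall_nonneg
  have hc5 := hR.c5_ge
  have ht2 := hR.t2_nonneg
  have hε1 := hR.e1_nonneg
  have hε2 := hR.e2_nonneg
  have hJ : (0 : ℝ) < J := by exact_mod_cast hR.J_pos
  set c : ℝ := ((J : ℝ) + 1) ^ 4 * (R.c5 * R.Plow) with hc
  set T : ℝ := Real.exp (c * b) with hT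
  have hc0 : 0 ≤ c := by positivity
  have hT1 : 1 ≤ T := by
    rw [hT]; exact Real.one_le_exp (mul_nonneg hc0 hb0)
  set N : ℝ := ((adm Y R.K).card : ℝ) with hN
  have hN1 : 1 ≤ N := by
    rw [hN]
    exact_mod_cast Finset.card_pos.2 ⟨_, ce_none_mem R.K⟩
  -- powers
  have hpow4 : ∀ a ∈ R.Ω, (1 + c) ^ (R.B a).card ≤ T := by
    intro a ha
    calc (1 + c) ^ (R.B a).card ≤ (Real.exp c) ^ (R.B a).card := by
          apply pow_le_pow_left₀ (by linarith)
          linarith [Real.add_one_le_exp c]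
      _ = Real.exp ((R.B a).card * c) := by rw [← Real.exp_nat_mul]
      _ ≤ T := by
          rw [hT]
          apply Real.exp_le_exp.2
          rw [mul_comm]
          exact mul_le_mul_of_nonneg_left (hb a ha) hc0
  have hc2 : ((J : ℝ) + 1) ^ 2 * R.Plow ≤ c := by
    rw [hc]
    have hx : (1 : ℝ) ≤ (J : ℝ) + 1 := by linarith
    have h24 : ((J : ℝ) + 1) ^ 2 ≤ ((J : ℝ) + 1) ^ 4 := pow_le_pow_right₀ hx (by norm_num)
    have hcP : R.Plow ≤ R.c5 * R.Plow := by nlinarith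
    exact mul_le_mul h24 hcP hP (by positivity)
  have hpow2 : ∀ a ∈ R.Ω, (1 + ((J : ℝ) + 1) ^ 2 * R.Plow) ^ (R.B a).card ≤ T := by
    intro a ha
    refine le_trans ?_ (hpow4 a ha)
    apply pow_le_pow_left₀ (by positivity)
    linarith
  have hSS : ∀ a, 1 ≤ SS R.K R.e (R.B a) := fun a => ce_SS_ge R.K R.e hR.e_nonneg _
  set A : ℝ := avg R.Ω (fun a => SS R.K R.e (R.B a)) with hA
  have hA1 : 1 ≤ A := by
    rw [hA, ← ce_avg_const hR.O_ne 1]
    exact ce_avg_le (fun a _ => hSS a)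
  -- S1
  set S1 : ℝ := ∑ n ∈ R.F, R.ν n * gg R.K (R.B n) (R.v n) ^ 2 with hS1
  set S2 : ℝ := ∑ n ∈ R.F, R.ν n * gg R.K (R.B n) (R.v n) ^ 2 * ∑ m ∈ R.B n, R.v n m .maj with hS2
  set S4 : ℝ := ∑ n ∈ R.F, R.ν n * gg R.K (R.B n) (R.v n) ^ 4 with hS4
  have e1 : R.M * A - (R.ε1 * N ^ 2 + R.ε2 * R.M * T) ≤ S1 := by
    have h := sumOne Y J R hR
    have hT' : avg R.Ω (fun a => (1 + ((J : ℝ) + 1) ^ 2 * R.Plow) ^ (R.B a).card) ≤ T := by
      rw [← ce_avg_const hR.O_ne T]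
      exact ce_avg_le hpow2
    have := mul_le_mul_of_nonneg_left hT' (mul_nonneg hε2 hM)
    linarith
  have e2 : S2 ≤ R.M * (1 / 4 * A) + (R.ε1 * Y * N ^ 2 + R.ε2 * R.M * (b * T)) := by
    have h := sumTwo Y J R hR
    have hT' : avg R.Ω (fun a => (R.B a).card * (1 + ((J : ℝ) + 1) ^ 2 * R.Plow) ^ (R.B a).card) ≤
        b * T := by
      rw [← ce_avg_const hR.O_ne (b * T)]
      apply ce_avg_le
      intro a ha
      exact mul_le_mul (hb a ha) (hpow2 a ha) (by positivity) hb0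
    have hm : avg R.Ω (fun a => (R.B a).card * R.Pall *
        ((∑ j, (R.B a).card * R.e j / R.K j) / J + R.t2) * SS R.K R.e (R.B a)) ≤ 1 / 4 * A := by
      rw [hA, ← ce_avg_mul]
      apply ce_avg_le
      intro a ha
      apply mul_le_mul_of_nonneg_right _ (by linarith [hSS a])
      have hBa := hb a ha
      have hB0 : (0 : ℝ) ≤ (R.B a).card := Nat.cast_nonneg _
      have hsum : (∑ j, ((R.B a).card : ℝ) * R.e j / R.K j) ≤ ∑ j, b * R.e j / R.K j := by
        apply sum_le_sum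
        intro j _
        apply div_le_div_of_nonneg_right _ (Nat.cast_nonneg _)
        exact mul_le_mul_of_nonneg_right hBa (hR.e_nonneg j)
      have hsum0 : 0 ≤ ∑ j, ((R.B a).card : ℝ) * R.e j / R.K j := by
        apply sum_nonneg
        intro j _
        have := hR.e_nonneg j
        positivity
      calc ((R.B a).card : ℝ) * R.Pall * ((∑ j, ((R.B a).card : ℝ) * R.e j / R.K j) / J + R.t2)
          ≤ (b * R.Pall) * ((∑ j, b * R.e j / R.K j) / J + R.t2) := by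
            apply mul_le_mul
            · exact mul_le_mul_of_nonneg_right hBa hPa
            · have := div_le_div_of_nonneg_right hsum hJ.le
              linarith
            · positivity
            · positivity
        _ = (∑ j, b * R.Pall * (b * R.e j / R.K j + R.t2)) / J := by
            rw [← mul_sum, sum_add_distrib, sum_const, card_univ, Fintype.card_fin, nsmul_eq_mul,
              mul_div_assoc, add_div, mul_div_cancel_left₀ _ hJ.ne']
        _ ≤ (∑ _j : Fin J, (1 / 4 : ℝ)) / J := by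
            apply div_le_div_of_nonneg_right _ hJ.le
            exact sum_le_sum (fun j _ => h1 j)
        _ = 1 / 4 := by
            rw [sum_const, card_univ, Fintype.card_fin, nsmul_eq_mul, mul_div_cancel_left₀ _ hJ.ne']
    have := mul_le_mul_of_nonneg_left hT' (mul_nonneg hε2 hM)
    have := mul_le_mul_of_nonneg_left hm hM
    linarith
  have e4 : S4 ≤ R.M * (1 + R.ε2) * T + R.ε1 * N ^ 4 := by
    have h := sumFour Y J R hR
    have hT' : avg R.Ω (fun a => (1 + c) ^ (R.B a).card) ≤ T := by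
      rw [← ce_avg_const hR.O_ne T]
      exact ce_avg_le hpow4
    have := mul_le_mul_of_nonneg_left hT' (show 0 ≤ R.M * (1 + R.ε2) by positivity)
    linarith
  -- error terms
  have hN24 : N ^ 2 ≤ N ^ 4 := pow_le_pow_right₀ hN1 (by norm_num)
  have hY0 : (0 : ℝ) ≤ Y := Nat.cast_nonneg _
  have er1 : R.ε1 * (1 + Y) * N ^ 2 ≤ R.M / 16 :=
    (mul_le_mul_of_nonneg_left hN24 (by positivity)).trans h3
  have er4 : R.ε1 * N ^ 4 ≤ R.M / 16 := by
    refine le_trans ?_ h3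
    have : R.ε1 ≤ R.ε1 * (1 + Y) := by nlinarith
    exact mul_le_mul_of_nonneg_right this (by positivity)
  have er2 : R.M * (R.ε2 * (1 + b) * T) ≤ R.M * (1 / 16) := mul_le_mul_of_nonneg_left h2 hM
  have er3 : R.M * (R.ε2 * T) ≤ R.M * (1 / 16) := by
    apply mul_le_mul_of_nonneg_left _ hM
    refine le_trans ?_ h2
    have : R.ε2 ≤ R.ε2 * (1 + b) := by nlinarith
    exact mul_le_mul_of_nonneg_right this (by positivity)
  have hMA : R.M ≤ R.M * A := by nlinarith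
  have hdiff : R.M / 2 ≤ S1 - S2 := by nlinarith
  have hS4le : S4 ≤ R.M * (2 * T + 1) := by nlinarith
  -- the set `Z`
  set Z : Finset ℕ := R.F.filter (fun n => ∀ m ∈ R.B n, R.v n m .maj < 1) with hZ
  have hZs : S1 - S2 ≤ ∑ n ∈ Z, R.ν n * gg R.K (R.B n) (R.v n) ^ 2 := by
    rw [hS1, hS2, ← sum_sub_distrib, hZ, sum_filter]
    apply sum_le_sum
    intro n hn
    have hν := hR.nu_nonneg n hn
    have hg : 0 ≤ R.ν n * gg R.K (R.B n) (R.v n) ^ 2 := by positivity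
    have hs0 : 0 ≤ ∑ m ∈ R.B n, R.v n m .maj := sum_nonneg (fun m _ => hR.v_maj n m)
    split_ifs with hc'
    · nlinarith
    · push Not at hc'
      obtain ⟨m, hm, hm1⟩ := hc'
      have : 1 ≤ ∑ m ∈ R.B n, R.v n m .maj :=
        hm1.trans (single_le_sum (f := fun m => R.v n m .maj) (fun m _ => hR.v_maj n m) hm)
      nlinarith
  have hνZ : ∀ n ∈ Z, 0 ≤ R.ν n := fun n hn => hR.nu_nonneg n (mem_filter.1 hn).1
  set X : ℝ := ∑ n ∈ Z, R.ν n with hX
  have hX0 : 0 ≤ X := sum_nonneg hνZ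
  have hCS : (∑ n ∈ Z, R.ν n * gg R.K (R.B n) (R.v n) ^ 2) ^ 2 ≤ X * S4 := by
    have h := Finset.sum_mul_sq_le_sq_mul_sq Z (fun n => Real.sqrt (R.ν n))
      (fun n => Real.sqrt (R.ν n) * gg R.K (R.B n) (R.v n) ^ 2)
    have ha : ∑ n ∈ Z, Real.sqrt (R.ν n) * (Real.sqrt (R.ν n) * gg R.K (R.B n) (R.v n) ^ 2) =
        ∑ n ∈ Z, R.ν n * gg R.K (R.B n) (R.v n) ^ 2 := by
      apply sum_congr rfl
      intro n hn
      rw [← mul_assoc, Real.mul_self_sqrt (hνZ n hn)]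
    have hb' : ∑ n ∈ Z, Real.sqrt (R.ν n) ^ 2 = X := by
      apply sum_congr rfl
      intro n hn
      rw [Real.sq_sqrt (hνZ n hn)]
    have hc' : ∑ n ∈ Z, (Real.sqrt (R.ν n) * gg R.K (R.B n) (R.v n) ^ 2) ^ 2 ≤ S4 := by
      calc ∑ n ∈ Z, (Real.sqrt (R.ν n) * gg R.K (R.B n) (R.v n) ^ 2) ^ 2
          = ∑ n ∈ Z, R.ν n * gg R.K (R.B n) (R.v n) ^ 4 := by
            apply sum_congr rfl
            intro n hn
            rw [mul_pow, Real.sq_sqrt (hνZ n hn)]
            ring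
        _ ≤ S4 := by
            rw [hS4]
            apply sum_le_sum_of_subset_of_nonneg (filter_subset _ _)
            intro n hn _
            have := hR.nu_nonneg n hn
            positivity
    rw [ha, hb'] at h
    exact h.trans (mul_le_mul_of_nonneg_left hc' hX0)
  have hfin : (R.M / 2) ^ 2 ≤ X * (R.M * (2 * T + 1)) := by
    calc (R.M / 2) ^ 2 ≤ (∑ n ∈ Z, R.ν n * gg R.K (R.B n) (R.v n) ^ 2) ^ 2 :=
          pow_le_pow_left₀ (by positivity) (hdiff.trans hZs) 2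
      _ ≤ X * S4 := hCS
      _ ≤ _ := mul_le_mul_of_nonneg_left hS4le hX0
  rcases hM.eq_or_lt with h0 | hpos
  · rw [← h0]
    simpa using hX0
  · have hT2 : 0 < 4 * (2 * T + 1) := by linarith
    rw [div_le_iff₀ hT2]
    have : R.M * R.M ≤ (X * (4 * (2 * T + 1))) * R.M := by nlinarith
    exact le_of_mul_le_mul_right this hpos

end Pool.Agent.Helper1.LG
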