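import Mathlib
import Pool.Agent.Helper1.MT.Defs

/-!
# Project LG (MP_3499c5_nt): a positive proportion of isolated primes and of large gaps

Weights of Fock type: sums over assignments of modes to positions, with a bounded number of
positions for each mode.
-/

set_option autoImplicit false

open Finset
open scoped ArithmeticFunction.vonMangoldt

namespace Pool.Agent.Helper1.LG

open Pool.Agent.Helper1.MT (supp cls pr PS lev)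
open Pool.Agent.Helper18.BV (wt IsWt)

/-! ### One position -/

/-- The truncated alternating sum of binomial coefficients. -/
noncomputable def Ar (r N : ℕ) : ℝ := ∑ k ∈ range (r + 1), (-1 : ℝ) ^ k * (N.choose k : ℝ)

/-- The tail bound. -/
noncomputable def tt (r : ℕ) : ℝ := 64 ^ (r + 1) * Real.exp 64 / ((r + 1).factorial : ℝ)

/-- Letters: `one` is the blank, `maj` the majorant and `md j` the mode `j`. -/
inductive Lt (J : ℕ) : Type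
  | one : Lt J
  | maj : Lt J
  | md (j : Fin J) : Lt J
  deriving DecidableEq

section Abstract

variable {ι : Type} [Fintype ι] [DecidableEq ι]

/-- The number of points of `S` in the range `i`. -/
def cnt (rg : ι → ℕ) (i : ℕ) (S : Finset ι) : ℕ := (S.filter (fun p => rg p = i)).card

/-- The expectation over random subsets. -/
noncomputable def Ex (w : ι → ℝ) (f : Finset ι → ℝ) : ℝ :=
  ∑ S : Finset ι, (∏ p ∈ S, w p) * (∏ p ∈ Sᶜ, (1 - w p)) * f S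

/-- The sum over the subsets of `R` with factors `u` inside and `v` outside. -/
noncomputable def Em (R : Finset ι) (u v : ι → ℝ) (f : Finset ι → ℝ) : ℝ :=
  ∑ T ∈ R.powerset, (∏ p ∈ T, u p) * (∏ p ∈ R \ T, v p) * f T

/-- The expectation over random colourings. -/
noncomputable def Eq (κ : Type) [Fintype κ] [DecidableEq κ] (w : ι → ℝ)
    (f : (ι → Option κ) → ℝ) : ℝ :=
  ∑ σ : ι → Option κ, (∏ p, pr κ (w p) (σ p)) * f σ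

/-- Weights, range of a point, number of ranges, orders of truncation. -/
structure Dt (ι : Type) where
  w : ι → ℝ
  rg : ι → ℕ
  I : ℕ
  r : ℕ → ℕ

/-- The factor of the range `i`. -/
noncomputable def Dt.A (D : Dt ι) (i : ℕ) (S : Finset ι) : ℝ := Ar (D.r i) (cnt D.rg i S)

/-- The mean of the factor of the range `i`. -/
noncomputable def Dt.a (D : Dt ι) (i : ℕ) : ℝ := Ex D.w (D.A i)

/-- The probability that there is no point in the range `i`. -/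
noncomputable def Dt.P0 (D : Dt ι) (i : ℕ) : ℝ := ∏ p ∈ univ.filter (fun p => D.rg p = i), (1 - D.w p)

/-- The sum of the weights in the range `i`. -/
noncomputable def Dt.la (D : Dt ι) (i : ℕ) : ℝ := ∑ p ∈ univ.filter (fun p => D.rg p = i), D.w p

/-- The function of a letter. -/
noncomputable def Fn {J : ℕ} (D : Dt ι) : Lt J → Finset ι → ℝ
  | .one, _ => 1
  | .maj, S => ∏ i ∈ range D.I, D.A i S
  | .md j, S => (1 / (J : ℝ)) * ((D.A j S - D.a j) / (1 - D.a j)) * ∏ i ∈ Ioo (j : ℕ) D.I, D.A i S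

/-- The function of a word. -/
noncomputable def wd {J : ℕ} (D : Dt ι) (W : Fin 4 → Lt J) (S : Finset ι) : ℝ := ∏ l, Fn D (W l) S

/-- The blank word. -/
def blank (J : ℕ) : Fin 4 → Lt J := fun _ => .one

/-- The probability that all ranges are empty. -/
noncomputable def Dt.Pall (D : Dt ι) : ℝ := ∏ i ∈ range D.I, D.P0 i

/-- The probability that the ranges from `J` on are empty. -/
noncomputable def Dt.Plow (D : Dt ι) (J : ℕ) : ℝ := ∏ i ∈ Ico J D.I, D.P0 i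

/-- Regularity. -/
structure Reg (D : Dt ι) (J : ℕ) (t : ℝ) : Prop where
  w_nonneg : ∀ p, 0 ≤ D.w p
  w_le : ∀ p, D.w p ≤ 1 / 4
  rg_lt : ∀ p, D.rg p < D.I
  la_le : ∀ i, D.la i ≤ 1
  la_ge : ∀ i < J, 1 / 4 ≤ D.la i
  J_pos : 0 < J
  J_le : J ≤ D.I
  even : ∀ i, Even (D.r i)
  tail : ∑ i ∈ range D.I, tt (D.r i) ≤ t
  t_le : t ≤ 1 / 1000

/-- The level of a letter: the points of the range `i` have size at most `ρ / 2 ^ i`. -/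
noncomputable def lv {J : ℕ} (D : Dt ι) (ρ : ℝ) : Lt J → ℝ
  | .one => 0
  | .maj => ∑ i ∈ range D.I, (D.r i : ℝ) * (ρ / 2 ^ i)
  | .md j => ∑ i ∈ Ico (j : ℕ) D.I, (D.r i : ℝ) * (ρ / 2 ^ i)

end Abstract

/-- LG-A: one position. -/
def OnePos : Prop :=
  ∀ (ι : Type) [Fintype ι] [DecidableEq ι] (D : Dt ι) (J : ℕ) (t : ℝ), Reg D J t →
    (∀ j : Fin J, Ex D.w (Fn D (.md j)) = 0) ∧
    (∀ i j : Fin J, i ≠ j → Ex D.w (fun S => Fn D (.md i) S * Fn D (.md j) S) = 0) ∧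
    (∀ j : Fin J, Ex D.w (fun S => Fn D (.md j) S ^ 2) ≤
      100 / (J : ℝ) ^ 2 * ∏ i ∈ Ioo (j : ℕ) D.I, D.P0 i) ∧
    (∀ W : Fin 4 → Lt J, W ≠ blank J →
      |Ex D.w (wd D W)| ≤ 10 ^ 5 * Real.exp (15 * J) * D.Plow J) ∧
    (∀ s : Finset (Fin J),
      Ex D.w (fun S => Fn D (.maj : Lt J) S * (1 - ∑ j ∈ s, Fn D (.md j) S) ^ 2) ≤
        D.Pall * (((J : ℝ) - s.card) / J + 2000 * t))

/-- LG-X: exclusive colourings are close to independent ones. -/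
def Excl : Prop :=
  ∀ J u0 : ℕ, ∃ c : ℝ, 0 < c ∧ ∀ (ι : Type) [Fintype ι] [DecidableEq ι] (D : Dt ι) (t : ℝ),
    Reg D J t → ∀ (κ : Type) [Fintype κ] [DecidableEq κ], Fintype.card κ ≤ u0 →
    (∀ p, (Fintype.card κ : ℝ) * D.w p ≤ 1 / 2) → ∀ W : κ → Fin 4 → Lt J, (∀ i, W i ≠ blank J) →
    |Eq κ D.w (fun σ => ∏ i, wd D (W i) (cls σ i)) - ∏ i, Ex D.w (wd D (W i))| ≤
      c * (∑ p, D.w p ^ 2) * D.Plow J ^ (Fintype.card κ)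

/-- LG-M: Möbius coefficients of the words. -/
def Mob : Prop :=
  ∀ (ι : Type) [Fintype ι] [DecidableEq ι] (D : Dt ι) (J : ℕ) (t : ℝ), Reg D J t →
    ∀ (s : ι → ℝ) (ρ : ℝ), 0 ≤ ρ → (∀ p, 0 ≤ s p) → (∀ p, s p ≤ ρ / 2 ^ D.rg p) →
    ∀ W : Fin 4 → Lt J, ∃ μ : Finset ι → ℝ, (∀ S, wd D W S = ∑ S' ∈ S.powerset, μ S') ∧
      (∀ S, |μ S| ≤ 10 ^ 4 * 32 ^ S.card) ∧ ∀ S, μ S ≠ 0 → ∑ p ∈ S, s p ≤ ∑ l, lv D ρ (W l)

/-! ### Arithmetic -/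

/-- The product of the primes up to the square root of `log x`. -/
noncomputable def Ps (x : ℝ) : ℕ := primorial ⌊Real.sqrt (Real.log x)⌋₊

/-- The large primes: between `(log x)²` and `x ^ ρ`. -/
noncomputable def PL (ρ x : ℝ) : Finset ℕ :=
  (Icc 1 ⌊x ^ ρ⌋₊).filter (fun p => p.Prime ∧ Real.log x ^ 2 < (p : ℝ))

/-- The weights of the large primes. -/
noncomputable def wl (ρ x : ℝ) (p : PL ρ x) : ℝ := 1 / (((p : ℕ) : ℝ) - 1)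

/-- The orders of truncation. -/
def rr (m J i : ℕ) : ℕ := 2 * (m + (i - J))

/-- The data at `x`: the range `i` consists of the primes in `(x ^ (ρ/2^(i+1)), x ^ (ρ/2^i)]`. -/
noncomputable def Dx (ρ : ℝ) (m J : ℕ) (x : ℝ) : Dt (PL ρ x) where
  w := wl ρ x
  rg := fun p => Nat.log 2 ⌊ρ * Real.log x / Real.log ((p : ℕ) : ℝ)⌋₊
  I := ⌊Real.log x⌋₊
  r := rr m J

/-- The weights of the primes `n`. -/
noncomputable def nu (g : ℝ → ℝ) (x : ℝ) (n : ℕ) : ℝ := if n.Prime then Λ n * wt g x n else 0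

/-- The total mass. -/
noncomputable def Mn (g : ℝ → ℝ) (x : ℝ) : ℝ := ∑ n ∈ Icc 1 ⌊x⌋₊, nu g x n

/-- The large primes dividing `n + h`. -/
noncomputable def sg (ρ x : ℝ) (h : ℤ) (n : ℕ) : Finset (PL ρ x) :=
  univ.filter (fun p => (((p : ℕ) : ℕ) : ℤ) ∣ (n : ℤ) + h)

/-- The positions `i` such that `n + h i` has no small prime factor. -/
noncomputable def Bs {Y : ℕ} (x : ℝ) (h : Fin Y → ℤ) (n : ℕ) : Finset (Fin Y) :=
  univ.filter (fun i => Int.gcd ((n : ℤ) + h i) (Ps x) = 1)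

/-- The reduced residues. -/
noncomputable def Om (x : ℝ) : Finset ℕ := (range (Ps x)).filter (fun a => Nat.Coprime a (Ps x))

/-- The proportion of the reduced residues such that all shifts have no small prime factor. -/
noncomputable def sP {κ : Type} [Fintype κ] (x : ℝ) (h : κ → ℤ) : ℝ :=
  (((Om x).filter (fun a : ℕ => ∀ i, Int.gcd ((a : ℤ) + h i) (Ps x) = 1)).card : ℝ) / (Om x).card

/-- LG-B: Bombieri-Vinogradov for the weights `nu`, with the maximum over the classes. -/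
def BVp : Prop :=
  ∀ g : ℝ → ℝ, IsWt g → ∀ (k : ℕ) (A : ℝ), 0 < A → ∃ X0 : ℝ, 3 ≤ X0 ∧ ∀ x : ℝ, X0 ≤ x →
    ∃ Er : ℕ → ℝ, (∀ d, 0 ≤ Er d) ∧
      (∀ d c : ℕ, 0 < d → Nat.Coprime c d →
        |∑ n ∈ (Icc 1 ⌊x⌋₊).filter (fun n => n ≡ c [MOD d]), nu g x n -
          (1 / (d.totient : ℝ)) * Mn g x| ≤ Er d) ∧
      ∑ U ∈ (PS (lev x) 1).powerset.filter (fun U => ∏ p ∈ U, p ≤ lev x ^ 2),
        (k : ℝ) ^ U.card * Er (∏ p ∈ U, p) ≤ 1 / Real.log x ^ A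

/-- LG-C: reduced residues modulo a primorial avoiding some classes. -/
def Crt : Prop :=
  ∀ (z : ℕ) (κ : Type) [Fintype κ] (h : κ → ℤ),
    ((range (primorial z)).filter (fun a : ℕ => Nat.Coprime a (primorial z) ∧
      ∀ i, Int.gcd ((a : ℤ) + h i) (primorial z) = 1)).card =
    ∏ p ∈ (range (z + 1)).filter Nat.Prime,
      ((range p).filter (fun a : ℕ => ¬ p ∣ a ∧ ∀ i, ¬ (p : ℤ) ∣ (a : ℤ) + h i)).card

/-- LG-T: the transfer to the model. -/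
def Transfer : Prop :=
  ∀ g : ℝ → ℝ, IsWt g → ∀ (k u0 : ℕ) (ρ A : ℝ), 0 < ρ → ρ ≤ 1 / 100 → 0 < A →
    ∃ X0 : ℝ, 3 ≤ X0 ∧ ∀ x : ℝ, X0 ≤ x → ∀ (κ : Type) [Fintype κ] [DecidableEq κ],
    Fintype.card κ ≤ u0 → ∀ h : κ → ℤ, Function.Injective h →
    (∀ i, h i ≠ 0 ∧ 2 * |(h i : ℝ)| ≤ Real.log x ^ 2) →
    ∀ μ : κ → Finset (PL ρ x) → ℝ, (∀ i S, |μ i S| ≤ (k : ℝ) ^ (S.card + 1)) →
    (∀ S : κ → Finset (PL ρ x), (∀ i, μ i (S i) ≠ 0) →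
      ∑ i, ∑ p ∈ S i, Real.log ((p : ℕ) : ℝ) ≤ Real.log x / 50) →
    |∑ n ∈ (Icc 1 ⌊x⌋₊).filter (fun n : ℕ => ∀ i, Int.gcd ((n : ℤ) + h i) (Ps x) = 1),
        nu g x n * ∏ i, ∑ S ∈ (sg ρ x (h i) n).powerset, μ i S -
      Mn g x * sP x h * Eq κ (wl ρ x) (fun σ => ∏ i, ∑ S ∈ (cls σ i).powerset, μ i S)| ≤
      1 / Real.log x ^ A

/-- LG-F1: the weights of the large primes. -/
def MF1 : Prop :=
  ∀ (ρ : ℝ) (m J : ℕ), 0 < ρ → ρ ≤ 1 / 100 → 0 < J → ∃ X0 : ℝ, 3 ≤ X0 ∧ ∀ x : ℝ, X0 ≤ x →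
    (∀ p, 0 ≤ wl ρ x p ∧ wl ρ x p ≤ 2 / Real.log x ^ 2) ∧
    (∀ p, (Dx ρ m J x).rg p < (Dx ρ m J x).I) ∧
    (∀ i, (Dx ρ m J x).la i ≤ 1) ∧ (∀ i < J, 1 / 4 ≤ (Dx ρ m J x).la i) ∧
    J ≤ (Dx ρ m J x).I ∧ ∑ p, wl ρ x p ^ 2 ≤ 4 / Real.log x ^ 2 ∧
    ∀ p : PL ρ x, Real.log ((p : ℕ) : ℝ) / Real.log x ≤ ρ / 2 ^ (Dx ρ m J x).rg p

/-- LG-F2: the probability that the ranges from `j` on are empty. -/
def MF2 : Prop :=
  ∃ C2 : ℝ, 0 < C2 ∧ ∀ (ρ : ℝ) (m J : ℕ), 0 < ρ → ρ ≤ 1 / 100 → ∃ X0 : ℝ, 3 ≤ X0 ∧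
    ∀ x : ℝ, X0 ≤ x → ∀ j ≤ J, ∏ i ∈ Ico j (Dx ρ m J x).I, (Dx ρ m J x).P0 i ≤
      C2 * 2 ^ j * Real.log (Real.log x) / (ρ * Real.log x)

/-- LG-S: the number of rough positions. -/
def BSp : Prop :=
  ∀ C : ℝ, 0 < C → ∃ C1 X0 : ℝ, 0 < C1 ∧ 3 ≤ X0 ∧ ∀ x : ℝ, X0 ≤ x → ∀ (Y : ℕ) (h : Fin Y → ℤ),
    Function.Injective h → (∀ i, |(h i : ℝ)| ≤ C * Real.log x) → ∀ a : ℕ,
    ((Bs x h a).card : ℝ) ≤ C1 * Real.log x / Real.log (Real.log x)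

/-- LG-G: existence of a weight function, and the total mass. -/
def MassP : Prop :=
  ∃ g : ℝ → ℝ, IsWt g ∧ (∀ v, g v ≤ 1) ∧ ∃ c X0 : ℝ, 0 < c ∧ 3 ≤ X0 ∧
    ∀ x : ℝ, X0 ≤ x → c * Real.log x ≤ Mn g x

/-! ### Assignments -/

/-- Assignments of modes to positions. -/
abbrev Asg (Y J : ℕ) := Fin Y → Option (Fin J)

/-- The letter of an optional mode. -/
def ofO {J : ℕ} : Option (Fin J) → Lt J
  | none => .one
  | some j => .md j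

/-- Admissible assignments: the mode `j` is used at most `K j` times. -/
def adm {J : ℕ} (Y : ℕ) (K : Fin J → ℕ) : Finset (Asg Y J) :=
  univ.filter (fun φ => ∀ j, (cls φ j).card ≤ K j)

/-- The value of an optional mode. -/
def ev {J : ℕ} (e : Fin J → ℝ) : Option (Fin J) → ℝ
  | none => 1
  | some j => e j

/-- The main term: sum over the admissible assignments supported in `B`. -/
noncomputable def SS {Y J : ℕ} (K : Fin J → ℕ) (e : Fin J → ℝ) (B : Finset (Fin Y)) : ℝ :=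
  ∑ φ ∈ (adm Y K).filter (fun φ => supp φ ⊆ B), ∏ i, ev e (φ i)

/-- The weight: sum over the admissible assignments supported in `B`. -/
noncomputable def gg {Y J : ℕ} (K : Fin J → ℕ) (B : Finset (Fin Y)) (v : Fin Y → Lt J → ℝ) : ℝ :=
  ∑ φ ∈ (adm Y K).filter (fun φ => supp φ ⊆ B), (-1) ^ (supp φ).card * ∏ i, v i (ofO (φ i))

/-- The positions of the letters. -/
def UW {Y J : ℕ} (W : Fin Y → Fin 4 → Lt J) : Finset (Fin Y) := univ.filter (fun i => W i ≠ blank J)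

/-- The proportion of `a ∈ Ω` with `U ⊆ B a`. -/
noncomputable def dn {Y : ℕ} (Ω : Finset ℕ) (B : ℕ → Finset (Fin Y)) (U : Finset (Fin Y)) : ℝ :=
  ((Ω.filter (fun a => U ⊆ B a)).card : ℝ) / Ω.card

/-- The average over `Ω`. -/
noncomputable def avg (Ω : Finset ℕ) (f : ℕ → ℝ) : ℝ := (∑ a ∈ Ω, f a) / Ω.card

/-- The data of the second part of the argument. -/
structure Fr (Y J : ℕ) where
  K : Fin J → ℕ
  F : Finset ℕ
  Ω : Finset ℕ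
  ν : ℕ → ℝ
  B : ℕ → Finset (Fin Y)
  v : ℕ → Fin Y → Lt J → ℝ
  E : (Fin 4 → Lt J) → ℝ
  e : Fin J → ℝ
  lv : Lt J → ℝ
  u0 : ℕ
  M : ℝ
  Plow : ℝ
  Pall : ℝ
  c5 : ℝ
  t2 : ℝ
  ε1 : ℝ
  ε2 : ℝ

/-- The assumptions of the second part of the argument. -/
structure Fr.Ok {Y J : ℕ} (R : Fr Y J) : Prop where
  J_pos : 0 < J
  K_pos : ∀ j, 0 < R.K j
  nu_nonneg : ∀ n ∈ R.F, 0 ≤ R.ν n
  v_one : ∀ n i, R.v n i .one = 1
  v_maj : ∀ n i, 0 ≤ R.v n i .maj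
  O_ne : R.Ω.Nonempty
  E_blank : R.E (blank J) = 1
  mean1 : ∀ j, R.E ![.md j, .one, .one, .one] = 0
  mean2 : ∀ j, R.E ![.one, .md j, .one, .one] = 0
  orth : ∀ i j, i ≠ j → R.E ![.md i, .md j, .one, .one] = 0
  sq : ∀ j, R.E ![.md j, .md j, .one, .one] = R.e j
  e_nonneg : ∀ j, 0 ≤ R.e j
  bound : ∀ W, W ≠ blank J → |R.E W| ≤ R.c5 * R.Plow
  quad : ∀ s : Finset (Fin J),
    ∑ o ∈ insertNone s, ∑ o' ∈ insertNone s,
      (if o = none then 1 else -1) * (if o' = none then 1 else -1) *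
        R.E ![ofO o, ofO o', .maj, .one] ≤ R.Pall * (((J : ℝ) - s.card) / J + R.t2)
  M_nonneg : 0 ≤ R.M
  Plow_nonneg : 0 ≤ R.Plow
  Plow_le : R.Plow ≤ 1
  Pall_nonneg : 0 ≤ R.Pall
  c5_ge : 1 ≤ R.c5
  t2_nonneg : 0 ≤ R.t2
  e1_nonneg : 0 ≤ R.ε1
  e2_nonneg : 0 ≤ R.ε2
  lv_nonneg : ∀ l, 0 ≤ R.lv l
  lv_one : R.lv .one = 0
  u0_ge : 4 * ∑ j, R.K j + 1 ≤ R.u0
  lev4 : 4 * ∑ j, (R.K j : ℝ) * R.lv (.md j) ≤ 1 / 50
  lev2 : 2 * ∑ j, (R.K j : ℝ) * R.lv (.md j) + R.lv .maj ≤ 1 / 50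
  est : ∀ W : Fin Y → Fin 4 → Lt J, (UW W).card ≤ R.u0 → ∑ i, ∑ l, R.lv (W i l) ≤ 1 / 50 →
    |∑ n ∈ R.F.filter (fun n => UW W ⊆ R.B n), R.ν n * ∏ i, ∏ l, R.v n i (W i l) -
      R.M * dn R.Ω R.B (UW W) * ∏ i, R.E (W i)| ≤
      R.ε1 + R.ε2 * R.M * dn R.Ω R.B (UW W) * R.Plow ^ (UW W).card

/-- LG-C1: the number of tuples of admissible assignments, weighted by the size of the union of
the supports. -/
def Comb : Prop :=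
  ∀ (Y J : ℕ) (K : Fin J → ℕ),
    (((adm Y K).card : ℝ) ≤ (1 + (Y : ℝ) * J) ^ (∑ j, K j)) ∧
    ∀ (q : ℕ) (P : ℝ), 0 ≤ P → ∀ B : Finset (Fin Y),
      ∑ Φ ∈ (Fintype.piFinset (fun _ : Fin q => (adm Y K).filter (fun φ => supp φ ⊆ B))),
        P ^ (univ.filter (fun i => ∃ l, Φ l i ≠ none)).card ≤
        (1 + ((J : ℝ) + 1) ^ q * P) ^ B.card

/-- LG-C2: the sum of the squares. -/
def SumOne : Prop :=
  ∀ (Y J : ℕ) (R : Fr Y J), R.Ok →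
    R.M * avg R.Ω (fun a => SS R.K R.e (R.B a)) -
      (R.ε1 * (adm Y R.K).card ^ 2 +
        R.ε2 * R.M * avg R.Ω (fun a => (1 + ((J : ℝ) + 1) ^ 2 * R.Plow) ^ (R.B a).card)) ≤
      ∑ n ∈ R.F, R.ν n * gg R.K (R.B n) (R.v n) ^ 2

/-- LG-C3: the sum with the majorants. -/
def SumTwo : Prop :=
  ∀ (Y J : ℕ) (R : Fr Y J), R.Ok →
    ∑ n ∈ R.F, R.ν n * gg R.K (R.B n) (R.v n) ^ 2 * ∑ m ∈ R.B n, R.v n m .maj ≤
      R.M * avg R.Ω (fun a => (R.B a).card * R.Pall *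
        ((∑ j, (R.B a).card * R.e j / R.K j) / J + R.t2) * SS R.K R.e (R.B a)) +
      (R.ε1 * Y * (adm Y R.K).card ^ 2 +
        R.ε2 * R.M * avg R.Ω (fun a => (R.B a).card *
          (1 + ((J : ℝ) + 1) ^ 2 * R.Plow) ^ (R.B a).card))

/-- LG-C4: the sum of the fourth powers. -/
def SumFour : Prop :=
  ∀ (Y J : ℕ) (R : Fr Y J), R.Ok →
    ∑ n ∈ R.F, R.ν n * gg R.K (R.B n) (R.v n) ^ 4 ≤
      R.M * (1 + R.ε2) *
        avg R.Ω (fun a => (1 + ((J : ℝ) + 1) ^ 4 * (R.c5 * R.Plow)) ^ (R.B a).card) +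
      R.ε1 * (adm Y R.K).card ^ 4

/-- LG-C5: the conclusion of the second part. -/
def CoreEnd : Prop :=
  ∀ (Y J : ℕ) (R : Fr Y J), R.Ok → ∀ b : ℝ, (∀ a ∈ R.Ω, ((R.B a).card : ℝ) ≤ b) →
    (∀ j, b * R.Pall * (b * R.e j / R.K j + R.t2) ≤ 1 / 4) →
    R.ε2 * (1 + b) * Real.exp (((J : ℝ) + 1) ^ 4 * (R.c5 * R.Plow) * b) ≤ 1 / 16 →
    R.ε1 * (1 + Y) * (adm Y R.K).card ^ 4 ≤ R.M / 16 →
    R.M / (4 * (2 * Real.exp (((J : ℝ) + 1) ^ 4 * (R.c5 * R.Plow) * b) + 1)) ≤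
      ∑ n ∈ R.F.filter (fun n => ∀ m ∈ R.B n, R.v n m .maj < 1), R.ν n

/-! ### Assembly -/

/-- LG-D1: the choice of the parameters. -/
def Params : Prop :=
  ∀ H : ℝ, 1 ≤ H → ∃ (m J : ℕ) (ρ : ℝ) (K : Fin J → ℕ), 0 < J ∧ 0 < ρ ∧ ρ ≤ 1 / 100 ∧
    (∀ j, 0 < K j) ∧ ∃ t : ℝ, 0 ≤ t ∧ t ≤ 1 / 1000 ∧
    (∀ I : ℕ, ∑ i ∈ range I, tt (rr m J i) ≤ t) ∧
    (∀ j : Fin J, H / ρ * (200 * H * 2 ^ (j : ℕ) / (J ^ 2 * ρ * K j) + 2000 * t) ≤ 1 / 4) ∧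
    ∀ I : ℕ, J ≤ I →
      4 * ∑ j : Fin J, (K j : ℝ) * ∑ i ∈ Ico (j : ℕ) I, (rr m J i : ℝ) * (ρ / 2 ^ i) ≤ 1 / 50 ∧
      2 * ∑ j : Fin J, (K j : ℝ) * ∑ i ∈ Ico (j : ℕ) I, (rr m J i : ℝ) * (ρ / 2 ^ i) +
        ∑ i ∈ range I, (rr m J i : ℝ) * (ρ / 2 ^ i) ≤ 1 / 50

/-- LG-D2: the key estimate. -/
def KeyEst : Prop :=
  ∀ g : ℝ → ℝ, IsWt g → ∀ (ρ t A : ℝ) (m J u0 : ℕ), 0 < ρ → ρ ≤ 1 / 100 → 0 < A →
    0 < J → t ≤ 1 / 1000 → (∀ I : ℕ, ∑ i ∈ range I, tt (rr m J i) ≤ t) →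
    ∃ c X0 : ℝ, 0 < c ∧ 3 ≤ X0 ∧ ∀ x : ℝ, X0 ≤ x → Reg (Dx ρ m J x) J t ∧
      ∀ (Y : ℕ) (h : Fin Y → ℤ), Function.Injective h →
      (∀ i, h i ≠ 0 ∧ 2 * |(h i : ℝ)| ≤ Real.log x ^ 2) →
      ∀ W : Fin Y → Fin 4 → Lt J, (UW W).card ≤ u0 →
      ∑ i, ∑ l, lv (Dx ρ m J x) ρ (W i l) ≤ 1 / 50 →
      |∑ n ∈ (Icc 1 ⌊x⌋₊).filter (fun n => UW W ⊆ Bs x h n),
          nu g x n * ∏ i, ∏ l, Fn (Dx ρ m J x) (W i l) (sg ρ x (h i) n) -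
        Mn g x * dn (Om x) (Bs x h) (UW W) *
          ∏ i, Ex (wl ρ x) (wd (Dx ρ m J x) (W i))| ≤
        1 / Real.log x ^ A + (c / Real.log x ^ 2) * Mn g x *
          dn (Om x) (Bs x h) (UW W) * (Dx ρ m J x).Plow J ^ (UW W).card

/-- LG-D3: the main theorem: a positive proportion of the primes is isolated. -/
def MainGaps : Prop :=
  ∀ C : ℝ, 0 < C → ∃ c X0 : ℝ, 0 < c ∧ 3 ≤ X0 ∧ ∀ x : ℝ, X0 ≤ x →
    c * Real.log x ≤ ∑ n ∈ (Icc 1 ⌊x⌋₊).filter (fun n : ℕ => n.Prime ∧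
      ∀ h ∈ Icc (-(⌊C * Real.log x⌋₊ : ℤ)) ⌊C * Real.log x⌋₊, h ≠ 0 →
        ¬ ((n : ℤ) + h).natAbs.Prime), Real.log n / n

/-- LG-E: the final statement. -/
def LargeGaps : Prop :=
  ∀ C : ℝ, 0 < C → ∃ δ : ℝ, 0 < δ ∧ ∀ᶠ N : ℕ in Filter.atTop, δ * Real.log N ≤
    ∑ n ∈ (Icc 2 N).filter (fun n : ℕ =>
      C * Real.log n ≤ ((Nat.nth Nat.Prime n : ℕ) : ℝ) - ((Nat.nth Nat.Prime (n - 1) : ℕ) : ℝ) ∧
      C * Real.log n ≤
        ((Nat.nth Nat.Prime (n - 1) : ℕ) : ℝ) - ((Nat.nth Nat.Prime (n - 2) : ℕ) : ℝ)),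
      1 / (n : ℝ)

end Pool.Agent.Helper1.LG
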