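import Pool.Agent.Helper1.LG.Rng

set_option autoImplicit false

/-!
LG-X. Exclusive colourings versus independent sets (`Excl` in `Defs.lean`).

Let `u = card κ`, `f_i = wd D (W i)`. In the independent model every point `p` has a random subset
`X_p ⊆ κ`, `q_ind(X) = w^{|X|} (1-w)^{u-|X|}`, in the exclusive model `q_exc(∅) = 1 - u w`,
`q_exc({i}) = w`, `q_exc(X) = 0` for `|X| ≥ 2`. Both expectations are
`∑_{X : ι → Finset κ} ∏_p q(X_p) ∏_i f_i({p : i ∈ X_p})`.
* `|∏_p a_p - ∏_p b_p| ≤ ∑_p |a_p - b_p| ∏_{p' ≠ p} max(a_{p'}, b_{p'})` for nonnegative `a, b`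
  (induction), and `max(q_exc, q_ind)(X) ≤ 2^{|X|} q_ind(X)` (for `∅`: Bernoulli; for `{i}`:
  `(1-w)^{u-1} ≥ 1 - u w ≥ 1/2`).
* `∑_X |q_exc(X) - q_ind(X)| ≤ c_u w²`.
* `|f_i(S)| ≤ h(S) := 625 ∏_{r<J} 16^{N_r} ∏_{J≤r<I} ([N_r = 0] + [N_r > r_r] 16^{N_r})` (`W i` is not
  blank, see the proof of LG-A, item 4), `N_r = cnt D.rg r S`.
* For fixed `p` and fixed `X_p` the sum over the other coordinates of `2^{|X|} q_ind` times `∏ h`
  factorises over `i ∈ κ`: the factor of `i` is
  `∑_{S ∌ p} ∏_S 2w ∏_{others} (1-w) h(S ∪ ({p} if i ∈ X_p))`, at most `c(J) Plow`: extend the sum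
  over all `S` (weights `2w`, `1-w`; for `i ∉ X_p` divide by `1 - w_p ≥ 3/4`), factorise over the
  ranges (`Em_factor`), `∑ ∏_T (2w) ∏ (1-w) 16^{|T|} ≤ exp 31`, and for `r ≥ J`:
  `P_r + tt_r ≤ P_r (1 + 4 tt_r)` (`Em_tail` with `z = 32`); in the range of `p` (when `i ∈ X_p`)
  `h` is evaluated at `N+1`, which costs at most a constant factor since `P_r ≥ 1/4`.
So the difference is at most `∑_p c_u w_p² (c(J) Plow)^u`.
-/

open Finset

namespace Pool.Agent.Helper1.LG

open Pool.Agent.Helper1.MT (cls pr)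

/-! ### Differences of products -/

theorem x_prod_diff {ι : Type} [DecidableEq ι] (s : Finset ι) (a b m d : ι → ℝ)
    (ha : ∀ p ∈ s, 0 ≤ a p ∧ a p ≤ m p) (hb : ∀ p ∈ s, 0 ≤ b p ∧ b p ≤ m p)
    (hd : ∀ p ∈ s, |a p - b p| ≤ d p) :
    |∏ p ∈ s, a p - ∏ p ∈ s, b p| ≤
      ∑ p ∈ s, ∏ p' ∈ s, (if p' = p then d p' else m p') := by
  induction s using Finset.induction_on with
  | empty => simp
  | insert p s hp ih =>
    have ha' : ∀ q ∈ s, 0 ≤ a q ∧ a q ≤ m q := fun q hq => ha q (mem_insert_of_mem hq)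
    have hb' : ∀ q ∈ s, 0 ≤ b q ∧ b q ≤ m q := fun q hq => hb q (mem_insert_of_mem hq)
    have hd' : ∀ q ∈ s, |a q - b q| ≤ d q := fun q hq => hd q (mem_insert_of_mem hq)
    have ih' := ih ha' hb' hd'
    have hap := ha p (mem_insert_self p s)
    have hbp := hb p (mem_insert_self p s)
    have hdp := hd p (mem_insert_self p s)
    rw [prod_insert hp, prod_insert hp, sum_insert hp]
    have h1 : ∏ p' ∈ insert p s, (if p' = p then d p' else m p') = d p * ∏ q ∈ s, m q := by
      rw [prod_insert hp, if_pos rfl]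
      congr 1
      apply prod_congr rfl
      intro q hq
      rw [if_neg]
      rintro rfl
      exact hp hq
    have h2 : ∑ q ∈ s, ∏ p' ∈ insert p s, (if p' = q then d p' else m p') =
        m p * ∑ q ∈ s, ∏ p' ∈ s, (if p' = q then d p' else m p') := by
      rw [mul_sum]
      apply sum_congr rfl
      intro q hq
      rw [prod_insert hp, if_neg]
      rintro rfl
      exact hp hq
    rw [h1, h2]
    have hA0 : 0 ≤ ∏ q ∈ s, a q := prod_nonneg fun q hq => (ha' q hq).1
    have hAm : ∏ q ∈ s, a q ≤ ∏ q ∈ s, m q := prod_le_prod (fun q hq => (ha' q hq).1)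
      fun q hq => (ha' q hq).2
    have hsplit : a p * ∏ q ∈ s, a q - b p * ∏ q ∈ s, b q =
        (a p - b p) * ∏ q ∈ s, a q + b p * (∏ q ∈ s, a q - ∏ q ∈ s, b q) := by ring
    rw [hsplit]
    calc |(a p - b p) * ∏ q ∈ s, a q + b p * (∏ q ∈ s, a q - ∏ q ∈ s, b q)|
        ≤ |(a p - b p) * ∏ q ∈ s, a q| + |b p * (∏ q ∈ s, a q - ∏ q ∈ s, b q)| := abs_add_le _ _
      _ = |a p - b p| * ∏ q ∈ s, a q + b p * |∏ q ∈ s, a q - ∏ q ∈ s, b q| := by
          rw [abs_mul, abs_mul, abs_of_nonneg hA0, abs_of_nonneg hbp.1]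
      _ ≤ d p * ∏ q ∈ s, m q +
            m p * ∑ q ∈ s, ∏ p' ∈ s, (if p' = q then d p' else m p') := by
          apply add_le_add
          · exact mul_le_mul hdp hAm hA0 (le_trans (abs_nonneg _) hdp)
          · exact mul_le_mul hbp.2 ih' (abs_nonneg _) (le_trans hbp.1 hbp.2)

/-! ### Tuples of sets -/

section Tuples

variable {ι κ : Type} [Fintype ι] [DecidableEq ι] [Fintype κ] [DecidableEq κ]

theorem x_prod_ite (T : Finset ι) (U V : ι → ℝ) :
    (∏ p ∈ T, U p) * ∏ p ∈ Tᶜ, V p = ∏ p, (if p ∈ T then U p else V p) := by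
  rw [← Finset.prod_mul_prod_compl T (fun p => if p ∈ T then U p else V p)]
  congr 1
  · apply prod_congr rfl
    intro p hp
    rw [if_pos hp]
  · apply prod_congr rfl
    intro p hp
    rw [if_neg (mem_compl.mp hp)]

theorem x_Em_univ (U V : ι → ℝ) (f : Finset ι → ℝ) :
    Em univ U V f = ∑ T : Finset ι, (∏ p, (if p ∈ T then U p else V p)) * f T := by
  rw [Em, Finset.powerset_univ]
  apply sum_congr rfl
  intro T _
  rw [← x_prod_ite, compl_eq_univ_sdiff]

theorem x_prod_Em (U V : ι → ℝ) (f : κ → Finset ι → ℝ) :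
    ∏ i, Em univ U V (f i) = ∑ S : κ → Finset ι,
      (∏ p, ∏ i, (if p ∈ S i then U p else V p)) * ∏ i, f i (S i) := by
  simp_rw [x_Em_univ]
  rw [Finset.prod_univ_sum, Fintype.piFinset_univ]
  apply sum_congr rfl
  intro S _
  rw [prod_mul_distrib, prod_comm]

/-- The local factor of the exclusive model. -/
noncomputable def qe (w : ℝ) (X : Finset κ) : ℝ :=
  if X.card = 0 then 1 - Fintype.card κ * w else if X.card = 1 then w else 0

theorem x_cls_inj : Function.Injective (fun (σ : ι → Option κ) (i : κ) => cls σ i) := by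
  intro σ σ' h
  have h1 : ∀ p i, σ p = some i ↔ σ' p = some i := by
    intro p i
    have h2 : cls σ i = cls σ' i := congrFun h i
    have h3 : p ∈ cls σ i ↔ p ∈ cls σ' i := by rw [h2]
    simpa [cls] using h3
  funext p
  rcases hσ : σ p with _ | i
  · rcases hσ' : σ' p with _ | i
    · rfl
    · have := (h1 p i).mpr hσ'
      rw [hσ] at this
      exact absurd this (by simp)
  · exact ((h1 p i).mp hσ).symm

theorem x_Eq (w : ι → ℝ) (f : κ → Finset ι → ℝ) :
    Eq κ w (fun σ => ∏ i, f i (cls σ i)) = ∑ S : κ → Finset ι,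
      (∏ p, qe (w p) (univ.filter (fun i => p ∈ S i))) * ∏ i, f i (S i) := by
  rw [Eq]
  apply Fintype.sum_of_injective (fun (σ : ι → Option κ) (i : κ) => cls σ i) x_cls_inj
  · intro S hS
    by_cases hall : ∀ p, (univ.filter (fun i => p ∈ S i)).card ≤ 1
    · exfalso
      apply hS
      classical
      refine ⟨fun p => if h : ∃ i, p ∈ S i then some h.choose else none, ?_⟩
      funext i
      ext p
      simp only [cls, mem_filter, mem_univ, true_and]
      constructor
      · intro h
        split_ifs at h with hex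
        have := hex.choose_spec
        rw [Option.some.injEq] at h
        rw [h] at this
        exact this
      · intro h
        have hex : ∃ i, p ∈ S i := ⟨i, h⟩
        rw [dif_pos hex, Option.some.injEq]
        have h1 := hall p
        rw [Finset.card_le_one] at h1
        apply h1
        · rw [mem_filter]
          exact ⟨mem_univ _, hex.choose_spec⟩
        · rw [mem_filter]
          exact ⟨mem_univ _, h⟩
    · push Not at hall
      obtain ⟨p, hp⟩ := hall
      have h0 : qe (w p) (univ.filter (fun i => p ∈ S i)) = 0 := by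
        rw [qe, if_neg (by omega), if_neg (by omega)]
      rw [Finset.prod_eq_zero (mem_univ p) h0, zero_mul]
  · intro σ
    congr 1
    apply prod_congr rfl
    intro p _
    rcases hσ : σ p with _ | i
    · have h1 : (univ.filter (fun i => p ∈ cls σ i)) = (∅ : Finset κ) := by
        rw [Finset.filter_eq_empty_iff]
        intro i _
        simp [cls, hσ]
      rw [h1, qe, if_pos (by simp)]
      rfl
    · have h1 : (univ.filter (fun i => p ∈ cls σ i)) = ({i} : Finset κ) := by
        ext i'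
        simp only [cls, mem_filter, mem_univ, true_and, mem_singleton, hσ, Option.some.injEq]
        exact eq_comm
      rw [h1, qe, if_neg (by simp), if_pos (by simp)]
      rfl

theorem x_prod_card (X : Finset κ) (a b : ℝ) :
    ∏ i, (if i ∈ X then a else b) = a ^ X.card * b ^ (Fintype.card κ - X.card) := by
  rw [← x_prod_ite X (fun _ => a) (fun _ => b), prod_const, prod_const, card_compl]

theorem x_pow_upper {w : ℝ} (hw : 0 ≤ w) (hw1 : w ≤ 1) (n : ℕ) :
    (1 - w) ^ n ≤ 1 - n * w + n ^ 2 * w ^ 2 := by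
  induction n with
  | zero => simp
  | succ n ih =>
    rw [pow_succ]
    have h1 : (1 - w) ^ n * (1 - w) ≤ (1 - n * w + n ^ 2 * w ^ 2) * (1 - w) :=
      mul_le_mul_of_nonneg_right ih (by linarith)
    push_cast
    have h2 : (1 - (n : ℝ) * w + n ^ 2 * w ^ 2) * (1 - w) =
        1 - (n + 1) * w + (n + n ^ 2) * w ^ 2 - n ^ 2 * w ^ 2 * w := by ring
    have h3 : 0 ≤ (n : ℝ) ^ 2 * w ^ 2 * w := by positivity
    have h4 : ((n : ℝ) + n ^ 2) * w ^ 2 ≤ (n + 1) ^ 2 * w ^ 2 := by
      apply mul_le_mul_of_nonneg_right _ (by positivity)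
      have : (0 : ℝ) ≤ n := Nat.cast_nonneg n
      nlinarith
    linarith

theorem x_pow_lower {w : ℝ} (hw1 : w ≤ 1) (n : ℕ) : 1 - n * w ≤ (1 - w) ^ n := by
  have := one_add_mul_le_pow (a := -w) (by linarith) n
  have h2 : (1 + -w) ^ n = (1 - w) ^ n := by ring
  rw [h2] at this
  linarith

theorem x_local {w : ℝ} (hw : 0 ≤ w) (hw1 : w ≤ 1 / 4) (hu : (Fintype.card κ : ℝ) * w ≤ 1 / 2)
    (X : Finset κ) :
    (0 ≤ qe w X ∧ qe w X ≤ ∏ i, (if i ∈ X then 2 * w else 1 - w)) ∧
    (0 ≤ ∏ i, (if i ∈ X then w else 1 - w) ∧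
      ∏ i, (if i ∈ X then w else 1 - w) ≤ ∏ i, (if i ∈ X then 2 * w else 1 - w)) ∧
    |qe w X - ∏ i, (if i ∈ X then w else 1 - w)| ≤ ((Fintype.card κ : ℝ) + 1) ^ 2 * w ^ 2 := by
  set u := Fintype.card κ with hudef
  have hX : X.card ≤ u := card_le_univ X
  have h1w : 0 ≤ 1 - w := by linarith
  have h1w1 : 1 - w ≤ 1 := by linarith
  have hu0 : (0 : ℝ) ≤ u := Nat.cast_nonneg u
  refine ⟨?_, ?_, ?_⟩
  · rw [x_prod_card]
    rcases Nat.lt_or_ge X.card 2 with h2 | h2
    · interval_cases hc : X.card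
      · rw [qe, if_pos hc, ← hudef]
        refine ⟨by linarith, ?_⟩
        rw [pow_zero, one_mul, Nat.sub_zero]
        exact x_pow_lower (by linarith) u
      · rw [qe, if_neg (by omega), if_pos hc]
        refine ⟨hw, ?_⟩
        rw [pow_one]
        have h3 := x_pow_lower (w := w) (by linarith) (u - 1)
        have h4 : ((u - 1 : ℕ) : ℝ) * w ≤ 1 / 2 := by
          have h5 : ((u - 1 : ℕ) : ℝ) ≤ u := by exact_mod_cast Nat.sub_le u 1
          nlinarith
        nlinarith
    · rw [qe, if_neg (by omega), if_neg (by omega)]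
      exact ⟨le_refl _, by positivity⟩
  · constructor
    · apply prod_nonneg
      intro i _
      split_ifs
      · exact hw
      · exact h1w
    · apply prod_le_prod
      · intro i _
        split_ifs
        · exact hw
        · exact h1w
      · intro i _
        split_ifs
        · linarith
        · exact le_refl _
  · rw [x_prod_card]
    rcases Nat.lt_or_ge X.card 2 with h2 | h2
    · interval_cases hc : X.card
      · rw [qe, if_pos hc, ← hudef, pow_zero, one_mul, Nat.sub_zero]
        have h3 := x_pow_lower (w := w) (by linarith) u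
        have h4 := x_pow_upper hw (by linarith) u
        rw [abs_le]
        constructor
        · have h6 : (u : ℝ) ^ 2 * w ^ 2 ≤ (u + 1) ^ 2 * w ^ 2 := by
            apply mul_le_mul_of_nonneg_right _ (by positivity)
            nlinarith
          linarith
        · have : 0 ≤ ((u : ℝ) + 1) ^ 2 * w ^ 2 := by positivity
          linarith
      · rw [qe, if_neg (by omega), if_pos hc, pow_one]
        have h3 := x_pow_lower (w := w) (by linarith) (u - 1)
        have h5 : ((u - 1 : ℕ) : ℝ) ≤ u := by exact_mod_cast Nat.sub_le u 1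
        have h6 : (1 - w) ^ (u - 1) ≤ 1 := pow_le_one₀ h1w h1w1
        have h7 : 1 - (1 - w) ^ (u - 1) ≤ u * w := by nlinarith
        have h8 : w - w * (1 - w) ^ (u - 1) = w * (1 - (1 - w) ^ (u - 1)) := by ring
        rw [h8, abs_of_nonneg (mul_nonneg hw (by linarith))]
        calc w * (1 - (1 - w) ^ (u - 1)) ≤ w * (u * w) := mul_le_mul_of_nonneg_left h7 hw
          _ = u * w ^ 2 := by ring
          _ ≤ (u + 1) ^ 2 * w ^ 2 := by
              apply mul_le_mul_of_nonneg_right _ (by positivity)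
              nlinarith
    · rw [qe, if_neg (by omega), if_neg (by omega), zero_sub, abs_neg]
      have h3 : 0 ≤ w ^ X.card * (1 - w) ^ (u - X.card) := by positivity
      rw [abs_of_nonneg h3]
      have h4 : w ^ X.card ≤ w ^ 2 := pow_le_pow_of_le_one hw (by linarith) h2
      have h5 : (1 - w) ^ (u - X.card) ≤ 1 := pow_le_one₀ h1w h1w1
      calc w ^ X.card * (1 - w) ^ (u - X.card) ≤ w ^ 2 * 1 :=
            mul_le_mul h4 h5 (by positivity) (by positivity)
        _ = 1 * w ^ 2 := by ring
        _ ≤ (u + 1) ^ 2 * w ^ 2 := by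
            apply mul_le_mul_of_nonneg_right _ (by positivity)
            nlinarith

end Tuples

/-! ### The majorant -/

section Major

variable {ι : Type} [Fintype ι] [DecidableEq ι]

/-- The factor of a range in the majorant. -/
noncomputable def xphi (D : Dt ι) (J ρ r : ℕ) (T : Finset ι) : ℝ :=
  if r < J ∨ r = ρ then 16 ^ T.card
  else (if T = ∅ then 1 else 0) + (if D.r r < T.card then 16 ^ T.card else 0)

/-- The majorant. -/
noncomputable def xh (D : Dt ι) (J ρ : ℕ) (S : Finset ι) : ℝ :=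
  ∏ r ∈ range D.I, xphi D J ρ r (S.filter (fun p => D.rg p = r))

theorem xphi_nonneg (D : Dt ι) (J ρ r : ℕ) (T : Finset ι) : 0 ≤ xphi D J ρ r T := by
  rw [xphi]
  split_ifs <;> positivity

theorem xh_nonneg (D : Dt ι) (J ρ : ℕ) (S : Finset ι) : 0 ≤ xh D J ρ S :=
  prod_nonneg fun r _ => xphi_nonneg D J ρ r _

/-- The factor of a range of a letter. -/
noncomputable def xG (D : Dt ι) (J r : ℕ) (S : Finset ι) : ℝ :=
  if r < J then 2 ^ cnt D.rg r S else D.A r S

theorem xG_nonneg {D : Dt ι} {J : ℕ} {t : ℝ} (h : Reg D J t) (r : ℕ) (S : Finset ι) :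
    0 ≤ xG D J r S := by
  rw [xG]
  split_ifs
  · positivity
  · exact (h.A_facts r S).1

theorem x_one_le_two_pow (n : ℕ) : (1 : ℝ) ≤ 2 ^ n := one_le_pow₀ (by norm_num)

/-- One letter. -/
theorem x_letter {D : Dt ι} {J : ℕ} {t : ℝ} (h : Reg D J t) (L : Lt J) (hL : L ≠ .one)
    (S : Finset ι) : |Fn D L S| ≤ 5 * ∏ r ∈ range D.I, xG D J r S := by
  have hG0 : 0 ≤ ∏ r ∈ range D.I, xG D J r S := prod_nonneg fun r _ => xG_nonneg h r S
  cases L with
  | one => exact absurd rfl hL
  | maj =>
    rw [Fn]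
    have h0 : 0 ≤ ∏ i ∈ range D.I, D.A i S := prod_nonneg fun r _ => (h.A_facts r S).1
    rw [abs_of_nonneg h0]
    have h1 : ∏ i ∈ range D.I, D.A i S ≤ ∏ r ∈ range D.I, xG D J r S := by
      apply prod_le_prod (fun r _ => (h.A_facts r S).1)
      intro r _
      rw [xG]
      split_ifs
      · exact (h.A_facts r S).2.1
      · exact le_refl _
    linarith
  | md j =>
    rw [Fn]
    have hjI : (j : ℕ) < D.I := lt_of_lt_of_le j.2 h.J_le
    have hJ1 : (1 : ℝ) ≤ J := by exact_mod_cast h.J_pos
    have ha := h.a_le j hjI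
    have h1a := h.one_sub_a j.2
    have hA := h.A_facts j S
    have h2 := x_one_le_two_pow (cnt D.rg j S)
    have hq : |(D.A j S - D.a j) / (1 - D.a j)| ≤ 5 * 2 ^ cnt D.rg j S := by
      rw [abs_div, abs_of_pos (by linarith : 0 < 1 - D.a j), div_le_iff₀ (by linarith)]
      have h3 : |D.A j S - D.a j| ≤ 2 ^ cnt D.rg j S := by
        rw [abs_le]
        constructor
        · linarith [hA.1]
        · linarith [hA.2.1, ha.1]
      calc |D.A j S - D.a j| ≤ 2 ^ cnt D.rg j S := h3
        _ ≤ 5 * 2 ^ cnt D.rg j S * (1 - D.a j) := by nlinarith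
    have hprod0 : 0 ≤ ∏ i ∈ Ioo (j : ℕ) D.I, D.A i S :=
      prod_nonneg fun r _ => (h.A_facts r S).1
    rw [abs_mul, abs_mul, abs_of_nonneg hprod0, abs_of_nonneg (by positivity : 0 ≤ 1 / (J : ℝ))]
    have hsub : insert (j : ℕ) (Ioo (j : ℕ) D.I) ⊆ range D.I := by
      intro r hr
      rw [mem_insert, mem_Ioo] at hr
      rw [mem_range]
      omega
    have hnot : (j : ℕ) ∉ Ioo (j : ℕ) D.I := by simp
    have hle : 2 ^ cnt D.rg j S * ∏ i ∈ Ioo (j : ℕ) D.I, D.A i S ≤
        ∏ r ∈ range D.I, xG D J r S := by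
      calc 2 ^ cnt D.rg j S * ∏ i ∈ Ioo (j : ℕ) D.I, D.A i S
          ≤ xG D J j S * ∏ i ∈ Ioo (j : ℕ) D.I, xG D J i S := by
            have e1 : xG D J j S = 2 ^ cnt D.rg j S := by rw [xG, if_pos j.2]
            rw [e1]
            apply mul_le_mul_of_nonneg_left _ (by positivity)
            apply prod_le_prod (fun r _ => (h.A_facts r S).1)
            intro r _
            rw [xG]
            split_ifs
            · exact (h.A_facts r S).2.1
            · exact le_refl _
        _ = ∏ i ∈ insert (j : ℕ) (Ioo (j : ℕ) D.I), xG D J i S := by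
            rw [prod_insert hnot]
        _ ≤ ∏ r ∈ range D.I, xG D J r S := by
            rw [← prod_sdiff hsub]
            have hge : 1 ≤ ∏ r ∈ range D.I \ insert (j : ℕ) (Ioo (j : ℕ) D.I), xG D J r S := by
              have : ∀ r ∈ range D.I \ insert (j : ℕ) (Ioo (j : ℕ) D.I), 1 ≤ xG D J r S := by
                intro r hr
                rw [mem_sdiff, mem_range, mem_insert, mem_Ioo] at hr
                have hrj : r < j := by omega
                have : r < J := lt_trans hrj j.2
                rw [xG, if_pos this]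
                exact x_one_le_two_pow _
              calc (1 : ℝ) = ∏ _r ∈ range D.I \ insert (j : ℕ) (Ioo (j : ℕ) D.I), (1 : ℝ) := by simp
                _ ≤ _ := prod_le_prod (fun _ _ => by norm_num) this
            have hn : 0 ≤ ∏ i ∈ insert (j : ℕ) (Ioo (j : ℕ) D.I), xG D J i S :=
              prod_nonneg fun r _ => xG_nonneg h r S
            nlinarith
    have hJi : 1 / (J : ℝ) ≤ 1 := by
      rw [div_le_one (by linarith)]
      exact hJ1
    calc 1 / (J : ℝ) * |(D.A j S - D.a j) / (1 - D.a j)| * ∏ i ∈ Ioo (j : ℕ) D.I, D.A i S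
        ≤ 1 * (5 * 2 ^ cnt D.rg j S) * ∏ i ∈ Ioo (j : ℕ) D.I, D.A i S := by
          apply mul_le_mul_of_nonneg_right _ hprod0
          exact mul_le_mul hJi hq (abs_nonneg _) (by norm_num)
      _ = 5 * (2 ^ cnt D.rg j S * ∏ i ∈ Ioo (j : ℕ) D.I, D.A i S) := by ring
      _ ≤ 5 * ∏ r ∈ range D.I, xG D J r S := by linarith

/-- The power of a factor. -/
theorem x_pow_fac {D : Dt ι} {J : ℕ} {t : ℝ} (h : Reg D J t) (ρ r : ℕ) {K : ℕ} (hK1 : 1 ≤ K)
    (hK4 : K ≤ 4) (S : Finset ι) :
    xG D J r S ^ K ≤ xphi D J ρ r (S.filter (fun p => D.rg p = r)) := by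
  have hc : (S.filter (fun p => D.rg p = r)).card = cnt D.rg r S := rfl
  have hpow : ((2 : ℝ) ^ cnt D.rg r S) ^ K ≤ 16 ^ cnt D.rg r S := by
    rw [← pow_mul, mul_comm, pow_mul]
    apply pow_le_pow_left₀ (by positivity)
    calc (2 : ℝ) ^ K ≤ 2 ^ 4 := pow_le_pow_right₀ (by norm_num) hK4
      _ = 16 := by norm_num
  have hf := h.A_facts r S
  by_cases hrJ : r < J
  · have e1 : xG D J r S = 2 ^ cnt D.rg r S := by rw [xG, if_pos hrJ]
    rw [e1, xphi, if_pos (Or.inl hrJ), hc]
    exact hpow
  · have e1 : xG D J r S = D.A r S := by rw [xG, if_neg hrJ]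
    rw [e1]
    by_cases hrρ : r = ρ
    · rw [xphi, if_pos (Or.inr hrρ), hc]
      exact le_trans (pow_le_pow_left₀ hf.1 hf.2.1 K) hpow
    · rw [xphi, if_neg (by tauto), hc]
      rcases Nat.eq_zero_or_pos (cnt D.rg r S) with h0 | h0
      · have he : S.filter (fun p => D.rg p = r) = ∅ := card_eq_zero.mp h0
        rw [if_pos he, hf.2.2.1 h0, one_pow, h0]
        split_ifs <;> norm_num
      · have hne : S.filter (fun p => D.rg p = r) ≠ ∅ := by
          intro he
          rw [← hc, he] at h0
          simp at h0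
        rw [if_neg hne, zero_add]
        rcases Nat.lt_or_ge (D.r r) (cnt D.rg r S) with h1 | h1
        · rw [if_pos h1]
          exact le_trans (pow_le_pow_left₀ hf.1 hf.2.1 K) hpow
        · rw [hf.2.2.2 h0 h1, zero_pow (by omega)]
          split_ifs <;> positivity

theorem x_word {D : Dt ι} {J : ℕ} {t : ℝ} (h : Reg D J t) (ρ : ℕ) (W : Fin 4 → Lt J)
    (hW : W ≠ blank J) (S : Finset ι) : |wd D W S| ≤ 625 * xh D J ρ S := by
  set G : ℝ := ∏ r ∈ range D.I, xG D J r S with hG
  have hG0 : 0 ≤ G := prod_nonneg fun r _ => xG_nonneg h r S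
  set K := (univ.filter (fun l => ¬ W l = .one)).card with hK
  have hK4 : K ≤ 4 := by
    have := card_le_univ (univ.filter (fun l => ¬ W l = .one))
    simpa using this
  have hK1 : 1 ≤ K := by
    rw [hK, Nat.one_le_iff_ne_zero, Ne, card_eq_zero, filter_eq_empty_iff]
    intro hall
    apply hW
    funext l
    have := hall (mem_univ l)
    rw [not_not] at this
    exact this
  have h1 : |wd D W S| ≤ (5 * G) ^ K := by
    rw [wd, abs_prod]
    calc ∏ l, |Fn D (W l) S| ≤ ∏ l, (if W l = .one then 1 else 5 * G) := by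
          apply prod_le_prod (fun _ _ => abs_nonneg _)
          intro l _
          split_ifs with hl
          · rw [hl, Fn]
            simp
          · exact x_letter h (W l) hl S
      _ = (5 * G) ^ K := by
          rw [prod_ite, prod_const_one, one_mul, prod_const]
  have h2 : G ^ K ≤ xh D J ρ S := by
    rw [hG, ← prod_pow, xh]
    apply prod_le_prod (fun r _ => pow_nonneg (xG_nonneg h r S) K)
    intro r _
    exact x_pow_fac h ρ r hK1 hK4 S
  have h3 : (5 : ℝ) ^ K ≤ 625 := by
    calc (5 : ℝ) ^ K ≤ 5 ^ 4 := pow_le_pow_right₀ (by norm_num) hK4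
      _ = 625 := by norm_num
  calc |wd D W S| ≤ (5 * G) ^ K := h1
    _ = 5 ^ K * G ^ K := mul_pow _ _ _
    _ ≤ 625 * xh D J ρ S := mul_le_mul h3 h2 (by positivity) (by norm_num)

/-! ### Expectations of the majorant -/

theorem x_Em_congr (R : Finset ι) {u u' v v' : ι → ℝ} (hu : ∀ p ∈ R, u p = u' p)
    (hv : ∀ p ∈ R, v p = v' p) (f : Finset ι → ℝ) : Em R u v f = Em R u' v' f := by
  rw [Em, Em]
  apply sum_congr rfl
  intro T hT
  rw [mem_powerset] at hT
  rw [prod_congr rfl (fun p hp => hu p (hT hp)),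
    prod_congr rfl (fun p hp => hv p (mem_sdiff.mp hp).1)]

theorem x_Em_pow (R : Finset ι) (u v : ι → ℝ) (z : ℝ) :
    Em R u v (fun T => z ^ T.card) = ∏ p ∈ R, (z * u p + v p) := by
  rw [Finset.prod_add, Em]
  apply sum_congr rfl
  intro T _
  rw [prod_mul_distrib, prod_const]
  ring

theorem x_Em_two (R : Finset ι) (w v : ι → ℝ) (f : Finset ι → ℝ) :
    Em R (fun p => 2 * w p) v f = Em R w v (fun T => 2 ^ T.card * f T) := by
  rw [Em, Em]
  apply sum_congr rfl
  intro T _
  rw [prod_mul_distrib, prod_const]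
  ring

theorem x_Em_nonneg (R : Finset ι) {u v : ι → ℝ} (hu : ∀ p ∈ R, 0 ≤ u p) (hv : ∀ p ∈ R, 0 ≤ v p)
    {f : Finset ι → ℝ} (hf : ∀ T, 0 ≤ f T) : 0 ≤ Em R u v f := by
  rw [Em]
  apply sum_nonneg
  intro T hT
  rw [mem_powerset] at hT
  apply mul_nonneg (mul_nonneg _ _) (hf T)
  · exact prod_nonneg fun p hp => hu p (hT hp)
  · exact prod_nonneg fun p hp => hv p (mem_sdiff.mp hp).1

/-- The inner weights. -/
noncomputable def xU (D : Dt ι) (p0 : ι) (p : ι) : ℝ := if p = p0 then 1 else 2 * D.w p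

/-- The outer weights. -/
noncomputable def xV (D : Dt ι) (p0 : ι) (p : ι) : ℝ := if p = p0 then 1 else 1 - D.w p

theorem xU_nonneg {D : Dt ι} {J : ℕ} {t : ℝ} (h : Reg D J t) (p0 p : ι) : 0 ≤ xU D p0 p := by
  rw [xU]
  split_ifs
  · norm_num
  · have := h.w_nonneg p
    linarith

theorem xV_nonneg {D : Dt ι} {J : ℕ} {t : ℝ} (h : Reg D J t) (p0 p : ι) : 0 ≤ xV D p0 p := by
  rw [xV]
  split_ifs
  · norm_num
  · have := h.w_le p
    linarith

/-- The bound for a range. -/
noncomputable def xB (D : Dt ι) (J ρ r : ℕ) : ℝ :=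
  (if r = ρ then 68 * Real.exp 31 else 1) *
    ((if r < J then Real.exp 31 else D.P0 r) * Real.exp (4 * tt (D.r r)))

theorem x_range {D : Dt ι} {J : ℕ} {t : ℝ} (h : Reg D J t) (p0 : ι) (r : ℕ) :
    Em (univ.filter (fun p => D.rg p = r)) (xU D p0) (xV D p0) (xphi D J (D.rg p0) r) ≤
      xB D J (D.rg p0) r := by
  set R := univ.filter (fun p => D.rg p = r) with hR
  have htt := tt_pos (D.r r)
  have hP := h.P0_ge r
  have hexp1 : 1 ≤ Real.exp (4 * tt (D.r r)) := Real.one_le_exp (by linarith)
  have he31 : 1 ≤ Real.exp 31 := Real.one_le_exp (by norm_num)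
  have hla : ∑ p ∈ R, D.w p ≤ 1 := h.la_le r
  by_cases hρ : r = D.rg p0
  · have e1 : xphi D J (D.rg p0) r = fun T => (16 : ℝ) ^ T.card := by
      funext T
      rw [xphi, if_pos (Or.inr hρ)]
    rw [e1, x_Em_pow, xB, if_pos hρ]
    have hp0 : p0 ∈ R := by
      rw [hR, mem_filter]
      exact ⟨mem_univ _, hρ.symm⟩
    rw [← mul_prod_erase R _ hp0]
    have h17 : 16 * xU D p0 p0 + xV D p0 p0 = 17 := by
      rw [xU, xV, if_pos rfl, if_pos rfl]
      norm_num
    rw [h17]
    have h2 : ∏ p ∈ R.erase p0, (16 * xU D p0 p + xV D p0 p) ≤ Real.exp 31 := by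
      calc ∏ p ∈ R.erase p0, (16 * xU D p0 p + xV D p0 p)
          ≤ ∏ p ∈ R.erase p0, Real.exp (31 * D.w p) := by
            apply prod_le_prod
            · intro p _
              have := xU_nonneg h p0 p
              have := xV_nonneg h p0 p
              positivity
            · intro p hp
              have hne := (mem_erase.mp hp).1
              rw [xU, xV, if_neg hne, if_neg hne]
              have := Real.add_one_le_exp (31 * D.w p)
              linarith
        _ = Real.exp (31 * ∑ p ∈ R.erase p0, D.w p) := by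
            rw [← Real.exp_sum, mul_sum]
        _ ≤ Real.exp 31 := by
            apply Real.exp_le_exp.mpr
            have h3 : ∑ p ∈ R.erase p0, D.w p ≤ ∑ p ∈ R, D.w p :=
              sum_le_sum_of_subset_of_nonneg (erase_subset _ _) fun p _ _ => h.w_nonneg p
            linarith
    have h4 : 1 / 4 ≤ (if r < J then Real.exp 31 else D.P0 r) := by
      split_ifs
      · linarith
      · exact hP
    have h5 : 1 / 4 ≤ (if r < J then Real.exp 31 else D.P0 r) * Real.exp (4 * tt (D.r r)) := by
      nlinarith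
    calc 17 * ∏ p ∈ R.erase p0, (16 * xU D p0 p + xV D p0 p) ≤ 17 * Real.exp 31 := by linarith
      _ = 68 * Real.exp 31 * (1 / 4) := by ring
      _ ≤ _ := mul_le_mul_of_nonneg_left h5 (by positivity)
  · have hcongr : Em R (xU D p0) (xV D p0) (xphi D J (D.rg p0) r) =
        Em R (fun p => 2 * D.w p) (fun p => 1 - D.w p) (xphi D J (D.rg p0) r) := by
      apply x_Em_congr
      · intro p hp
        have hne : p ≠ p0 := by
          rintro rfl
          rw [hR, mem_filter] at hp
          exact hρ hp.2.symm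
        rw [xU, if_neg hne]
      · intro p hp
        have hne : p ≠ p0 := by
          rintro rfl
          rw [hR, mem_filter] at hp
          exact hρ hp.2.symm
        rw [xV, if_neg hne]
    rw [hcongr, x_Em_two, xB, if_neg hρ, one_mul]
    by_cases hrJ : r < J
    · have e1 : (fun T : Finset ι => 2 ^ T.card * xphi D J (D.rg p0) r T) =
          fun T => (32 : ℝ) ^ T.card := by
        funext T
        rw [xphi, if_pos (Or.inl hrJ), ← mul_pow]
        norm_num
      rw [e1, if_pos hrJ]
      have h2 := Em_total_le R D.w (fun p _ => h.w_nonneg p) hla (z := 32) (by norm_num)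
      norm_num at h2
      calc _ ≤ Real.exp 31 := h2
        _ ≤ Real.exp 31 * Real.exp (4 * tt (D.r r)) := by nlinarith
    · have e1 : (fun T : Finset ι => 2 ^ T.card * xphi D J (D.rg p0) r T) =
          fun T => (if T = ∅ then 1 else 0) + (if D.r r < T.card then (32 : ℝ) ^ T.card else 0) := by
        funext T
        rw [xphi, if_neg (by tauto), mul_add]
        congr 1
        · split_ifs with hT
          · rw [hT]
            simp
          · simp
        · split_ifs with hT
          · rw [← mul_pow]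
            norm_num
          · simp
      rw [e1, if_neg hrJ, Em_add, Em_empty]
      have h2 := Em_tail R D.w (fun p _ => ⟨h.w_nonneg p, by linarith [h.w_le p]⟩) hla
        (z := 32) (by norm_num) (D.r r)
      have h3 : (32 : ℝ) ^ (D.r r + 1) * Real.exp 32 / ((D.r r + 1).factorial : ℝ) ≤
          tt (D.r r) := by
        rw [tt]
        apply div_le_div_of_nonneg_right _ (by positivity)
        apply mul_le_mul
        · exact pow_le_pow_left₀ (by norm_num) (by norm_num) _
        · exact Real.exp_le_exp.mpr (by norm_num)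
        · positivity
        · positivity
      have h4 : ∏ p ∈ R, (1 - D.w p) = D.P0 r := rfl
      rw [h4]
      have h5 := Real.add_one_le_exp (4 * tt (D.r r))
      calc D.P0 r + _ ≤ D.P0 r + tt (D.r r) := by linarith
        _ ≤ D.P0 r * (4 * tt (D.r r) + 1) := by nlinarith
        _ ≤ D.P0 r * Real.exp (4 * tt (D.r r)) :=
            mul_le_mul_of_nonneg_left h5 (by linarith)

theorem x_Em_xh {D : Dt ι} {J : ℕ} {t : ℝ} (h : Reg D J t) (p0 : ι) :
    Em univ (xU D p0) (xV D p0) (xh D J (D.rg p0)) ≤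
      68 * Real.exp 31 * (Real.exp 31 ^ J * D.Plow J * Real.exp 1) := by
  have e1 : xh D J (D.rg p0) = fun S => ∏ r ∈ range D.I,
    xphi D J (D.rg p0) r (S.filter (fun p => D.rg p = r)) := rfl
  rw [e1, Em_factor D.rg D.I h.rg_lt]
  have hP0 : ∀ i, 0 ≤ D.P0 i := fun i => by linarith [h.P0_ge i]
  calc ∏ r ∈ range D.I, Em (univ.filter (fun p => D.rg p = r)) (xU D p0) (xV D p0)
        (xphi D J (D.rg p0) r)
      ≤ ∏ r ∈ range D.I, xB D J (D.rg p0) r := by
        apply prod_le_prod
        · intro r _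
          exact x_Em_nonneg _ (fun p _ => xU_nonneg h p0 p) (fun p _ => xV_nonneg h p0 p)
            (xphi_nonneg D J _ r)
        · intro r _
          exact x_range h p0 r
    _ = 68 * Real.exp 31 * (Real.exp 31 ^ J * D.Plow J *
          Real.exp (4 * ∑ r ∈ range D.I, tt (D.r r))) := by
        simp only [xB]
        rw [prod_mul_distrib, prod_mul_distrib, ← Real.exp_sum, ← mul_sum]
        congr 1
        · rw [prod_ite_eq' (range D.I) (D.rg p0), if_pos (mem_range.mpr (h.rg_lt p0))]
        · congr 1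
          rw [← prod_range_mul_prod_Ico _ h.J_le, Dt.Plow]
          congr 1
          · rw [prod_congr rfl (fun r hr => if_pos (mem_range.mp hr)), prod_const, card_range]
          · apply prod_congr rfl
            intro r hr
            rw [if_neg]
            rw [mem_Ico] at hr
            omega
    _ ≤ _ := by
        apply mul_le_mul_of_nonneg_left _ (by positivity)
        have hPl : 0 ≤ D.Plow J := prod_nonneg fun i _ => hP0 i
        apply mul_le_mul_of_nonneg_left _ (by positivity)
        apply Real.exp_le_exp.mpr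
        have := h.tail
        have := h.t_le
        linarith

end Major

theorem excl : Excl := by
  intro J u0
  set Kc : ℝ := 625 * (68 * Real.exp 31 * (Real.exp 31 ^ J * Real.exp 1)) with hKc
  have he31 : 1 ≤ Real.exp 31 := Real.one_le_exp (by norm_num)
  have he1 : 1 ≤ Real.exp 1 := Real.one_le_exp (by norm_num)
  have hK1 : 1 ≤ Kc := by
    have h1 : 1 ≤ Real.exp 31 ^ J := one_le_pow₀ he31
    have h2 : 1 ≤ Real.exp 31 ^ J * Real.exp 1 := by nlinarith
    have h3 : 1 ≤ Real.exp 31 * (Real.exp 31 ^ J * Real.exp 1) := by nlinarith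
    rw [hKc]
    linarith
  have hK0 : 0 < Kc := by linarith
  refine ⟨((u0 : ℝ) + 1) ^ 2 * Kc ^ u0, by positivity, ?_⟩
  intro ι _ _ D t hreg κ _ _ hu hw W hW
  have hE : ∏ i, Ex D.w (wd D (W i)) = ∑ S : κ → Finset ι,
      (∏ p, ∏ i, (if p ∈ S i then D.w p else 1 - D.w p)) * ∏ i, wd D (W i) (S i) := by
    rw [← x_prod_Em D.w (fun p => 1 - D.w p) (fun i => wd D (W i))]
    apply prod_congr rfl
    intro i _
    rw [Ex_eq_Em]
  have hQ := x_Eq D.w (fun i => wd D (W i))
  rw [hQ, hE, ← sum_sub_distrib]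
  have hPl : 0 ≤ D.Plow J := prod_nonneg fun i _ => by linarith [hreg.P0_ge i]
  have hloc := fun (p : ι) (X : Finset κ) => x_local (hreg.w_nonneg p) (hreg.w_le p) (hw p) X
  have hstep : ∀ S : κ → Finset ι,
      |(∏ p, qe (D.w p) (univ.filter (fun i => p ∈ S i))) * ∏ i, wd D (W i) (S i) -
        (∏ p, ∏ i, (if p ∈ S i then D.w p else 1 - D.w p)) * ∏ i, wd D (W i) (S i)| ≤
      ∑ p, (∏ p', (if p' = p then ((Fintype.card κ : ℝ) + 1) ^ 2 * D.w p' ^ 2 else
        ∏ i, (if p' ∈ S i then 2 * D.w p' else 1 - D.w p'))) *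
          ∏ i, (625 * xh D J (D.rg p) (S i)) := by
    intro S
    rw [← sub_mul, abs_mul]
    have hsimp : ∀ (p : ι) (a b : ℝ), ∏ i, (if i ∈ univ.filter (fun i => p ∈ S i) then a else b) =
        ∏ i, (if p ∈ S i then a else b) := by
      intro p a b
      apply prod_congr rfl
      intro i _
      simp
    have h1 := x_prod_diff univ
      (fun p => qe (D.w p) (univ.filter (fun i => p ∈ S i)))
      (fun p => ∏ i, (if p ∈ S i then D.w p else 1 - D.w p))
      (fun p => ∏ i, (if p ∈ S i then 2 * D.w p else 1 - D.w p))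
      (fun p => ((Fintype.card κ : ℝ) + 1) ^ 2 * D.w p ^ 2)
      (by
        intro p _
        have := (hloc p (univ.filter (fun i => p ∈ S i))).1
        rw [hsimp] at this
        exact this)
      (by
        intro p _
        have := (hloc p (univ.filter (fun i => p ∈ S i))).2.1
        rw [hsimp, hsimp] at this
        exact this)
      (by
        intro p _
        have := (hloc p (univ.filter (fun i => p ∈ S i))).2.2
        rw [hsimp] at this
        exact this)
    have hF0 : 0 ≤ |∏ i, wd D (W i) (S i)| := abs_nonneg _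
    calc _ ≤ (∑ p, ∏ p', (if p' = p then ((Fintype.card κ : ℝ) + 1) ^ 2 * D.w p' ^ 2 else
        ∏ i, (if p' ∈ S i then 2 * D.w p' else 1 - D.w p'))) * |∏ i, wd D (W i) (S i)| :=
          mul_le_mul_of_nonneg_right h1 hF0
      _ = ∑ p, (∏ p', (if p' = p then ((Fintype.card κ : ℝ) + 1) ^ 2 * D.w p' ^ 2 else
        ∏ i, (if p' ∈ S i then 2 * D.w p' else 1 - D.w p'))) * |∏ i, wd D (W i) (S i)| := by
          rw [sum_mul]
      _ ≤ _ := by
          apply sum_le_sum
          intro p _
          apply mul_le_mul_of_nonneg_left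
          · rw [abs_prod]
            apply prod_le_prod (fun _ _ => abs_nonneg _)
            intro i _
            exact x_word hreg (D.rg p) (W i) (hW i) (S i)
          · apply prod_nonneg
            intro p' _
            split_ifs
            · positivity
            · apply prod_nonneg
              intro i _
              split_ifs
              · have := hreg.w_nonneg p'
                linarith
              · have := hreg.w_le p'
                linarith
  have hpoint : ∀ p : ι, ∑ S : κ → Finset ι,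
      (∏ p', (if p' = p then ((Fintype.card κ : ℝ) + 1) ^ 2 * D.w p' ^ 2 else
        ∏ i, (if p' ∈ S i then 2 * D.w p' else 1 - D.w p'))) *
          ∏ i, (625 * xh D J (D.rg p) (S i)) ≤
      ((u0 : ℝ) + 1) ^ 2 * D.w p ^ 2 * (Kc ^ u0 * D.Plow J ^ (Fintype.card κ)) := by
    intro p
    have h1 : ∀ S : κ → Finset ι,
        (∏ p', (if p' = p then ((Fintype.card κ : ℝ) + 1) ^ 2 * D.w p' ^ 2 else
          ∏ i, (if p' ∈ S i then 2 * D.w p' else 1 - D.w p'))) *
          ∏ i, (625 * xh D J (D.rg p) (S i)) =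
        ((Fintype.card κ : ℝ) + 1) ^ 2 * D.w p ^ 2 *
          ((∏ p', ∏ i, (if p' ∈ S i then xU D p p' else xV D p p')) *
            ∏ i, (625 * xh D J (D.rg p) (S i))) := by
      intro S
      rw [← mul_assoc]
      congr 1
      have h2 : ∀ p', (if p' = p then ((Fintype.card κ : ℝ) + 1) ^ 2 * D.w p' ^ 2 else
          ∏ i, (if p' ∈ S i then 2 * D.w p' else 1 - D.w p')) =
          (if p' = p then ((Fintype.card κ : ℝ) + 1) ^ 2 * D.w p ^ 2 else 1) *
            ∏ i, (if p' ∈ S i then xU D p p' else xV D p p') := by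
        intro p'
        by_cases hp : p' = p
        · rw [if_pos hp, if_pos hp, hp]
          have h3 : ∏ i, (if p ∈ S i then xU D p p else xV D p p) = 1 := by
            apply prod_eq_one
            intro i _
            rw [xU, xV, if_pos rfl, if_pos rfl]
            simp
          rw [h3, mul_one]
        · rw [if_neg hp, if_neg hp, one_mul]
          apply prod_congr rfl
          intro i _
          rw [xU, xV, if_neg hp, if_neg hp]
      rw [prod_congr rfl (fun p' _ => h2 p'), prod_mul_distrib, prod_ite_eq' univ p,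
        if_pos (mem_univ p)]
    rw [sum_congr rfl (fun S _ => h1 S), ← mul_sum,
      ← x_prod_Em (xU D p) (xV D p) (fun (_ : κ) T => 625 * xh D J (D.rg p) T), prod_const,
      Em_smul, card_univ]
    have hEm := x_Em_xh hreg p
    have hEm0 : 0 ≤ Em univ (xU D p) (xV D p) (xh D J (D.rg p)) :=
      x_Em_nonneg _ (fun q _ => xU_nonneg hreg p q) (fun q _ => xV_nonneg hreg p q)
        (xh_nonneg D J _)
    have hle : 625 * Em univ (xU D p) (xV D p) (xh D J (D.rg p)) ≤ Kc * D.Plow J := by
      rw [hKc]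
      calc 625 * Em univ (xU D p) (xV D p) (xh D J (D.rg p)) ≤
          625 * (68 * Real.exp 31 * (Real.exp 31 ^ J * D.Plow J * Real.exp 1)) := by linarith
        _ = _ := by ring
    have hcard : (Fintype.card κ : ℝ) ≤ u0 := by exact_mod_cast hu
    have hc0 : (0 : ℝ) ≤ Fintype.card κ := Nat.cast_nonneg _
    have hw0 := hreg.w_nonneg p
    apply mul_le_mul
    · apply mul_le_mul_of_nonneg_right _ (by positivity)
      apply pow_le_pow_left₀ (by positivity)
      linarith
    · calc (625 * Em univ (xU D p) (xV D p) (xh D J (D.rg p))) ^ Fintype.card κ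
          ≤ (Kc * D.Plow J) ^ Fintype.card κ := pow_le_pow_left₀ (by positivity) hle _
        _ = Kc ^ Fintype.card κ * D.Plow J ^ Fintype.card κ := mul_pow _ _ _
        _ ≤ Kc ^ u0 * D.Plow J ^ Fintype.card κ := by
            apply mul_le_mul_of_nonneg_right _ (by positivity)
            exact pow_le_pow_right₀ hK1 hu
    · positivity
    · positivity
  calc |∑ S : κ → Finset ι, ((∏ p, qe (D.w p) (univ.filter (fun i => p ∈ S i))) *
          ∏ i, wd D (W i) (S i) -
        (∏ p, ∏ i, (if p ∈ S i then D.w p else 1 - D.w p)) * ∏ i, wd D (W i) (S i))|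
      ≤ ∑ S : κ → Finset ι, |(∏ p, qe (D.w p) (univ.filter (fun i => p ∈ S i))) *
          ∏ i, wd D (W i) (S i) -
        (∏ p, ∏ i, (if p ∈ S i then D.w p else 1 - D.w p)) * ∏ i, wd D (W i) (S i)| :=
        abs_sum_le_sum_abs _ _
    _ ≤ ∑ S : κ → Finset ι, ∑ p, (∏ p', (if p' = p then ((Fintype.card κ : ℝ) + 1) ^ 2 * D.w p' ^ 2
        else ∏ i, (if p' ∈ S i then 2 * D.w p' else 1 - D.w p'))) *
          ∏ i, (625 * xh D J (D.rg p) (S i)) := sum_le_sum fun S _ => hstep S
    _ = ∑ p, ∑ S : κ → Finset ι, (∏ p', (if p' = p then ((Fintype.card κ : ℝ) + 1) ^ 2 * D.w p' ^ 2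
        else ∏ i, (if p' ∈ S i then 2 * D.w p' else 1 - D.w p'))) *
          ∏ i, (625 * xh D J (D.rg p) (S i)) := sum_comm
    _ ≤ ∑ p, ((u0 : ℝ) + 1) ^ 2 * D.w p ^ 2 * (Kc ^ u0 * D.Plow J ^ (Fintype.card κ)) :=
        sum_le_sum fun p _ => hpoint p
    _ = ((u0 : ℝ) + 1) ^ 2 * Kc ^ u0 * (∑ p, D.w p ^ 2) * D.Plow J ^ (Fintype.card κ) := by
        rw [← sum_mul, ← mul_sum]
        ring

end Pool.Agent.Helper1.LG
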