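import Pool.Agent.Helper1.LG.Defs
import Pool.Agent.Helper44.BV.Mass
import Pool.Agent.Helper18.BV.Assemble
import Pool.Agent.Helper18.BV.WtLemmas

set_option autoImplicit false

/-!
LG-G. A weight function and the total mass (`MassP` in `Defs.lean`).

`g`: a smooth bump function with values in `[0,1]`, support in `(1/2, 1)`, not identically `0`
(`Pool.Agent.Helper18.BV.exists_wt`). `Pool.Agent.Helper44.BV.Mass.mass : Mass` gives
`c log x ≤ ∑ Λ n wt g x n`; the numbers `n` that are not prime contribute at most `c / 2`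
(`Pool.Agent.Helper18.BV.nonprime_small`), so `Mn g x ≥ (c/2) log x` for large `x`.
-/

open Finset
open scoped ArithmeticFunction.vonMangoldt

namespace Pool.Agent.Helper1.LG

open Pool.Agent.Helper18.BV (wt IsWt)

theorem massP : MassP := by
  obtain ⟨g, hg, hne, hg1, -⟩ :=
    Pool.Agent.Helper18.BV.exists_wt (τ := 1 / 2) (by norm_num) le_rfl
  obtain ⟨c, C, X0, hc, -, hX0, hmass⟩ := Pool.Agent.Helper44.BV.mass g hg hne
  obtain ⟨X1, hX1, hsmall⟩ := Pool.Agent.Helper18.BV.nonprime_small hg (half_pos hc)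
  refine ⟨g, hg, hg1, c / 2, max X0 X1, half_pos hc, hX0.trans (le_max_left _ _), ?_⟩
  intro x hx
  have h1 := (hmass x ((le_max_left _ _).trans hx)).1
  have h2 := hsmall x ((le_max_right _ _).trans hx) ((Icc 1 ⌊x⌋₊).filter (fun n => ¬ n.Prime))
    (fun n hn => (mem_filter.1 hn).2)
  have hx3 : 3 ≤ x := (hX0.trans (le_max_left _ _)).trans hx
  have hlog : 1 ≤ Real.log x := by
    rw [Real.le_log_iff_exp_le (by linarith)]
    exact (Real.exp_one_lt_d9.le.trans (by norm_num)).trans hx3
  have h3 : Mn g x = ∑ n ∈ (Icc 1 ⌊x⌋₊).filter (fun n => n.Prime), Λ n * wt g x n := by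
    unfold Mn nu
    rw [sum_filter]
  rw [← sum_filter_add_sum_filter_not (Icc 1 ⌊x⌋₊) (fun n => n.Prime)
    (fun n => Λ n * wt g x n), ← h3] at h1
  nlinarith

end Pool.Agent.Helper1.LG
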