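import Pool.Agent.Helper1.LG.Defs

set_option autoImplicit false

/-!
LG-P. The choice of the parameters (`Params` in `Defs.lean`).

`ρ = 1/(9600 m)`, `J = ⌈10^11 H² m²⌉`, `K j = ⌈1600 H² 2^j/(J² ρ²)⌉` (so `H/ρ · 200 H 2^j/(J² ρ K j) ≤ 1/8`),
`t = (J + 2) tt (2m)`.
* `∑_{i ∈ [j, I)} r_i ρ/2^i ≤ 12 m ρ/2^j` for `j < J`: `r_i = 2m` for `i ≤ J`, `2 (m + i - J)` for `i > J`.
* `∑_j K j/2^j ≤ 1600 H²/(J ρ²) + 2`.
* so `4 ∑ K j · (12 m ρ/2^j) ≤ 48 m · 1600 H²/(J ρ) + 96 m ρ ≤ 1/100 + 1/100`, and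
  `∑_{i<I} r_i ρ/2^i ≤ 12 m ρ = 1/800`.
* `∑_{i<I} tt (r_i) ≤ (J + 2) tt (2m)` for `m ≥ 100`: `tt (r+2) ≤ tt r/4` for `r ≥ 200`.
* for `m → ∞` (with `J = O(H² m²)`) `t → 0` faster than any power: `t ≤ 1/1000` and
  `H/ρ · 2000 t = 9600 m H · 2000 t ≤ 1/8`. (E.g. `tt (2m) m^4 → 0`: factorials beat exponentials,
  `FloorSemiring.tendsto_pow_div_factorial_atTop`.)
-/

open Finset

namespace Pool.Agent.Helper1.LG

lemma sum_k (n : ℕ) : ∑ k ∈ range n, ((k : ℝ) + 1) / 2 ^ k ≤ 4 := by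
  have h : ∑ k ∈ range n, ((k : ℝ) + 1) / 2 ^ k = 4 - 2 * ((n : ℝ) + 2) / 2 ^ n := by
    induction n with
    | zero => norm_num
    | succ n ih =>
      rw [Finset.sum_range_succ, ih]
      push_cast
      field_simp
      ring
  rw [h]
  have : (0 : ℝ) ≤ 2 * ((n : ℝ) + 2) / 2 ^ n := by positivity
  linarith

lemma rr_le (m J j k : ℕ) (hm : 1 ≤ m) (hj : j ≤ J) :
    (rr m J (j + k) : ℝ) ≤ 2 * m * ((k : ℝ) + 1) := by
  unfold rr
  have h2 : j + k - J ≤ k := by omega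
  have : 2 * (m + (j + k - J)) ≤ 2 * m * (k + 1) := by
    have : k ≤ m * k := Nat.le_mul_of_pos_left k hm
    nlinarith
  exact_mod_cast this

lemma sum_r (m J j I : ℕ) (ρ : ℝ) (hm : 1 ≤ m) (hρ : 0 ≤ ρ) (hj : j ≤ J) :
    ∑ i ∈ Ico j I, (rr m J i : ℝ) * (ρ / 2 ^ i) ≤ 8 * m * ρ / 2 ^ j := by
  rw [Finset.sum_Ico_eq_sum_range]
  have h1 : ∑ k ∈ range (I - j), (rr m J (j + k) : ℝ) * (ρ / 2 ^ (j + k)) ≤
      ∑ k ∈ range (I - j), (2 * m * ρ / 2 ^ j) * (((k : ℝ) + 1) / 2 ^ k) := by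
    apply Finset.sum_le_sum
    intro k _
    calc (rr m J (j + k) : ℝ) * (ρ / 2 ^ (j + k)) ≤
          (2 * m * ((k : ℝ) + 1)) * (ρ / 2 ^ (j + k)) :=
          mul_le_mul_of_nonneg_right (rr_le m J j k hm hj) (by positivity)
      _ = (2 * m * ρ / 2 ^ j) * (((k : ℝ) + 1) / 2 ^ k) := by
          rw [pow_add]
          field_simp
  refine h1.trans ?_
  rw [← Finset.mul_sum]
  calc (2 * m * ρ / 2 ^ j) * ∑ k ∈ range (I - j), (((k : ℝ) + 1) / 2 ^ k) ≤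
        (2 * m * ρ / 2 ^ j) * 4 := mul_le_mul_of_nonneg_left (sum_k _) (by positivity)
    _ = 8 * m * ρ / 2 ^ j := by ring

lemma tt_pos (r : ℕ) : 0 < tt r := by
  unfold tt
  positivity

lemma tt_step (r : ℕ) (hr : 200 ≤ r) : tt (r + 2) ≤ tt r * (1 / 2) := by
  unfold tt
  have hf : (((r + 2 + 1).factorial : ℕ) : ℝ) =
      ((r : ℝ) + 3) * (((r : ℝ) + 2) * ((r + 1).factorial : ℝ)) := by
    rw [Nat.factorial_succ (r + 2), Nat.factorial_succ (r + 1)]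
    push_cast
    ring
  rw [hf]
  have hr' : (200 : ℝ) ≤ r := by exact_mod_cast hr
  have hF : (0 : ℝ) < ((r + 1).factorial : ℝ) := by exact_mod_cast Nat.factorial_pos _
  rw [div_mul_eq_mul_div, div_le_div_iff₀ (by positivity) hF]
  have h64 : (64 : ℝ) ^ (r + 2 + 1) = 64 ^ (r + 1) * 4096 := by
    rw [show r + 2 + 1 = (r + 1) + 2 by ring, pow_add]
    norm_num
  rw [h64]
  have hX : (0 : ℝ) ≤ 64 ^ (r + 1) * Real.exp 64 * ((r + 1).factorial : ℝ) := by positivity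
  have hY : (4096 : ℝ) ≤ 1 / 2 * (((r : ℝ) + 3) * ((r : ℝ) + 2)) := by nlinarith
  calc (64 : ℝ) ^ (r + 1) * 4096 * Real.exp 64 * ((r + 1).factorial : ℝ) =
        (64 ^ (r + 1) * Real.exp 64 * ((r + 1).factorial : ℝ)) * 4096 := by ring
    _ ≤ (64 ^ (r + 1) * Real.exp 64 * ((r + 1).factorial : ℝ)) *
        (1 / 2 * (((r : ℝ) + 3) * ((r : ℝ) + 2))) := mul_le_mul_of_nonneg_left hY hX
    _ = _ := by ring

lemma tt_iter (m k : ℕ) (hm : 100 ≤ m) : tt (2 * (m + k)) ≤ tt (2 * m) * (1 / 2) ^ k := by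
  induction k with
  | zero => simp
  | succ k ih =>
    have h := tt_step (2 * (m + k)) (by omega)
    have e : 2 * (m + (k + 1)) = 2 * (m + k) + 2 := by ring
    rw [e, pow_succ]
    calc tt (2 * (m + k) + 2) ≤ tt (2 * (m + k)) * (1 / 2) := h
      _ ≤ (tt (2 * m) * (1 / 2) ^ k) * (1 / 2) := by
          exact mul_le_mul_of_nonneg_right ih (by norm_num)
      _ = _ := by ring

lemma geo (J I : ℕ) : ∑ i ∈ range I, (1 / 2 : ℝ) ^ (i - J) ≤ (J : ℝ) + 2 := by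
  have h1 : ∑ i ∈ range I, (1 / 2 : ℝ) ^ (i - J) ≤ ∑ i ∈ range (J + I), (1 / 2 : ℝ) ^ (i - J) := by
    apply Finset.sum_le_sum_of_subset_of_nonneg
    · exact Finset.range_subset_range.mpr (by omega)
    · intro i _ _
      positivity
  have h2 : ∑ i ∈ range (J + I), (1 / 2 : ℝ) ^ (i - J) =
      ∑ i ∈ range J, (1 / 2 : ℝ) ^ (i - J) + ∑ k ∈ range I, (1 / 2 : ℝ) ^ (J + k - J) := by
    rw [Finset.sum_range_add]
  have h3 : ∑ i ∈ range J, (1 / 2 : ℝ) ^ (i - J) = (J : ℝ) := by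
    rw [Finset.sum_congr rfl (g := fun _ => (1 : ℝ))]
    · simp
    · intro i hi
      have : i - J = 0 := by
        have := Finset.mem_range.mp hi
        omega
      rw [this, pow_zero]
  have h4 : ∑ k ∈ range I, (1 / 2 : ℝ) ^ (J + k - J) ≤ 2 := by
    have e : ∀ k, J + k - J = k := fun k => by omega
    simp only [e]
    have h5 : ∑ k ∈ range I, (1 / 2 : ℝ) ^ k = 2 - 2 * (1 / 2) ^ I := by
      rw [geom_sum_eq (by norm_num)]
      ring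
    rw [h5]
    have : (0 : ℝ) ≤ 2 * (1 / 2) ^ I := by positivity
    linarith
  rw [h3] at h2
  linarith

lemma sum_tt (m J I : ℕ) (hm : 100 ≤ m) :
    ∑ i ∈ range I, tt (rr m J i) ≤ ((J : ℝ) + 2) * tt (2 * m) := by
  calc ∑ i ∈ range I, tt (rr m J i) ≤ ∑ i ∈ range I, tt (2 * m) * (1 / 2 : ℝ) ^ (i - J) := by
        apply Finset.sum_le_sum
        intro i _
        exact tt_iter m (i - J) hm
    _ = tt (2 * m) * ∑ i ∈ range I, (1 / 2 : ℝ) ^ (i - J) := by rw [Finset.mul_sum]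
    _ ≤ tt (2 * m) * ((J : ℝ) + 2) := mul_le_mul_of_nonneg_left (geo J I) (tt_pos _).le
    _ = _ := by ring

lemma exists_m (ε : ℝ) (hε : 0 < ε) : ∃ m : ℕ, 100 ≤ m ∧ (m : ℝ) ^ 3 * tt (2 * m) ≤ ε := by
  have h := FloorSemiring.tendsto_pow_div_factorial_atTop (512 : ℝ)
  have hE : 0 < ε / Real.exp 64 := by positivity
  have h2 := (h.eventually (ge_mem_nhds hE))
  obtain ⟨N, hN⟩ := Filter.eventually_atTop.mp h2
  refine ⟨max N 100, le_max_right _ _, ?_⟩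
  set m := max N 100 with hm
  have h3 := hN (2 * m + 1) (by have := le_max_left N 100; omega)
  have h4 : (m : ℝ) ^ 3 ≤ 8 ^ (2 * m + 1) := by
    have h5 : (m : ℝ) ≤ 2 ^ m := by exact_mod_cast (Nat.lt_two_pow_self (n := m)).le
    calc (m : ℝ) ^ 3 ≤ (2 ^ m) ^ 3 := pow_le_pow_left₀ (by positivity) h5 3
      _ = 8 ^ m := by
          rw [← pow_mul, mul_comm, pow_mul]
          norm_num
      _ ≤ 8 ^ (2 * m + 1) := pow_le_pow_right₀ (by norm_num) (by omega)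
  have h6 : (m : ℝ) ^ 3 * tt (2 * m) ≤
      Real.exp 64 * (512 ^ (2 * m + 1) / ((2 * m + 1).factorial : ℝ)) := by
    unfold tt
    have e : (512 : ℝ) ^ (2 * m + 1) = 8 ^ (2 * m + 1) * 64 ^ (2 * m + 1) := by
      rw [← mul_pow]
      norm_num
    rw [e]
    have hF : (0 : ℝ) < ((2 * m + 1).factorial : ℝ) := by exact_mod_cast Nat.factorial_pos _
    calc (m : ℝ) ^ 3 * (64 ^ (2 * m + 1) * Real.exp 64 / ((2 * m + 1).factorial : ℝ)) ≤
          8 ^ (2 * m + 1) * (64 ^ (2 * m + 1) * Real.exp 64 / ((2 * m + 1).factorial : ℝ)) :=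
          mul_le_mul_of_nonneg_right h4 (by positivity)
      _ = _ := by ring
  refine h6.trans ?_
  calc Real.exp 64 * (512 ^ (2 * m + 1) / ((2 * m + 1).factorial : ℝ)) ≤
        Real.exp 64 * (ε / Real.exp 64) := mul_le_mul_of_nonneg_left h3 (Real.exp_pos _).le
    _ = ε := by
        field_simp

theorem params : Params := by
  intro H hH
  have hH0 : 0 < H := by linarith
  obtain ⟨m, hm, hmε⟩ := exists_m (1 / (10 ^ 20 * H ^ 3)) (by positivity)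
  have hm1 : 1 ≤ m := by omega
  have hm1' : (1 : ℝ) ≤ m := by exact_mod_cast hm1
  have hm0 : (0 : ℝ) < m := by linarith
  set J : ℕ := ⌈10 ^ 11 * H ^ 2 * (m : ℝ) ^ 2⌉₊ with hJ
  have hJge : 10 ^ 11 * H ^ 2 * (m : ℝ) ^ 2 ≤ J := Nat.le_ceil _
  have hJpos' : 0 < 10 ^ 11 * H ^ 2 * (m : ℝ) ^ 2 := by positivity
  have hJ0 : (0 : ℝ) < J := lt_of_lt_of_le hJpos' hJge
  have hJn : 0 < J := by exact_mod_cast hJ0
  have hJlt : (J : ℝ) < 10 ^ 11 * H ^ 2 * (m : ℝ) ^ 2 + 1 := Nat.ceil_lt_add_one hJpos'.le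
  set ρ : ℝ := 1 / (9600 * m) with hρ
  have hρ0 : 0 < ρ := by positivity
  have hmρ : (m : ℝ) * ρ = 1 / 9600 := by
    rw [hρ]
    field_simp
  set Kr : ℕ → ℝ := fun j => 1600 * H ^ 2 * 2 ^ j / ((J : ℝ) ^ 2 * ρ ^ 2) with hKr
  have hKr0 : ∀ j, 0 < Kr j := fun j => by
    simp only [hKr]
    positivity
  set K : Fin J → ℕ := fun j => ⌈Kr j⌉₊ with hK
  have hKge : ∀ j : Fin J, Kr j ≤ K j := fun j => Nat.le_ceil _
  have hKlt : ∀ j : Fin J, (K j : ℝ) < Kr j + 1 := fun j => Nat.ceil_lt_add_one (hKr0 j).le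
  have hK0 : ∀ j : Fin J, (0 : ℝ) < K j := fun j => lt_of_lt_of_le (hKr0 j) (hKge j)
  have hKn : ∀ j : Fin J, 0 < K j := fun j => by exact_mod_cast hK0 j
  -- the tails
  set t : ℝ := ((J : ℝ) + 2) * tt (2 * m) with ht
  have ht0 : 0 ≤ t := by
    have := (tt_pos (2 * m)).le
    positivity
  have hHm : 1 ≤ H ^ 2 * (m : ℝ) ^ 2 := by
    have h1 : 1 ≤ H ^ 2 := by nlinarith
    have h2 : 1 ≤ (m : ℝ) ^ 2 := by nlinarith
    nlinarith
  have htB : (m : ℝ) * H * t ≤ 4 / 10 ^ 9 := by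
    have h1 : (J : ℝ) + 2 ≤ 4 * 10 ^ 11 * (H ^ 2 * (m : ℝ) ^ 2) := by nlinarith
    have h2 : t ≤ 4 * 10 ^ 11 * (H ^ 2 * (m : ℝ) ^ 2) * tt (2 * m) := by
      rw [ht]
      exact mul_le_mul_of_nonneg_right h1 (tt_pos _).le
    calc (m : ℝ) * H * t ≤ (m : ℝ) * H * (4 * 10 ^ 11 * (H ^ 2 * (m : ℝ) ^ 2) * tt (2 * m)) :=
          mul_le_mul_of_nonneg_left h2 (by positivity)
      _ = 4 * 10 ^ 11 * H ^ 3 * ((m : ℝ) ^ 3 * tt (2 * m)) := by ring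
      _ ≤ 4 * 10 ^ 11 * H ^ 3 * (1 / (10 ^ 20 * H ^ 3)) :=
          mul_le_mul_of_nonneg_left hmε (by positivity)
      _ = 4 / 10 ^ 9 := by
          field_simp
  have htm : t ≤ (m : ℝ) * H * t := by
    have : 1 ≤ (m : ℝ) * H := by nlinarith
    nlinarith
  -- the sum of the `K j / 2 ^ j`
  have hKsum : ∑ j : Fin J, (K j : ℝ) / 2 ^ (j : ℕ) ≤ 1600 * H ^ 2 / ((J : ℝ) * ρ ^ 2) + 2 := by
    have h1 : ∑ j : Fin J, (K j : ℝ) / 2 ^ (j : ℕ) ≤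
        ∑ j : Fin J, (1600 * H ^ 2 / ((J : ℝ) ^ 2 * ρ ^ 2) + (1 / 2 : ℝ) ^ (j : ℕ)) := by
      apply Finset.sum_le_sum
      intro j _
      have h2 := (hKlt j).le
      have h3 : (K j : ℝ) / 2 ^ (j : ℕ) ≤ (Kr j + 1) / 2 ^ (j : ℕ) :=
        div_le_div_of_nonneg_right h2 (by positivity)
      refine h3.trans (le_of_eq ?_)
      simp only [hKr]
      have e : (1 / 2 : ℝ) ^ (j : ℕ) = 1 / 2 ^ (j : ℕ) := by rw [div_pow, one_pow]
      rw [add_div, e]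
      congr 1
      field_simp
    refine h1.trans ?_
    rw [Finset.sum_add_distrib]
    have h4 : ∑ _j : Fin J, (1600 * H ^ 2 / ((J : ℝ) ^ 2 * ρ ^ 2)) =
        1600 * H ^ 2 / ((J : ℝ) * ρ ^ 2) := by
      rw [Finset.sum_const, Finset.card_univ, Fintype.card_fin, nsmul_eq_mul]
      field_simp
    have h5 : ∑ j : Fin J, (1 / 2 : ℝ) ^ (j : ℕ) ≤ 2 := by
      rw [Fin.sum_univ_eq_sum_range (fun j => (1 / 2 : ℝ) ^ j) J]
      have h6 : ∑ k ∈ range J, (1 / 2 : ℝ) ^ k = 2 - 2 * (1 / 2) ^ J := by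
        rw [geom_sum_eq (by norm_num)]
        ring
      rw [h6]
      have : (0 : ℝ) ≤ 2 * (1 / 2) ^ J := by positivity
      linarith
    rw [h4]
    linarith
  have hmain : ∀ I : ℕ, ∑ j : Fin J, (K j : ℝ) * ∑ i ∈ Ico (j : ℕ) I, (rr m J i : ℝ) * (ρ / 2 ^ i) ≤
      1 / 200 := by
    intro I
    have h1 : ∑ j : Fin J, (K j : ℝ) * ∑ i ∈ Ico (j : ℕ) I, (rr m J i : ℝ) * (ρ / 2 ^ i) ≤
        ∑ j : Fin J, (8 * (m * ρ)) * ((K j : ℝ) / 2 ^ (j : ℕ)) := by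
      apply Finset.sum_le_sum
      intro j _
      have h2 := sum_r m J (j : ℕ) I ρ hm1 hρ0.le j.2.le
      calc (K j : ℝ) * ∑ i ∈ Ico (j : ℕ) I, (rr m J i : ℝ) * (ρ / 2 ^ i) ≤
            (K j : ℝ) * (8 * m * ρ / 2 ^ (j : ℕ)) :=
            mul_le_mul_of_nonneg_left h2 (hK0 j).le
        _ = _ := by ring
    refine h1.trans ?_
    rw [← Finset.mul_sum, hmρ]
    have h3 : 1600 * H ^ 2 / ((J : ℝ) * ρ ^ 2) ≤ 2 := by
      rw [div_le_iff₀ (by positivity)]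
      have h4 : 10 ^ 11 * H ^ 2 * (m : ℝ) ^ 2 * ρ ^ 2 ≤ (J : ℝ) * ρ ^ 2 :=
        mul_le_mul_of_nonneg_right hJge (by positivity)
      have h5 : 10 ^ 11 * H ^ 2 * (m : ℝ) ^ 2 * ρ ^ 2 = 10 ^ 11 * H ^ 2 * (1 / 9600) ^ 2 := by
        rw [← hmρ]
        ring
      rw [h5] at h4
      nlinarith [sq_nonneg H]
    nlinarith
  refine ⟨m, J, ρ, K, hJn, hρ0, ?_, hKn, t, ht0, ?_, ?_, ?_, ?_⟩
  · rw [hρ, div_le_div_iff₀ (by positivity) (by norm_num)]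
    nlinarith
  · have : (4 : ℝ) / 10 ^ 9 ≤ 1 / 1000 := by norm_num
    linarith
  · intro I
    exact sum_tt m J I hm
  · intro j
    have h1 : H / ρ * (200 * H * 2 ^ (j : ℕ) / ((J : ℝ) ^ 2 * ρ * K j)) ≤ 1 / 8 := by
      have h2 := hKge j
      simp only [hKr] at h2
      rw [div_le_iff₀ (by positivity)] at h2
      have e : H / ρ * (200 * H * 2 ^ (j : ℕ) / ((J : ℝ) ^ 2 * ρ * K j)) =
          (200 * H ^ 2 * 2 ^ (j : ℕ)) / (K j * ((J : ℝ) ^ 2 * ρ ^ 2)) := by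
        have := (hK0 j).ne'
        field_simp
      rw [e, div_le_div_iff₀ (mul_pos (hK0 j) (by positivity)) (by norm_num)]
      nlinarith
    have h3 : H / ρ * (2000 * t) ≤ 1 / 8 := by
      have e : H / ρ * (2000 * t) = 9600 * 2000 * (m * H * t) := by
        rw [hρ]
        field_simp
      rw [e]
      nlinarith
    rw [mul_add]
    linarith
  · intro I hI
    have h1 := hmain I
    have h2 := sum_r m J 0 I ρ hm1 hρ0.le (Nat.zero_le _)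
    rw [Nat.Ico_zero_eq_range, pow_zero, div_one] at h2
    have h3 : 8 * (m : ℝ) * ρ = 8 / 9600 := by
      rw [mul_assoc, hmρ]
      norm_num
    rw [h3] at h2
    constructor
    · linarith
    · linarith

end Pool.Agent.Helper1.LG
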