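import Pool.Agent.Helper1.LG.KeyEst
import Pool.Agent.Helper1.LG.CoreEnd
import Pool.Agent.Helper1.LG.Params
import Pool.Agent.Helper1.LG.BSp
import Pool.Agent.Helper1.LG.MassP

set_option autoImplicit false

/-!
LG-D3 (helper1). The concrete frame.
-/

open Finset

namespace Pool.Agent.Helper1.LG

open Pool.Agent.Helper1.MT (supp cls pr PS lev)
open Pool.Agent.Helper18.BV (wt IsWt)

section Ex

variable {ι : Type} [Fintype ι] [DecidableEq ι]

theorem Ex_nonneg {w : ι → ℝ} (h0 : ∀ p, 0 ≤ w p) (h1 : ∀ p, w p ≤ 1) {f : Finset ι → ℝ}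
    (hf : ∀ S, 0 ≤ f S) : 0 ≤ Ex w f := by
  unfold Ex
  refine Finset.sum_nonneg fun S _ => mul_nonneg (mul_nonneg ?_ ?_) (hf S)
  · exact Finset.prod_nonneg fun p _ => h0 p
  · exact Finset.prod_nonneg fun p _ => sub_nonneg.2 (h1 p)

theorem wd_eq {J : ℕ} (D : Dt ι) (a b c d : Lt J) (S : Finset ι) :
    wd D ![a, b, c, d] S = Fn D a S * Fn D b S * Fn D c S * Fn D d S := by
  unfold wd
  rw [Fin.prod_univ_four]
  rfl

theorem Fn_one {J : ℕ} (D : Dt ι) (S : Finset ι) : Fn D (.one : Lt J) S = 1 := rfl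

theorem one_sub_sum {J : ℕ} (D : Dt ι) (s : Finset (Fin J)) (S : Finset ι) :
    1 - ∑ j ∈ s, Fn D (.md j) S =
      ∑ o ∈ insertNone s, (if o = none then 1 else -1) * Fn D (ofO o) S := by
  rw [Finset.sum_insertNone]
  simp only [ofO, Fn_one, if_true, mul_one, reduceCtorEq, if_false, neg_mul, one_mul]
  rw [Finset.sum_neg_distrib]
  ring

theorem quad_eq {J : ℕ} (D : Dt ι) (s : Finset (Fin J)) :
    ∑ o ∈ insertNone s, ∑ o' ∈ insertNone s,
      (if o = none then 1 else -1) * (if o' = none then 1 else -1) *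
        Ex D.w (wd D ![ofO o, ofO o', .maj, .one]) =
      Ex D.w (fun S => Fn D (.maj : Lt J) S * (1 - ∑ j ∈ s, Fn D (.md j) S) ^ 2) := by
  have h1 : (fun S => Fn D (.maj : Lt J) S * (1 - ∑ j ∈ s, Fn D (.md j) S) ^ 2) =
      fun S => ∑ o ∈ insertNone s, ∑ o' ∈ insertNone s,
        ((if o = none then (1 : ℝ) else -1) * (if o' = none then 1 else -1)) *
          wd D ![ofO o, ofO o', .maj, .one] S := by
    funext S
    rw [one_sub_sum, sq, Finset.sum_mul_sum, Finset.mul_sum]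
    refine Finset.sum_congr rfl fun o _ => ?_
    rw [Finset.mul_sum]
    refine Finset.sum_congr rfl fun o' _ => ?_
    rw [wd_eq, Fn_one]
    ring
  rw [h1, Ex_sum]
  refine Finset.sum_congr rfl fun o _ => ?_
  rw [Ex_sum]
  refine Finset.sum_congr rfl fun o' _ => ?_
  rw [Ex_smul]

end Ex

theorem Om_nonempty (x : ℝ) : (Om x).Nonempty := by
  unfold Om
  have hP : 0 < Ps x := primorial_pos _
  rcases Nat.eq_or_lt_of_le (Nat.succ_le_of_lt hP) with h | h
  · refine ⟨0, ?_⟩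
    rw [Finset.mem_filter, Finset.mem_range]
    refine ⟨hP, ?_⟩
    rw [← h]
    exact Nat.coprime_one_right 0
  · refine ⟨1, ?_⟩
    rw [Finset.mem_filter, Finset.mem_range]
    exact ⟨h, Nat.coprime_one_left _⟩

/-- The concrete frame. -/
noncomputable def fr (g : ℝ → ℝ) (ρ t A c : ℝ) (m J u0 : ℕ) (K : Fin J → ℕ) (x : ℝ) {Y : ℕ}
    (h : Fin Y → ℤ) : Fr Y J where
  K := K
  F := Icc 1 ⌊x⌋₊
  Ω := Om x
  ν := nu g x
  B := Bs x h
  v := fun n i l => Fn (Dx ρ m J x) l (sg ρ x (h i) n)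
  E := fun W => Ex (wl ρ x) (wd (Dx ρ m J x) W)
  e := fun j => Ex (wl ρ x) (fun S => Fn (Dx ρ m J x) (.md j : Lt J) S ^ 2)
  lv := lv (Dx ρ m J x) ρ
  u0 := u0
  M := Mn g x
  Plow := (Dx ρ m J x).Plow J
  Pall := (Dx ρ m J x).Pall
  c5 := 10 ^ 5 * Real.exp (15 * J)
  t2 := 2000 * t
  ε1 := 1 / Real.log x ^ A
  ε2 := c / Real.log x ^ 2

theorem fr_ok {g : ℝ → ℝ} (hg : IsWt g) {ρ t A c : ℝ} {m J u0 : ℕ} {K : Fin J → ℕ} {x : ℝ}
    (hρ : 0 < ρ) (ht0 : 0 ≤ t) (hc : 0 < c) (hK : ∀ j, 0 < K j) (hx : 1 ≤ x)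
    (hu0 : 4 * ∑ j, K j + 1 ≤ u0)
    (hreg : Reg (Dx ρ m J x) J t) (hlev : ∀ I : ℕ, J ≤ I →
      4 * ∑ j : Fin J, (K j : ℝ) * ∑ i ∈ Ico (j : ℕ) I, (rr m J i : ℝ) * (ρ / 2 ^ i) ≤ 1 / 50 ∧
      2 * ∑ j : Fin J, (K j : ℝ) * ∑ i ∈ Ico (j : ℕ) I, (rr m J i : ℝ) * (ρ / 2 ^ i) +
        ∑ i ∈ range I, (rr m J i : ℝ) * (ρ / 2 ^ i) ≤ 1 / 50)
    {Y : ℕ} {h : Fin Y → ℤ}
    (hest : ∀ W : Fin Y → Fin 4 → Lt J, (UW W).card ≤ u0 →
      ∑ i, ∑ l, lv (Dx ρ m J x) ρ (W i l) ≤ 1 / 50 →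
      |∑ n ∈ (Icc 1 ⌊x⌋₊).filter (fun n => UW W ⊆ Bs x h n),
          nu g x n * ∏ i, ∏ l, Fn (Dx ρ m J x) (W i l) (sg ρ x (h i) n) -
        Mn g x * dn (Om x) (Bs x h) (UW W) *
          ∏ i, Ex (wl ρ x) (wd (Dx ρ m J x) (W i))| ≤
        1 / Real.log x ^ A + (c / Real.log x ^ 2) * Mn g x *
          dn (Om x) (Bs x h) (UW W) * (Dx ρ m J x).Plow J ^ (UW W).card) :
    (fr g ρ t A c m J u0 K x h).Ok := by
  obtain ⟨o1, o2, o3, o4, o5⟩ := onePos _ (Dx ρ m J x) J t hreg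
  have hw0 : ∀ p, 0 ≤ wl ρ x p := hreg.w_nonneg
  have hw1 : ∀ p, wl ρ x p ≤ 1 := fun p => (hreg.w_le p).trans (by norm_num)
  have hP0 : ∀ i, 0 ≤ (Dx ρ m J x).P0 i := fun i => by
    have := hreg.P0_ge i
    linarith
  have hL : 0 ≤ Real.log x := Real.log_nonneg hx
  exact
  { J_pos := hreg.J_pos
    K_pos := hK
    nu_nonneg := fun n _ => nu_nonneg hg x n
    v_one := fun n i => rfl
    v_maj := fun n i => by
      show 0 ≤ ∏ k ∈ range (Dx ρ m J x).I, (Dx ρ m J x).A k (sg ρ x (h i) n)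
      exact Finset.prod_nonneg fun k _ => (hreg.A_facts k _).1
    O_ne := Om_nonempty x
    E_blank := by
      show Ex (wl ρ x) (wd (Dx ρ m J x) (blank J)) = 1
      have : wd (Dx ρ m J x) (blank J) = fun _ => 1 := funext fun S => wd_blank _ _
      rw [this, Ex_one]
    mean1 := fun j => by
      show Ex (wl ρ x) (wd (Dx ρ m J x) ![.md j, .one, .one, .one]) = 0
      have : wd (Dx ρ m J x) ![.md j, .one, .one, .one] = Fn (Dx ρ m J x) (.md j) := by
        funext S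
        rw [wd_eq]
        simp only [Fn_one, mul_one]
      rw [this]
      exact o1 j
    mean2 := fun j => by
      show Ex (wl ρ x) (wd (Dx ρ m J x) ![.one, .md j, .one, .one]) = 0
      have : wd (Dx ρ m J x) ![.one, .md j, .one, .one] = Fn (Dx ρ m J x) (.md j) := by
        funext S
        rw [wd_eq]
        simp only [Fn_one, mul_one, one_mul]
      rw [this]
      exact o1 j
    orth := fun i j hij => by
      show Ex (wl ρ x) (wd (Dx ρ m J x) ![.md i, .md j, .one, .one]) = 0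
      have : wd (Dx ρ m J x) ![.md i, .md j, .one, .one] =
          fun S => Fn (Dx ρ m J x) (.md i) S * Fn (Dx ρ m J x) (.md j) S := by
        funext S
        rw [wd_eq]
        simp only [Fn_one, mul_one]
      rw [this]
      exact o2 i j hij
    sq := fun j => by
      show Ex (wl ρ x) (wd (Dx ρ m J x) ![.md j, .md j, .one, .one]) =
        Ex (wl ρ x) (fun S => Fn (Dx ρ m J x) (.md j : Lt J) S ^ 2)
      have : wd (Dx ρ m J x) ![.md j, .md j, .one, .one] =
          fun S => Fn (Dx ρ m J x) (.md j) S ^ 2 := by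
        funext S
        rw [wd_eq]
        simp only [Fn_one, mul_one]
        ring
      rw [this]
    e_nonneg := fun j => Ex_nonneg hw0 hw1 fun S => sq_nonneg _
    bound := fun W hW => o4 W hW
    quad := fun s => by
      show ∑ o ∈ insertNone s, ∑ o' ∈ insertNone s,
        (if o = none then 1 else -1) * (if o' = none then 1 else -1) *
        Ex (Dx ρ m J x).w (wd (Dx ρ m J x) ![ofO o, ofO o', .maj, .one]) ≤ _
      rw [quad_eq]
      exact o5 s
    M_nonneg := Mn_nonneg hg x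
    Plow_nonneg := Plow_nonneg hreg J
    Plow_le := by
      show (Dx ρ m J x).Plow J ≤ 1
      exact Finset.prod_le_one (fun i _ => hP0 i) fun i _ => hreg.P0_le_one i
    Pall_nonneg := by
      show 0 ≤ (Dx ρ m J x).Pall
      exact Finset.prod_nonneg fun i _ => hP0 i
    c5_ge := by
      show 1 ≤ 10 ^ 5 * Real.exp (15 * J)
      have : 1 ≤ Real.exp (15 * J) := Real.one_le_exp (by positivity)
      linarith
    t2_nonneg := by
      show 0 ≤ 2000 * t
      positivity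
    e1_nonneg := by
      show 0 ≤ 1 / Real.log x ^ A
      exact div_nonneg zero_le_one (Real.rpow_nonneg hL _)
    e2_nonneg := by
      show 0 ≤ c / Real.log x ^ 2
      positivity
    lv_nonneg := fun l => by
      show 0 ≤ lv (Dx ρ m J x) ρ l
      cases l with
      | one => exact le_rfl
      | maj => exact Finset.sum_nonneg fun i _ => by positivity
      | md j => exact Finset.sum_nonneg fun i _ => by positivity
    lv_one := rfl
    u0_ge := hu0
    lev4 := (hlev _ hreg.J_le).1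
    lev2 := (hlev _ hreg.J_le).2
    est := hest }

end Pool.Agent.Helper1.LG
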