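import Pool.Agent.Helper1.LG.Defs

set_option autoImplicit false

/-!
LG-E. From the primes to the indices (`LargeGaps` from `MainGaps`, see `Defs.lean`).

Apply `MainGaps` with `x = N`. A prime `p ≤ N` without other primes in `[p - ⌊C log N⌋, p + ⌊C log N⌋]`
is `p = nth Prime (k-1)`, `k = π(p) ≥ 1`, `k ≤ p ≤ N`, and
`nth Prime k ≥ p + ⌊C log N⌋ + 1 > p + C log k`, `nth Prime (k-2) < p - C log k` for `k ≥ 2`, so
`k` is in the set on the right (the prime `p = 2`, `k = 1`, contributes a bounded amount and can be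
absorbed: replace `c` by `c/2`). By Chebyshev `k = π(p) ≤ C' p/log p` (see the pool: `primeCounting`
bounds, or Mathlib's `Chebyshev`), so `1/k ≥ log p/(C' p)`. `p ↦ k` is injective.
See Helper30/Gap (`nth_lt`, ...) for facts on consecutive primes.
-/

open Finset

namespace Pool.Agent.Helper1.LG

/-- Chebyshev's upper bound. -/
theorem gaps_pi_le {p : ℕ} (hp : 2 ≤ p) : (Nat.primeCounting p : ℝ) * Real.log p ≤ 5 * p := by
  have hp1 : (2 : ℝ) ≤ p := by exact_mod_cast hp
  have hp0 : (0 : ℝ) < p := by linarith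
  have h := Chebyshev.pi_le_log4_mul_div (x := (p : ℝ)) (by linarith)
  rw [Nat.floor_natCast] at h
  have hlog : 0 < Real.log p := Real.log_pos (by linarith)
  have hsq : 0 < Real.sqrt p := Real.sqrt_pos.mpr hp0
  have hlogsq : Real.log (Real.sqrt p) = Real.log p / 2 := by
    rw [Real.sqrt_eq_rpow, Real.log_rpow hp0]; ring
  have h4 : Real.log 4 = 2 * Real.log 2 := by
    rw [show (4 : ℝ) = 2 ^ 2 by norm_num, Real.log_pow]; norm_num
  have hl2 := Real.log_two_lt_d9
  have h1 : Real.log p ≤ 2 * Real.sqrt p := by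
    have := Real.log_le_sub_one_of_pos hsq
    rw [hlogsq] at this
    linarith
  have h2 : Real.sqrt p * Real.log p ≤ 2 * p := by
    have h3 : Real.sqrt p * Real.sqrt p = p := Real.mul_self_sqrt hp0.le
    nlinarith
  calc (Nat.primeCounting p : ℝ) * Real.log p
      ≤ (Real.log 4 * p / Real.log (Real.sqrt p) + Real.sqrt p) * Real.log p := by
        exact mul_le_mul_of_nonneg_right h hlog.le
    _ = 4 * Real.log 2 * p + Real.sqrt p * Real.log p := by
        rw [hlogsq, h4]
        field_simp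
        ring
    _ ≤ 5 * p := by nlinarith

theorem gaps_key {C : ℝ} (hC : 0 < C) {N p : ℕ} (hpN : p ≤ N) (hp : p.Prime) (hp3 : 3 ≤ p)
    (hiso : ∀ h ∈ Icc (-(⌊C * Real.log N⌋₊ : ℤ)) ⌊C * Real.log N⌋₊, h ≠ 0 →
        ¬ ((p : ℤ) + h).natAbs.Prime) :
    Nat.count Nat.Prime p + 1 ∈ (Icc 2 N).filter (fun n : ℕ =>
      C * Real.log n ≤ ((Nat.nth Nat.Prime n : ℕ) : ℝ) - ((Nat.nth Nat.Prime (n - 1) : ℕ) : ℝ) ∧
      C * Real.log n ≤
        ((Nat.nth Nat.Prime (n - 1) : ℕ) : ℝ) - ((Nat.nth Nat.Prime (n - 2) : ℕ) : ℝ)) := by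
  set k := Nat.count Nat.Prime p with hk
  have hkp : k < p := by
    have h1 : Nat.count Nat.Prime p ≤ p := Nat.count_le _
    by_contra hcon
    have h2 : Nat.count Nat.Prime p = p := by omega
    rw [Nat.count_iff_forall] at h2
    exact absurd (h2 0 (by omega)) (by norm_num)
  have hk1 : 1 ≤ k := by
    have h1 : Nat.count Nat.Prime 3 ≤ Nat.count Nat.Prime p := Nat.count_monotone _ hp3
    have h2 : Nat.count Nat.Prime 3 = 1 := by decide
    omega
  have hnk : Nat.nth Nat.Prime k = p := Nat.nth_count hp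
  have hlt1 : p < Nat.nth Nat.Prime (k + 1) := by
    calc p = Nat.nth Nat.Prime k := hnk.symm
      _ < _ := Nat.nth_strictMono Nat.infinite_setOfPred_prime (by omega)
  have hlt2 : Nat.nth Nat.Prime (k - 1) < p := by
    calc Nat.nth Nat.Prime (k - 1) < Nat.nth Nat.Prime k :=
          Nat.nth_strictMono Nat.infinite_setOfPred_prime (by omega)
      _ = p := hnk
  have hpr1 : (Nat.nth Nat.Prime (k + 1)).Prime :=
    Nat.nth_mem_of_infinite Nat.infinite_setOfPred_prime _
  have hpr2 : (Nat.nth Nat.Prime (k - 1)).Prime :=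
    Nat.nth_mem_of_infinite Nat.infinite_setOfPred_prime _
  set q := Nat.nth Nat.Prime (k + 1) with hq
  set q' := Nat.nth Nat.Prime (k - 1) with hq'
  set M := ⌊C * Real.log N⌋₊ with hM
  have hNr : ((k + 1 : ℕ) : ℝ) ≤ N := by exact_mod_cast (by omega : k + 1 ≤ N)
  have hk0 : (0 : ℝ) < ((k + 1 : ℕ) : ℝ) := by positivity
  have hlog : C * Real.log ((k + 1 : ℕ) : ℝ) ≤ C * Real.log N :=
    mul_le_mul_of_nonneg_left (Real.log_le_log hk0 hNr) hC.le
  have hMlt : C * Real.log N < M + 1 := Nat.lt_floor_add_one _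
  have hg1 : M + 1 ≤ q - p := by
    by_contra hcon
    have h1 := hiso ((q : ℤ) - p) (by rw [Finset.mem_Icc]; omega) (by omega)
    apply h1
    have h2 : ((p : ℤ) + ((q : ℤ) - p)).natAbs = q := by omega
    rw [h2]
    exact hpr1
  have hg2 : M + 1 ≤ p - q' := by
    by_contra hcon
    have h1 := hiso ((q' : ℤ) - p) (by rw [Finset.mem_Icc]; omega) (by omega)
    apply h1
    have h2 : ((p : ℤ) + ((q' : ℤ) - p)).natAbs = q' := by omega
    rw [h2]
    exact hpr2
  rw [Finset.mem_filter, Finset.mem_Icc]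
  refine ⟨⟨by omega, by omega⟩, ?_, ?_⟩
  · rw [Nat.add_sub_cancel, hnk]
    have h1 : (M : ℝ) + 1 ≤ (q : ℝ) - p := by
      have : M + 1 + p ≤ q := by omega
      have h2 : ((M + 1 + p : ℕ) : ℝ) ≤ q := by exact_mod_cast this
      push_cast at h2
      linarith
    linarith
  · rw [Nat.add_sub_cancel, hnk, show k + 1 - 2 = k - 1 by omega]
    have h1 : (M : ℝ) + 1 ≤ (p : ℝ) - q' := by
      have : M + 1 + q' ≤ p := by omega
      have h2 : ((M + 1 + q' : ℕ) : ℝ) ≤ p := by exact_mod_cast this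
      push_cast at h2
      linarith
    linarith

theorem largeGaps_of (h : MainGaps) : LargeGaps := by
  intro C hC
  obtain ⟨c, X0, hc, hX0, hmain⟩ := h C hC
  refine ⟨c / 10, by positivity, ?_⟩
  have hev : ∀ᶠ N : ℕ in Filter.atTop, X0 ≤ (N : ℝ) ∧ 2 / c ≤ Real.log N := by
    have h1 : ∀ᶠ N : ℕ in Filter.atTop, X0 ≤ (N : ℝ) :=
      tendsto_natCast_atTop_atTop.eventually_ge_atTop X0
    have h2 : ∀ᶠ N : ℕ in Filter.atTop, 2 / c ≤ Real.log (N : ℝ) :=
      (Real.tendsto_log_atTop.comp tendsto_natCast_atTop_atTop).eventually_ge_atTop (2 / c)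
    exact h1.and h2
  filter_upwards [hev] with N hN
  obtain ⟨hNX, hNlog⟩ := hN
  have hm := hmain N hNX
  rw [Nat.floor_natCast] at hm
  set S := (Icc 1 N).filter (fun n : ℕ => n.Prime ∧
      ∀ h ∈ Icc (-(⌊C * Real.log N⌋₊ : ℤ)) ⌊C * Real.log N⌋₊, h ≠ 0 →
        ¬ ((n : ℤ) + h).natAbs.Prime) with hS
  set T := (Icc 2 N).filter (fun n : ℕ =>
      C * Real.log n ≤ ((Nat.nth Nat.Prime n : ℕ) : ℝ) - ((Nat.nth Nat.Prime (n - 1) : ℕ) : ℝ) ∧
      C * Real.log n ≤
        ((Nat.nth Nat.Prime (n - 1) : ℕ) : ℝ) - ((Nat.nth Nat.Prime (n - 2) : ℕ) : ℝ)) with hT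
  -- split off the prime `2`
  have hsplit : ∑ n ∈ S, Real.log n / n ≤ 1 + ∑ n ∈ S.filter (fun n => 3 ≤ n), Real.log n / n := by
    rw [← Finset.sum_filter_add_sum_filter_not S (fun n => 3 ≤ n), add_comm]
    apply add_le_add_left
    have hsub : S.filter (fun n => ¬ 3 ≤ n) ⊆ {2} := by
      intro n hn
      simp only [hS, Finset.mem_filter, Finset.mem_Icc] at hn
      have := hn.1.2.1.two_le
      simp only [Finset.mem_singleton]
      omega
    calc ∑ n ∈ S.filter (fun n => ¬ 3 ≤ n), Real.log n / n ≤ ∑ n ∈ ({2} : Finset ℕ), Real.log n / n := by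
          apply Finset.sum_le_sum_of_subset_of_nonneg hsub
          intro n hn _
          simp only [Finset.mem_singleton] at hn
          subst hn
          positivity
      _ ≤ 1 := by
          rw [Finset.sum_singleton]
          have := Real.log_two_lt_d9
          push_cast
          linarith
  have hbound : ∑ n ∈ S.filter (fun n => 3 ≤ n), Real.log n / n ≤ 5 * ∑ n ∈ T, 1 / (n : ℝ) := by
    have h1 : ∀ n ∈ S.filter (fun n => 3 ≤ n), Real.log n / n ≤
        5 * (1 / ((Nat.count Nat.Prime n + 1 : ℕ) : ℝ)) := by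
      intro n hn
      simp only [hS, Finset.mem_filter, Finset.mem_Icc] at hn
      obtain ⟨⟨⟨h1n, hnN⟩, hpr, -⟩, h3⟩ := hn
      have hpi := gaps_pi_le hpr.two_le
      have hcnt : Nat.primeCounting n = Nat.count Nat.Prime n + 1 := by
        rw [Nat.primeCounting, Nat.primeCounting', Nat.count_succ, if_pos hpr]
      rw [hcnt] at hpi
      have hn0 : (0 : ℝ) < n := by exact_mod_cast (by omega : 0 < n)
      have hc0 : (0 : ℝ) < ((Nat.count Nat.Prime n + 1 : ℕ) : ℝ) := by positivity
      rw [mul_one_div, div_le_div_iff₀ hn0 hc0]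
      linarith
    calc ∑ n ∈ S.filter (fun n => 3 ≤ n), Real.log n / n
        ≤ ∑ n ∈ S.filter (fun n => 3 ≤ n), 5 * (1 / ((Nat.count Nat.Prime n + 1 : ℕ) : ℝ)) :=
          Finset.sum_le_sum h1
      _ = 5 * ∑ n ∈ S.filter (fun n => 3 ≤ n), (1 / ((Nat.count Nat.Prime n + 1 : ℕ) : ℝ)) := by
          rw [Finset.mul_sum]
      _ ≤ 5 * ∑ n ∈ T, 1 / (n : ℝ) := by
          apply mul_le_mul_of_nonneg_left _ (by norm_num)
          rw [← Finset.sum_image (f := fun k : ℕ => 1 / (k : ℝ))
            (g := fun n : ℕ => Nat.count Nat.Prime n + 1)]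
          · apply Finset.sum_le_sum_of_subset_of_nonneg
            · intro k hk
              rw [Finset.mem_image] at hk
              obtain ⟨n, hn, rfl⟩ := hk
              simp only [hS, Finset.mem_filter, Finset.mem_Icc] at hn
              obtain ⟨⟨⟨h1n, hnN⟩, hpr, hiso⟩, h3⟩ := hn
              rw [hT]
              apply gaps_key hC hnN hpr h3
              intro h hh h0
              exact hiso h (Finset.mem_Icc.mp hh) h0
            · intro n _ _
              positivity
          · intro a ha b hb hab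
            simp only [hS, Finset.coe_filter, Set.mem_ofPred_eq, Finset.mem_filter,
              Finset.mem_Icc] at ha hb
            have h1 : Nat.count Nat.Prime a = Nat.count Nat.Prime b := by
              simpa using hab
            exact Nat.count_injective ha.1.2.1 hb.1.2.1 h1
  have hfin : c * Real.log N ≤ 1 + 5 * ∑ n ∈ T, 1 / (n : ℝ) := by linarith
  have h2 : 2 ≤ c * Real.log N := by
    rw [div_le_iff₀ hc] at hNlog
    linarith
  linarith

end Pool.Agent.Helper1.LG
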