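import Pool.Agent.Helper1.LG.Defs
import Pool.Agent.Helper44.MertensProd
import Pool.Agent.Helper44.MertensInterval

set_option autoImplicit false

/-!
LG-F. The weights of the large primes (`MF1`, `MF2` in `Defs.lean`).

`rg p = log₂ ⌊ρ log x / log p⌋` is `i` iff `2^i ≤ ρ log x/log p < 2^(i+1)` (for `p ≤ x^ρ` the quotient is
`≥ 1`), i.e. `x^(ρ/2^(i+1)) < p ≤ x^(ρ/2^i)`.
`mf1`: `wl p = 1/(p-1) ≤ 2/p < 2/(log x)²`; `∑ wl² ≤ ∑_{n ≥ (log x)²} 1/(n-1)² ≤ 4/(log x)²`.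
`rg p ≤ log₂ (ρ log x) < ⌊log x⌋`. By Mertens (`mertens_interval`), for `i` with nonempty range (or
with `x^(ρ/2^(i+1)) > (log x)²`, all `i < J` for large `x`) the sum of `1/p` over the range is
`log 2 + O(1/loglog x)`: only primes `p > (log x)²` count, so if the range is cut by `(log x)²` its
sum is at most `log 2 + O(1/loglog x)`. `1/(p-1) - 1/p ≤ 2/p²`.
`mf2`: all primes in `((log x)², x^(ρ/2^j)]` have range at least `j` and below `I`, so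
`∏_{j ≤ i < I} P0 i = ∏_{(log x)² < p ≤ x^(ρ/2^j)} (1 - 1/(p-1)) ≤ ∏ (1 - 1/p) ≤ C log((log x)²)/log(x^(ρ/2^j))`
(Mertens with an absolute constant).
-/

open Finset

namespace Pool.Agent.Helper1.LG

/-- The end points of the ranges. -/
noncomputable def yy (ρ x : ℝ) (i : ℕ) : ℝ := Real.exp (ρ * Real.log x / 2 ^ i)

theorem mem_PL {ρ x : ℝ} (hx : 0 < x) {p : ℕ} :
    p ∈ PL ρ x ↔ p.Prime ∧ Real.log x ^ 2 < (p : ℝ) ∧ (p : ℝ) ≤ yy ρ x 0 := by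
  unfold PL yy
  rw [Finset.mem_filter, Finset.mem_Icc]
  have h0 : x ^ ρ = Real.exp (ρ * Real.log x / 2 ^ 0) := by
    rw [Real.rpow_def_of_pos hx]; congr 1; ring
  rw [← h0]
  have h1 : 0 ≤ x ^ ρ := Real.rpow_nonneg hx.le _
  constructor
  · rintro ⟨⟨_, h2⟩, h3, h4⟩
    exact ⟨h3, h4, (Nat.le_floor_iff h1).mp h2⟩
  · rintro ⟨h3, h4, h2⟩
    exact ⟨⟨h3.one_lt.le, (Nat.le_floor_iff h1).mpr h2⟩, h3, h4⟩

theorem yy_anti {ρ x : ℝ} (hx : 1 < x) (hρ : 0 < ρ) {i j : ℕ} (h : i ≤ j) :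
    yy ρ x j ≤ yy ρ x i := by
  unfold yy
  have hL : 0 < Real.log x := Real.log_pos hx
  apply Real.exp_le_exp.mpr
  apply div_le_div_of_nonneg_left (by positivity) (by positivity)
  exact pow_le_pow_right₀ (by norm_num) h

theorem le_rg {ρ x : ℝ} (hx : 1 < x) (hρ : 0 < ρ) {m J : ℕ} (p : PL ρ x) (i : ℕ) :
    i ≤ (Dx ρ m J x).rg p ↔ ((p : ℕ) : ℝ) ≤ yy ρ x i := by
  obtain ⟨p, hp⟩ := p
  have h := (mem_PL (by linarith)).mp hp
  obtain ⟨hpr, h1, h2⟩ := h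
  have hL : 0 < Real.log x := Real.log_pos hx
  have hp1 : (1 : ℝ) < p := by exact_mod_cast hpr.one_lt
  have hlp : 0 < Real.log (p : ℝ) := Real.log_pos hp1
  have hp0 : (0 : ℝ) < p := by linarith
  have key : ∀ k : ℕ, 2 ^ k ≤ ⌊ρ * Real.log x / Real.log (p : ℝ)⌋₊ ↔ (p : ℝ) ≤ yy ρ x k := by
    intro k
    rw [Nat.le_floor_iff (by positivity)]
    push_cast
    unfold yy
    rw [le_div_iff₀ hlp, ← Real.log_le_iff_le_exp hp0, le_div_iff₀ (by positivity), mul_comm]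
  have hN : ⌊ρ * Real.log x / Real.log (p : ℝ)⌋₊ ≠ 0 := by
    have := (key 0).mpr h2
    rw [pow_zero] at this
    omega
  show i ≤ Nat.log 2 ⌊ρ * Real.log x / Real.log (p : ℝ)⌋₊ ↔ _
  rw [Nat.le_log_iff_pow_le one_lt_two hN]
  exact key i

theorem rg_eq {ρ x : ℝ} (hx : 1 < x) (hρ : 0 < ρ) {m J : ℕ} (p : PL ρ x) (i : ℕ) :
    (Dx ρ m J x).rg p = i ↔ yy ρ x (i + 1) < ((p : ℕ) : ℝ) ∧ ((p : ℕ) : ℝ) ≤ yy ρ x i := by
  rw [← le_rg (m := m) (J := J) hx hρ p i, ← not_le, ← le_rg (m := m) (J := J) hx hρ p (i + 1)]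
  omega

/-- Sums over the points of a range. -/
theorem la_eq {ρ x : ℝ} (hx : 1 < x) (hρ : 0 < ρ) {m J : ℕ} (i : ℕ) :
    (Dx ρ m J x).la i = ∑ q ∈ (PL ρ x).filter (fun q : ℕ => yy ρ x (i + 1) < (q : ℝ) ∧
      (q : ℝ) ≤ yy ρ x i), 1 / ((q : ℝ) - 1) := by
  unfold Dt.la
  rw [Finset.sum_filter, Finset.sum_filter, ← Finset.sum_coe_sort (PL ρ x)]
  apply Finset.sum_congr rfl
  intro p _
  have h := rg_eq (m := m) (J := J) hx hρ p i
  by_cases h1 : (Dx ρ m J x).rg p = i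
  · rw [if_pos h1, if_pos (h.mp h1)]
    rfl
  · rw [if_neg h1, if_neg (fun h2 => h1 (h.mpr h2))]

theorem inv_bd {q t : ℝ} (hq : 2 ≤ q) (ht : 0 < t) (htq : t < q) :
    1 / (q - 1) ≤ (1 + 2 / t) * (1 / q) := by
  have h1 : 1 / (q - 1) = (1 + 1 / (q - 1)) * (1 / q) := by
    have : q - 1 ≠ 0 := by linarith
    have : q ≠ 0 := by linarith
    field_simp
    ring
  rw [h1]
  apply mul_le_mul_of_nonneg_right _ (by positivity)
  have h2 : 1 / (q - 1) ≤ 2 / t := by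
    rw [div_le_div_iff₀ (by linarith) ht]
    linarith
  linarith

/-- Mertens with a constant. -/
def Mer (C : ℝ) : Prop := ∀ x y : ℝ, 2 ≤ x → x ≤ y →
    |∑ q ∈ (Finset.Ioc ⌊x⌋₊ ⌊y⌋₊).filter Nat.Prime, (1:ℝ)/q - Real.log (Real.log y / Real.log x)|
      ≤ C / Real.log x

theorem yy_pos (ρ x : ℝ) (i : ℕ) : 0 < yy ρ x i := Real.exp_pos _

theorem log_yy (ρ x : ℝ) (i : ℕ) : Real.log (yy ρ x i) = ρ * Real.log x / 2 ^ i := Real.log_exp _

theorem la_up {C : ℝ} (hM : Mer C) {ρ x : ℝ} (hx : 1 < x) (hρ : 0 < ρ)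
    (hL : 10 ≤ Real.log x) (hCL : 10 * C ≤ Real.log (Real.log x ^ 2)) {m J : ℕ} (i : ℕ) :
    (Dx ρ m J x).la i ≤ 1 := by
  rw [la_eq hx hρ]
  have hx0 : 0 < x := by linarith
  have hL2 : (100 : ℝ) ≤ Real.log x ^ 2 := by nlinarith
  have hmax1 : Real.log x ^ 2 ≤ max (Real.log x ^ 2) (yy ρ x (i + 1)) := le_max_left _ _
  have hmax2 : yy ρ x (i + 1) ≤ max (Real.log x ^ 2) (yy ρ x (i + 1)) := le_max_right _ _
  have hmax3 : ∀ q : ℝ, Real.log x ^ 2 < q → yy ρ x (i + 1) < q →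
      max (Real.log x ^ 2) (yy ρ x (i + 1)) < q := fun q h1 h2 => max_lt h1 h2
  generalize max (Real.log x ^ 2) (yy ρ x (i + 1)) = a at hmax1 hmax2 hmax3
  by_cases hab : a ≤ yy ρ x i
  · have hsub : (PL ρ x).filter (fun q : ℕ => yy ρ x (i + 1) < (q : ℝ) ∧ (q : ℝ) ≤ yy ρ x i) ⊆
        (Finset.Ioc ⌊a⌋₊ ⌊yy ρ x i⌋₊).filter Nat.Prime := by
      intro q hq
      rw [Finset.mem_filter, mem_PL hx0] at hq
      obtain ⟨⟨h1, h2, h3⟩, h4, h5⟩ := hq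
      rw [Finset.mem_filter, Finset.mem_Ioc, Nat.floor_lt (by linarith),
        Nat.le_floor_iff (yy_pos _ _ _).le]
      exact ⟨⟨hmax3 _ h2 h4, h5⟩, h1⟩
    have hla : 0 < Real.log a := Real.log_pos (by linarith)
    have hloga : Real.log (Real.log x ^ 2) ≤ Real.log a := Real.log_le_log (by linarith) hmax1
    have hloga2 : ρ * Real.log x / 2 ^ (i + 1) ≤ Real.log a := by
      rw [← log_yy]; exact Real.log_le_log (yy_pos _ _ _) hmax2
    have hm := (abs_le.mp (hM a (yy ρ x i) (by linarith) hab)).2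
    have h2 : Real.log (Real.log (yy ρ x i) / Real.log a) ≤ Real.log 2 := by
      apply Real.log_le_log
      · apply div_pos _ hla
        rw [log_yy]; positivity
      · rw [div_le_iff₀ hla, log_yy]
        have : ρ * Real.log x / 2 ^ i = 2 * (ρ * Real.log x / 2 ^ (i + 1)) := by
          rw [pow_succ]; field_simp
        rw [this]
        linarith
    have h3 : C / Real.log a ≤ 1 / 10 := by
      rw [div_le_div_iff₀ hla (by norm_num)]
      linarith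
    have h4 : ∑ q ∈ (Finset.Ioc ⌊a⌋₊ ⌊yy ρ x i⌋₊).filter Nat.Prime, (1 : ℝ) / q ≤ 0.8 := by
      have := Real.log_two_lt_d9
      linarith
    have h5 : ∑ q ∈ (PL ρ x).filter (fun q : ℕ => yy ρ x (i + 1) < (q : ℝ) ∧ (q : ℝ) ≤ yy ρ x i),
        (1 : ℝ) / q ≤ 0.8 :=
      (Finset.sum_le_sum_of_subset_of_nonneg hsub (fun q _ _ => by positivity)).trans h4
    calc ∑ q ∈ (PL ρ x).filter (fun q : ℕ => yy ρ x (i + 1) < (q : ℝ) ∧ (q : ℝ) ≤ yy ρ x i),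
          1 / ((q : ℝ) - 1)
        ≤ ∑ q ∈ (PL ρ x).filter (fun q : ℕ => yy ρ x (i + 1) < (q : ℝ) ∧ (q : ℝ) ≤ yy ρ x i),
          (1 + 2 / Real.log x ^ 2) * (1 / (q : ℝ)) := by
          apply Finset.sum_le_sum
          intro q hq
          rw [Finset.mem_filter, mem_PL hx0] at hq
          obtain ⟨⟨h6, h7, h8⟩, h9, h10⟩ := hq
          exact inv_bd (by exact_mod_cast h6.two_le) (by linarith) h7
      _ = (1 + 2 / Real.log x ^ 2) * ∑ q ∈ (PL ρ x).filter (fun q : ℕ =>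
          yy ρ x (i + 1) < (q : ℝ) ∧ (q : ℝ) ≤ yy ρ x i), (1 : ℝ) / q := by rw [Finset.mul_sum]
      _ ≤ (1 + 1 / 50) * 0.8 := by
          have h6 : 2 / Real.log x ^ 2 ≤ 1 / 50 := by
            rw [div_le_div_iff₀ (by linarith) (by norm_num)]
            linarith
          have h7 : 0 ≤ 2 / Real.log x ^ 2 := by positivity
          have h8 : 0 ≤ ∑ q ∈ (PL ρ x).filter (fun q : ℕ =>
            yy ρ x (i + 1) < (q : ℝ) ∧ (q : ℝ) ≤ yy ρ x i), (1 : ℝ) / q :=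
            Finset.sum_nonneg (fun q _ => by positivity)
          apply mul_le_mul _ h5 h8 (by norm_num)
          linarith
      _ ≤ 1 := by norm_num
  · have h0 : (PL ρ x).filter (fun q : ℕ => yy ρ x (i + 1) < (q : ℝ) ∧ (q : ℝ) ≤ yy ρ x i) = ∅ := by
      rw [Finset.filter_eq_empty_iff]
      intro q hq h
      rw [mem_PL hx0] at hq
      exact hab ((hmax3 _ hq.2.1 h.1).le.trans h.2)
    rw [h0, Finset.sum_empty]
    norm_num

theorem la_lo {C : ℝ} (hC : 0 < C) (hM : Mer C) {ρ x : ℝ} (hx : 1 < x) (hρ : 0 < ρ)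
    (hL : 10 ≤ Real.log x) (hCL : 10 * C ≤ Real.log (Real.log x ^ 2)) {m J : ℕ}
    (hy : Real.log x ^ 2 ≤ yy ρ x J) (i : ℕ) (hi : i < J) :
    1 / 4 ≤ (Dx ρ m J x).la i := by
  rw [la_eq hx hρ]
  have hx0 : 0 < x := by linarith
  have hL2 : (100 : ℝ) ≤ Real.log x ^ 2 := by nlinarith
  have h1 : Real.log x ^ 2 ≤ yy ρ x (i + 1) := hy.trans (yy_anti hx hρ hi)
  have hset : (PL ρ x).filter (fun q : ℕ => yy ρ x (i + 1) < (q : ℝ) ∧ (q : ℝ) ≤ yy ρ x i) =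
      (Finset.Ioc ⌊yy ρ x (i + 1)⌋₊ ⌊yy ρ x i⌋₊).filter Nat.Prime := by
    ext q
    rw [Finset.mem_filter, mem_PL hx0, Finset.mem_filter, Finset.mem_Ioc,
      Nat.floor_lt (yy_pos _ _ _).le, Nat.le_floor_iff (yy_pos _ _ _).le]
    constructor
    · rintro ⟨⟨h2, h3, h4⟩, h5, h6⟩
      exact ⟨⟨h5, h6⟩, h2⟩
    · rintro ⟨⟨h5, h6⟩, h2⟩
      exact ⟨⟨h2, by linarith, h6.trans (yy_anti hx hρ (Nat.zero_le i))⟩, h5, h6⟩
  rw [hset]
  have hlog : 0 < ρ * Real.log x := by positivity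
  have hm := (abs_le.mp (hM (yy ρ x (i + 1)) (yy ρ x i) (by linarith)
    (yy_anti hx hρ (Nat.le_succ i)))).1
  have h2 : Real.log (yy ρ x i) / Real.log (yy ρ x (i + 1)) = 2 := by
    rw [log_yy, log_yy, pow_succ]
    field_simp
  rw [h2] at hm
  have hl1 : Real.log (Real.log x ^ 2) ≤ Real.log (yy ρ x (i + 1)) :=
    Real.log_le_log (by linarith) h1
  have hl0 : 0 < Real.log (yy ρ x (i + 1)) := by linarith
  have h3 : C / Real.log (yy ρ x (i + 1)) ≤ 1 / 10 := by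
    rw [div_le_div_iff₀ hl0 (by norm_num)]
    linarith
  have h4 : ∑ q ∈ (Finset.Ioc ⌊yy ρ x (i + 1)⌋₊ ⌊yy ρ x i⌋₊).filter Nat.Prime, (1 : ℝ) / q ≤
      ∑ q ∈ (Finset.Ioc ⌊yy ρ x (i + 1)⌋₊ ⌊yy ρ x i⌋₊).filter Nat.Prime, 1 / ((q : ℝ) - 1) := by
    apply Finset.sum_le_sum
    intro q hq
    have h5 : (2 : ℝ) ≤ q := by exact_mod_cast (Finset.mem_filter.mp hq).2.two_le
    apply one_div_le_one_div_of_le (by linarith) (by linarith)
  have := Real.log_two_gt_d9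
  linarith

theorem wl_bd {ρ x : ℝ} (hx : 1 < x) (hL : 10 ≤ Real.log x) (p : PL ρ x) :
    0 ≤ wl ρ x p ∧ wl ρ x p ≤ 2 / Real.log x ^ 2 := by
  obtain ⟨p, hp⟩ := p
  obtain ⟨hpr, h1, h2⟩ := (mem_PL (by linarith)).mp hp
  have hL2 : (100 : ℝ) ≤ Real.log x ^ 2 := by nlinarith
  unfold wl
  show 0 ≤ 1 / ((p : ℝ) - 1) ∧ 1 / ((p : ℝ) - 1) ≤ 2 / Real.log x ^ 2
  refine ⟨div_nonneg zero_le_one (by linarith), ?_⟩
  rw [div_le_div_iff₀ (by linarith) (by linarith)]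
  linarith

theorem rg_lt {ρ x : ℝ} (hx : 1 < x) (hρ : 0 < ρ) (hρ1 : ρ ≤ 1 / 100) (hL : 10 ≤ Real.log x)
    {m J : ℕ} (p : PL ρ x) : (Dx ρ m J x).rg p < (Dx ρ m J x).I := by
  obtain ⟨p, hp⟩ := p
  obtain ⟨hpr, h1, h2⟩ := (mem_PL (by linarith)).mp hp
  have hp2 : (2 : ℝ) ≤ p := by exact_mod_cast hpr.two_le
  have hl : 0.69 ≤ Real.log (p : ℝ) := by
    have h3 := Real.log_le_log (by norm_num) hp2
    have h4 := Real.log_two_gt_d9
    linarith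
  show Nat.log 2 ⌊ρ * Real.log x / Real.log (p : ℝ)⌋₊ < ⌊Real.log x⌋₊
  apply Nat.lt_of_succ_le
  apply Nat.le_floor
  have h5 : Nat.log 2 ⌊ρ * Real.log x / Real.log (p : ℝ)⌋₊ ≤
      ⌊ρ * Real.log x / Real.log (p : ℝ)⌋₊ := Nat.log_le_self _ _
  have h6 : (⌊ρ * Real.log x / Real.log (p : ℝ)⌋₊ : ℝ) ≤ ρ * Real.log x / Real.log (p : ℝ) :=
    Nat.floor_le (by positivity)
  have h7 : ρ * Real.log x / Real.log (p : ℝ) ≤ Real.log x / 50 := by
    rw [div_le_div_iff₀ (by linarith) (by norm_num)]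
    nlinarith
  have h8 : ((Nat.log 2 ⌊ρ * Real.log x / Real.log (p : ℝ)⌋₊ : ℕ) : ℝ) ≤
      (⌊ρ * Real.log x / Real.log (p : ℝ)⌋₊ : ℝ) := by exact_mod_cast h5
  push_cast
  linarith

theorem sum_sq {ρ x : ℝ} (hx : 1 < x) (hL : 10 ≤ Real.log x) :
    ∑ p, wl ρ x p ^ 2 ≤ 4 / Real.log x ^ 2 := by
  have hx0 : 0 < x := by linarith
  have hL2 : (100 : ℝ) ≤ Real.log x ^ 2 := by nlinarith
  have h1 : ∑ p, wl ρ x p ^ 2 = ∑ q ∈ PL ρ x, (1 / ((q : ℝ) - 1)) ^ 2 := by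
    rw [← Finset.sum_coe_sort (PL ρ x)]
    rfl
  rw [h1]
  have hfl : (0 : ℝ) ≤ Real.log x ^ 2 := by positivity
  have hf1 : Real.log x ^ 2 < (⌊Real.log x ^ 2⌋₊ : ℝ) + 1 := Nat.lt_floor_add_one _
  by_cases hab : Real.log x ^ 2 ≤ yy ρ x 0
  · have hsub : PL ρ x ⊆ Finset.Ioc ⌊Real.log x ^ 2⌋₊ ⌊yy ρ x 0⌋₊ := by
      intro q hq
      rw [mem_PL hx0] at hq
      rw [Finset.mem_Ioc, Nat.floor_lt hfl, Nat.le_floor_iff (yy_pos _ _ _).le]
      exact hq.2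
    calc ∑ q ∈ PL ρ x, (1 / ((q : ℝ) - 1)) ^ 2 ≤ ∑ q ∈ PL ρ x, 2 * ((q : ℝ) ^ 2)⁻¹ := by
          apply Finset.sum_le_sum
          intro q hq
          rw [mem_PL hx0] at hq
          have hq4 : (100 : ℝ) < q := by linarith [hq.2.1]
          rw [div_pow, one_pow, ← div_eq_mul_inv, div_le_div_iff₀ (by nlinarith) (by positivity)]
          nlinarith
      _ = 2 * ∑ q ∈ PL ρ x, ((q : ℝ) ^ 2)⁻¹ := by rw [Finset.mul_sum]
      _ ≤ 2 * ∑ q ∈ Finset.Ioc ⌊Real.log x ^ 2⌋₊ ⌊yy ρ x 0⌋₊, ((q : ℝ) ^ 2)⁻¹ := by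
          apply mul_le_mul_of_nonneg_left _ (by norm_num)
          exact Finset.sum_le_sum_of_subset_of_nonneg hsub (fun q _ _ => by positivity)
      _ ≤ 2 * ((⌊Real.log x ^ 2⌋₊ : ℝ)⁻¹ - (⌊yy ρ x 0⌋₊ : ℝ)⁻¹) := by
          apply mul_le_mul_of_nonneg_left _ (by norm_num)
          apply sum_Ioc_inv_sq_le_sub
          · have : (0 : ℝ) < (⌊Real.log x ^ 2⌋₊ : ℝ) := by linarith
            have h0 : 0 < ⌊Real.log x ^ 2⌋₊ := by exact_mod_cast this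
            omega
          · exact Nat.floor_mono hab
      _ ≤ 2 * (⌊Real.log x ^ 2⌋₊ : ℝ)⁻¹ := by
          have : (0 : ℝ) ≤ (⌊yy ρ x 0⌋₊ : ℝ)⁻¹ := by positivity
          linarith
      _ ≤ 4 / Real.log x ^ 2 := by
          rw [← div_eq_mul_inv, div_le_div_iff₀ (by linarith) (by linarith)]
          linarith
  · have h0 : PL ρ x = ∅ := by
      rw [Finset.eq_empty_iff_forall_notMem]
      intro q hq
      rw [mem_PL hx0] at hq
      exact hab (hq.2.1.le.trans hq.2.2)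
    rw [h0, Finset.sum_empty]
    positivity

/-- Large `x`. -/
theorem big (C ρ : ℝ) (hρ : 0 < ρ) (J : ℕ) : ∃ X0 : ℝ, 3 ≤ X0 ∧ ∀ x : ℝ, X0 ≤ x →
    1 < x ∧ 10 ≤ Real.log x ∧ (J : ℝ) ≤ Real.log x ∧ 10 * C ≤ Real.log (Real.log x ^ 2) ∧
    Real.log x ^ 2 ≤ yy ρ x J := by
  refine ⟨Real.exp (10 + J + Real.exp (5 * C) + 6 * (2 ^ J / ρ) ^ 3), ?_, ?_⟩
  · have h1 := Real.add_one_le_exp (10 + J + Real.exp (5 * C) + 6 * (2 ^ J / ρ) ^ 3)
    have h2 : (0 : ℝ) ≤ J := Nat.cast_nonneg J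
    have h3 := Real.exp_pos (5 * C)
    have h4 : 0 < 6 * (2 ^ J / ρ) ^ 3 := by positivity
    linarith
  · intro x hx
    have h2 : (0 : ℝ) ≤ J := Nat.cast_nonneg J
    have h3 := Real.exp_pos (5 * C)
    have h4 : 0 < 6 * (2 ^ J / ρ) ^ 3 := by positivity
    have h5 : 10 + J + Real.exp (5 * C) + 6 * (2 ^ J / ρ) ^ 3 ≤ Real.log x := by
      rw [Real.le_log_iff_exp_le (lt_of_lt_of_le (Real.exp_pos _) hx)]
      exact hx
    have h1 := Real.add_one_le_exp (10 + J + Real.exp (5 * C) + 6 * (2 ^ J / ρ) ^ 3)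
    have hL : 0 < Real.log x := by linarith
    refine ⟨by linarith, by linarith, by linarith, ?_, ?_⟩
    · rw [Real.log_pow]
      have h6 : 5 * C ≤ Real.log (Real.log x) := by
        rw [Real.le_log_iff_exp_le hL]
        linarith
      push_cast
      linarith
    · have h7 : (ρ * Real.log x / 2 ^ J) ^ 3 / (Nat.factorial 3 : ℝ) ≤ yy ρ x J :=
        Real.pow_div_factorial_le_exp _ (by positivity) 3
      refine le_trans ?_ h7
      rw [le_div_iff₀ (by positivity)]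
      have h8 : (Nat.factorial 3 : ℝ) = 6 := by norm_num [Nat.factorial]
      rw [h8]
      have h9 : 6 * (2 ^ J / ρ) ^ 3 ≤ Real.log x := by linarith
      have h10 : (ρ * Real.log x / 2 ^ J) ^ 3 * (2 ^ J / ρ) ^ 3 = Real.log x ^ 3 := by
        rw [← mul_pow]
        congr 1
        field_simp
      have h11 : 0 < (ρ * Real.log x / 2 ^ J) ^ 3 := by positivity
      have h12 : (0 : ℝ) < (2 ^ J / ρ) ^ 3 := by positivity
      have h13 : 6 * Real.log x ^ 2 * (2 ^ J / ρ) ^ 3 ≤ (ρ * Real.log x / 2 ^ J) ^ 3 * (2 ^ J / ρ) ^ 3 := by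
        rw [h10]
        nlinarith [sq_nonneg (Real.log x), mul_le_mul_of_nonneg_right h9 (sq_nonneg (Real.log x))]
      have h14 := le_of_mul_le_mul_right h13 h12
      linarith

theorem mf1 : MF1 := by
  intro ρ m J hρ hρ1 hJ
  obtain ⟨C, hC, hM⟩ := Pool.Agent.Helper44.mertens_interval
  obtain ⟨X0, hX0, h⟩ := big C ρ hρ J
  refine ⟨X0, hX0, fun x hx => ?_⟩
  obtain ⟨hx1, hL, hJL, hCL, hy⟩ := h x hx
  refine ⟨wl_bd hx1 hL, rg_lt hx1 hρ hρ1 hL, la_up hM hx1 hρ hL hCL,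
    la_lo hC hM hx1 hρ hL hCL hy, Nat.le_floor hJL, sum_sq hx1 hL, ?_⟩
  intro p
  have h1 := (le_rg (m := m) (J := J) hx1 hρ p ((Dx ρ m J x).rg p)).mp le_rfl
  have hp := (mem_PL (by linarith)).mp p.2
  have hp0 : (0 : ℝ) < ((p : ℕ) : ℝ) := by exact_mod_cast hp.1.pos
  have h2 := Real.log_le_log hp0 h1
  rw [log_yy] at h2
  rw [div_le_iff₀ (by linarith)]
  calc Real.log ((p : ℕ) : ℝ) ≤ ρ * Real.log x / 2 ^ (Dx ρ m J x).rg p := h2
    _ = ρ / 2 ^ (Dx ρ m J x).rg p * Real.log x := by ring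

theorem mf2 : MF2 := by
  obtain ⟨C, hC, hM⟩ := Pool.Agent.Helper44.mertens_interval
  refine ⟨2 * Real.exp C, by positivity, ?_⟩
  intro ρ m J hρ hρ1
  obtain ⟨X0, hX0, h⟩ := big C ρ hρ J
  refine ⟨X0, hX0, fun x hx j hj => ?_⟩
  obtain ⟨hx1, hL, hJL, hCL, hy⟩ := h x hx
  have hx0 : 0 < x := by linarith
  have hL2 : (100 : ℝ) ≤ Real.log x ^ 2 := by nlinarith
  have hyj : Real.log x ^ 2 ≤ yy ρ x j := hy.trans (yy_anti hx1 hρ hj)
  -- the product over the primes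
  have hprod : ∏ i ∈ Ico j (Dx ρ m J x).I, (Dx ρ m J x).P0 i =
      ∏ p ∈ (univ : Finset (PL ρ x)).filter (fun p : PL ρ x => ((p : ℕ) : ℝ) ≤ yy ρ x j),
        (1 - wl ρ x p) := by
    have hmaps : ∀ p ∈ (univ : Finset (PL ρ x)).filter (fun p : PL ρ x => ((p : ℕ) : ℝ) ≤ yy ρ x j),
        (Dx ρ m J x).rg p ∈ Ico j (Dx ρ m J x).I := by
      intro p hp
      rw [Finset.mem_Ico]
      exact ⟨(le_rg hx1 hρ p j).mpr (Finset.mem_filter.mp hp).2, rg_lt hx1 hρ hρ1 hL p⟩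
    rw [← Finset.prod_fiberwise_of_maps_to hmaps]
    apply Finset.prod_congr rfl
    intro i hi
    unfold Dt.P0
    rw [Finset.filter_filter]
    apply Finset.prod_congr
    · ext p
      simp only [Finset.mem_filter, Finset.mem_univ, true_and]
      constructor
      · intro h1
        refine ⟨(le_rg (m := m) (J := J) hx1 hρ p j).mp ?_, h1⟩
        rw [h1]
        exact (Finset.mem_Ico.mp hi).1
      · exact fun h1 => h1.2
    · intro p _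
      rfl
  rw [hprod]
  have hprod2 : ∏ p ∈ (univ : Finset (PL ρ x)).filter (fun p : PL ρ x => ((p : ℕ) : ℝ) ≤ yy ρ x j),
        (1 - wl ρ x p) ≤
      ∏ p ∈ (univ : Finset (PL ρ x)).filter (fun p : PL ρ x => ((p : ℕ) : ℝ) ≤ yy ρ x j),
        Real.exp (-(1 / ((p : ℕ) : ℝ))) := by
    apply Finset.prod_le_prod
    · intro p _
      have h1 := (wl_bd hx1 hL p).2
      have h2 : 2 / Real.log x ^ 2 ≤ 1 := by
        rw [div_le_one (by linarith)]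
        linarith
      linarith
    · intro p _
      have hp := (mem_PL hx0).mp p.2
      have hp2 : (2 : ℝ) ≤ ((p : ℕ) : ℝ) := by exact_mod_cast hp.1.two_le
      have h1 : 1 / ((p : ℕ) : ℝ) ≤ wl ρ x p := by
        unfold wl
        apply one_div_le_one_div_of_le (by linarith) (by linarith)
      have h2 := Real.add_one_le_exp (-(1 / ((p : ℕ) : ℝ)))
      linarith
  refine hprod2.trans ?_
  rw [← Real.exp_sum]
  have hsum : ∑ p ∈ (univ : Finset (PL ρ x)).filter (fun p : PL ρ x => ((p : ℕ) : ℝ) ≤ yy ρ x j),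
        (-(1 / ((p : ℕ) : ℝ))) =
      -∑ q ∈ (Finset.Ioc ⌊Real.log x ^ 2⌋₊ ⌊yy ρ x j⌋₊).filter Nat.Prime, (1 : ℝ) / q := by
    rw [Finset.sum_neg_distrib, neg_inj, Finset.sum_filter]
    have h1 : ∑ p : PL ρ x, (if ((p : ℕ) : ℝ) ≤ yy ρ x j then 1 / ((p : ℕ) : ℝ) else 0) =
        ∑ q ∈ PL ρ x, (if (q : ℝ) ≤ yy ρ x j then 1 / (q : ℝ) else 0) := by
      rw [← Finset.sum_coe_sort (PL ρ x)]
    rw [h1, ← Finset.sum_filter]
    apply Finset.sum_congr _ (fun _ _ => rfl)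
    ext q
    rw [Finset.mem_filter, mem_PL hx0, Finset.mem_filter, Finset.mem_Ioc,
      Nat.floor_lt (by positivity), Nat.le_floor_iff (yy_pos _ _ _).le]
    constructor
    · rintro ⟨⟨h2, h3, h4⟩, h5⟩
      exact ⟨⟨h3, h5⟩, h2⟩
    · rintro ⟨⟨h3, h5⟩, h2⟩
      exact ⟨⟨h2, h3, h5.trans (yy_anti hx1 hρ (Nat.zero_le j))⟩, h5⟩
  rw [hsum]
  have hm := (abs_le.mp (hM (Real.log x ^ 2) (yy ρ x j) (by linarith) hyj)).1
  have hl1 : 1 ≤ Real.log (Real.log x ^ 2) := by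
    rw [Real.le_log_iff_exp_le (by linarith)]
    have := Real.exp_one_lt_d9
    linarith
  have h3 : C / Real.log (Real.log x ^ 2) ≤ C := div_le_self hC.le hl1
  have hle : -∑ q ∈ (Finset.Ioc ⌊Real.log x ^ 2⌋₊ ⌊yy ρ x j⌋₊).filter Nat.Prime, (1 : ℝ) / q ≤
      C - Real.log (Real.log (yy ρ x j) / Real.log (Real.log x ^ 2)) := by linarith
  have hlyj : 0 < Real.log (yy ρ x j) := by
    rw [log_yy]
    have : 0 < Real.log x := by linarith
    positivity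
  refine (Real.exp_le_exp.mpr hle).trans ?_
  rw [Real.exp_sub, Real.exp_log (by positivity), log_yy, Real.log_pow]
  have hL0 : 0 < Real.log x := by linarith
  have hll : 0 < Real.log (Real.log x) := Real.log_pos (by linarith)
  apply le_of_eq
  push_cast
  field_simp

end Pool.Agent.Helper1.LG
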