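import Pool.Agent.Helper1.LG.Rng

set_option autoImplicit false

/-!
LG-M. Möbius coefficients of the words (`Mob` in `Defs.lean`).

The supports: products, sums and constants (`Sp`). The size of the coefficients: Möbius inversion
and `|wd S| ≤ 5^4 * 16^{|S|}`.
-/

open Finset

namespace Pool.Agent.Helper1.LG

section

variable {ι : Type} [Fintype ι] [DecidableEq ι]

/-- Sums of coefficients supported on sets of level at most `l`. -/
def Sp (s : ι → ℝ) (f : Finset ι → ℝ) (l : ℝ) : Prop :=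
  ∃ μ : Finset ι → ℝ, (∀ S, f S = ∑ S' ∈ S.powerset, μ S') ∧ ∀ S, μ S ≠ 0 → ∑ p ∈ S, s p ≤ l

omit [Fintype ι] [DecidableEq ι] in
theorem Sp.mono {s : ι → ℝ} {f : Finset ι → ℝ} {l l' : ℝ} (h : Sp s f l) (hl : l ≤ l') :
    Sp s f l' := by
  obtain ⟨μ, h1, h2⟩ := h
  exact ⟨μ, h1, fun S hS => (h2 S hS).trans hl⟩

omit [Fintype ι] in
theorem Sp.const (s : ι → ℝ) (c : ℝ) : Sp s (fun _ => c) 0 := by
  refine ⟨fun S => if S = ∅ then c else 0, fun S => ?_, fun S hS => ?_⟩
  · rw [Finset.sum_ite_eq' S.powerset ∅ (fun _ => c), if_pos (Finset.empty_mem_powerset S)]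
  · have h : S = ∅ := by
      by_contra h
      exact hS (if_neg h)
    simp [h]

omit [Fintype ι] [DecidableEq ι] in
theorem Sp.add {s : ι → ℝ} {f g : Finset ι → ℝ} {l : ℝ} (hf : Sp s f l) (hg : Sp s g l) :
    Sp s (fun S => f S + g S) l := by
  obtain ⟨μ, h1, h2⟩ := hf
  obtain ⟨ν, g1, g2⟩ := hg
  refine ⟨fun S => μ S + ν S, fun S => ?_, fun S hS => ?_⟩
  · beta_reduce
    rw [Finset.sum_add_distrib, h1, g1]
  · by_cases h : μ S = 0
    · apply g2 S
      intro h'
      exact hS (by simp [h, h'])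
    · exact h2 S h

omit [Fintype ι] [DecidableEq ι] in
theorem Sp.smul {s : ι → ℝ} {f : Finset ι → ℝ} {l : ℝ} (hf : Sp s f l) (c : ℝ) :
    Sp s (fun S => c * f S) l := by
  obtain ⟨μ, h1, h2⟩ := hf
  refine ⟨fun S => c * μ S, fun S => ?_, fun S hS => ?_⟩
  · beta_reduce
    rw [← Finset.mul_sum, h1]
  · exact h2 S (right_ne_zero_of_mul hS)

omit [Fintype ι] in
theorem Sp.mul {s : ι → ℝ} (hs : ∀ p, 0 ≤ s p) {f g : Finset ι → ℝ} {l l' : ℝ} (hf : Sp s f l)
    (hg : Sp s g l') : Sp s (fun S => f S * g S) (l + l') := by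
  obtain ⟨μ, h1, h2⟩ := hf
  obtain ⟨ν, g1, g2⟩ := hg
  refine ⟨fun C => ∑ A ∈ C.powerset, ∑ B ∈ C.powerset, if A ∪ B = C then μ A * ν B else 0,
    fun S => ?_, fun C hC => ?_⟩
  · have key : ∀ C ∈ S.powerset,
        (∑ A ∈ C.powerset, ∑ B ∈ C.powerset, if A ∪ B = C then μ A * ν B else 0) =
        ∑ A ∈ S.powerset, ∑ B ∈ S.powerset, if A ∪ B = C then μ A * ν B else 0 := by
      intro C hC
      have hCS : C ⊆ S := Finset.mem_powerset.mp hC
      rw [← Finset.sum_subset (Finset.powerset_mono.mpr hCS)]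
      · refine Finset.sum_congr rfl fun A hA => ?_
        apply Finset.sum_subset (Finset.powerset_mono.mpr hCS)
        intro B _ hB
        rw [if_neg]
        intro h
        exact hB (Finset.mem_powerset.mpr (h ▸ Finset.subset_union_right))
      · intro A _ hA
        apply Finset.sum_eq_zero
        intro B _
        rw [if_neg]
        intro h
        exact hA (Finset.mem_powerset.mpr (h ▸ Finset.subset_union_left))
    calc f S * g S = ∑ A ∈ S.powerset, ∑ B ∈ S.powerset, μ A * ν B := by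
          rw [h1, g1, Finset.sum_mul_sum]
      _ = ∑ C ∈ S.powerset, ∑ A ∈ S.powerset, ∑ B ∈ S.powerset,
            if A ∪ B = C then μ A * ν B else 0 := by
          symm
          rw [Finset.sum_comm]
          refine Finset.sum_congr rfl fun A hA => ?_
          rw [Finset.sum_comm]
          refine Finset.sum_congr rfl fun B hB => ?_
          rw [Finset.sum_ite_eq, if_pos]
          exact Finset.mem_powerset.mpr (Finset.union_subset (Finset.mem_powerset.mp hA)
            (Finset.mem_powerset.mp hB))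
      _ = _ := (Finset.sum_congr rfl key).symm
  · obtain ⟨A, _, hA⟩ := Finset.exists_ne_zero_of_sum_ne_zero hC
    obtain ⟨B, _, hB⟩ := Finset.exists_ne_zero_of_sum_ne_zero hA
    have hAB : A ∪ B = C := by
      by_contra h
      exact hB (if_neg h)
    rw [if_pos hAB] at hB
    have ha := h2 A (left_ne_zero_of_mul hB)
    have hb := g2 B (right_ne_zero_of_mul hB)
    have hu := Finset.sum_union_inter (s₁ := A) (s₂ := B) (f := s)
    have hi : 0 ≤ ∑ p ∈ A ∩ B, s p := Finset.sum_nonneg fun p _ => hs p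
    rw [← hAB]
    linarith

theorem Sp.prod {s : ι → ℝ} (hs : ∀ p, 0 ≤ s p) {κ : Type} [DecidableEq κ] (T : Finset κ)
    (f : κ → Finset ι → ℝ) (l : κ → ℝ) (h : ∀ i ∈ T, Sp s (f i) (l i)) :
    Sp s (fun S => ∏ i ∈ T, f i S) (∑ i ∈ T, l i) := by
  induction T using Finset.induction_on with
  | empty => simpa using Sp.const s 1
  | insert a T ha ih =>
    have h1 := Sp.mul hs (h a (Finset.mem_insert_self a T))
      (ih fun i hi => h i (Finset.mem_insert_of_mem hi))
    rw [Finset.sum_insert ha]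
    simpa only [Finset.prod_insert ha] using h1

/-- The factor of one range. -/
theorem Sp.A (D : Dt ι) (s : ι → ℝ) (ρ : ℝ) (hρ : 0 ≤ ρ) (hs' : ∀ p, s p ≤ ρ / 2 ^ D.rg p)
    (i : ℕ) : Sp s (D.A i) ((D.r i : ℝ) * (ρ / 2 ^ i)) := by
  refine ⟨fun T => if (∀ p ∈ T, D.rg p = i) ∧ T.card ≤ D.r i then (-1) ^ T.card else 0,
    fun S => ?_, fun T hT => ?_⟩
  · have h1 : (∑ T ∈ S.powerset,
        if (∀ p ∈ T, D.rg p = i) ∧ T.card ≤ D.r i then (-1 : ℝ) ^ T.card else 0) =
        ∑ T ∈ (S.filter (fun p => D.rg p = i)).powerset,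
          (fun m : ℕ => if m ≤ D.r i then (-1 : ℝ) ^ m else 0) T.card := by
      rw [← Finset.sum_subset (Finset.powerset_mono.mpr (Finset.filter_subset
        (fun p => D.rg p = i) S))]
      · refine Finset.sum_congr rfl fun T hT => ?_
        have h : ∀ p ∈ T, D.rg p = i := fun p hp =>
          (Finset.mem_filter.mp (Finset.mem_powerset.mp hT hp)).2
        by_cases hc : T.card ≤ D.r i
        · simp only [if_pos hc]
          exact if_pos ⟨h, hc⟩
        · simp only [if_neg hc]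
          exact if_neg (fun h' => hc h'.2)
      · intro T hT hT'
        rw [if_neg]
        intro h
        apply hT'
        rw [Finset.mem_powerset]
        intro p hp
        exact Finset.mem_filter.mpr ⟨Finset.mem_powerset.mp hT hp, h.1 p hp⟩
    rw [h1]
    refine Eq.trans ?_ (Finset.sum_powerset_apply_card (x := S.filter (fun p => D.rg p = i))
      (fun m : ℕ => if m ≤ D.r i then (-1 : ℝ) ^ m else 0)).symm
    unfold Dt.A Ar cnt
    set N := (S.filter (fun p => D.rg p = i)).card with hN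
    have e1 : ∑ k ∈ range (D.r i + 1), (-1 : ℝ) ^ k * (N.choose k : ℝ) =
        ∑ k ∈ range (D.r i + 1 + (N + 1)),
          (if k ≤ D.r i then (-1 : ℝ) ^ k * (N.choose k : ℝ) else 0) := by
      rw [← Finset.sum_subset (Finset.range_subset_range.mpr (Nat.le_add_right (D.r i + 1) (N + 1)))]
      · refine Finset.sum_congr rfl fun k hk => ?_
        rw [if_pos (Nat.lt_succ_iff.mp (Finset.mem_range.mp hk))]
      · intro k _ hk
        rw [if_neg]
        intro h
        exact hk (Finset.mem_range.mpr (Nat.lt_succ_of_le h))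
    have e2 : ∑ k ∈ range (N + 1), N.choose k • (if k ≤ D.r i then (-1 : ℝ) ^ k else 0) =
        ∑ k ∈ range (D.r i + 1 + (N + 1)),
          (if k ≤ D.r i then (-1 : ℝ) ^ k * (N.choose k : ℝ) else 0) := by
      rw [← Finset.sum_subset (Finset.range_subset_range.mpr (Nat.le_add_left (N + 1) (D.r i + 1)))]
      · refine Finset.sum_congr rfl fun k hk => ?_
        by_cases h : k ≤ D.r i
        · rw [if_pos h, if_pos h, nsmul_eq_mul, mul_comm]
        · rw [if_neg h, if_neg h, smul_zero]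
      · intro k _ hk
        have hk' : N < k := by
          by_contra h
          exact hk (Finset.mem_range.mpr (by omega))
        rw [Nat.choose_eq_zero_of_lt hk']
        simp
    rw [e1, e2]
  · have h : (∀ p ∈ T, D.rg p = i) ∧ T.card ≤ D.r i := by
      by_contra h
      exact hT (if_neg h)
    calc ∑ p ∈ T, s p ≤ ∑ p ∈ T, ρ / 2 ^ i := by
          refine Finset.sum_le_sum fun p hp => ?_
          have := hs' p
          rwa [h.1 p hp] at this
      _ = (T.card : ℝ) * (ρ / 2 ^ i) := by rw [Finset.sum_const, nsmul_eq_mul]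
      _ ≤ (D.r i : ℝ) * (ρ / 2 ^ i) := by
          apply mul_le_mul_of_nonneg_right _ (by positivity)
          exact_mod_cast h.2

/-- The word has the level of its letters. -/
theorem Sp.Fn {J : ℕ} {D : Dt ι} {t : ℝ} (h : Reg D J t) (s : ι → ℝ) (ρ : ℝ) (hρ : 0 ≤ ρ)
    (hs : ∀ p, 0 ≤ s p) (hs' : ∀ p, s p ≤ ρ / 2 ^ D.rg p) (l : Lt J) :
    Sp s (Fn D l) (lv D ρ l) := by
  cases l with
  | one => exact Sp.const s 1
  | maj => exact Sp.prod hs _ _ _ fun i _ => Sp.A D s ρ hρ hs' i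
  | md j =>
    have hj : (j : ℕ) < D.I := lt_of_lt_of_le j.2 h.J_le
    have h0 : 0 ≤ (D.r j : ℝ) * (ρ / 2 ^ (j : ℕ)) := by positivity
    have h1 : Sp s (fun S => D.A j S + -D.a j) ((D.r j : ℝ) * (ρ / 2 ^ (j : ℕ))) :=
      Sp.add (Sp.A D s ρ hρ hs' j) ((Sp.const s _).mono h0)
    have h2 := Sp.smul h1 ((1 / (J : ℝ)) * (1 / (1 - D.a j)))
    have h3 := Sp.mul hs h2 (Sp.prod hs (Ioo (j : ℕ) D.I) (fun i => D.A i)
      (fun i => (D.r i : ℝ) * (ρ / 2 ^ i)) fun i _ => Sp.A D s ρ hρ hs' i)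
    have h4 : lv D ρ (.md j : Lt J) = (D.r j : ℝ) * (ρ / 2 ^ (j : ℕ)) +
        ∑ i ∈ Ioo (j : ℕ) D.I, (D.r i : ℝ) * (ρ / 2 ^ i) := by
      show ∑ i ∈ Ico (j : ℕ) D.I, (D.r i : ℝ) * (ρ / 2 ^ i) = _
      rw [← Finset.Ioo_insert_left hj, Finset.sum_insert (by simp)]
    rw [h4]
    convert h3 using 2 with S
    unfold LG.Fn
    ring

/-- Products of factors. -/
theorem prod_A_le {J : ℕ} {D : Dt ι} {t : ℝ} (h : Reg D J t) (T : Finset ℕ) (S : Finset ι) :
    0 ≤ ∏ i ∈ T, D.A i S ∧ ∏ i ∈ T, D.A i S ≤ 2 ^ ∑ i ∈ T, cnt D.rg i S := by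
  constructor
  · exact Finset.prod_nonneg fun i _ => (h.A_facts i S).1
  · rw [← Finset.prod_pow_eq_pow_sum]
    exact Finset.prod_le_prod (fun i _ => (h.A_facts i S).1) fun i _ => (h.A_facts i S).2.1

omit [Fintype ι] [DecidableEq ι] in
theorem sum_cnt_le (rg : ι → ℕ) (T : Finset ℕ) (S : Finset ι) : ∑ i ∈ T, cnt rg i S ≤ S.card := by
  have h := Finset.card_eq_sum_card_fiberwise (s := S.filter (fun p => rg p ∈ T)) (f := rg)
    (t := T) (fun p hp => (Finset.mem_filter.mp hp).2)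
  calc ∑ i ∈ T, cnt rg i S = (S.filter (fun p => rg p ∈ T)).card := by
        rw [h]
        refine Finset.sum_congr rfl fun i hi => ?_
        unfold cnt
        congr 1
        ext p
        simp only [Finset.mem_filter]
        constructor
        · rintro ⟨h1, h2⟩
          exact ⟨⟨h1, h2 ▸ hi⟩, h2⟩
        · rintro ⟨⟨h1, _⟩, h2⟩
          exact ⟨h1, h2⟩
    _ ≤ S.card := Finset.card_filter_le _ _

theorem Fn_le {J : ℕ} {D : Dt ι} {t : ℝ} (h : Reg D J t) (l : Lt J) (S : Finset ι) :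
    |Fn D l S| ≤ 5 * 2 ^ S.card := by
  have h2 : (1 : ℝ) ≤ 2 ^ S.card := one_le_pow₀ (by norm_num)
  cases l with
  | one =>
    show |(1 : ℝ)| ≤ _
    rw [abs_one]
    linarith
  | maj =>
    show |∏ i ∈ range D.I, D.A i S| ≤ _
    obtain ⟨h3, h4⟩ := prod_A_le h (range D.I) S
    rw [abs_of_nonneg h3]
    have h5 : (2 : ℝ) ^ ∑ i ∈ range D.I, cnt D.rg i S ≤ 2 ^ S.card :=
      pow_le_pow_right₀ (by norm_num) (sum_cnt_le D.rg _ S)
    linarith
  | md j =>
    show |(1 / (J : ℝ)) * ((D.A j S - D.a j) / (1 - D.a j)) * ∏ i ∈ Ioo (j : ℕ) D.I, D.A i S| ≤ _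
    have hj : (j : ℕ) < D.I := lt_of_lt_of_le j.2 h.J_le
    obtain ⟨h3, h4⟩ := prod_A_le h (Ioo (j : ℕ) D.I) S
    have ha := (h.a_le j hj).1
    have ha' := h.one_sub_a j.2
    obtain ⟨hA0, hA1, -, -⟩ := h.A_facts j S
    have hJ : (1 : ℝ) ≤ J := by exact_mod_cast h.J_pos
    have h6 : |1 / (J : ℝ)| ≤ 1 := by
      rw [abs_of_nonneg (by positivity)]
      exact (div_le_one (by linarith)).mpr hJ
    have hp : (1 : ℝ) ≤ 2 ^ cnt D.rg j S := one_le_pow₀ (by norm_num)
    have h7 : |(D.A j S - D.a j) / (1 - D.a j)| ≤ 5 * 2 ^ cnt D.rg j S := by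
      rw [abs_div, abs_of_nonneg (show 0 ≤ 1 - D.a j by linarith), div_le_iff₀ (by linarith)]
      have h8 : |D.A j S - D.a j| ≤ 2 ^ cnt D.rg j S := by
        rw [abs_le]
        constructor <;> linarith
      nlinarith
    have h9 : (2 : ℝ) ^ cnt D.rg j S * 2 ^ ∑ i ∈ Ioo (j : ℕ) D.I, cnt D.rg i S ≤ 2 ^ S.card := by
      rw [← pow_add]
      apply pow_le_pow_right₀ (by norm_num)
      have h10 := sum_cnt_le D.rg (Ico (j : ℕ) D.I) S
      rwa [← Finset.Ioo_insert_left hj, Finset.sum_insert (by simp)] at h10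
    rw [abs_mul, abs_mul, abs_of_nonneg h3]
    calc |1 / (J : ℝ)| * |(D.A j S - D.a j) / (1 - D.a j)| * ∏ i ∈ Ioo (j : ℕ) D.I, D.A i S
        ≤ 1 * (5 * 2 ^ cnt D.rg j S) * 2 ^ ∑ i ∈ Ioo (j : ℕ) D.I, cnt D.rg i S := by
          apply mul_le_mul (mul_le_mul h6 h7 (abs_nonneg _) zero_le_one) h4 h3 (by positivity)
      _ = 5 * (2 ^ cnt D.rg j S * 2 ^ ∑ i ∈ Ioo (j : ℕ) D.I, cnt D.rg i S) := by ring
      _ ≤ 5 * 2 ^ S.card := by linarith

theorem wd_le {J : ℕ} {D : Dt ι} {t : ℝ} (h : Reg D J t) (W : Fin 4 → Lt J) (S : Finset ι) :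
    |wd D W S| ≤ 625 * 16 ^ S.card := by
  unfold wd
  rw [Finset.abs_prod]
  calc ∏ l, |Fn D (W l) S| ≤ ∏ _l : Fin 4, (5 * 2 ^ S.card : ℝ) :=
        Finset.prod_le_prod (fun _ _ => abs_nonneg _) fun l _ => Fn_le h (W l) S
    _ = 625 * 16 ^ S.card := by
        rw [Finset.prod_const, Finset.card_univ, Fintype.card_fin, mul_pow, ← pow_mul, mul_comm _ 4,
          pow_mul]
        norm_num

/-- Möbius inversion. -/
theorem moebius (f μ : Finset ι → ℝ) (h : ∀ S, f S = ∑ S' ∈ S.powerset, μ S') (S : Finset ι) :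
    μ S = ∑ T ∈ S.powerset, (-1) ^ (S \ T).card * f T := by
  have h1 : ∀ T ∈ S.powerset, (-1 : ℝ) ^ (S \ T).card * f T =
      ∑ U ∈ S.powerset, if U ⊆ T then (-1 : ℝ) ^ (S \ T).card * μ U else 0 := by
    intro T hT
    have hTS := Finset.mem_powerset.mp hT
    rw [h, Finset.mul_sum, ← Finset.sum_subset (Finset.powerset_mono.mpr hTS)]
    · refine Finset.sum_congr rfl fun U hU => ?_
      rw [if_pos (Finset.mem_powerset.mp hU)]
    · intro U _ hU
      rw [if_neg]
      exact fun h' => hU (Finset.mem_powerset.mpr h')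
  rw [Finset.sum_congr rfl h1, Finset.sum_comm]
  have h2 : ∀ U ∈ S.powerset,
      (∑ T ∈ S.powerset, if U ⊆ T then (-1 : ℝ) ^ (S \ T).card * μ U else 0) =
      if U = S then μ S else 0 := by
    intro U hU
    have hUS := Finset.mem_powerset.mp hU
    have h3 : (∑ T ∈ S.powerset, if U ⊆ T then (-1 : ℝ) ^ (S \ T).card * μ U else 0) =
        ∑ V ∈ (S \ U).powerset, (-1 : ℝ) ^ V.card * μ U := by
      rw [← Finset.sum_filter]
      apply Finset.sum_bij' (fun T _ => S \ T) (fun V _ => S \ V)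
      · intro T hT
        obtain ⟨h4, h5⟩ := Finset.mem_filter.mp hT
        exact Finset.mem_powerset.mpr (Finset.sdiff_subset_sdiff le_rfl h5)
      · intro V hV
        have h4 := Finset.mem_powerset.mp hV
        refine Finset.mem_filter.mpr ⟨Finset.mem_powerset.mpr Finset.sdiff_subset, ?_⟩
        intro x hx
        refine Finset.mem_sdiff.mpr ⟨hUS hx, fun hx' => ?_⟩
        exact (Finset.mem_sdiff.mp (h4 hx')).2 hx
      · intro T hT
        obtain ⟨h4, h5⟩ := Finset.mem_filter.mp hT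
        exact Finset.sdiff_sdiff_eq_self (Finset.mem_powerset.mp h4)
      · intro V hV
        have h4 := Finset.mem_powerset.mp hV
        exact Finset.sdiff_sdiff_eq_self (h4.trans Finset.sdiff_subset)
      · intro T _
        rfl
    rw [h3, ← Finset.sum_mul]
    have h4 : (∑ V ∈ (S \ U).powerset, (-1 : ℝ) ^ V.card) = if S \ U = ∅ then 1 else 0 := by
      have := Finset.sum_powerset_neg_one_pow_card (x := S \ U)
      exact_mod_cast this
    rw [h4]
    by_cases hU' : U = S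
    · subst hU'
      simp
    · rw [if_neg hU', if_neg, zero_mul]
      intro h5
      exact hU' (Finset.Subset.antisymm hUS (Finset.sdiff_eq_empty_iff_subset.mp h5))
  rw [Finset.sum_congr rfl h2, Finset.sum_ite_eq', if_pos (Finset.mem_powerset_self S)]

theorem moebius_le (f μ : Finset ι → ℝ) (h : ∀ S, f S = ∑ S' ∈ S.powerset, μ S')
    (hf : ∀ S, |f S| ≤ 625 * 16 ^ S.card) (S : Finset ι) : |μ S| ≤ 10 ^ 4 * 32 ^ S.card := by
  rw [moebius f μ h S]
  calc |∑ T ∈ S.powerset, (-1 : ℝ) ^ (S \ T).card * f T|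
      ≤ ∑ T ∈ S.powerset, |(-1 : ℝ) ^ (S \ T).card * f T| := Finset.abs_sum_le_sum_abs _ _
    _ ≤ ∑ T ∈ S.powerset, 625 * (16 : ℝ) ^ S.card := by
        refine Finset.sum_le_sum fun T hT => ?_
        rw [abs_mul, abs_pow, abs_neg, abs_one, one_pow, one_mul]
        refine (hf T).trans ?_
        have := Finset.card_le_card (Finset.mem_powerset.mp hT)
        have h2 : (16 : ℝ) ^ T.card ≤ 16 ^ S.card := pow_le_pow_right₀ (by norm_num) this
        linarith
    _ = 625 * 32 ^ S.card := by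
        rw [Finset.sum_const, Finset.card_powerset, nsmul_eq_mul]
        push_cast
        rw [show (32 : ℝ) = 2 * 16 by norm_num, mul_pow]
        ring
    _ ≤ 10 ^ 4 * 32 ^ S.card := by
        have : (0 : ℝ) ≤ 32 ^ S.card := by positivity
        nlinarith

end

theorem mob : Mob := by
  intro ι _ _ D J t h s ρ hρ hs hs' W
  obtain ⟨μ, h1, h2⟩ := Sp.prod hs (Finset.univ : Finset (Fin 4)) (fun l => Fn D (W l))
    (fun l => lv D ρ (W l)) fun l _ => Sp.Fn h s ρ hρ hs hs' (W l)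
  exact ⟨μ, h1, moebius_le _ μ h1 (wd_le h W), h2⟩

end Pool.Agent.Helper1.LG
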