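import Pool.Agent.Helper1.LG.Defs
import Pool.Agent.Helper1.LG.Crt
import Pool.Agent.Helper1.LG.BVp
import Pool.Agent.Helper18.BV.WtLemmas
import Pool.Agent.Helper46.MT.Expand

set_option autoImplicit false

/-!
LG-T. The transfer (`Transfer` in `Defs.lean`). Use `bvp : BVp` and `crt : Crt` (stubs).

Let `z = ⌊√log x⌋`, `Q` the primes `≤ z` (product `Ps x ≤ 4^z ≤ x^ε`, `primorial_le_4_pow`),
`𝒫 = PL ρ x` (primes in `((log x)², x^ρ]`, `ρ ≤ 1/100 < 1/81`, so `𝒫` and `Q` are contained in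
`PS (lev x) 1` and disjoint). `|h i| < p` and `|h i - h j| ≤ (log x)² < p` for `p ∈ 𝒫`, so `p ∤ h i`
and a prime `p ∈ 𝒫` divides at most one `n + h i` (integers).
1. For `n` fixed, `∏_i ∑_{S ⊆ sg (h i) n} μ i S = ∑_{c : 𝒫 → Option κ, p ∣ n + h (c p) for p ∈ supp c}
   ∏_i μ i (cls c i)` (tuples of disjoint sets are colourings; the sets `sg (h i) n` are
   disjoint), and the indicator of `∀ i, gcd (n + h i) (Ps x) = 1` is
   `∑_{V ⊆ Q} (-1)^|V| ∏_{p∈V} [∃ i, p ∣ n + h i]`
   `= ∑_{V ⊆ Q} (-1)^|V| ∑_{r ∈ ∏_{p∈V} R_p} [n ≡ r_p (p) for all p ∈ V]`, `R_p` the set of the residues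
   `a ∈ range p` with `∃ i, p ∣ a + h i`; `|R_p| ≤ u0`.
2. Interchange. For fixed `V, r, c` the conditions define one class modulo
   `d = ∏ V · ∏ supp c` (`Nat.chineseRemainderOfFinset` or `Nat.chineseRemainder`). If some
   `r_p = 0` there is no `n` with `nu n ≠ 0` (`n` prime, `n > √x > p`), otherwise the class is reduced
   and the sum of `nu` is `Mn/φ(d) + O(Er d)`, `φ(d) = ∏_{p} (p-1)`.
3. Main term: `Mn · [∑_V (-1)^|V| ∏_{p∈V} |R_p \ {0}|/(p-1)] · [∑_c ∏_i μ i (cls c i) ∏_{p∈supp c} wl p]`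
   `= Mn · ∏_{p∈Q} (1 - |R_p\{0}|/(p-1)) · Eq ...`: the first product is `sP` by `crt` (for the
   numerator and, with `κ = Empty` or directly, for the denominator `card (Om x)`), the second by
   `Eq κ w (∑_{c ≤ σ} F c) = ∑_c F c ∏_{p∈supp c} w p` (the probabilities sum to `1` at the other
   points) and `∏_i ∑_{S ⊆ cls σ i} μ i S = ∑_{c ≤ σ} ∏_i μ i (cls c i)`.
4. Error: terms with nonzero coefficient have `∑_{p ∈ supp c} log p ≤ log x/50`, so
   `∏ V · ∏ supp c ≤ Ps x · x^(1/50) ≤ lev x ^ 2`; there are at most `u0^|V|` choices of `r` and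
   `u0^|S|` colourings with support `S`, `∏_i |μ i (cls c i)| ≤ k^(|S| + u0)` (take `k ≥ 1`), so the
   error is at most `k^u0 ∑_U (k u0)^|U| Er(∏ U)` over `U = V ∪ S ⊆ PS (lev x) 1` (the pair `(V, S)` is
   determined by `U`). Apply `bvp` with `k u0 + 1`, `A + 1`.
See Helper83/MT/SumPrime.lean, Helper72/MT/SumPrimeU.lean for similar arguments.
-/

open Finset
open scoped ArithmeticFunction.vonMangoldt

namespace Pool.Agent.Helper1.LG

open Pool.Agent.Helper1.MT (supp cls pr PS lev Le)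
open Pool.Agent.Helper18.BV (wt IsWt)

namespace Tr

section Abstract

variable {ι κ : Type} [Fintype ι] [Fintype κ] [DecidableEq ι] [DecidableEq κ]

theorem mem_cls {c : ι → Option κ} {i : κ} {p : ι} : p ∈ cls c i ↔ c p = some i := by
  simp [cls]

theorem mem_supp {c : ι → Option κ} {p : ι} : p ∈ supp c ↔ c p ≠ none := by
  simp [supp]

/-- Products of sums over subsets of disjoint sets. -/
theorem prod_sum_cls (B : κ → Finset ι) (hB : ∀ i j, i ≠ j → Disjoint (B i) (B j))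
    (f : κ → Finset ι → ℝ) :
    ∏ i, ∑ S ∈ (B i).powerset, f i S =
      ∑ c ∈ (univ : Finset (ι → Option κ)).filter (fun c => ∀ i, cls c i ⊆ B i),
        ∏ i, f i (cls c i) := by
  classical
  rw [Finset.prod_univ_sum]
  symm
  refine Finset.sum_bij (fun c _ i => cls c i) ?_ ?_ ?_ ?_
  · intro c hc
    rw [mem_filter] at hc
    rw [Fintype.mem_piFinset]
    intro i
    rw [mem_powerset]
    exact hc.2 i
  · intro c _ c' _ h
    funext p
    have h1 : ∀ i, (c p = some i ↔ c' p = some i) := by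
      intro i
      rw [← mem_cls, ← mem_cls]
      have := congrFun h i
      rw [this]
    exact Option.ext h1
  · intro S hS
    rw [Fintype.mem_piFinset] at hS
    have hS' : ∀ i, S i ⊆ B i := fun i => mem_powerset.1 (hS i)
    have hu : ∀ p i j, p ∈ S i → p ∈ S j → i = j := by
      intro p i j hi hj
      by_contra hne
      exact (Finset.disjoint_left.1 (hB i j hne)) (hS' i hi) (hS' j hj)
    have hcls : ∀ i, cls (fun p => if h : ∃ i, p ∈ S i then some h.choose else none : ι → Option κ) i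
        = S i := by
      intro i
      ext p
      rw [mem_cls]
      constructor
      · intro h
        split_ifs at h with h1
        · rw [Option.some.injEq] at h
          rw [← h]
          exact h1.choose_spec
      · intro h
        have h1 : ∃ i, p ∈ S i := ⟨i, h⟩
        rw [dif_pos h1, Option.some.injEq]
        exact hu p _ _ h1.choose_spec h
    refine ⟨fun p => if h : ∃ i, p ∈ S i then some h.choose else none, ?_, ?_⟩
    · rw [mem_filter]
      refine ⟨mem_univ _, fun i => ?_⟩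
      rw [hcls i]
      exact hS' i
    · funext i
      exact hcls i
  · intro c _
    rfl

theorem cls_subset_iff (c σ : ι → Option κ) : (∀ i, cls c i ⊆ cls σ i) ↔ Le c σ := by
  unfold Le
  constructor
  · intro h p
    cases hc : c p with
    | none => left; rfl
    | some i =>
      right
      have := h i (mem_cls.2 hc)
      rw [mem_cls] at this
      exact this.symm
  · intro h i p hp
    rw [mem_cls] at hp ⊢
    rcases h p with h1 | h1
    · rw [h1] at hp; exact absurd hp (by simp)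
    · rw [← h1]; exact hp

theorem sum_pr (w : ℝ) : ∑ a : Option κ, pr κ w a = 1 := by
  rw [Fintype.sum_option]
  simp only [pr, sum_const, card_univ, nsmul_eq_mul]
  ring

theorem Eq_expand (w : ι → ℝ) (μ : κ → Finset ι → ℝ) :
    Eq κ w (fun σ => ∏ i, ∑ S ∈ (cls σ i).powerset, μ i S) =
      ∑ c : ι → Option κ, (∏ i, μ i (cls c i)) * ∏ p ∈ supp c, w p := by
  classical
  unfold Eq
  have h1 : ∀ σ : ι → Option κ, (∏ p, pr κ (w p) (σ p)) *
      ∏ i, ∑ S ∈ (cls σ i).powerset, μ i S =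
      ∑ c : ι → Option κ, (∏ i, μ i (cls c i)) * (if Le c σ then ∏ p, pr κ (w p) (σ p) else 0) := by
    intro σ
    rw [prod_sum_cls (fun i => cls σ i) (by
      intro i j hij
      rw [Finset.disjoint_left]
      intro p hp hp'
      rw [mem_cls] at hp hp'
      rw [hp, Option.some.injEq] at hp'
      exact hij hp') μ, Finset.mul_sum, Finset.sum_filter]
    apply Finset.sum_congr rfl
    intro c _
    by_cases h : Le c σ
    · rw [if_pos ((cls_subset_iff c σ).2 h), if_pos h, mul_comm]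
    · rw [if_neg (fun h' => h ((cls_subset_iff c σ).1 h')), if_neg h, mul_zero]
  rw [Finset.sum_congr rfl (fun σ _ => h1 σ), Finset.sum_comm]
  apply Finset.sum_congr rfl
  intro c _
  rw [← Finset.mul_sum, Pool.Agent.Helper46.MT.sum_ext (fun p => pr κ (w p)) (fun p => sum_pr (w p)) c]
  congr 1
  apply Finset.prod_congr rfl
  intro p hp
  rw [mem_supp] at hp
  cases hc : c p with
  | none => exact absurd hc hp
  | some i => rfl

/-- The number of colourings with a given support. -/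
theorem card_supp_le (S : Finset ι) :
    ((univ : Finset (ι → Option κ)).filter (fun c => supp c = S)).card ≤
      Fintype.card κ ^ S.card := by
  classical
  have h1 : (Fintype.piFinset (fun p : ι => if p ∈ S then (univ : Finset κ).image some else
      {(none : Option κ)})).card ≤ Fintype.card κ ^ S.card := by
    rw [Fintype.card_piFinset]
    have h2 : ∀ p ∈ (univ : Finset ι), (if p ∈ S then (univ : Finset κ).image some else
      {(none : Option κ)}).card ≤
          if p ∈ S then Fintype.card κ else 1 := by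
      intro p _
      split_ifs
      · exact Finset.card_image_le
      · simp
    refine (Finset.prod_le_prod (fun _ _ => Nat.zero_le _) h2).trans ?_
    rw [Finset.prod_ite]
    simp
  refine le_trans (Finset.card_le_card ?_) h1
  intro c hc
  rw [mem_filter] at hc
  rw [Fintype.mem_piFinset]
  intro p
  split_ifs with h
  · rw [← hc.2, mem_supp] at h
    rw [mem_image]
    cases hcp : c p with
    | none => exact absurd hcp h
    | some i => exact ⟨i, mem_univ _, rfl⟩
  · rw [← hc.2, mem_supp] at h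
    push Not at h
    rw [mem_singleton]
    exact h

theorem sum_card_cls (c : ι → Option κ) (t : ι → ℝ) :
    ∑ i, ∑ p ∈ cls c i, t p = ∑ p ∈ supp c, t p := by
  classical
  rw [← Finset.sum_biUnion]
  · apply Finset.sum_congr _ (fun _ _ => rfl)
    ext p
    rw [mem_biUnion, mem_supp]
    constructor
    · rintro ⟨i, _, hi⟩
      rw [mem_cls] at hi
      rw [hi]
      simp
    · intro h
      cases hc : c p with
      | none => exact absurd hc h
      | some i => exact ⟨i, mem_univ _, mem_cls.2 hc⟩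
  · intro i _ j _ hij
    rw [Function.onFun, Finset.disjoint_left]
    intro p hp hp'
    rw [mem_cls] at hp hp'
    rw [hp, Option.some.injEq] at hp'
    exact hij hp'

theorem card_cls (c : ι → Option κ) : ∑ i, (cls c i).card = (supp c).card := by
  have h := sum_card_cls c (fun _ => (1 : ℝ))
  simp only [sum_const, nsmul_eq_mul, mul_one] at h
  exact_mod_cast h

end Abstract

end Tr

namespace Tr

/-! ### Residue classes -/

theorem card_mod_prod {p M : ℕ} (h : Nat.Coprime p M) (hp : 0 < p) (hM : 0 < M)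
    (A B : ℕ → Prop) [DecidablePred A] [DecidablePred B] :
    ((range (p * M)).filter (fun a => A (a % p) ∧ B (a % M))).card =
      ((range p).filter A).card * ((range M).filter B).card := by
  rw [← Finset.card_product]
  refine Finset.card_nbij' (fun a => (a % p, a % M))
    (fun u => (Nat.chineseRemainder h u.1 u.2 : ℕ)) ?_ ?_ ?_ ?_
  · intro a ha
    simp only [Finset.mem_coe, mem_filter, mem_range, mem_product] at ha ⊢
    exact ⟨⟨Nat.mod_lt _ hp, ha.2.1⟩, Nat.mod_lt _ hM, ha.2.2⟩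
  · rintro ⟨u, v⟩ hu
    simp only [Finset.mem_coe, mem_filter, mem_range, mem_product] at hu ⊢
    obtain ⟨⟨h1, h2⟩, h3, h4⟩ := hu
    have h5 := (Nat.chineseRemainder h u v).2
    have h6 : (Nat.chineseRemainder h u v : ℕ) % p = u := by
      rw [h5.1, Nat.mod_eq_of_lt h1]
    have h7 : (Nat.chineseRemainder h u v : ℕ) % M = v := by
      rw [h5.2, Nat.mod_eq_of_lt h3]
    refine ⟨Nat.chineseRemainder_lt_mul h u v hp.ne' hM.ne', ?_, ?_⟩
    · rw [h6]; exact h2
    · rw [h7]; exact h4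
  · intro a ha
    simp only [Finset.mem_coe, mem_filter, mem_range] at ha
    have h5 := (Nat.chineseRemainder h (a % p) (a % M)).2
    have h6 : (Nat.chineseRemainder h (a % p) (a % M) : ℕ) ≡ a [MOD p * M] := by
      rw [← Nat.modEq_and_modEq_iff_modEq_mul h]
      exact ⟨h5.1.trans (Nat.mod_modEq a p), h5.2.trans (Nat.mod_modEq a M)⟩
    exact Nat.ModEq.eq_of_lt_of_lt h6
      (Nat.chineseRemainder_lt_mul h (a % p) (a % M) hp.ne' hM.ne') ha.1
  · rintro ⟨u, v⟩ hu
    simp only [Finset.mem_coe, mem_filter, mem_range, mem_product] at hu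
    obtain ⟨⟨h1, h2⟩, h3, h4⟩ := hu
    have h5 := (Nat.chineseRemainder h u v).2
    refine Prod.ext ?_ ?_
    · show (Nat.chineseRemainder h u v : ℕ) % p = u
      rw [h5.1, Nat.mod_eq_of_lt h1]
    · show (Nat.chineseRemainder h u v : ℕ) % M = v
      rw [h5.2, Nat.mod_eq_of_lt h3]

theorem card_classes (A : ℕ → ℕ → Prop) [∀ p, DecidablePred (A p)] (U : Finset ℕ)
    (hU : ∀ p ∈ U, p.Prime) :
    ((range (∏ p ∈ U, p)).filter (fun a : ℕ => ∀ p ∈ U, A p (a % p))).card =
      ∏ p ∈ U, ((range p).filter (A p)).card := by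
  classical
  induction U using Finset.induction_on with
  | empty => simp
  | insert p S hpS ih =>
    have hp : p.Prime := hU p (mem_insert_self _ _)
    have hS' : ∀ q ∈ S, q.Prime := fun q hq => hU q (mem_insert_of_mem hq)
    have hM : 0 < ∏ q ∈ S, q := prod_pos fun q hq => (hS' q hq).pos
    have hco : Nat.Coprime p (∏ q ∈ S, q) :=
      Nat.Coprime.prod_right fun q hq => (Nat.coprime_primes hp (hS' q hq)).mpr
        (fun e => hpS (e ▸ hq))
    rw [prod_insert hpS, prod_insert hpS, ← ih hS', ← card_mod_prod hco hp.pos hM]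
    refine congrArg Finset.card (Finset.filter_congr fun a _ => ?_)
    rw [Finset.forall_mem_insert]
    refine and_congr_right fun _ => forall₂_congr fun q hq => ?_
    rw [Nat.mod_mod_of_dvd a (dvd_prod_of_mem (fun q => q) hq)]

theorem totient_prod (U : Finset ℕ) (hU : ∀ p ∈ U, p.Prime) :
    ((∏ p ∈ U, p : ℕ).totient : ℝ) = ∏ p ∈ U, ((p : ℝ) - 1) := by
  classical
  induction U using Finset.induction_on with
  | empty => simp
  | insert p S hpS ih =>
    have hp : p.Prime := hU p (mem_insert_self _ _)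
    have hS' : ∀ q ∈ S, q.Prime := fun q hq => hU q (mem_insert_of_mem hq)
    have hco : Nat.Coprime p (∏ q ∈ S, q) :=
      Nat.Coprime.prod_right fun q hq => (Nat.coprime_primes hp (hS' q hq)).mpr
        (fun e => hpS (e ▸ hq))
    rw [prod_insert hpS, prod_insert hpS, Nat.totient_mul hco, Nat.totient_prime hp, ← ih hS']
    rw [Nat.cast_mul, Nat.cast_sub hp.one_le]
    simp

theorem nu_ne_zero {g : ℝ → ℝ} (hg : IsWt g) {x : ℝ} (hx : 1 < x) {n : ℕ} (h : nu g x n ≠ 0) :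
    n.Prime ∧ x ^ (1 / 2 : ℝ) < n := by
  unfold nu at h
  split_ifs at h with hp
  · refine ⟨hp, ?_⟩
    by_contra hlt
    push Not at hlt
    apply h
    rw [Pool.Agent.Helper18.BV.wt_zero hg hx hlt, mul_zero]
  · exact absurd rfl h

/-- The number of admissible nonzero residues. -/
def nn (A : ℕ → ℕ → Prop) [∀ p, DecidablePred (A p)] (p : ℕ) : ℕ :=
  ((range p).filter (fun a => a ≠ 0 ∧ A p a)).card

/-- The sum over the `n` satisfying local conditions. -/
theorem local_sum {g : ℝ → ℝ} (hg : IsWt g) {x : ℝ} (hx : 1 < x) {Er : ℕ → ℝ}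
    (hEr : ∀ d c : ℕ, 0 < d → Nat.Coprime c d →
        |∑ n ∈ (Icc 1 ⌊x⌋₊).filter (fun n => n ≡ c [MOD d]), nu g x n -
          (1 / (d.totient : ℝ)) * Mn g x| ≤ Er d)
    (A : ℕ → ℕ → Prop) [∀ p, DecidablePred (A p)] (U : Finset ℕ) (hU : ∀ p ∈ U, p.Prime)
    (hUx : ∀ p ∈ U, (p : ℝ) ≤ x ^ (1 / 2 : ℝ)) :
    |∑ n ∈ (Icc 1 ⌊x⌋₊).filter (fun n => ∀ p ∈ U, A p (n % p)), nu g x n -
      Mn g x * ∏ p ∈ U, ((nn A p : ℝ) / ((p : ℝ) - 1))| ≤
      (∏ p ∈ U, (nn A p : ℝ)) * Er (∏ p ∈ U, p) := by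
  classical
  set d : ℕ := ∏ p ∈ U, p with hd
  have hd0 : 0 < d := prod_pos fun p hp => (hU p hp).pos
  set C : Finset ℕ := (range d).filter (fun a : ℕ => ∀ p ∈ U, (a % p ≠ 0 ∧ A p (a % p))) with hC
  have hCcard : (C.card : ℝ) = ∏ p ∈ U, (nn A p : ℝ) := by
    rw [hC, hd, card_classes (fun p a => a ≠ 0 ∧ A p a) U hU, Nat.cast_prod]
    rfl
  have h1 : ∑ n ∈ (Icc 1 ⌊x⌋₊).filter (fun n => ∀ p ∈ U, A p (n % p)), nu g x n =
      ∑ n ∈ (Icc 1 ⌊x⌋₊).filter (fun n => ∀ p ∈ U, (n % p ≠ 0 ∧ A p (n % p))), nu g x n := by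
    rw [Finset.sum_filter, Finset.sum_filter]
    apply Finset.sum_congr rfl
    intro n _
    by_cases h0 : nu g x n = 0
    · rw [h0]; simp
    · obtain ⟨hp, hn⟩ := nu_ne_zero hg hx h0
      have h2 : (∀ p ∈ U, A p (n % p)) ↔ (∀ p ∈ U, (n % p ≠ 0 ∧ A p (n % p))) := by
        refine forall₂_congr fun p hpU => ?_
        have h3 : n % p ≠ 0 := by
          intro h4
          have h5 := (Nat.prime_dvd_prime_iff_eq (hU p hpU) hp).1 (Nat.dvd_of_mod_eq_zero h4)
          have h6 := hUx p hpU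
          rw [h5] at h6
          linarith
        exact ⟨fun h => ⟨h3, h⟩, fun h => h.2⟩
      simp only [h2]
  have h2 : ∑ n ∈ (Icc 1 ⌊x⌋₊).filter (fun n => ∀ p ∈ U, (n % p ≠ 0 ∧ A p (n % p))), nu g x n =
      ∑ a ∈ C, ∑ n ∈ (Icc 1 ⌊x⌋₊).filter (fun n => n ≡ a [MOD d]), nu g x n := by
    rw [← Finset.sum_fiberwise_of_maps_to (t := C) (g := fun n => n % d)]
    · apply Finset.sum_congr rfl
      intro a ha
      apply Finset.sum_congr _ (fun _ _ => rfl)
      ext n
      rw [hC, mem_filter, mem_range] at ha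
      simp only [mem_filter]
      constructor
      · rintro ⟨⟨h3, _⟩, h5⟩
        refine ⟨h3, ?_⟩
        unfold Nat.ModEq
        rw [h5, Nat.mod_eq_of_lt ha.1]
      · rintro ⟨h3, h4⟩
        have h5 : n % d = a := by
          unfold Nat.ModEq at h4
          rw [h4, Nat.mod_eq_of_lt ha.1]
        refine ⟨⟨h3, ?_⟩, h5⟩
        intro p hp
        have h6 : n % p = a % p := by
          rw [← h5, Nat.mod_mod_of_dvd n (dvd_prod_of_mem (fun q => q) hp)]
        rw [h6]
        exact ha.2 p hp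
    · intro n hn
      rw [mem_filter] at hn
      rw [hC, mem_filter, mem_range]
      refine ⟨Nat.mod_lt _ hd0, ?_⟩
      intro p hp
      rw [Nat.mod_mod_of_dvd n (dvd_prod_of_mem (fun q => q) hp)]
      exact hn.2 p hp
  have h3 : Mn g x * ∏ p ∈ U, ((nn A p : ℝ) / ((p : ℝ) - 1)) =
      ∑ a ∈ C, (1 / (d.totient : ℝ)) * Mn g x := by
    rw [Finset.sum_const, nsmul_eq_mul, hCcard, Finset.prod_div_distrib, hd, totient_prod U hU]
    ring
  rw [h1, h2, h3, ← Finset.sum_sub_distrib]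
  refine (Finset.abs_sum_le_sum_abs _ _).trans ?_
  calc _ ≤ ∑ a ∈ C, Er d := by
        apply Finset.sum_le_sum
        intro a ha
        rw [hC, mem_filter] at ha
        apply hEr d a hd0
        rw [hd]
        refine Nat.Coprime.prod_right fun p hp => ?_
        rw [Nat.coprime_comm, (hU p hp).coprime_iff_not_dvd]
        intro h4
        exact (ha.2 p hp).1 (Nat.mod_eq_zero_of_dvd h4)
    _ = _ := by rw [Finset.sum_const, nsmul_eq_mul, hCcard]

/-- Expansion of the sieve conditions. -/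
theorem sieve_sum (F : Finset ℕ) (ν : ℕ → ℝ) (Q : Finset ℕ) (P : ℕ → ℕ → Prop)
    [∀ p, DecidablePred (P p)] (R : ℕ → Prop) [DecidablePred R] :
    ∑ n ∈ F.filter (fun n => (∀ p ∈ Q, ¬ P p (n % p)) ∧ R n), ν n =
      ∑ V ∈ Q.powerset, (-1 : ℝ) ^ V.card *
        ∑ n ∈ F.filter (fun n => (∀ p ∈ V, P p (n % p)) ∧ R n), ν n := by
  classical
  have h1 : ∀ n, (if (∀ p ∈ Q, ¬ P p (n % p)) then (1 : ℝ) else 0) =
      ∑ V ∈ Q.powerset, (-1 : ℝ) ^ V.card * (if (∀ p ∈ V, P p (n % p)) then 1 else 0) := by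
    intro n
    have h2 : ∀ V : Finset ℕ, (-1 : ℝ) ^ V.card * (if (∀ p ∈ V, P p (n % p)) then 1 else 0) =
        ∏ p ∈ V, (-(if P p (n % p) then (1 : ℝ) else 0)) := by
      intro V
      have h3 : ∏ p ∈ V, (-(if P p (n % p) then (1 : ℝ) else 0)) =
          (-1 : ℝ) ^ V.card * ∏ p ∈ V, (if P p (n % p) then (1 : ℝ) else 0) := by
        rw [← Finset.prod_const, ← Finset.prod_mul_distrib]
        apply Finset.prod_congr rfl
        intro p _
        ring
      rw [h3, Finset.prod_boole]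
    rw [Finset.sum_congr rfl (fun V _ => h2 V), ← Finset.prod_one_add]
    have h4 : ∀ p ∈ Q, (1 + -(if P p (n % p) then (1 : ℝ) else 0)) =
        if ¬ P p (n % p) then 1 else 0 := by
      intro p _
      by_cases h : P p (n % p) <;> simp [h]
    rw [Finset.prod_congr rfl h4, Finset.prod_boole]
  have h2 : ∀ n ∈ F, (if ((∀ p ∈ Q, ¬ P p (n % p)) ∧ R n) then ν n else 0) =
      ∑ V ∈ Q.powerset, (-1 : ℝ) ^ V.card *
        (if ((∀ p ∈ V, P p (n % p)) ∧ R n) then ν n else 0) := by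
    intro n _
    by_cases hR : R n
    · have h3 := h1 n
      simp only [hR, and_true]
      have h4 : (if (∀ p ∈ Q, ¬ P p (n % p)) then ν n else 0) =
          (if (∀ p ∈ Q, ¬ P p (n % p)) then (1 : ℝ) else 0) * ν n := by
        split_ifs <;> simp
      rw [h4, h3, Finset.sum_mul]
      apply Finset.sum_congr rfl
      intro V _
      split_ifs <;> simp
    · simp [hR]
  rw [Finset.sum_filter, Finset.sum_congr rfl h2, Finset.sum_comm]
  apply Finset.sum_congr rfl
  intro V _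
  rw [Finset.sum_filter, Finset.mul_sum]

end Tr

namespace Tr

/-! ### The small primes -/

/-- The small primes. -/
noncomputable def Qx (x : ℝ) : Finset ℕ :=
  (range (⌊Real.sqrt (Real.log x)⌋₊ + 1)).filter Nat.Prime

theorem Qx_prime {x : ℝ} {p : ℕ} (hp : p ∈ Qx x) : p.Prime := (mem_filter.1 hp).2

theorem Ps_eq (x : ℝ) : Ps x = ∏ p ∈ Qx x, p := rfl

theorem dvd_mod_iff (p n : ℕ) (t : ℤ) : (p : ℤ) ∣ ((n % p : ℕ) : ℤ) + t ↔ (p : ℤ) ∣ (n : ℤ) + t := by
  have h : (n : ℤ) + t = (((n % p : ℕ) : ℤ) + t) + (p : ℤ) * ((n / p : ℕ) : ℤ) := by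
    have h4 : ((n % p + p * (n / p) : ℕ) : ℤ) = (n : ℤ) := by rw [Nat.mod_add_div]
    push_cast at h4 ⊢
    linarith
  rw [h]
  exact (dvd_add_left (dvd_mul_right _ _)).symm

theorem rough_iff {κ : Type} (x : ℝ) (h : κ → ℤ) (n : ℕ) :
    (∀ i, Int.gcd ((n : ℤ) + h i) (Ps x) = 1) ↔
      ∀ p ∈ Qx x, ¬ ∃ i, (p : ℤ) ∣ ((n % p : ℕ) : ℤ) + h i := by
  have h1 : ∀ i, (Int.gcd ((n : ℤ) + h i) (Ps x) = 1 ↔ ∀ p ∈ Qx x, ¬ (p : ℤ) ∣ (n : ℤ) + h i) := by
    intro i
    rw [← Int.isCoprime_iff_gcd_eq_one, Ps_eq, Nat.cast_prod, IsCoprime.prod_right_iff]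
    refine forall₂_congr fun p hp => ?_
    rw [isCoprime_comm, (Nat.prime_iff_prime_int.mp (Qx_prime hp)).coprime_iff_not_dvd]
  constructor
  · rintro h2 p hp ⟨i, hi⟩
    rw [dvd_mod_iff] at hi
    exact (h1 i).1 (h2 i) p hp hi
  · intro h2 i
    rw [h1 i]
    intro p hp hi
    exact h2 p hp ⟨i, (dvd_mod_iff p n (h i)).2 hi⟩

/-- The residue of `-t`. -/
def rs (p : ℕ) (t : ℤ) : ℕ := ((-t) % (p : ℤ)).toNat

theorem rs_cast {p : ℕ} (hp : 0 < p) (t : ℤ) : ((rs p t : ℕ) : ℤ) = (-t) % (p : ℤ) := by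
  unfold rs
  exact Int.toNat_of_nonneg (Int.emod_nonneg _ (by exact_mod_cast hp.ne'))

theorem rs_lt {p : ℕ} (hp : 0 < p) (t : ℤ) : rs p t < p := by
  have h1 := rs_cast hp t
  have h2 : (-t) % (p : ℤ) < (p : ℤ) := Int.emod_lt_of_pos _ (by exact_mod_cast hp)
  rw [← h1] at h2
  exact_mod_cast h2

theorem rs_spec {p : ℕ} (hp : 0 < p) (t : ℤ) {a : ℕ} (ha : a < p) :
    (p : ℤ) ∣ (a : ℤ) + t ↔ a = rs p t := by
  have h1 := rs_cast hp t
  have h2 : (a : ℤ) ≡ -t [ZMOD (p : ℤ)] ↔ (p : ℤ) ∣ -t - a := Int.modEq_iff_dvd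
  have h3 : (p : ℤ) ∣ (a : ℤ) + t ↔ (p : ℤ) ∣ -t - a := by
    rw [← dvd_neg]
    have : -((a : ℤ) + t) = -t - a := by ring
    rw [this]
  rw [h3, ← h2]
  unfold Int.ModEq
  rw [← h1, Int.emod_eq_of_lt (by positivity) (by exact_mod_cast ha)]
  exact_mod_cast Iff.rfl

/-- The sieve condition. -/
def Pc {κ : Type} (h : κ → ℤ) (p a : ℕ) : Prop := ∃ i, (p : ℤ) ∣ (a : ℤ) + h i

open Classical in
theorem nn_le {κ : Type} [Fintype κ] (h : κ → ℤ) {p : ℕ} (hp : 0 < p) :
    nn (Pc h) p ≤ Fintype.card κ := by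
  unfold nn
  have h1 : (range p).filter (fun a => a ≠ 0 ∧ Pc h p a) ⊆ univ.image (fun i => rs p (h i)) := by
    intro a ha
    rw [mem_filter, mem_range] at ha
    obtain ⟨h2, _, i, hi⟩ := ha
    rw [mem_image]
    exact ⟨i, mem_univ _, ((rs_spec hp (h i) h2).1 hi).symm⟩
  exact (Finset.card_le_card h1).trans Finset.card_image_le

theorem Om_card (x : ℝ) : ((Om x).card : ℝ) = ∏ p ∈ Qx x, ((p : ℝ) - 1) := by
  have h1 : (Om x).card = (Ps x).totient := by
    unfold Om
    rw [Nat.totient_eq_card_coprime]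
    congr 1
    apply Finset.filter_congr
    intro a _
    exact Nat.coprime_comm
  rw [h1, Ps_eq, totient_prod _ (fun p hp => Qx_prime hp)]

open Classical in
theorem sP_eq {κ : Type} [Fintype κ] (x : ℝ) (h : κ → ℤ) :
    sP x h = ∑ V ∈ (Qx x).powerset, (-1 : ℝ) ^ V.card *
      ∏ p ∈ V, ((nn (Pc h) p : ℝ) / ((p : ℝ) - 1)) := by
  have h1 : (((Om x).filter (fun a : ℕ => ∀ i, Int.gcd ((a : ℤ) + h i) (Ps x) = 1)).card : ℝ) =
      ∏ p ∈ Qx x, (((p : ℝ) - 1) - nn (Pc h) p) := by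
    have h2 := crt ⌊Real.sqrt (Real.log x)⌋₊ κ h
    have h3 : (Om x).filter (fun a : ℕ => ∀ i, Int.gcd ((a : ℤ) + h i) (Ps x) = 1) =
        (range (primorial ⌊Real.sqrt (Real.log x)⌋₊)).filter
          (fun a : ℕ => Nat.Coprime a (primorial ⌊Real.sqrt (Real.log x)⌋₊) ∧
          ∀ i, Int.gcd ((a : ℤ) + h i) (primorial ⌊Real.sqrt (Real.log x)⌋₊) = 1) := by
      unfold Om Ps
      rw [Finset.filter_filter]
    rw [h3, h2, Nat.cast_prod]
    apply Finset.prod_congr rfl
    intro p hp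
    have hpp : p.Prime := Qx_prime hp
    have h4 : ((range p).filter (fun a : ℕ => ¬ p ∣ a ∧ ∀ i, ¬ (p : ℤ) ∣ (a : ℤ) + h i)).card +
        nn (Pc h) p = p - 1 := by
      unfold nn
      have h5 : ((range p).filter (fun a : ℕ => a ≠ 0)).card = p - 1 := by
        have : (range p).filter (fun a : ℕ => a ≠ 0) = (range p).erase 0 := by
          ext a
          simp only [mem_filter, mem_erase]
          tauto
        rw [this, Finset.card_erase_of_mem (mem_range.2 hpp.pos), Finset.card_range]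
      rw [← h5, ← Finset.card_filter_add_card_filter_not
        (s := (range p).filter (fun a : ℕ => a ≠ 0)) (fun a : ℕ => ∀ i, ¬ (p : ℤ) ∣ (a : ℤ) + h i),
        Finset.filter_filter, Finset.filter_filter]
      congr 1
      · congr 1
        apply Finset.filter_congr
        intro a ha
        rw [mem_range] at ha
        refine and_congr_left fun _ => ?_
        constructor
        · intro h6 h7
          apply h6
          rw [h7]
          exact dvd_zero _
        · intro h6 h7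
          exact absurd (Nat.le_of_dvd (Nat.pos_of_ne_zero h6) h7) (by omega)
      · congr 1
        apply Finset.filter_congr
        intro a _
        refine and_congr_right fun _ => ?_
        unfold Pc
        push Not
        exact Iff.rfl
    have h6 : (1 : ℕ) ≤ p := hpp.one_le
    have h7 : ((((range p).filter (fun a : ℕ => ¬ p ∣ a ∧ ∀ i, ¬ (p : ℤ) ∣ (a : ℤ) + h i)).card +
        nn (Pc h) p : ℕ) : ℝ) = ((p - 1 : ℕ) : ℝ) := by rw [h4]
    rw [Nat.cast_add, Nat.cast_sub h6, Nat.cast_one] at h7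
    linarith
  unfold sP
  rw [h1, Om_card, ← Finset.prod_div_distrib]
  have h8 : ∀ p ∈ Qx x, (((p : ℝ) - 1) - nn (Pc h) p) / ((p : ℝ) - 1) =
      1 + -((nn (Pc h) p : ℝ) / ((p : ℝ) - 1)) := by
    intro p hp
    have hpp : p.Prime := Qx_prime hp
    have h9 : (2 : ℝ) ≤ p := by exact_mod_cast hpp.two_le
    have h10 : ((p : ℝ) - 1) ≠ 0 := by
      intro h0
      linarith
    field_simp
    ring
  rw [Finset.prod_congr rfl h8, Finset.prod_one_add]
  apply Finset.sum_congr rfl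
  intro V _
  rw [← Finset.prod_const, ← Finset.prod_mul_distrib]
  apply Finset.prod_congr rfl
  intro p _
  ring

end Tr

namespace Tr

/-! ### The large primes -/

theorem PL_mem {ρ x : ℝ} (hx : 0 < x) {p : ℕ} (hp : p ∈ PL ρ x) :
    p.Prime ∧ Real.log x ^ 2 < (p : ℝ) ∧ (p : ℝ) ≤ x ^ ρ := by
  unfold PL at hp
  rw [mem_filter, mem_Icc] at hp
  refine ⟨hp.2.1, hp.2.2, ?_⟩
  exact (Nat.le_floor_iff (Real.rpow_nonneg hx.le _)).1 hp.1.2

/-- A set of large primes. -/
def nT {ρ x : ℝ} (S : Finset (PL ρ x)) : Finset ℕ :=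
  S.map ⟨Subtype.val, Subtype.val_injective⟩

theorem mem_nT {ρ x : ℝ} {S : Finset (PL ρ x)} {p : ℕ} :
    p ∈ nT S ↔ ∃ hp : p ∈ PL ρ x, (⟨p, hp⟩ : PL ρ x) ∈ S := by
  unfold nT
  rw [mem_map]
  constructor
  · rintro ⟨a, ha, rfl⟩
    exact ⟨a.2, ha⟩
  · rintro ⟨hp, hS⟩
    exact ⟨⟨p, hp⟩, hS, rfl⟩

theorem coe_mem_nT {ρ x : ℝ} {S : Finset (PL ρ x)} {p : PL ρ x} : (p : ℕ) ∈ nT S ↔ p ∈ S := by
  rw [mem_nT]
  constructor
  · rintro ⟨_, h⟩
    exact h
  · intro h
    exact ⟨p.2, h⟩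

theorem card_nT {ρ x : ℝ} (S : Finset (PL ρ x)) : (nT S).card = S.card := Finset.card_map _

/-- The local conditions of a colouring. -/
def Ac {κ : Type} {ρ x : ℝ} (h : κ → ℤ) (c : PL ρ x → Option κ) (p a : ℕ) : Prop :=
  (p ∈ Qx x ∧ Pc h p a) ∨
    (p ∉ Qx x ∧ ∃ i, (∃ hp : p ∈ PL ρ x, c ⟨p, hp⟩ = some i) ∧ (p : ℤ) ∣ (a : ℤ) + h i)

theorem mem_sg {ρ x : ℝ} {t : ℤ} {n : ℕ} {p : PL ρ x} :
    p ∈ sg ρ x t n ↔ ((p : ℕ) : ℤ) ∣ (n : ℤ) + t := by
  unfold sg
  rw [mem_filter]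
  exact ⟨fun h => h.2, fun h => ⟨mem_univ _, h⟩⟩

theorem cond_iff {κ : Type} [Fintype κ] [DecidableEq κ] {ρ x : ℝ} (h : κ → ℤ)
    (hdis : ∀ p ∈ Qx x, p ∉ PL ρ x) (c : PL ρ x → Option κ) {V : Finset ℕ} (hV : V ⊆ Qx x)
    (n : ℕ) :
    (∀ p ∈ V ∪ nT (supp c), Ac h c p (n % p)) ↔
      (∀ p ∈ V, Pc h p (n % p)) ∧ ∀ i, cls c i ⊆ sg ρ x (h i) n := by
  constructor
  · intro h1
    refine ⟨fun p hp => ?_, fun i p hp => ?_⟩
    · rcases h1 p (mem_union_left _ hp) with h2 | h2
      · exact h2.2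
      · exact absurd (hV hp) h2.1
    · rw [mem_cls] at hp
      have hs : p ∈ supp c := by
        rw [mem_supp, hp]
        simp
      rcases h1 p (mem_union_right _ (coe_mem_nT.2 hs)) with h2 | ⟨_, j, ⟨hp', hj⟩, h3⟩
      · exact absurd p.2 (hdis _ h2.1)
      · have h4 : c p = some j := hj
        rw [hp, Option.some.injEq] at h4
        rw [← h4] at h3
        rw [mem_sg]
        exact (dvd_mod_iff _ _ _).1 h3
  · rintro ⟨h1, h2⟩ p hp
    rw [mem_union] at hp
    rcases hp with hp | hp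
    · exact Or.inl ⟨hV hp, h1 p hp⟩
    · rw [mem_nT] at hp
      obtain ⟨hp', hs⟩ := hp
      rw [mem_supp] at hs
      right
      refine ⟨fun hq => hdis p hq hp', ?_⟩
      cases hc : c ⟨p, hp'⟩ with
      | none => exact absurd hc hs
      | some i =>
        refine ⟨i, ⟨hp', hc⟩, ?_⟩
        rw [dvd_mod_iff]
        have h3 := h2 i (mem_cls.2 hc)
        rw [mem_sg] at h3
        exact h3

open Classical in
theorem nn_Ac_small {κ : Type} {ρ x : ℝ} (h : κ → ℤ)
    (c : PL ρ x → Option κ) {p : ℕ} (hp : p ∈ Qx x) : nn (Ac h c) p = nn (Pc h) p := by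
  unfold nn
  congr 1
  apply Finset.filter_congr
  intro a _
  refine and_congr_right fun _ => ?_
  unfold Ac
  constructor
  · rintro (h1 | h1)
    · exact h1.2
    · exact absurd hp h1.1
  · intro h1
    exact Or.inl ⟨hp, h1⟩

open Classical in
theorem nn_Ac_large {κ : Type} [Fintype κ] [DecidableEq κ] {ρ x : ℝ} (h : κ → ℤ)
    (hdis : ∀ p ∈ Qx x, p ∉ PL ρ x) (hh : ∀ p ∈ PL ρ x, ∀ i, ¬ (p : ℤ) ∣ h i)
    (c : PL ρ x → Option κ) {p : ℕ} (hx : 0 < x) (hp : p ∈ nT (supp c)) :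
    nn (Ac h c) p = 1 := by
  rw [mem_nT] at hp
  obtain ⟨hp', hs⟩ := hp
  rw [mem_supp] at hs
  have hpp := (PL_mem hx hp').1
  cases hc : c ⟨p, hp'⟩ with
  | none => exact absurd hc hs
  | some i =>
    unfold nn
    rw [Finset.card_eq_one]
    refine ⟨rs p (h i), ?_⟩
    ext a
    rw [mem_filter, mem_range, mem_singleton]
    constructor
    · rintro ⟨ha, _, hA⟩
      rcases hA with hA | ⟨_, j, ⟨hj, hj'⟩, h3⟩
      · exact absurd hp' (hdis _ hA.1)
      · rw [hc, Option.some.injEq] at hj'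
        rw [← hj'] at h3
        exact (rs_spec hpp.pos (h i) ha).1 h3
    · intro ha
      have h1 : a < p := by
        rw [ha]
        exact rs_lt hpp.pos _
      have h2 : (p : ℤ) ∣ (a : ℤ) + h i := (rs_spec hpp.pos (h i) h1).2 ha
      refine ⟨h1, ?_, Or.inr ⟨fun hq => hdis p hq hp', i, ⟨hp', hc⟩, h2⟩⟩
      intro h0
      rw [h0] at h2
      apply hh p hp' i
      simpa using h2

open Classical in
/-- The estimate for one colouring. -/
theorem one_col {κ : Type} [Fintype κ] [DecidableEq κ] {g : ℝ → ℝ} (hg : IsWt g) {x ρ : ℝ}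
    (hx : 1 < x) {Er : ℕ → ℝ} (hE0 : ∀ d, 0 ≤ Er d)
    (hEr : ∀ d c : ℕ, 0 < d → Nat.Coprime c d →
        |∑ n ∈ (Icc 1 ⌊x⌋₊).filter (fun n => n ≡ c [MOD d]), nu g x n -
          (1 / (d.totient : ℝ)) * Mn g x| ≤ Er d)
    (h : κ → ℤ) (hdis : ∀ p ∈ Qx x, p ∉ PL ρ x) (hQx : ∀ p ∈ Qx x, (p : ℝ) ≤ x ^ (1 / 2 : ℝ))
    (hPx : ∀ p ∈ PL ρ x, (p : ℝ) ≤ x ^ (1 / 2 : ℝ))
    (hh : ∀ p ∈ PL ρ x, ∀ i, ¬ (p : ℤ) ∣ h i) (c : PL ρ x → Option κ) :
    |∑ n ∈ (Icc 1 ⌊x⌋₊).filter (fun n : ℕ => (∀ i, Int.gcd ((n : ℤ) + h i) (Ps x) = 1) ∧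
        ∀ i, cls c i ⊆ sg ρ x (h i) n), nu g x n -
      Mn g x * sP x h * ∏ p ∈ supp c, wl ρ x p| ≤
      ∑ V ∈ (Qx x).powerset, (Fintype.card κ : ℝ) ^ V.card *
        Er (∏ p ∈ V ∪ nT (supp c), p) := by
  have hx0 : 0 < x := by linarith
  have h1 : ∑ n ∈ (Icc 1 ⌊x⌋₊).filter (fun n : ℕ => (∀ i, Int.gcd ((n : ℤ) + h i) (Ps x) = 1) ∧
        ∀ i, cls c i ⊆ sg ρ x (h i) n), nu g x n =
      ∑ V ∈ (Qx x).powerset, (-1 : ℝ) ^ V.card *
        ∑ n ∈ (Icc 1 ⌊x⌋₊).filter (fun n => ∀ p ∈ V ∪ nT (supp c), Ac h c p (n % p)),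
          nu g x n := by
    have h2 : (Icc 1 ⌊x⌋₊).filter (fun n : ℕ => (∀ i, Int.gcd ((n : ℤ) + h i) (Ps x) = 1) ∧
        ∀ i, cls c i ⊆ sg ρ x (h i) n) = (Icc 1 ⌊x⌋₊).filter (fun n : ℕ =>
          (∀ p ∈ Qx x, ¬ Pc h p (n % p)) ∧ ∀ i, cls c i ⊆ sg ρ x (h i) n) := by
      apply Finset.filter_congr
      intro n _
      refine and_congr_left fun _ => ?_
      exact rough_iff x h n
    rw [h2, sieve_sum (Icc 1 ⌊x⌋₊) (nu g x) (Qx x) (Pc h) (fun n => ∀ i, cls c i ⊆ sg ρ x (h i) n)]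
    apply Finset.sum_congr rfl
    intro V hV
    rw [mem_powerset] at hV
    congr 1
    apply Finset.sum_congr _ (fun _ _ => rfl)
    apply Finset.filter_congr
    intro n _
    exact (cond_iff h hdis c hV n).symm
  have hdj : ∀ V ⊆ Qx x, Disjoint V (nT (supp c)) := by
    intro V hV
    rw [Finset.disjoint_left]
    intro p hp hp'
    rw [mem_nT] at hp'
    exact hdis p (hV hp) hp'.1
  have h2 : Mn g x * sP x h * ∏ p ∈ supp c, wl ρ x p =
      ∑ V ∈ (Qx x).powerset, (-1 : ℝ) ^ V.card *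
        (Mn g x * ∏ p ∈ V ∪ nT (supp c), ((nn (Ac h c) p : ℝ) / ((p : ℝ) - 1))) := by
    rw [sP_eq, Finset.mul_sum, Finset.sum_mul]
    apply Finset.sum_congr rfl
    intro V hV
    rw [mem_powerset] at hV
    rw [Finset.prod_union (hdj V hV)]
    have h3 : ∏ p ∈ V, ((nn (Ac h c) p : ℝ) / ((p : ℝ) - 1)) =
        ∏ p ∈ V, ((nn (Pc h) p : ℝ) / ((p : ℝ) - 1)) :=
      Finset.prod_congr rfl fun p hp => by rw [nn_Ac_small h c (hV hp)]
    have h4 : ∏ p ∈ nT (supp c), ((nn (Ac h c) p : ℝ) / ((p : ℝ) - 1)) =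
        ∏ p ∈ supp c, wl ρ x p := by
      have h5 : ∏ p ∈ nT (supp c), ((nn (Ac h c) p : ℝ) / ((p : ℝ) - 1)) =
          ∏ p ∈ nT (supp c), (1 / ((p : ℝ) - 1)) :=
        Finset.prod_congr rfl fun p hp => by
          rw [nn_Ac_large h hdis hh c hx0 hp, Nat.cast_one]
      rw [h5]
      unfold nT
      rw [Finset.prod_map]
      rfl
    rw [h3, h4]
    ring
  rw [h1, h2, ← Finset.sum_sub_distrib]
  refine (Finset.abs_sum_le_sum_abs _ _).trans ?_
  apply Finset.sum_le_sum
  intro V hV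
  rw [mem_powerset] at hV
  rw [← mul_sub, abs_mul, abs_pow, abs_neg, abs_one, one_pow, one_mul]
  have hprime : ∀ p ∈ V ∪ nT (supp c), p.Prime := by
    intro p hp
    rw [mem_union] at hp
    rcases hp with hp | hp
    · exact Qx_prime (hV hp)
    · rw [mem_nT] at hp
      exact (PL_mem hx0 hp.1).1
  have h3 := local_sum hg hx hEr (Ac h c) (V ∪ nT (supp c)) hprime (by
    intro p hp
    rw [mem_union] at hp
    rcases hp with hp | hp
    · exact hQx p (hV hp)
    · rw [mem_nT] at hp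
      exact hPx p hp.1)
  refine h3.trans ?_
  apply mul_le_mul_of_nonneg_right _ (hE0 _)
  rw [Finset.prod_union (hdj V hV)]
  have h4 : ∏ p ∈ nT (supp c), (nn (Ac h c) p : ℝ) = 1 := by
    apply Finset.prod_eq_one
    intro p hp
    rw [nn_Ac_large h hdis hh c hx0 hp, Nat.cast_one]
  rw [h4, mul_one, ← Finset.prod_const]
  apply Finset.prod_le_prod
  · intro p _
    exact Nat.cast_nonneg _
  · intro p hp
    rw [nn_Ac_small h c (hV hp)]
    exact_mod_cast nn_le h (Qx_prime (hV hp)).pos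

end Tr

namespace Tr

/-! ### Numerical facts -/

/-- The facts about `x` used in the proof. -/
structure Nf (ρ x : ℝ) : Prop where
  x_gt : 1 < x
  log_ge : 1000000 ≤ Real.log x
  dis : ∀ p ∈ Qx x, p ∉ PL ρ x
  Qs : ∀ p ∈ Qx x, (p : ℝ) ≤ x ^ (1 / 2 : ℝ)
  Pls : ∀ p ∈ PL ρ x, (p : ℝ) ≤ x ^ (1 / 2 : ℝ)
  sub : ∀ V ⊆ Qx x, ∀ S : Finset (PL ρ x),
    ∑ p ∈ S, Real.log ((p : ℕ) : ℝ) ≤ Real.log x / 50 →
    V ∪ nT S ∈ (PS (lev x) 1).powerset.filter (fun U => ∏ p ∈ U, p ≤ lev x ^ 2)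

theorem Qx_le {x : ℝ} {p : ℕ} (hp : p ∈ Qx x) : (p : ℝ) ≤ Real.sqrt (Real.log x) := by
  unfold Qx at hp
  rw [mem_filter, mem_range] at hp
  have h1 : p ≤ ⌊Real.sqrt (Real.log x)⌋₊ := by omega
  exact (Nat.cast_le.2 h1).trans (Nat.floor_le (Real.sqrt_nonneg _))

theorem nf {ρ x : ℝ} (hρ : 0 < ρ) (hρ1 : ρ ≤ 1 / 100) (hx : Real.exp 1000000 ≤ x) : Nf ρ x := by
  have hx0 : 0 < x := (Real.exp_pos _).trans_le hx
  have hL : 1000000 ≤ Real.log x := by
    rw [Real.le_log_iff_exp_le hx0]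
    exact hx
  set L := Real.log x with hLdef
  have hxL : x = Real.exp L := (Real.exp_log hx0).symm
  have hx1 : 1 < x := by
    rw [hxL]
    exact Real.one_lt_exp_iff.2 (by linarith)
  have hsq : Real.sqrt L ≤ L / 1000 := by
    rw [Real.sqrt_le_left (by linarith)]
    nlinarith
  have hpow : ∀ r : ℝ, x ^ r = Real.exp (L * r) := by
    intro r
    rw [Real.rpow_def_of_pos hx0]
  have hexp2 : ∀ r : ℝ, 0 ≤ r → r ^ 2 ≤ Real.exp (2 * r) := by
    intro r hr
    have h1 : r ≤ Real.exp r := by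
      have := Real.add_one_le_exp r
      linarith
    have h2 : Real.exp (2 * r) = Real.exp r ^ 2 := by
      rw [← Real.exp_nat_mul]
      norm_num
    rw [h2]
    exact pow_le_pow_left₀ hr h1 2
  have hL2 : L ≤ x ^ (1 / 2 : ℝ) := by
    rw [hpow]
    have h1 := hexp2 (L / 4) (by linarith)
    have h2 : 2 * (L / 4) = L * (1 / 2) := by ring
    rw [h2] at h1
    nlinarith
  have hL81 : L ≤ x ^ (1 / 81 : ℝ) := by
    rw [hpow]
    have h1 := hexp2 (L / 162) (by linarith)
    have h2 : 2 * (L / 162) = L * (1 / 81) := by ring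
    rw [h2] at h1
    nlinarith
  have hdis : ∀ p ∈ Qx x, p ∉ PL ρ x := by
    intro p hp hp'
    have h1 := Qx_le hp
    have h2 := (PL_mem hx0 hp').2.1
    rw [← hLdef] at h1 h2
    nlinarith
  refine ⟨hx1, hL, hdis, ?_, ?_, ?_⟩
  · intro p hp
    have h1 := Qx_le hp
    rw [← hLdef] at h1
    linarith
  · intro p hp
    refine (PL_mem hx0 hp).2.2.trans ?_
    exact Real.rpow_le_rpow_of_exponent_le hx1.le (by linarith)
  · intro V hV S hS
    rw [mem_filter, mem_powerset]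
    constructor
    · intro p hp
      rw [mem_union] at hp
      have hp' : p.Prime ∧ (p : ℝ) ≤ x ^ (1 / 81 : ℝ) := by
        rcases hp with hp | hp
        · refine ⟨Qx_prime (hV hp), ?_⟩
          have h1 := Qx_le (hV hp)
          rw [← hLdef] at h1
          linarith
        · rw [mem_nT] at hp
          obtain ⟨hp', _⟩ := hp
          have h1 := PL_mem hx0 hp'
          refine ⟨h1.1, h1.2.2.trans ?_⟩
          exact Real.rpow_le_rpow_of_exponent_le hx1.le (by linarith)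
      unfold PS
      rw [mem_filter, mem_range]
      have h1 : p ≤ lev x := by
        unfold lev
        exact Nat.le_floor hp'.2
      refine ⟨by omega, hp'.1, ?_⟩
      intro h2
      exact hp'.1.one_lt.ne' (Nat.dvd_one.1 h2)
    · have hdj : Disjoint V (nT S) := by
        rw [Finset.disjoint_left]
        intro p hp hp'
        rw [mem_nT] at hp'
        exact hdis p (hV hp) hp'.1
      rw [Finset.prod_union hdj]
      have h1 : ((∏ p ∈ V, p : ℕ) : ℝ) ≤ Real.exp (14 / 10 * (L / 1000)) := by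
        have h2 : ∏ p ∈ V, p ≤ ∏ p ∈ Qx x, p :=
          Finset.prod_le_prod_of_subset_of_one_le' hV
            (fun p hp _ => (Qx_prime hp).one_le)
        have h3 : ∏ p ∈ Qx x, p ≤ 4 ^ ⌊Real.sqrt L⌋₊ := by
          rw [← Ps_eq]
          unfold Ps
          exact primorial_le_four_pow _
        have h4 : ((∏ p ∈ V, p : ℕ) : ℝ) ≤ (4 : ℝ) ^ ⌊Real.sqrt L⌋₊ := by
          exact_mod_cast h2.trans h3
        refine h4.trans ?_
        have h5 : (4 : ℝ) = Real.exp (Real.log 4) := (Real.exp_log (by norm_num)).symm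
        have h6 : Real.log 4 ≤ 14 / 10 := by
          have h7 : Real.log 4 = 2 * Real.log 2 := by
            rw [show (4 : ℝ) = 2 ^ 2 by norm_num, Real.log_pow]
            norm_num
          rw [h7]
          have := Real.log_two_lt_d9
          linarith
        rw [h5, ← Real.exp_nat_mul, Real.exp_le_exp]
        have h8 : (⌊Real.sqrt L⌋₊ : ℝ) ≤ L / 1000 :=
          (Nat.floor_le (Real.sqrt_nonneg _)).trans hsq
        have h9 : (0 : ℝ) ≤ ⌊Real.sqrt L⌋₊ := Nat.cast_nonneg _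
        have h10 : 0 ≤ Real.log 4 := Real.log_nonneg (by norm_num)
        nlinarith
      have h2 : ((∏ p ∈ nT S, p : ℕ) : ℝ) ≤ Real.exp (L / 50) := by
        unfold nT
        rw [Finset.prod_map, Nat.cast_prod]
        have h3 : ∏ p ∈ S, (((p : PL ρ x) : ℕ) : ℝ) =
            Real.exp (∑ p ∈ S, Real.log ((p : ℕ) : ℝ)) := by
          rw [Real.exp_sum]
          apply Finset.prod_congr rfl
          intro p _
          rw [Real.exp_log]
          exact_mod_cast (PL_mem hx0 p.2).1.pos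
        have h4 : ∏ p ∈ S, (((⟨Subtype.val, Subtype.val_injective⟩ : PL ρ x ↪ ℕ) p : ℕ) : ℝ) =
            ∏ p ∈ S, (((p : PL ρ x) : ℕ) : ℝ) := rfl
        rw [h4, h3]
        exact Real.exp_le_exp.2 hS
      have h3 : Real.exp (L / 81 - 1) ≤ (lev x : ℝ) := by
        have h4 : x ^ (1 / 81 : ℝ) < (lev x : ℝ) + 1 := Nat.lt_floor_add_one _
        rw [hpow] at h4
        have h5 : L * (1 / 81) = (L / 81 - 1) + 1 := by ring
        rw [h5, Real.exp_add] at h4
        have h6 : (2 : ℝ) ≤ Real.exp 1 := by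
          have := Real.add_one_le_exp (1 : ℝ)
          linarith
        have h7 : (1 : ℝ) ≤ Real.exp (L / 81 - 1) := Real.one_le_exp (by linarith)
        nlinarith
      have h4 : ((∏ p ∈ V, p : ℕ) : ℝ) * ((∏ p ∈ nT S, p : ℕ) : ℝ) ≤ (lev x : ℝ) ^ 2 := by
        calc ((∏ p ∈ V, p : ℕ) : ℝ) * ((∏ p ∈ nT S, p : ℕ) : ℝ)
            ≤ Real.exp (14 / 10 * (L / 1000)) * Real.exp (L / 50) :=
              mul_le_mul h1 h2 (Nat.cast_nonneg _) (Real.exp_pos _).le
          _ = Real.exp (14 / 10 * (L / 1000) + L / 50) := (Real.exp_add _ _).symm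
          _ ≤ Real.exp (2 * (L / 81 - 1)) := by
              rw [Real.exp_le_exp]
              linarith
          _ = Real.exp (L / 81 - 1) ^ 2 := by
              rw [← Real.exp_nat_mul]
              norm_num
          _ ≤ (lev x : ℝ) ^ 2 := pow_le_pow_left₀ (Real.exp_pos _).le h3 2
      exact_mod_cast h4

theorem not_dvd_h {ρ x : ℝ} (hx : 0 < x) {t : ℤ} (ht0 : t ≠ 0)
    (ht : |(t : ℝ)| ≤ Real.log x ^ 2) {p : ℕ} (hp : p ∈ PL ρ x) : ¬ (p : ℤ) ∣ t := by
  intro hd
  apply ht0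
  apply Int.eq_zero_of_abs_lt_dvd hd
  have h1 := (PL_mem hx hp).2.1
  have h2 : |(t : ℝ)| < p := lt_of_le_of_lt ht h1
  exact_mod_cast h2

/-- The total error. -/
theorem total {κ : Type} [Fintype κ] [DecidableEq κ] {ρ x : ℝ} (hN : Nf ρ x) {k u0 : ℕ}
    (hκ : Fintype.card κ ≤ u0) {Er : ℕ → ℝ} (hE0 : ∀ d, 0 ≤ Er d) {β : ℝ}
    (hβ : ∑ U ∈ (PS (lev x) 1).powerset.filter (fun U => ∏ p ∈ U, p ≤ lev x ^ 2),
        (((k + 1) * (u0 + 1) : ℕ) : ℝ) ^ U.card * Er (∏ p ∈ U, p) ≤ β)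
    (μ : κ → Finset (PL ρ x) → ℝ) (hμ : ∀ i S, |μ i S| ≤ (k : ℝ) ^ (S.card + 1))
    (hμ' : ∀ S : κ → Finset (PL ρ x), (∀ i, μ i (S i) ≠ 0) →
      ∑ i, ∑ p ∈ S i, Real.log ((p : ℕ) : ℝ) ≤ Real.log x / 50) :
    ∑ c : PL ρ x → Option κ, |∏ i, μ i (cls c i)| *
      ∑ V ∈ (Qx x).powerset, (Fintype.card κ : ℝ) ^ V.card *
        Er (∏ p ∈ V ∪ nT (supp c), p) ≤ ((k : ℝ) + 1) ^ u0 * β := by
  classical
  set G : Finset (PL ρ x) → ℝ := fun S => ∑ V ∈ (Qx x).powerset, ((u0 : ℝ) + 1) ^ V.card *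
        Er (∏ p ∈ V ∪ nT S, p) with hG
  have hG0 : ∀ S, 0 ≤ G S := by
    intro S
    apply Finset.sum_nonneg
    intro V _
    exact mul_nonneg (by positivity) (hE0 _)
  set gd : Finset (PL ρ x) → Prop := fun S =>
    ∑ p ∈ S, Real.log ((p : ℕ) : ℝ) ≤ Real.log x / 50 with hgd
  set H : Finset (PL ρ x) → ℝ := fun S => if gd S then ((k : ℝ) + 1) ^ S.card * G S else 0 with hH
  have hH0 : ∀ S, 0 ≤ H S := by
    intro S
    simp only [hH]
    split_ifs
    · exact mul_nonneg (by positivity) (hG0 _)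
    · exact le_rfl
  have hκ' : (Fintype.card κ : ℝ) ≤ (u0 : ℝ) + 1 := by
    have : (Fintype.card κ : ℝ) ≤ (u0 : ℝ) := by exact_mod_cast hκ
    linarith
  have h1 : ∀ c : PL ρ x → Option κ, |∏ i, μ i (cls c i)| *
      ∑ V ∈ (Qx x).powerset, (Fintype.card κ : ℝ) ^ V.card *
        Er (∏ p ∈ V ∪ nT (supp c), p) ≤ ((k : ℝ) + 1) ^ u0 * H (supp c) := by
    intro c
    have h2 : ∑ V ∈ (Qx x).powerset, (Fintype.card κ : ℝ) ^ V.card *
        Er (∏ p ∈ V ∪ nT (supp c), p) ≤ G (supp c) := by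
      apply Finset.sum_le_sum
      intro V _
      apply mul_le_mul_of_nonneg_right _ (hE0 _)
      exact pow_le_pow_left₀ (Nat.cast_nonneg _) hκ' _
    by_cases h0 : ∏ i, μ i (cls c i) = 0
    · rw [h0, abs_zero, zero_mul]
      exact mul_nonneg (by positivity) (hH0 _)
    · have h3 : ∀ i, μ i (cls c i) ≠ 0 := fun i => Finset.prod_ne_zero_iff.1 h0 i (mem_univ i)
      have h4 : gd (supp c) := by
        have h5 := hμ' (fun i => cls c i) h3
        rw [sum_card_cls c (fun p => Real.log ((p : ℕ) : ℝ))] at h5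
        exact h5
      have h5 : |∏ i, μ i (cls c i)| ≤ ((k : ℝ) + 1) ^ (supp c).card * ((k : ℝ) + 1) ^ u0 := by
        rw [Finset.abs_prod]
        calc ∏ i, |μ i (cls c i)| ≤ ∏ i : κ, ((k : ℝ) + 1) ^ ((cls c i).card + 1) := by
              apply Finset.prod_le_prod
              · intro i _
                exact abs_nonneg _
              · intro i _
                refine (hμ i _).trans ?_
                exact pow_le_pow_left₀ (Nat.cast_nonneg _) (by linarith) _
          _ = ((k : ℝ) + 1) ^ ((supp c).card + Fintype.card κ) := by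
              rw [Finset.prod_pow_eq_pow_sum, Finset.sum_add_distrib, card_cls]
              simp
          _ ≤ ((k : ℝ) + 1) ^ ((supp c).card + u0) := by
              apply pow_le_pow_right₀
              · have : (0 : ℝ) ≤ k := Nat.cast_nonneg _
                linarith
              · omega
          _ = _ := pow_add _ _ _
      have h6 : H (supp c) = ((k : ℝ) + 1) ^ (supp c).card * G (supp c) := by
        simp only [hH]
        rw [if_pos h4]
      rw [h6]
      calc _ ≤ (((k : ℝ) + 1) ^ (supp c).card * ((k : ℝ) + 1) ^ u0) * G (supp c) :=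
            mul_le_mul h5 h2 (Finset.sum_nonneg fun V _ => mul_nonneg (by positivity) (hE0 _))
              (by positivity)
        _ = _ := by ring
  have h2 : ∑ c : PL ρ x → Option κ, H (supp c) ≤ ∑ S : Finset (PL ρ x),
      ((u0 : ℝ) + 1) ^ S.card * H S := by
    have h3 : ∀ c : PL ρ x → Option κ, H (supp c) =
        ∑ S : Finset (PL ρ x), if supp c = S then H S else 0 := by
      intro c
      simp
    rw [Finset.sum_congr rfl (fun c _ => h3 c), Finset.sum_comm]
    apply Finset.sum_le_sum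
    intro S _
    rw [← Finset.sum_filter, Finset.sum_const, nsmul_eq_mul]
    apply mul_le_mul_of_nonneg_right _ (hH0 S)
    calc (((univ : Finset (PL ρ x → Option κ)).filter (fun c => supp c = S)).card : ℝ)
        ≤ ((Fintype.card κ ^ S.card : ℕ) : ℝ) := by exact_mod_cast card_supp_le S
      _ = (Fintype.card κ : ℝ) ^ S.card := by push_cast; rfl
      _ ≤ ((u0 : ℝ) + 1) ^ S.card := pow_le_pow_left₀ (Nat.cast_nonneg _) hκ' _
  have h3 : ∑ S : Finset (PL ρ x), ((u0 : ℝ) + 1) ^ S.card * H S ≤ β := by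
    refine le_trans ?_ hβ
    have h4 : ∑ S : Finset (PL ρ x), ((u0 : ℝ) + 1) ^ S.card * H S =
        ∑ S ∈ (univ : Finset (Finset (PL ρ x))).filter gd,
          ∑ V ∈ (Qx x).powerset, (((u0 : ℝ) + 1) ^ S.card * ((k : ℝ) + 1) ^ S.card) *
            (((u0 : ℝ) + 1) ^ V.card * Er (∏ p ∈ V ∪ nT S, p)) := by
      rw [Finset.sum_filter]
      apply Finset.sum_congr rfl
      intro S _
      simp only [hH]
      split_ifs
      · rw [← Finset.mul_sum, mul_assoc]
      · rw [mul_zero]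
    set f : Finset ℕ → ℝ := fun U =>
      (((k + 1) * (u0 + 1) : ℕ) : ℝ) ^ U.card * Er (∏ p ∈ U, p) with hf
    have hdj : ∀ V ∈ (Qx x).powerset, ∀ S : Finset (PL ρ x), Disjoint V (nT S) := by
      intro V hV S
      rw [mem_powerset] at hV
      rw [Finset.disjoint_left]
      intro p hp hp'
      rw [mem_nT] at hp'
      exact hN.dis p (hV hp) hp'.1
    have h5 : ∑ S ∈ (univ : Finset (Finset (PL ρ x))).filter gd,
          ∑ V ∈ (Qx x).powerset, (((u0 : ℝ) + 1) ^ S.card * ((k : ℝ) + 1) ^ S.card) *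
            (((u0 : ℝ) + 1) ^ V.card * Er (∏ p ∈ V ∪ nT S, p)) ≤
        ∑ z ∈ (univ : Finset (Finset (PL ρ x))).filter gd ×ˢ (Qx x).powerset,
          f (z.2 ∪ nT z.1) := by
      rw [Finset.sum_product]
      apply Finset.sum_le_sum
      intro S _
      apply Finset.sum_le_sum
      intro V hV
      simp only [hf]
      rw [Finset.card_union_of_disjoint (hdj V hV S), card_nT, ← mul_assoc]
      apply mul_le_mul_of_nonneg_right _ (hE0 _)
      have h6 : (((k + 1) * (u0 + 1) : ℕ) : ℝ) = ((k : ℝ) + 1) * ((u0 : ℝ) + 1) := by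
        push_cast
        ring
      rw [h6, pow_add, mul_pow, mul_pow]
      have h7 : 1 ≤ ((k : ℝ) + 1) ^ V.card := by
        apply one_le_pow₀
        have : (0 : ℝ) ≤ k := Nat.cast_nonneg _
        linarith
      have h8 : 0 ≤ ((u0 : ℝ) + 1) ^ S.card * ((k : ℝ) + 1) ^ S.card * ((u0 : ℝ) + 1) ^ V.card := by
        positivity
      nlinarith
    have h6 : ∑ z ∈ (univ : Finset (Finset (PL ρ x))).filter gd ×ˢ (Qx x).powerset,
          f (z.2 ∪ nT z.1) =
        ∑ U ∈ ((univ : Finset (Finset (PL ρ x))).filter gd ×ˢ (Qx x).powerset).image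
          (fun z => z.2 ∪ nT z.1), f U := by
      rw [Finset.sum_image]
      rintro ⟨S, V⟩ hz ⟨S', V'⟩ hz' heq
      rw [Finset.mem_coe, Finset.mem_product] at hz hz'
      dsimp only at heq hz hz'
      have hV := mem_powerset.1 hz.2
      have hV' := mem_powerset.1 hz'.2
      have hSS : S = S' := by
        ext p
        rw [← coe_mem_nT, ← coe_mem_nT (S := S')]
        have h7 : (p : ℕ) ∉ Qx x := fun hq => hN.dis _ hq p.2
        have h8 := congrArg (fun U : Finset ℕ => (p : ℕ) ∈ U) heq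
        rw [mem_union, mem_union] at h8
        constructor
        · intro h9
          have h10 : (p : ℕ) ∈ V' ∨ (p : ℕ) ∈ nT S' := by
            rw [← h8]
            exact Or.inr h9
          rcases h10 with h10 | h10
          · exact absurd (hV' h10) h7
          · exact h10
        · intro h9
          have h10 : (p : ℕ) ∈ V ∨ (p : ℕ) ∈ nT S := by
            rw [h8]
            exact Or.inr h9
          rcases h10 with h10 | h10
          · exact absurd (hV h10) h7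
          · exact h10
      have hVV : V = V' := by
        rw [hSS] at heq
        ext p
        have h8 := congrArg (fun U : Finset ℕ => p ∈ U) heq
        rw [mem_union, mem_union] at h8
        constructor
        · intro h9
          have h10 : p ∈ V' ∨ p ∈ nT S' := by
            rw [← h8]
            exact Or.inl h9
          rcases h10 with h10 | h10
          · exact h10
          · rw [mem_nT] at h10
            exact absurd h10.1 (hN.dis _ (hV h9))
        · intro h9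
          have h10 : p ∈ V ∨ p ∈ nT S' := by
            rw [h8]
            exact Or.inl h9
          rcases h10 with h10 | h10
          · exact h10
          · rw [mem_nT] at h10
            exact absurd h10.1 (hN.dis _ (hV' h9))
      rw [hSS, hVV]
    rw [h4]
    refine h5.trans ?_
    rw [h6]
    apply Finset.sum_le_sum_of_subset_of_nonneg
    · intro U hU
      rw [mem_image] at hU
      obtain ⟨⟨S, V⟩, hz, rfl⟩ := hU
      rw [Finset.mem_product, mem_filter, mem_powerset] at hz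
      exact hN.sub V hz.2 S hz.1.2
    · intro U _ _
      exact mul_nonneg (by positivity) (hE0 _)
  calc _ ≤ ∑ c : PL ρ x → Option κ, ((k : ℝ) + 1) ^ u0 * H (supp c) :=
        Finset.sum_le_sum fun c _ => h1 c
    _ = ((k : ℝ) + 1) ^ u0 * ∑ c : PL ρ x → Option κ, H (supp c) := by rw [Finset.mul_sum]
    _ ≤ ((k : ℝ) + 1) ^ u0 * β :=
        mul_le_mul_of_nonneg_left (h2.trans h3) (by positivity)

end Tr

theorem transfer : Transfer := by
  classical
  intro g hg k u0 ρ A hρ hρ1 hA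
  obtain ⟨XB, hXB, hB⟩ := bvp g hg ((k + 1) * (u0 + 1)) (A + 1) (by linarith)
  refine ⟨max XB (max (Real.exp 1000000) (Real.exp (((k : ℝ) + 1) ^ u0))),
    le_max_of_le_left hXB, ?_⟩
  intro x hx κ _ _ hκ h hinj hh μ hμ hμ'
  have hxB : XB ≤ x := (le_max_left _ _).trans hx
  have hx2 : Real.exp 1000000 ≤ x := ((le_max_left _ _).trans (le_max_right _ _)).trans hx
  have hx3 : Real.exp (((k : ℝ) + 1) ^ u0) ≤ x :=
    ((le_max_right _ _).trans (le_max_right _ _)).trans hx
  have hN := Tr.nf hρ hρ1 hx2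
  have hx1 := hN.x_gt
  have hx0 : 0 < x := by linarith
  obtain ⟨Er, hE0, hEr, hβ⟩ := hB x hxB
  have hL : ((k : ℝ) + 1) ^ u0 ≤ Real.log x := by
    rw [Real.le_log_iff_exp_le hx0]
    exact hx3
  have hL0 : 0 < Real.log x := by
    have := hN.log_ge
    linarith
  have hh1 : ∀ i, |(h i : ℝ)| ≤ Real.log x ^ 2 := by
    intro i
    have h1 := (hh i).2
    have h2 := abs_nonneg (h i : ℝ)
    linarith
  have hnd : ∀ p ∈ PL ρ x, ∀ i, ¬ (p : ℤ) ∣ h i := fun p hp i =>
    Tr.not_dvd_h hx0 (hh i).1 (hh1 i) hp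
  have hdisj : ∀ (n : ℕ) (i j : κ), i ≠ j → Disjoint (sg ρ x (h i) n) (sg ρ x (h j) n) := by
    intro n i j hij
    rw [Finset.disjoint_left]
    intro p hp hp'
    rw [Tr.mem_sg] at hp hp'
    have h1 : ((p : ℕ) : ℤ) ∣ h i - h j := by
      have h2 := dvd_sub hp hp'
      have h3 : (n : ℤ) + h i - ((n : ℤ) + h j) = h i - h j := by ring
      rwa [h3] at h2
    refine Tr.not_dvd_h hx0 (sub_ne_zero.2 fun he => hij (hinj he)) ?_ p.2 h1
    push_cast
    refine (abs_sub _ _).trans ?_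
    have h2 := (hh i).2
    have h3 := (hh j).2
    linarith
  set F : (PL ρ x → Option κ) → ℝ := fun c => ∏ i, μ i (cls c i) with hF
  have h1 : ∑ n ∈ (Icc 1 ⌊x⌋₊).filter (fun n : ℕ => ∀ i, Int.gcd ((n : ℤ) + h i) (Ps x) = 1),
        nu g x n * ∏ i, ∑ S ∈ (sg ρ x (h i) n).powerset, μ i S =
      ∑ c : PL ρ x → Option κ, F c *
        ∑ n ∈ (Icc 1 ⌊x⌋₊).filter (fun n : ℕ => (∀ i, Int.gcd ((n : ℤ) + h i) (Ps x) = 1) ∧
          ∀ i, cls c i ⊆ sg ρ x (h i) n), nu g x n := by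
    have h2 : ∀ n ∈ (Icc 1 ⌊x⌋₊).filter
        (fun n : ℕ => ∀ i, Int.gcd ((n : ℤ) + h i) (Ps x) = 1),
        nu g x n * ∏ i, ∑ S ∈ (sg ρ x (h i) n).powerset, μ i S =
        ∑ c : PL ρ x → Option κ, F c * (if (∀ i, cls c i ⊆ sg ρ x (h i) n) then nu g x n else 0) := by
      intro n _
      rw [Tr.prod_sum_cls (fun i => sg ρ x (h i) n) (hdisj n) μ, Finset.sum_filter,
        Finset.mul_sum]
      apply Finset.sum_congr rfl
      intro c _
      by_cases h3 : ∀ i, cls c i ⊆ sg ρ x (h i) n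
      · rw [if_pos h3, if_pos h3, mul_comm]
      · rw [if_neg h3, if_neg h3, mul_zero, mul_zero]
    rw [Finset.sum_congr rfl h2, Finset.sum_comm]
    apply Finset.sum_congr rfl
    intro c _
    rw [← Finset.mul_sum, ← Finset.sum_filter, Finset.filter_filter]
  rw [h1, Tr.Eq_expand, Finset.mul_sum, ← Finset.sum_sub_distrib]
  have h2 : ∀ c : PL ρ x → Option κ, F c *
        ∑ n ∈ (Icc 1 ⌊x⌋₊).filter (fun n : ℕ => (∀ i, Int.gcd ((n : ℤ) + h i) (Ps x) = 1) ∧
          ∀ i, cls c i ⊆ sg ρ x (h i) n), nu g x n -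
      Mn g x * sP x h * ((∏ i, μ i (cls c i)) * ∏ p ∈ supp c, wl ρ x p) =
      F c * (∑ n ∈ (Icc 1 ⌊x⌋₊).filter (fun n : ℕ =>
          (∀ i, Int.gcd ((n : ℤ) + h i) (Ps x) = 1) ∧
          ∀ i, cls c i ⊆ sg ρ x (h i) n), nu g x n -
        Mn g x * sP x h * ∏ p ∈ supp c, wl ρ x p) := by
    intro c
    simp only [hF]
    ring
  rw [Finset.sum_congr rfl (fun c _ => h2 c)]
  refine (Finset.abs_sum_le_sum_abs _ _).trans ?_
  have h3 : ∀ c : PL ρ x → Option κ, |F c * (∑ n ∈ (Icc 1 ⌊x⌋₊).filter (fun n : ℕ =>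
          (∀ i, Int.gcd ((n : ℤ) + h i) (Ps x) = 1) ∧
          ∀ i, cls c i ⊆ sg ρ x (h i) n), nu g x n -
        Mn g x * sP x h * ∏ p ∈ supp c, wl ρ x p)| ≤
      |∏ i, μ i (cls c i)| * ∑ V ∈ (Tr.Qx x).powerset, (Fintype.card κ : ℝ) ^ V.card *
        Er (∏ p ∈ V ∪ Tr.nT (supp c), p) := by
    intro c
    rw [abs_mul]
    apply mul_le_mul_of_nonneg_left _ (abs_nonneg _)
    exact Tr.one_col hg hx1 hE0 hEr h hN.dis hN.Qs hN.Pls hnd c
  refine (Finset.sum_le_sum fun c _ => h3 c).trans ?_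
  refine (Tr.total hN hκ hE0 hβ μ hμ hμ').trans ?_
  rw [Real.rpow_add hL0, Real.rpow_one, mul_one_div, div_le_div_iff₀ (by positivity) (by positivity)]
  have h4 : 0 < Real.log x ^ A := Real.rpow_pos_of_pos hL0 _
  nlinarith

end Pool.Agent.Helper1.LG
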