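import Pool.Agent.Helper1.LG.OnePos
import Pool.Agent.Helper1.LG.Excl
import Pool.Agent.Helper1.LG.Mob
import Pool.Agent.Helper1.LG.Transfer
import Pool.Agent.Helper1.LG.MF

set_option autoImplicit false

/-!
LG-D2 (helper1). The key estimate: transfer + exclusive/independent comparison.
-/

open Finset

namespace Pool.Agent.Helper1.LG

open Pool.Agent.Helper1.MT (supp cls pr PS lev)
open Pool.Agent.Helper18.BV (wt IsWt)

theorem nu_nonneg {g : ℝ → ℝ} (hg : IsWt g) (x : ℝ) (n : ℕ) : 0 ≤ nu g x n := by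
  unfold nu
  split_ifs
  · exact mul_nonneg ArithmeticFunction.vonMangoldt_nonneg
      (div_nonneg (hg.nonneg _) (Nat.cast_nonneg _))
  · exact le_rfl

theorem Mn_nonneg {g : ℝ → ℝ} (hg : IsWt g) (x : ℝ) : 0 ≤ Mn g x :=
  Finset.sum_nonneg fun n _ => nu_nonneg hg x n

theorem dn_nonneg {Y : ℕ} (Ω : Finset ℕ) (B : ℕ → Finset (Fin Y)) (U : Finset (Fin Y)) :
    0 ≤ dn Ω B U := by
  unfold dn
  positivity

theorem Ex_one {ι : Type} [Fintype ι] [DecidableEq ι] (w : ι → ℝ) : Ex w (fun _ => 1) = 1 := by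
  rw [Ex_eq_Em, Em_one]

theorem wd_blank {ι : Type} [Fintype ι] [DecidableEq ι] {J : ℕ} (D : Dt ι) (S : Finset ι) :
    wd D (blank J) S = 1 := by
  unfold wd blank
  simp [Fn]

theorem Plow_nonneg {ι : Type} [Fintype ι] [DecidableEq ι] {D : Dt ι} {J : ℕ} {t : ℝ}
    (h : Reg D J t) (J' : ℕ) : 0 ≤ D.Plow J' :=
  Finset.prod_nonneg fun i _ => by
    have := h.P0_ge i
    linarith

/-- Products over all positions and over the positions of the letters. -/
theorem prod_UW {Y J : ℕ} (W : Fin Y → Fin 4 → Lt J) (f : Fin Y → (Fin 4 → Lt J) → ℝ)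
    (hf : ∀ i, f i (blank J) = 1) :
    ∏ i, f i (W i) = ∏ i : UW W, f i.1 (W i.1) := by
  rw [Finset.prod_coe_sort (UW W) (fun i => f i (W i))]
  symm
  apply Finset.prod_subset (Finset.subset_univ _)
  intro i _ hi
  unfold UW at hi
  rw [Finset.mem_filter, not_and, not_not] at hi
  rw [hi (Finset.mem_univ _), hf]

theorem sum_UW {Y J : ℕ} (W : Fin Y → Fin 4 → Lt J) (f : (Fin 4 → Lt J) → ℝ)
    (hf : f (blank J) = 0) :
    ∑ i, f (W i) = ∑ i : UW W, f (W i.1) := by
  rw [Finset.sum_coe_sort (UW W) (fun i => f (W i))]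
  symm
  apply Finset.sum_subset (Finset.subset_univ _)
  intro i _ hi
  unfold UW at hi
  rw [Finset.mem_filter, not_and, not_not] at hi
  rw [hi (Finset.mem_univ _), hf]

theorem keyEst : KeyEst := by
  intro g hg ρ t A m J u0 hρ hρ1 hA hJ ht htail
  obtain ⟨cX, hcX, hX⟩ := excl J u0
  obtain ⟨X1, hX1, h1⟩ := mf1 ρ m J hρ hρ1 hJ
  obtain ⟨X2, hX2, h2⟩ := transfer g hg (10 ^ 4) u0 ρ A hρ hρ1 hA
  refine ⟨4 * cX, max (max X1 X2) (Real.exp (2 * u0 + 3)), by positivity,
    hX1.trans ((le_max_left _ _).trans (le_max_left _ _)), ?_⟩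
  intro x hx
  have hx1 : X1 ≤ x := ((le_max_left _ _).trans (le_max_left _ _)).trans hx
  have hx2 : X2 ≤ x := ((le_max_right _ _).trans (le_max_left _ _)).trans hx
  have hx3 : Real.exp (2 * u0 + 3) ≤ x := (le_max_right _ _).trans hx
  have hx0 : 0 < x := by linarith
  have hL : 2 * (u0 : ℝ) + 3 ≤ Real.log x := by
    rw [← Real.log_exp (2 * (u0 : ℝ) + 3)]
    exact Real.log_le_log (Real.exp_pos _) hx3
  have hu0 : (0 : ℝ) ≤ u0 := Nat.cast_nonneg _
  have hL0 : 0 < Real.log x := by linarith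
  obtain ⟨a1, a2, a3, a4, a5, a6, a7⟩ := h1 x hx1
  have hL2 : 0 < Real.log x ^ 2 := by positivity
  have hw14 : 2 / Real.log x ^ 2 ≤ 1 / 4 := by
    rw [div_le_iff₀ hL2]
    nlinarith
  have hreg : Reg (Dx ρ m J x) J t :=
    { w_nonneg := fun p => (a1 p).1
      w_le := fun p => (a1 p).2.trans hw14
      rg_lt := a2
      la_le := a3
      la_ge := a4
      J_pos := hJ
      J_le := a5
      even := fun i => by
        show Even (rr m J i)
        unfold rr
        exact even_two_mul _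
      tail := htail _
      t_le := ht }
  refine ⟨hreg, ?_⟩
  intro Y h hinj hh W hWu hlev
  -- the Möbius coefficients
  have hmob := fun i : UW W => mob _ (Dx ρ m J x) J t hreg
    (fun p : PL ρ x => Real.log ((p : ℕ) : ℝ) / Real.log x) ρ hρ.le
    (fun p => div_nonneg (Real.log_natCast_nonneg _) hL0.le) a7 (W i.1)
  choose μ hμ1 hμ2 hμ3 using hmob
  have hcard : Fintype.card (UW W) = (UW W).card := Fintype.card_coe _
  have htr := h2 x hx2 (UW W) (by rw [hcard]; exact hWu) (fun i => h i.1)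
    (fun i j hij => Subtype.ext (hinj hij)) (fun i => hh i.1) μ (by
      intro i S
      refine (hμ2 i S).trans ?_
      have b1 : (32 : ℝ) ^ S.card ≤ (10 ^ 4) ^ S.card :=
        pow_le_pow_left₀ (by norm_num) (by norm_num) _
      calc (10 : ℝ) ^ 4 * 32 ^ S.card ≤ 10 ^ 4 * (10 ^ 4) ^ S.card :=
            mul_le_mul_of_nonneg_left b1 (by norm_num)
        _ = (((10 ^ 4 : ℕ)) : ℝ) ^ (S.card + 1) := by
            push_cast
            ring) (by
      intro S hS
      have b1 : ∀ i : UW W, ∑ p ∈ S i, Real.log ((p : ℕ) : ℝ) ≤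
          Real.log x * ∑ l, lv (Dx ρ m J x) ρ (W i.1 l) := by
        intro i
        have b2 := hμ3 i (S i) (hS i)
        rw [← Finset.sum_div, div_le_iff₀ hL0] at b2
        rw [mul_comm]
        exact b2
      calc ∑ i, ∑ p ∈ S i, Real.log ((p : ℕ) : ℝ) ≤
          ∑ i : UW W, Real.log x * ∑ l, lv (Dx ρ m J x) ρ (W i.1 l) :=
            Finset.sum_le_sum fun i _ => b1 i
        _ = Real.log x * ∑ i, ∑ l, lv (Dx ρ m J x) ρ (W i l) := by
            rw [← Finset.mul_sum, sum_UW W (fun V => ∑ l, lv (Dx ρ m J x) ρ (V l))]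
            simp [blank, lv]
        _ ≤ Real.log x * (1 / 50) := mul_le_mul_of_nonneg_left hlev hL0.le
        _ = Real.log x / 50 := by ring)
  have e1 : ∀ (i : UW W) (S : Finset (PL ρ x)), ∑ S' ∈ S.powerset, μ i S' =
      wd (Dx ρ m J x) (W i.1) S := fun i S => (hμ1 i S).symm
  simp only [e1] at htr
  -- the sum over `n`
  have e2 : (Icc 1 ⌊x⌋₊).filter (fun n : ℕ => ∀ i : UW W, Int.gcd ((n : ℤ) + h i.1) (Ps x) = 1) =
      (Icc 1 ⌊x⌋₊).filter (fun n => UW W ⊆ Bs x h n) := by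
    apply Finset.filter_congr
    intro n _
    constructor
    · intro hn i hi
      unfold Bs
      rw [Finset.mem_filter]
      exact ⟨Finset.mem_univ _, hn ⟨i, hi⟩⟩
    · intro hn i
      have := hn i.2
      unfold Bs at this
      rw [Finset.mem_filter] at this
      exact this.2
  have e3 : ∀ n : ℕ, ∏ i, ∏ l, Fn (Dx ρ m J x) (W i l) (sg ρ x (h i) n) =
      ∏ i : UW W, wd (Dx ρ m J x) (W i.1) (sg ρ x (h i.1) n) := by
    intro n
    exact prod_UW W (fun i V => wd (Dx ρ m J x) V (sg ρ x (h i) n)) (fun i => wd_blank _ _)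
  have e4 : sP x (fun i : UW W => h i.1) = dn (Om x) (Bs x h) (UW W) := by
    unfold sP dn
    congr 2
    apply congrArg
    apply Finset.filter_congr
    intro n _
    constructor
    · intro hn i hi
      unfold Bs
      rw [Finset.mem_filter]
      exact ⟨Finset.mem_univ _, hn ⟨i, hi⟩⟩
    · intro hn i
      have := hn i.2
      unfold Bs at this
      rw [Finset.mem_filter] at this
      exact this.2
  have e5 : ∏ i, Ex (wl ρ x) (wd (Dx ρ m J x) (W i)) =
      ∏ i : UW W, Ex (wl ρ x) (wd (Dx ρ m J x) (W i.1)) := by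
    refine prod_UW W (fun i V => Ex (wl ρ x) (wd (Dx ρ m J x) V)) (fun i => ?_)
    have : wd (Dx ρ m J x) (blank J) = fun _ => 1 := funext fun S => wd_blank _ _
    rw [this, Ex_one]
  rw [e2, e4] at htr
  simp only [e3]
  rw [e5]
  -- the comparison
  have hex := hX _ (Dx ρ m J x) t hreg (UW W) (by rw [hcard]; exact hWu) (by
    intro p
    rw [hcard]
    have b1 : ((UW W).card : ℝ) ≤ u0 := by exact_mod_cast hWu
    have b2 := (a1 p).2
    have b3 := (a1 p).1
    have b4 : (u0 : ℝ) * (2 / Real.log x ^ 2) ≤ 1 / 2 := by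
      rw [mul_div_assoc', div_le_iff₀ hL2]
      nlinarith
    calc ((UW W).card : ℝ) * wl ρ x p ≤ u0 * (2 / Real.log x ^ 2) :=
          mul_le_mul b1 b2 b3 hu0
      _ ≤ _ := b4) (fun i => W i.1) (fun i => by
    have := i.2
    unfold UW at this
    rw [Finset.mem_filter] at this
    exact this.2)
  rw [hcard] at hex
  have hM := Mn_nonneg hg x
  have hd := dn_nonneg (Om x) (Bs x h) (UW W)
  have hP := Plow_nonneg hreg J
  set S0 := ∑ n ∈ (Icc 1 ⌊x⌋₊).filter (fun n => UW W ⊆ Bs x h n),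
    nu g x n * ∏ i : UW W, wd (Dx ρ m J x) (W i.1) (sg ρ x (h i.1) n) with hS0
  set Q0 := Eq (UW W) (wl ρ x) (fun σ => ∏ i : UW W, wd (Dx ρ m J x) (W i.1) (cls σ i)) with hQ0
  set E0 := ∏ i : UW W, Ex (wl ρ x) (wd (Dx ρ m J x) (W i.1)) with hE0
  have hex' : |Q0 - E0| ≤ cX * (4 / Real.log x ^ 2) * (Dx ρ m J x).Plow J ^ (UW W).card := by
    refine hex.trans ?_
    refine mul_le_mul_of_nonneg_right ?_ (pow_nonneg hP _)
    exact mul_le_mul_of_nonneg_left a6 hcX.le
  have hMd : 0 ≤ Mn g x * dn (Om x) (Bs x h) (UW W) := mul_nonneg hM hd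
  calc |S0 - Mn g x * dn (Om x) (Bs x h) (UW W) * E0|
      = |(S0 - Mn g x * dn (Om x) (Bs x h) (UW W) * Q0) +
          Mn g x * dn (Om x) (Bs x h) (UW W) * (Q0 - E0)| := by congr 1; ring
    _ ≤ |S0 - Mn g x * dn (Om x) (Bs x h) (UW W) * Q0| +
          |Mn g x * dn (Om x) (Bs x h) (UW W) * (Q0 - E0)| := abs_add_le _ _
    _ ≤ 1 / Real.log x ^ A + Mn g x * dn (Om x) (Bs x h) (UW W) *
          (cX * (4 / Real.log x ^ 2) * (Dx ρ m J x).Plow J ^ (UW W).card) := by
        refine add_le_add htr ?_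
        rw [abs_mul, abs_of_nonneg hMd]
        exact mul_le_mul_of_nonneg_left hex' hMd
    _ = _ := by ring

end Pool.Agent.Helper1.LG
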