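import Pool.Agent.Helper1.LG.Frame

set_option autoImplicit false

/-!
LG-D3 (helper1). Assembly: the main theorem.
-/

open Finset Filter

namespace Pool.Agent.Helper1.LG

open Pool.Agent.Helper1.MT (supp cls pr PS lev)
open Pool.Agent.Helper18.BV (wt IsWt)

/-- The offsets `1, .., H, -1, .., -H`. -/
def off (H : ℕ) (i : Fin (2 * H)) : ℤ := if i.1 < H then (i.1 : ℤ) + 1 else (H : ℤ) - i.1 - 1

theorem off_inj (H : ℕ) : Function.Injective (off H) := by
  intro i j hij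
  unfold off at hij
  apply Fin.ext
  have hi := i.2
  have hj := j.2
  split_ifs at hij <;> omega

theorem off_ne (H : ℕ) (i : Fin (2 * H)) : off H i ≠ 0 := by
  unfold off
  split_ifs <;> omega

theorem off_le (H : ℕ) (i : Fin (2 * H)) : |off H i| ≤ H := by
  have hi := i.2
  rw [abs_le]
  unfold off
  split_ifs <;> constructor <;> omega

theorem off_surj (H : ℕ) {h : ℤ} (h0 : h ≠ 0) (h1 : -(H : ℤ) ≤ h) (h2 : h ≤ H) :
    ∃ i, off H i = h := by
  rcases lt_or_gt_of_ne h0 with hn | hp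
  · refine ⟨⟨(H - h - 1).toNat, by omega⟩, ?_⟩
    unfold off
    rw [if_neg (by show ¬ (H - h - 1).toNat < H; omega)]
    show (H : ℤ) - ((H - h - 1).toNat : ℕ) - 1 = h
    omega
  · refine ⟨⟨(h - 1).toNat, by omega⟩, ?_⟩
    unfold off
    rw [if_pos (by show (h - 1).toNat < H; omega)]
    show ((h - 1).toNat : ℤ) + 1 = h
    omega

theorem wt_supp {g : ℝ → ℝ} (hg : IsWt g) {x : ℝ} (hx : 1 < x) {n : ℕ} (h : wt g x n ≠ 0) :
    x ^ (1 / 2 : ℝ) < n := by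
  have hlog : 0 < Real.log x := Real.log_pos hx
  have hx0 : 0 < x := by linarith
  unfold wt at h
  have h1 : g (Real.log n / Real.log x) ≠ 0 := fun h0 => h (by rw [h0, zero_div])
  have h2 : (n : ℝ) ≠ 0 := fun h0 => h (by rw [h0, div_zero])
  have hn : (0 : ℝ) < n := lt_of_le_of_ne (Nat.cast_nonneg _) (Ne.symm h2)
  have h3 := hg.supp (subset_tsupport g h1)
  have h4 : 1 / 2 < Real.log n / Real.log x := h3.1
  rw [lt_div_iff₀ hlog, ← Real.log_rpow hx0] at h4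
  exact (Real.log_lt_log_iff (Real.rpow_pos_of_pos hx0 _) hn).1 h4

/-- If the majorants at the rough positions are less than one, then `n` is isolated. -/
theorem isolated {g : ℝ → ℝ} (hg : IsWt g) {ρ : ℝ} {m J H : ℕ} {x : ℝ} (hx : 1 < x)
    (hρ : 0 < ρ) (hρ1 : ρ ≤ 1 / 100)
    (hbig : x ^ (1 / 100 : ℝ) + H ≤ x ^ (1 / 2 : ℝ))
    (hbig' : Real.sqrt (Real.log x) + H ≤ x ^ (1 / 2 : ℝ)) {n : ℕ} (hn : wt g x n ≠ 0)
    (hlt : ∀ i ∈ Bs x (off H) n,
      Fn (J := J) (Dx ρ m J x) .maj (sg ρ x (off H i) n) < 1) {h : ℤ} (h0 : h ≠ 0)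
    (h1 : -(H : ℤ) ≤ h) (h2 : h ≤ H) : ¬ ((n : ℤ) + h).natAbs.Prime := by
  intro hq
  obtain ⟨i, hi⟩ := off_surj H h0 h1 h2
  have hn1 := wt_supp hg hx hn
  have hx0 : 0 < x := by linarith
  have hs : 0 ≤ Real.sqrt (Real.log x) := Real.sqrt_nonneg _
  have hHr : (0 : ℝ) ≤ H := Nat.cast_nonneg _
  have hnH : (H : ℝ) < n := by linarith
  have hnH' : H < n := by exact_mod_cast hnH
  set q := ((n : ℤ) + h).natAbs with hqdef
  have hqz : (q : ℤ) = n + h := by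
    rw [hqdef, Int.natAbs_of_nonneg (by omega)]
  have hqn : (n : ℤ) - H ≤ q := by omega
  have hqr : (n : ℝ) - H ≤ q := by exact_mod_cast hqn
  have hq1 : x ^ (1 / 100 : ℝ) < q := by linarith
  have hq2 : Real.sqrt (Real.log x) < q := by linarith
  -- the position is rough
  have hcop : Nat.Coprime q (Ps x) := by
    rw [Nat.Prime.coprime_iff_not_dvd hq]
    intro hd
    unfold Ps at hd
    have h3 := (hq.dvd_primorial_iff).1 hd
    have h4 : (q : ℝ) ≤ Real.sqrt (Real.log x) :=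
      (Nat.le_floor_iff hs).1 h3
    linarith
  have hmem : i ∈ Bs x (off H) n := by
    unfold Bs
    rw [Finset.mem_filter]
    refine ⟨Finset.mem_univ _, ?_⟩
    rw [hi, ← hqz]
    exact_mod_cast hcop
  have h5 := hlt i hmem
  have hemp : sg ρ x (off H i) n = ∅ := by
    rw [Finset.eq_empty_iff_forall_notMem]
    intro p hp
    unfold sg at hp
    rw [Finset.mem_filter, hi, ← hqz] at hp
    have hpd : ((p : ℕ)) ∣ q := by exact_mod_cast hp.2
    have hpm := p.2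
    unfold PL at hpm
    rw [Finset.mem_filter, Finset.mem_Icc] at hpm
    have hpq : (p : ℕ) = q := (Nat.prime_dvd_prime_iff_eq hpm.2.1 hq).1 hpd
    have h6 : ((p : ℕ) : ℝ) ≤ x ^ ρ := by
      have := Nat.floor_le (Real.rpow_nonneg hx0.le ρ)
      have h7 : ((p : ℕ) : ℝ) ≤ (⌊x ^ ρ⌋₊ : ℝ) := by exact_mod_cast hpm.1.2
      linarith
    have h8 : x ^ ρ ≤ x ^ (1 / 100 : ℝ) := Real.rpow_le_rpow_of_exponent_le hx.le hρ1
    rw [hpq] at h6
    linarith
  rw [hemp] at h5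
  have h9 : Fn (J := J) (Dx ρ m J x) .maj ∅ = 1 := by
    show ∏ k ∈ range (Dx ρ m J x).I, (Dx ρ m J x).A k ∅ = 1
    apply Finset.prod_eq_one
    intro k _
    unfold Dt.A cnt
    rw [Finset.filter_empty, Finset.card_empty, Ar_zero]
  rw [h9] at h5
  exact lt_irrefl _ h5

theorem ev_big (C : ℝ) (hC : 0 < C) : ∀ᶠ x : ℝ in atTop,
    x ^ (1 / 100 : ℝ) + ⌊C * Real.log x⌋₊ ≤ x ^ (1 / 2 : ℝ) ∧
    Real.sqrt (Real.log x) + ⌊C * Real.log x⌋₊ ≤ x ^ (1 / 2 : ℝ) := by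
  have h1 : ∀ᶠ x : ℝ in atTop, |Real.log x| ≤ (1 / (4 * (C + 1))) * |x ^ (1 / 2 : ℝ)| := by
    have := (isLittleO_log_rpow_atTop (show (0 : ℝ) < 1 / 2 by norm_num)).bound
      (show 0 < 1 / (4 * (C + 1)) by positivity)
    simpa using this
  have h2 : ∀ᶠ x : ℝ in atTop, 4 ≤ x ^ (49 / 100 : ℝ) :=
    (tendsto_rpow_atTop (by norm_num)).eventually_ge_atTop 4
  have h3 : ∀ᶠ x : ℝ in atTop, 1 ≤ Real.log x := Real.tendsto_log_atTop.eventually_ge_atTop 1
  filter_upwards [h1, h2, h3, eventually_gt_atTop 0] with x a1 a2 a3 a4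
  have hs : 0 < x ^ (1 / 2 : ℝ) := Real.rpow_pos_of_pos a4 _
  rw [abs_of_nonneg (by linarith), abs_of_pos hs] at a1
  have b1 : C * Real.log x ≤ x ^ (1 / 2 : ℝ) / 4 := by
    have : (C + 1) * Real.log x ≤ x ^ (1 / 2 : ℝ) / 4 := by
      calc (C + 1) * Real.log x ≤ (C + 1) * ((1 / (4 * (C + 1))) * x ^ (1 / 2 : ℝ)) :=
            mul_le_mul_of_nonneg_left a1 (by positivity)
        _ = x ^ (1 / 2 : ℝ) / 4 := by field_simp
    nlinarith
  have b2 : Real.log x ≤ x ^ (1 / 2 : ℝ) / 4 := by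
    have : (C + 1) * Real.log x ≤ x ^ (1 / 2 : ℝ) / 4 := by
      calc (C + 1) * Real.log x ≤ (C + 1) * ((1 / (4 * (C + 1))) * x ^ (1 / 2 : ℝ)) :=
            mul_le_mul_of_nonneg_left a1 (by positivity)
        _ = x ^ (1 / 2 : ℝ) / 4 := by field_simp
    nlinarith
  have b3 : (⌊C * Real.log x⌋₊ : ℝ) ≤ C * Real.log x := Nat.floor_le (by positivity)
  have b4 : x ^ (1 / 2 : ℝ) = x ^ (1 / 100 : ℝ) * x ^ (49 / 100 : ℝ) := by
    rw [← Real.rpow_add a4]
    norm_num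
  have b5 : 0 < x ^ (1 / 100 : ℝ) := Real.rpow_pos_of_pos a4 _
  have b6 : Real.sqrt (Real.log x) ≤ Real.log x := by
    rw [Real.sqrt_le_left (by linarith)]
    nlinarith
  constructor
  · nlinarith
  · linarith

theorem mainGaps : MainGaps := by
  intro C hC
  obtain ⟨g, hg, hg1, c0, X0m, hc0, hX0m, hmass⟩ := massP
  obtain ⟨C1, X1, hC1, hX1, hB⟩ := bsp C hC
  obtain ⟨C2, hC2, hF2⟩ := mf2
  set H0 : ℝ := max 1 (C1 * C2) with hH0
  have hH01 : 1 ≤ H0 := le_max_left _ _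
  have hH02 : C1 * C2 ≤ H0 := le_max_right _ _
  obtain ⟨m, J, ρ, K, hJ, hρ, hρ1, hK, t, ht0, ht1, htail, hjc, hlev⟩ := params H0 hH01
  set k : ℕ := ∑ j, K j with hk
  obtain ⟨c, X3, hc, hX3, hkey⟩ := keyEst g hg ρ t ((4 * k + 1 : ℕ) : ℝ) m J (4 * k + 1) hρ hρ1
    (by positivity) hJ ht1 htail
  obtain ⟨X2, hX2, hF2'⟩ := hF2 ρ m J hρ hρ1
  set c5 : ℝ := 10 ^ 5 * Real.exp (15 * J) with hc5
  have hc50 : 0 < c5 := by positivity
  set T0 : ℝ := Real.exp (((J : ℝ) + 1) ^ 4 * c5 * (C1 * C2 * 2 ^ J / ρ)) with hT0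
  have hT00 : 0 < T0 := Real.exp_pos _
  have hJr : (0 : ℝ) < J := by exact_mod_cast hJ
  -- eventually
  have hev : ∀ᶠ x : ℝ in atTop, X0m ≤ x ∧ X1 ≤ x ∧ X2 ≤ x ∧ X3 ≤ x ∧ 1 < x ∧
      (x ^ (1 / 100 : ℝ) + ⌊C * Real.log x⌋₊ ≤ x ^ (1 / 2 : ℝ) ∧
        Real.sqrt (Real.log x) + ⌊C * Real.log x⌋₊ ≤ x ^ (1 / 2 : ℝ)) ∧
      1 ≤ Real.log x ∧ 1 ≤ Real.log (Real.log x) ∧ 2 * C ≤ Real.log x ∧
      16 * c * (1 + C1) * T0 ≤ Real.log x ∧
      16 * (1 + 2 * C * J) ^ (4 * k + 1) / c0 ≤ Real.log x := by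
    filter_upwards [eventually_ge_atTop X0m, eventually_ge_atTop X1, eventually_ge_atTop X2,
      eventually_ge_atTop X3, eventually_gt_atTop 1, ev_big C hC,
      Real.tendsto_log_atTop.eventually_ge_atTop 1,
      (Real.tendsto_log_atTop.comp Real.tendsto_log_atTop).eventually_ge_atTop 1,
      Real.tendsto_log_atTop.eventually_ge_atTop (2 * C),
      Real.tendsto_log_atTop.eventually_ge_atTop (16 * c * (1 + C1) * T0),
      Real.tendsto_log_atTop.eventually_ge_atTop (16 * (1 + 2 * C * J) ^ (4 * k + 1) / c0)]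
      with x a1 a2 a3 a4 a5 a6 a7 a8 a9 a10 a11
    exact ⟨a1, a2, a3, a4, a5, a6, a7, a8, a9, a10, a11⟩
  obtain ⟨X, hX⟩ := eventually_atTop.1 hev
  refine ⟨c0 / (4 * (2 * T0 + 1)), max X 3, by positivity, le_max_right _ _, ?_⟩
  intro x hx
  obtain ⟨a1, a2, a3, a4, a5, ⟨a6, a6'⟩, a7, a8, a9, a10, a11⟩ := hX x ((le_max_left _ _).trans hx)
  set L := Real.log x with hL
  set ll := Real.log L with hll
  have hL0 : 0 < L := by linarith
  have hll0 : 0 < ll := by linarith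
  set H := ⌊C * L⌋₊ with hH
  have hHC : (H : ℝ) ≤ C * L := Nat.floor_le (by positivity)
  obtain ⟨hreg, hest⟩ := hkey x a4
  have hoffr : ∀ i : Fin (2 * H), |((off H i : ℤ) : ℝ)| ≤ H := by
    intro i
    have := off_le H i
    exact_mod_cast this
  have hoff : ∀ i : Fin (2 * H), off H i ≠ 0 ∧ 2 * |((off H i : ℤ) : ℝ)| ≤ L ^ 2 := by
    intro i
    refine ⟨off_ne H i, ?_⟩
    have := hoffr i
    nlinarith
  have hok := fr_ok (K := K) (t := t) hg hρ ht0 hc hK a5.le le_rfl hreg hlev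
    (hest (2 * H) (off H) (off_inj H) hoff)
  set R := fr g ρ t ((4 * k + 1 : ℕ) : ℝ) c m J (4 * k + 1) K x (off H) with hR
  set b : ℝ := C1 * L / ll with hb
  have hb0 : 0 < b := by positivity
  have hbL : b ≤ C1 * L := by
    rw [hb, div_le_iff₀ hll0]
    have : 0 < C1 * L := by positivity
    nlinarith
  have hBa : ∀ a ∈ R.Ω, ((R.B a).card : ℝ) ≤ b := fun a _ =>
    hB x a2 (2 * H) (off H) (off_inj H) (fun i => (hoffr i).trans hHC) a
  have hM : c0 * L ≤ Mn g x := hmass x a1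
  -- the probabilities
  have hPall : b * (Dx ρ m J x).Pall ≤ H0 / ρ := by
    have h1 := hF2' x a3 0 (Nat.zero_le _)
    rw [← Finset.range_eq_Ico] at h1
    have h2 : (Dx ρ m J x).Pall ≤ C2 * 2 ^ 0 * ll / (ρ * L) := h1
    calc b * (Dx ρ m J x).Pall ≤ b * (C2 * 2 ^ 0 * ll / (ρ * L)) :=
          mul_le_mul_of_nonneg_left h2 hb0.le
      _ = (C1 * C2) / ρ := by
          rw [hb]
          field_simp
      _ ≤ H0 / ρ := div_le_div_of_nonneg_right hH02 hρ.le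
  have hPlow : (Dx ρ m J x).Plow J * b ≤ C1 * C2 * 2 ^ J / ρ := by
    have h2 : (Dx ρ m J x).Plow J ≤ C2 * 2 ^ J * ll / (ρ * L) := hF2' x a3 J le_rfl
    calc (Dx ρ m J x).Plow J * b ≤ (C2 * 2 ^ J * ll / (ρ * L)) * b :=
          mul_le_mul_of_nonneg_right h2 hb0.le
      _ = C1 * C2 * 2 ^ J / ρ := by
          rw [hb]
          field_simp
  have hPall0 : 0 ≤ (Dx ρ m J x).Pall := hok.Pall_nonneg
  have hPlow0 : 0 ≤ (Dx ρ m J x).Plow J := hok.Plow_nonneg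
  have hej : ∀ j : Fin J, b * R.e j ≤ 200 * H0 * 2 ^ (j : ℕ) / (J ^ 2 * ρ) := by
    intro j
    have h1 := (onePos _ (Dx ρ m J x) J t hreg).2.2.1 j
    have h2 : Ioo (j : ℕ) (Dx ρ m J x).I = Ico ((j : ℕ) + 1) (Dx ρ m J x).I := by
      ext i
      simp only [Finset.mem_Ioo, Finset.mem_Ico]
      omega
    have h3 := hF2' x a3 ((j : ℕ) + 1) j.2
    rw [h2] at h1
    have h4 : R.e j ≤ 100 / (J : ℝ) ^ 2 * (C2 * 2 ^ ((j : ℕ) + 1) * ll / (ρ * L)) :=
      h1.trans (mul_le_mul_of_nonneg_left h3 (by positivity))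
    calc b * R.e j ≤ b * (100 / (J : ℝ) ^ 2 * (C2 * 2 ^ ((j : ℕ) + 1) * ll / (ρ * L))) :=
          mul_le_mul_of_nonneg_left h4 hb0.le
      _ = 200 * (C1 * C2) * 2 ^ (j : ℕ) / (J ^ 2 * ρ) := by
          rw [hb, pow_succ]
          field_simp
          ring
      _ ≤ 200 * H0 * 2 ^ (j : ℕ) / (J ^ 2 * ρ) := by
          apply div_le_div_of_nonneg_right _ (by positivity)
          have : (0 : ℝ) < 2 ^ (j : ℕ) := by positivity
          nlinarith
  have hjj : ∀ j, b * R.Pall * (b * R.e j / R.K j + R.t2) ≤ 1 / 4 := by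
    intro j
    have hKj : (0 : ℝ) < K j := by exact_mod_cast hK j
    have h1 : b * R.e j / R.K j ≤ 200 * H0 * 2 ^ (j : ℕ) / (J ^ 2 * ρ * K j) := by
      calc b * R.e j / R.K j ≤ (200 * H0 * 2 ^ (j : ℕ) / (J ^ 2 * ρ)) / K j :=
            div_le_div_of_nonneg_right (hej j) hKj.le
        _ = _ := by rw [div_div]
    have h2 : 0 ≤ b * R.e j / R.K j + R.t2 :=
      add_nonneg (div_nonneg (mul_nonneg hb0.le (hok.e_nonneg j)) (Nat.cast_nonneg _))
        hok.t2_nonneg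
    calc b * R.Pall * (b * R.e j / R.K j + R.t2) ≤ (H0 / ρ) * (b * R.e j / R.K j + R.t2) :=
          mul_le_mul_of_nonneg_right hPall h2
      _ ≤ (H0 / ρ) * (200 * H0 * 2 ^ (j : ℕ) / (J ^ 2 * ρ * K j) + 2000 * t) := by
          refine mul_le_mul_of_nonneg_left ?_ (by positivity)
          exact add_le_add_left h1 _
      _ ≤ 1 / 4 := hjc j
  have hT : Real.exp (((J : ℝ) + 1) ^ 4 * (R.c5 * R.Plow) * b) ≤ T0 := by
    rw [hT0]
    apply Real.exp_le_exp.2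
    have h1 : ((J : ℝ) + 1) ^ 4 * (R.c5 * R.Plow) * b =
        ((J : ℝ) + 1) ^ 4 * c5 * ((Dx ρ m J x).Plow J * b) := by
      show ((J : ℝ) + 1) ^ 4 * (c5 * (Dx ρ m J x).Plow J) * b = _
      ring
    rw [h1]
    exact mul_le_mul_of_nonneg_left hPlow (by positivity)
  have hT' : 0 < Real.exp (((J : ℝ) + 1) ^ 4 * (R.c5 * R.Plow) * b) := Real.exp_pos _
  have hε2 : R.ε2 * (1 + b) * Real.exp (((J : ℝ) + 1) ^ 4 * (R.c5 * R.Plow) * b) ≤ 1 / 16 := by
    have h1 : R.ε2 = c / L ^ 2 := rfl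
    rw [h1]
    calc c / L ^ 2 * (1 + b) * Real.exp (((J : ℝ) + 1) ^ 4 * (R.c5 * R.Plow) * b) ≤
        c / L ^ 2 * ((1 + C1) * L) * T0 := by
          refine mul_le_mul ?_ hT hT'.le (by positivity)
          refine mul_le_mul_of_nonneg_left ?_ (by positivity)
          nlinarith
      _ = (16 * c * (1 + C1) * T0) / (16 * L) := by
          field_simp
      _ ≤ L / (16 * L) := div_le_div_of_nonneg_right a10 (by positivity)
      _ = 1 / 16 := by field_simp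
  have hcomb := (comb (2 * H) J K).1
  have hε1 : R.ε1 * (1 + ((2 * H : ℕ) : ℝ)) * (adm (2 * H) R.K).card ^ 4 ≤ R.M / 16 := by
    have h1 : R.ε1 = 1 / L ^ (4 * k + 1) := by
      show 1 / L ^ ((4 * k + 1 : ℕ) : ℝ) = _
      rw [Real.rpow_natCast]
    have hJ1 : (1 : ℝ) ≤ J := by exact_mod_cast hJ
    have h2 : (1 : ℝ) + ((2 * H : ℕ) : ℝ) * J ≤ (1 + 2 * C * J) * L := by
      push_cast
      nlinarith
    have h3 : (1 : ℝ) + ((2 * H : ℕ) : ℝ) ≤ (1 + 2 * C * J) * L := by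
      refine le_trans ?_ h2
      have : (0 : ℝ) ≤ ((2 * H : ℕ) : ℝ) := Nat.cast_nonneg _
      nlinarith
    have h4 : ((adm (2 * H) R.K).card : ℝ) ≤ ((1 + 2 * C * J) * L) ^ k :=
      hcomb.trans (pow_le_pow_left₀ (by positivity) h2 _)
    have h5 : ((adm (2 * H) R.K).card : ℝ) ^ 4 ≤ ((1 + 2 * C * J) * L) ^ (4 * k) := by
      calc ((adm (2 * H) R.K).card : ℝ) ^ 4 ≤ (((1 + 2 * C * J) * L) ^ k) ^ 4 :=
            pow_le_pow_left₀ (Nat.cast_nonneg _) h4 _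
        _ = _ := by rw [← pow_mul, mul_comm k 4]
    rw [h1]
    calc 1 / L ^ (4 * k + 1) * (1 + ((2 * H : ℕ) : ℝ)) * (adm (2 * H) R.K).card ^ 4 ≤
        1 / L ^ (4 * k + 1) * ((1 + 2 * C * J) * L) * ((1 + 2 * C * J) * L) ^ (4 * k) := by
          refine mul_le_mul ?_ h5 (by positivity) (by positivity)
          exact mul_le_mul_of_nonneg_left h3 (by positivity)
      _ = (1 + 2 * C * J) ^ (4 * k + 1) := by
          rw [mul_assoc, ← pow_succ' ((1 + 2 * C * J) * L), mul_pow]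
          field_simp
      _ ≤ c0 * L / 16 := by
          rw [div_le_iff₀ hc0] at a11
          linarith
      _ ≤ R.M / 16 := div_le_div_of_nonneg_right hM (by norm_num)
  have hcore := coreEnd (2 * H) J R hok b hBa hjj hε2 hε1
  have hM0 : 0 ≤ Mn g x := Mn_nonneg hg x
  have hlow : c0 / (4 * (2 * T0 + 1)) * L ≤
      R.M / (4 * (2 * Real.exp (((J : ℝ) + 1) ^ 4 * (R.c5 * R.Plow) * b) + 1)) := by
    have h1 : c0 / (4 * (2 * T0 + 1)) * L = (c0 * L) / (4 * (2 * T0 + 1)) := by ring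
    rw [h1]
    have hM1 : c0 * L ≤ R.M := hM
    exact div_le_div₀ hM0 hM1 (by positivity) (by linarith)
  refine hlow.trans (hcore.trans ?_)
  have hF : R.F = Icc 1 ⌊x⌋₊ := rfl
  rw [hF, Finset.sum_filter, Finset.sum_filter]
  refine Finset.sum_le_sum fun n hn => ?_
  have hn1 : 1 ≤ n := (Finset.mem_Icc.1 hn).1
  have hlogn : 0 ≤ Real.log n / n := div_nonneg (Real.log_natCast_nonneg _) (Nat.cast_nonneg _)
  by_cases hP : ∀ i ∈ R.B n, R.v n i .maj < 1
  · rw [if_pos hP]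
    by_cases hν : R.ν n = 0
    · rw [hν]
      split_ifs
      · exact hlogn
      · exact le_rfl
    · have hν' : nu g x n ≠ 0 := hν
      unfold nu at hν'
      have hp : n.Prime := by
        by_contra h
        rw [if_neg h] at hν'
        exact hν' rfl
      rw [if_pos hp] at hν'
      have hwt : wt g x n ≠ 0 := right_ne_zero_of_mul hν'
      rw [if_pos]
      · show nu g x n ≤ Real.log n / n
        unfold nu
        rw [if_pos hp, ArithmeticFunction.vonMangoldt_apply_prime hp]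
        unfold wt
        rw [mul_div_assoc']
        refine div_le_div_of_nonneg_right ?_ (Nat.cast_nonneg _)
        have := hg1 (Real.log n / Real.log x)
        have h1 : 0 ≤ Real.log (n : ℝ) := Real.log_natCast_nonneg _
        nlinarith
      · refine ⟨hp, ?_⟩
        intro h hh h0
        rw [Finset.mem_Icc] at hh
        exact isolated hg a5 hρ hρ1 a6 a6' hwt hP h0 hh.1 hh.2
  · rw [if_neg hP]
    split_ifs
    · exact hlogn
    · exact le_rfl

end Pool.Agent.Helper1.LG
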