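import Pool.Agent.Helper1.LG.Rng

set_option autoImplicit false

/-!
LG-A. The five facts on one position (`OnePos` in `Defs.lean`).

Notation: `N_i = cnt D.rg i S`, `A_i = Ar r_i N_i`, `a_i = E A_i`, `P_i = P0 i`,
`tt_i = tt (r_i)` (base 64, so all tails with base up to 64 are covered), `∑ tt_i ≤ t ≤ 1/1000`.
All functions are products over `i < I` of functions of the part of `S` in the range `i`, so by
`Em_factor` the expectations are products of expectations over the ranges (all points have range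
below `I`).

1. `E Fn_j = 0`: the factor of the range `j` has mean `E(A_j - a_j) = 0`.
2. `i < j`: in `Fn_i Fn_j` the range `i` only has the factor `A_i - a_i`. Mean 0.
3. `E Fn_j² = J⁻² E(A_j - a_j)²/(1-a_j)² ∏_{i∈(j,I)} E A_i²`, `1 - a_j ≥ 1/5`,
   `E(A_j-a_j)² ≤ E A_j² ≤ P_j + tt_j ≤ 1.001`, `E A_i² ≤ P_i + tt_i ≤ P_i (1 + 4 tt_i)`,
   `∏ (1 + 4 tt_i) ≤ exp(4t) ≤ 1.01`.
4. For a word `W ≠ blank`: `|wd W| ≤ ∏_i b_i(N_i)`: for `i ≥ J` every letter other than the blank
   has the factor `A_i`, so `b_i = A_i^q`, `1 ≤ q ≤ 4`: `1` at `N = 0`, `0` for `1 ≤ N ≤ r_i`, at most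
   `16^N` for `N > r_i`: `E b_i ≤ P_i + tt_i ≤ P_i (1+4 tt_i)`. For `i < J` the factor of a letter is `1`,
   `A_i ≤ 2^N` or `|A_i - a_i|/(1-a_i) ≤ 5·2^N`, the last at most once for each letter, so the
   product over the word is at most `5^(number of letters md i)·16^N`, altogether
   `625 ∏_{i<J} 16^{N_i}`, `E 16^{N_i} ≤ exp 15`. Factors `1/J ≤ 1`.
   Total `625·1.01·exp(15J)·Plow`.
5. Let `G = 1 - ∑_{j∈s} Fn_j`, `Fm = Fn maj`. `Fm ≠ 0` only if every `N_i` is `0` or `> r_i`.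
   If all `N_i = 0` (then `S = ∅` since all ranges are below `I`): `Fm = 1`, `G = (J - |s|)/J ∈ [0,1]`;
   this contributes `Pall ((J-|s|)/J)² ≤ Pall (J-|s|)/J`. Otherwise `N_k > r_k` for some `k`:
   `G² ≤ 2 + 2 (∑ Fn_j)² ≤ 2 + (2/J) ∑_j (J Fn_j)²` and `Fm (J Fn_j)² ≤ ∏_i B_i(N_i)`,
   `Fm ≤ ∏_i B_i(N_i)`, with `B_i(0) = 1`, `B_i(N) = 25·8^N` for `N > r_i`, `B_i(N) = 0` for
   `1 ≤ N ≤ r_i`. So `Fm G² ≤ 4 ∑_k [N_k > r_k] ∏ B_i`, with expectation at most
   `4 ∑_k 25 tt_k ∏_{i≠k} (P_i + 25 tt_i) ≤ 400 t Pall exp(100 t) ≤ 2000 t Pall` (`P_i ≥ 1/4`).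
-/

open Finset

namespace Pool.Agent.Helper1.LG

section

variable {ι : Type} [Fintype ι] [DecidableEq ι]

/-- The mean of a function of the number of points in the range `i`. -/
noncomputable def Mi (D : Dt ι) (i : ℕ) (b : ℕ → ℝ) : ℝ :=
  Em (univ.filter (fun p => D.rg p = i)) D.w (fun p => 1 - D.w p) (fun T => b T.card)

theorem Ex_prod {D : Dt ι} {J : ℕ} {t : ℝ} (h : Reg D J t) (f : ℕ → ℕ → ℝ) :
    Ex D.w (fun S => ∏ i ∈ range D.I, f i (cnt D.rg i S)) = ∏ i ∈ range D.I, Mi D i (f i) := by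
  rw [Ex_eq_Em]
  exact Em_factor D.rg D.I h.rg_lt _ _ (fun i T => f i T.card)

theorem Reg.v_nonneg {D : Dt ι} {J : ℕ} {t : ℝ} (h : Reg D J t) (p : ι) : 0 ≤ 1 - D.w p := by
  have := h.w_le p
  linarith

theorem Ex_mono {D : Dt ι} {J : ℕ} {t : ℝ} (h : Reg D J t) {f g : Finset ι → ℝ}
    (hfg : ∀ S, f S ≤ g S) : Ex D.w f ≤ Ex D.w g := by
  rw [Ex_eq_Em, Ex_eq_Em]
  exact Em_mono _ (fun p _ => h.w_nonneg p) (fun p _ => h.v_nonneg p) fun T _ => hfg T

theorem Ex_add (w : ι → ℝ) (f g : Finset ι → ℝ) :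
    Ex w (fun S => f S + g S) = Ex w f + Ex w g := by
  rw [Ex_eq_Em, Ex_eq_Em, Ex_eq_Em, Em_add]

theorem Ex_smul (w : ι → ℝ) (c : ℝ) (f : Finset ι → ℝ) :
    Ex w (fun S => c * f S) = c * Ex w f := by
  rw [Ex_eq_Em, Ex_eq_Em, Em_smul]

theorem Ex_sum (w : ι → ℝ) {α : Type} (s : Finset α) (f : α → Finset ι → ℝ) :
    Ex w (fun S => ∑ a ∈ s, f a S) = ∑ a ∈ s, Ex w (f a) := by
  unfold Ex
  rw [Finset.sum_comm]
  refine Finset.sum_congr rfl fun S _ => ?_
  rw [Finset.mul_sum]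

theorem abs_Ex_le {D : Dt ι} {J : ℕ} {t : ℝ} (h : Reg D J t) (f : Finset ι → ℝ) :
    |Ex D.w f| ≤ Ex D.w (fun S => |f S|) := by
  rw [abs_le]
  constructor
  · have := Ex_mono h (f := fun S => (-1) * |f S|) (g := f) fun S => by
      have := neg_abs_le (f S)
      linarith
    rw [Ex_smul] at this
    linarith
  · exact Ex_mono h fun S => le_abs_self _

theorem Mi_mono {D : Dt ι} {J : ℕ} {t : ℝ} (h : Reg D J t) (i : ℕ) {b c : ℕ → ℝ}
    (hbc : ∀ N, b N ≤ c N) : Mi D i b ≤ Mi D i c :=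
  Em_mono _ (fun p _ => h.w_nonneg p) (fun p _ => h.v_nonneg p) fun T _ => hbc _

theorem Mi_one (D : Dt ι) (i : ℕ) : Mi D i (fun _ => 1) = 1 := Em_one _ _

theorem Mi_add (D : Dt ι) (i : ℕ) (b c : ℕ → ℝ) :
    Mi D i (fun N => b N + c N) = Mi D i b + Mi D i c := Em_add _ _ _ _ _

theorem Mi_smul (D : Dt ι) (i : ℕ) (x : ℝ) (b : ℕ → ℝ) :
    Mi D i (fun N => x * b N) = x * Mi D i b := Em_smul _ _ _ _ _

theorem Mi_nonneg {D : Dt ι} {J : ℕ} {t : ℝ} (h : Reg D J t) (i : ℕ) {b : ℕ → ℝ}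
    (hb : ∀ N, 0 ≤ b N) : 0 ≤ Mi D i b := by
  have h1 := Mi_mono h i (b := fun _ => 0 * 1) (c := b) fun N => by simpa using hb N
  rw [Mi_smul] at h1
  linarith

theorem Mi_ind (D : Dt ι) (i : ℕ) : Mi D i (fun N => if N = 0 then 1 else 0) = D.P0 i := by
  have h := Em_empty (univ.filter (fun p => D.rg p = i)) D.w (fun p => 1 - D.w p)
  unfold Mi Dt.P0
  rw [← h]
  refine Em_congr _ _ _ fun T _ => ?_
  simp [Finset.card_eq_zero]

theorem Mi_tail {D : Dt ι} {J : ℕ} {t : ℝ} (h : Reg D J t) (i : ℕ) {z : ℝ} (hz : 0 ≤ z)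
    (hz2 : z ≤ 64) : Mi D i (fun N => if D.r i < N then z ^ N else 0) ≤ tt (D.r i) := by
  have h1 := Em_tail (univ.filter (fun p => D.rg p = i)) D.w
    (fun p _ => ⟨h.w_nonneg p, by have := h.w_le p; linarith⟩) (h.la_le i) hz (D.r i)
  refine le_trans h1 ?_
  unfold tt
  have hf : (0 : ℝ) < ((D.r i + 1).factorial : ℝ) := by exact_mod_cast Nat.factorial_pos _
  refine div_le_div_of_nonneg_right ?_ hf.le
  exact mul_le_mul (pow_le_pow_left₀ hz hz2 _)
    (Real.exp_le_exp.2 hz2) (Real.exp_pos _).le (by positivity)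

theorem Mi_bound {D : Dt ι} {J : ℕ} {t : ℝ} (h : Reg D J t) (i : ℕ) {z C : ℝ} (hz : 0 ≤ z)
    (hz2 : z ≤ 64) (hC : 0 ≤ C) {b : ℕ → ℝ} (h0 : b 0 ≤ 1)
    (h1 : ∀ N, 1 ≤ N → N ≤ D.r i → b N ≤ 0) (h2 : ∀ N, D.r i < N → b N ≤ C * z ^ N) :
    Mi D i b ≤ D.P0 i + C * tt (D.r i) := by
  have h3 : ∀ N, b N ≤ (if N = 0 then 1 else 0) + C * (if D.r i < N then z ^ N else 0) := by
    intro N
    rcases Nat.eq_zero_or_pos N with hN | hN
    · subst hN
      simpa using h0
    · rw [if_neg (by omega), zero_add]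
      rcases Nat.lt_or_ge (D.r i) N with h4 | h4
      · rw [if_pos h4]
        exact h2 N h4
      · rw [if_neg (by omega), mul_zero]
        exact h1 N hN h4
  have h4 := Mi_mono h i h3
  rw [Mi_add, Mi_ind, Mi_smul] at h4
  have h5 := mul_le_mul_of_nonneg_left (Mi_tail h i hz hz2) hC
  linarith

theorem Mi_pow_le {D : Dt ι} {J : ℕ} {t : ℝ} (h : Reg D J t) (i : ℕ) {z : ℝ} (hz : 1 ≤ z) :
    Mi D i (fun N => z ^ N) ≤ Real.exp (z - 1) :=
  Em_total_le _ _ (fun p _ => h.w_nonneg p) (h.la_le i) hz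

theorem Mi_Ar (D : Dt ι) (i : ℕ) : Mi D i (fun N => Ar (D.r i) N) = D.a i := (a_eq D i).symm

/-- The factor of a letter in the range `i`. -/
noncomputable def phi {J : ℕ} (D : Dt ι) : Lt J → ℕ → ℕ → ℝ
  | .one, _, _ => 1
  | .maj, i, N => Ar (D.r i) N
  | .md j, i, N =>
    if i = (j : ℕ) then (1 / (J : ℝ)) * ((Ar (D.r i) N - D.a i) / (1 - D.a i))
    else if (j : ℕ) < i then Ar (D.r i) N else 1

theorem prod_split (I j : ℕ) (hj : j < I) (X Y : ℕ → ℝ) :
    ∏ i ∈ range I, (if i = j then X i else if j < i then Y i else 1) =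
      X j * ∏ i ∈ Ioo j I, Y i := by
  rw [← Finset.mul_prod_erase (range I) _ (Finset.mem_range.2 hj), if_pos rfl]
  congr 1
  have h1 : ∏ i ∈ (range I).erase j, (if i = j then X i else if j < i then Y i else 1) =
      ∏ i ∈ (range I).erase j, (if j < i then Y i else 1) := by
    refine Finset.prod_congr rfl fun i hi => ?_
    rw [if_neg (Finset.ne_of_mem_erase hi)]
  rw [h1, ← Finset.prod_filter]
  refine Finset.prod_congr ?_ fun _ _ => rfl
  ext i
  simp only [Finset.mem_filter, Finset.mem_erase, Finset.mem_range, Finset.mem_Ioo]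
  omega

theorem Fn_eq {D : Dt ι} {J : ℕ} {t : ℝ} (h : Reg D J t) (l : Lt J) (S : Finset ι) :
    Fn D l S = ∏ i ∈ range D.I, phi D l i (cnt D.rg i S) := by
  cases l with
  | one => simp [Fn, phi]
  | maj => rfl
  | md j =>
    have hj : (j : ℕ) < D.I := lt_of_lt_of_le j.2 h.J_le
    have h1 := prod_split D.I j hj
      (fun i => (1 / (J : ℝ)) * ((Ar (D.r i) (cnt D.rg i S) - D.a i) / (1 - D.a i)))
      (fun i => Ar (D.r i) (cnt D.rg i S))
    exact h1.symm

theorem Reg.t_nonneg {D : Dt ι} {J : ℕ} {t : ℝ} (h : Reg D J t) : 0 ≤ t :=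
  le_trans (Finset.sum_nonneg fun _ _ => (tt_pos _).le) h.tail

/-- Products of `P + C tt`. -/
theorem prod_le_exp {D : Dt ι} {J : ℕ} {t : ℝ} (h : Reg D J t) {C : ℝ} (hC : 0 ≤ C)
    (s : Finset ℕ) (hs : s ⊆ range D.I) {b : ℕ → ℝ} (hb : ∀ i ∈ s, 0 ≤ b i)
    (hb2 : ∀ i ∈ s, b i ≤ D.P0 i + C * tt (D.r i)) :
    ∏ i ∈ s, b i ≤ (∏ i ∈ s, D.P0 i) * Real.exp (4 * C * t) := by
  calc ∏ i ∈ s, b i ≤ ∏ i ∈ s, (D.P0 i * Real.exp (4 * C * tt (D.r i))) := by
        refine Finset.prod_le_prod hb fun i hi => ?_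
        refine le_trans (hb2 i hi) ?_
        have h1 := h.P0_ge i
        have h2 := Real.add_one_le_exp (4 * C * tt (D.r i))
        have h3 := tt_pos (D.r i)
        have h4 : 0 ≤ C * tt (D.r i) := by positivity
        calc D.P0 i + C * tt (D.r i) ≤ D.P0 i * (4 * C * tt (D.r i) + 1) := by nlinarith
          _ ≤ _ := mul_le_mul_of_nonneg_left h2 (by linarith)
    _ = (∏ i ∈ s, D.P0 i) * Real.exp (4 * C * ∑ i ∈ s, tt (D.r i)) := by
        rw [Finset.prod_mul_distrib, ← Real.exp_sum, Finset.mul_sum]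
    _ ≤ _ := by
        refine mul_le_mul_of_nonneg_left ?_ ?_
        · apply Real.exp_le_exp.2
          refine mul_le_mul_of_nonneg_left ?_ (by positivity)
          refine le_trans ?_ h.tail
          exact Finset.sum_le_sum_of_subset_of_nonneg hs fun _ _ _ => (tt_pos _).le
        · exact Finset.prod_nonneg fun i _ => by have := h.P0_ge i; linarith

/-! ### Facts 1, 2, 3 -/

theorem Mi_phi_self {D : Dt ι} {J : ℕ} (j : Fin J) :
    Mi D (j : ℕ) (phi D (Lt.md j) (j : ℕ)) = 0 := by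
  have h1 : phi D (Lt.md j) (j : ℕ) = fun N => ((1 / (J : ℝ)) / (1 - D.a j)) *
      (Ar (D.r j) N + (-D.a j) * 1) := by
    funext N
    simp only [phi, if_true]
    ring
  rw [h1, Mi_smul, Mi_add, Mi_smul, Mi_one, Mi_Ar]
  ring

theorem fact1 {D : Dt ι} {J : ℕ} {t : ℝ} (h : Reg D J t) (j : Fin J) :
    Ex D.w (Fn D (.md j)) = 0 := by
  have h1 : Fn D (Lt.md j) = fun S => ∏ i ∈ range D.I, phi D (Lt.md j) i (cnt D.rg i S) := by
    funext S
    exact Fn_eq h _ S
  rw [h1, Ex_prod h]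
  exact Finset.prod_eq_zero (Finset.mem_range.2 (lt_of_lt_of_le j.2 h.J_le)) (Mi_phi_self j)

theorem fact2' {D : Dt ι} {J : ℕ} {t : ℝ} (h : Reg D J t) (i j : Fin J) (hij : i < j) :
    Ex D.w (fun S => Fn D (.md i) S * Fn D (.md j) S) = 0 := by
  have h1 : (fun S => Fn D (Lt.md i) S * Fn D (Lt.md j) S) = fun S => ∏ k ∈ range D.I,
      (phi D (Lt.md i) k (cnt D.rg k S) * phi D (Lt.md j) k (cnt D.rg k S)) := by
    funext S
    rw [Fn_eq h, Fn_eq h, Finset.prod_mul_distrib]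
  rw [h1, Ex_prod h (fun k N => phi D (Lt.md i) k N * phi D (Lt.md j) k N)]
  refine Finset.prod_eq_zero (Finset.mem_range.2 (lt_of_lt_of_le i.2 h.J_le)) ?_
  have h2 : (fun N => phi D (Lt.md i) (i : ℕ) N * phi D (Lt.md j) (i : ℕ) N) =
      phi D (Lt.md i) (i : ℕ) := by
    funext N
    have h3 : phi D (Lt.md j) (i : ℕ) N = 1 := by
      have h4 : (i : ℕ) < (j : ℕ) := hij
      simp only [phi]
      rw [if_neg (by omega), if_neg (by omega)]
    rw [h3, mul_one]
  rw [h2]
  exact Mi_phi_self i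

theorem fact2 {D : Dt ι} {J : ℕ} {t : ℝ} (h : Reg D J t) (i j : Fin J) (hij : i ≠ j) :
    Ex D.w (fun S => Fn D (.md i) S * Fn D (.md j) S) = 0 := by
  rcases lt_or_gt_of_ne hij with h1 | h1
  · exact fact2' h i j h1
  · have h2 := fact2' h j i h1
    simp only [mul_comm (Fn D (Lt.md i) _)]
    exact h2

theorem Mi_Ar_pow {D : Dt ι} {J : ℕ} {t : ℝ} (h : Reg D J t) (i q : ℕ) (hq : 1 ≤ q)
    (hq2 : q ≤ 4) : Mi D i (fun N => Ar (D.r i) N ^ q) ≤ D.P0 i + 1 * tt (D.r i) := by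
  refine Mi_bound h i (z := 16) (by norm_num) (by norm_num) zero_le_one ?_ ?_ ?_
  · rw [Ar_zero, one_pow]
  · intro N h1 h2
    rw [Ar_eq_zero h1 h2, zero_pow (by omega)]
  · intro N _
    rw [one_mul]
    calc Ar (D.r i) N ^ q ≤ (2 ^ N) ^ q := pow_le_pow_left₀ (Ar_nonneg (h.even i) _)
          (Ar_le (h.even i) _) _
      _ ≤ (2 ^ N) ^ 4 := pow_le_pow_right₀ (one_le_pow₀ (by norm_num)) hq2
      _ = 16 ^ N := by
          rw [← pow_mul, mul_comm, pow_mul]
          norm_num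

theorem fact3 {D : Dt ι} {J : ℕ} {t : ℝ} (h : Reg D J t) (j : Fin J) :
    Ex D.w (fun S => Fn D (.md j) S ^ 2) ≤
      100 / (J : ℝ) ^ 2 * ∏ i ∈ Ioo (j : ℕ) D.I, D.P0 i := by
  have hj : (j : ℕ) < D.I := lt_of_lt_of_le j.2 h.J_le
  have h1 : (fun S => Fn D (Lt.md j) S ^ 2) = fun S => ∏ k ∈ range D.I,
      (phi D (Lt.md j) k (cnt D.rg k S) ^ 2) := by
    funext S
    rw [Fn_eq h, Finset.prod_pow]
  rw [h1, Ex_prod h (fun k N => phi D (Lt.md j) k N ^ 2)]
  have h2 : ∀ k ∈ range D.I, Mi D k (fun N => phi D (Lt.md j) k N ^ 2) =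
      if k = (j : ℕ) then Mi D k (fun N => ((1 / (J : ℝ)) * ((Ar (D.r k) N - D.a k) /
        (1 - D.a k))) ^ 2)
      else if (j : ℕ) < k then Mi D k (fun N => Ar (D.r k) N ^ 2) else 1 := by
    intro k _
    simp only [phi]
    split_ifs with h3 h4
    · rfl
    · rfl
    · simp only [one_pow]
      exact Mi_one D k
  rw [Finset.prod_congr rfl h2, prod_split D.I j hj
    (fun k => Mi D k (fun N => ((1 / (J : ℝ)) * ((Ar (D.r k) N - D.a k) /
        (1 - D.a k))) ^ 2)) (fun k => Mi D k (fun N => Ar (D.r k) N ^ 2))]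
  have hJ : (0 : ℝ) < J := by exact_mod_cast h.J_pos
  have ha1 := h.one_sub_a j.2
  have h5 : Mi D (j : ℕ) (fun N => ((1 / (J : ℝ)) * ((Ar (D.r j) N - D.a j) /
        (1 - D.a j))) ^ 2) ≤ 26 / (J : ℝ) ^ 2 := by
    have e1 : (fun N => ((1 / (J : ℝ)) * ((Ar (D.r j) N - D.a j) / (1 - D.a j))) ^ 2) =
        fun N => (1 / ((J : ℝ) ^ 2 * (1 - D.a j) ^ 2)) * (Ar (D.r j) N ^ 2 +
          ((-2 * D.a j) * Ar (D.r j) N + D.a j ^ 2 * 1)) := by
      funext N
      have : (1 - D.a j) ≠ 0 := by linarith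
      field_simp
      ring
    rw [e1, Mi_smul, Mi_add, Mi_add, Mi_smul, Mi_smul, Mi_one, Mi_Ar]
    have e2 := Mi_Ar_pow h (j : ℕ) 2 (by norm_num) (by norm_num)
    have e3 := h.P0_le_one (j : ℕ)
    have e4 := h.tt_le hj
    have e5 : Mi D (j : ℕ) (fun N => Ar (D.r j) N ^ 2) +
        ((-2 * D.a j) * D.a j + D.a j ^ 2 * 1) ≤ 26 / 25 := by
      nlinarith [sq_nonneg (D.a j)]
    have e6 : (0 : ℝ) ≤ 1 / ((J : ℝ) ^ 2 * (1 - D.a j) ^ 2) := by positivity
    have e7 : 1 / ((J : ℝ) ^ 2 * (1 - D.a j) ^ 2) ≤ 25 / (J : ℝ) ^ 2 := by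
      rw [div_le_div_iff₀ (by positivity) (by positivity)]
      have : 1 / 25 ≤ (1 - D.a j) ^ 2 := by nlinarith
      have h8 : 0 < (J : ℝ) ^ 2 := by positivity
      nlinarith
    calc _ ≤ 1 / ((J : ℝ) ^ 2 * (1 - D.a j) ^ 2) * (26 / 25) :=
          mul_le_mul_of_nonneg_left e5 e6
      _ ≤ 25 / (J : ℝ) ^ 2 * (26 / 25) := mul_le_mul_of_nonneg_right e7 (by norm_num)
      _ = _ := by ring
  have h6 : ∏ i ∈ Ioo (j : ℕ) D.I, Mi D i (fun N => Ar (D.r i) N ^ 2) ≤
      (∏ i ∈ Ioo (j : ℕ) D.I, D.P0 i) * Real.exp (4 * 1 * t) := by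
    refine prod_le_exp h zero_le_one _ ?_ ?_ ?_
    · intro i hi
      exact Finset.mem_range.2 (Finset.mem_Ioo.1 hi).2
    · intro i _
      exact Mi_nonneg h i fun N => sq_nonneg _
    · intro i _
      exact Mi_Ar_pow h i 2 (by norm_num) (by norm_num)
  have h7 : Real.exp (4 * 1 * t) ≤ 3 := by
    have := h.t_le
    have := Real.exp_one_lt_d9
    calc Real.exp (4 * 1 * t) ≤ Real.exp 1 := Real.exp_le_exp.2 (by linarith)
      _ ≤ 3 := by linarith
  have h8 : 0 ≤ ∏ i ∈ Ioo (j : ℕ) D.I, D.P0 i :=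
    Finset.prod_nonneg fun i _ => by have := h.P0_ge i; linarith
  have h9 : 0 ≤ ∏ i ∈ Ioo (j : ℕ) D.I, Mi D i (fun N => Ar (D.r i) N ^ 2) :=
    Finset.prod_nonneg fun i _ => Mi_nonneg h i fun N => sq_nonneg _
  calc _ ≤ 26 / (J : ℝ) ^ 2 * ((∏ i ∈ Ioo (j : ℕ) D.I, D.P0 i) * Real.exp (4 * 1 * t)) :=
        mul_le_mul h5 h6 h9 (by positivity)
    _ ≤ 26 / (J : ℝ) ^ 2 * ((∏ i ∈ Ioo (j : ℕ) D.I, D.P0 i) * 3) := by
        refine mul_le_mul_of_nonneg_left ?_ (by positivity)
        exact mul_le_mul_of_nonneg_left h7 h8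
    _ = (78 / (J : ℝ) ^ 2) * ∏ i ∈ Ioo (j : ℕ) D.I, D.P0 i := by ring
    _ ≤ _ := by
        refine mul_le_mul_of_nonneg_right ?_ h8
        gcongr
        norm_num

/-! ### Fact 4 -/

/-- The number of letters equal to the mode `i`. -/
noncomputable def nmd {J : ℕ} (W : Fin 4 → Lt J) (i : ℕ) : ℕ :=
  ∑ l, (match W l with | .md j => (if (j : ℕ) = i then 1 else 0) | _ => 0)

theorem phi_low {D : Dt ι} {J : ℕ} {t : ℝ} (h : Reg D J t) (l : Lt J) {i : ℕ} (hi : i < J)
    (N : ℕ) : |phi D l i N| ≤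
      5 ^ (match l with | .md j => (if (j : ℕ) = i then 1 else 0) | _ => 0) * 2 ^ N := by
  have h2 : (1 : ℝ) ≤ 2 ^ N := one_le_pow₀ (by norm_num)
  have hA : |Ar (D.r i) N| ≤ 2 ^ N := by
    rw [abs_of_nonneg (Ar_nonneg (h.even i) N)]
    exact Ar_le (h.even i) N
  cases l with
  | one => simpa [phi] using h2
  | maj => simpa [phi] using hA
  | md j =>
    simp only [phi]
    by_cases hij : i = (j : ℕ)
    · rw [if_pos hij, if_pos hij.symm, pow_one]
      have hJ : (1 : ℝ) ≤ J := by exact_mod_cast h.J_pos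
      have ha := h.one_sub_a hi
      have ha0 := (h.a_le i (lt_of_lt_of_le hi h.J_le)).1
      have e1 : |Ar (D.r i) N - D.a i| ≤ 2 ^ N := by
        have e2 := Ar_nonneg (h.even i) N
        have e3 := Ar_le (h.even i) N
        rw [abs_le]
        constructor <;> linarith
      have hJ2 : 1 / (J : ℝ) ≤ 1 := by
        rw [div_le_one (by linarith)]
        exact hJ
      have hJ3 : 0 ≤ 1 / (J : ℝ) := by positivity
      have e4 : |(Ar (D.r i) N - D.a i) / (1 - D.a i)| ≤ 5 * 2 ^ N := by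
        rw [abs_div, abs_of_pos (show (0 : ℝ) < 1 - D.a i by linarith),
          div_le_iff₀ (by linarith)]
        have : (0 : ℝ) < 2 ^ N := by positivity
        nlinarith
      rw [abs_mul, abs_of_nonneg hJ3]
      calc 1 / (J : ℝ) * |(Ar (D.r i) N - D.a i) / (1 - D.a i)| ≤
            1 * |(Ar (D.r i) N - D.a i) / (1 - D.a i)| :=
            mul_le_mul_of_nonneg_right hJ2 (abs_nonneg _)
        _ ≤ _ := by rw [one_mul]; exact e4
    · have hij2 : ¬ (j : ℕ) = i := fun h' => hij h'.symm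
      rw [if_neg hij, if_neg hij2, pow_zero, one_mul]
      split_ifs
      · exact hA
      · simpa using h2

theorem sum_nmd_le {J : ℕ} (W : Fin 4 → Lt J) : ∑ i ∈ range J, nmd W i ≤ 4 := by
  unfold nmd
  rw [Finset.sum_comm]
  calc _ ≤ ∑ l : Fin 4, 1 := by
        refine Finset.sum_le_sum fun l _ => ?_
        cases W l with
        | one => simp
        | maj => simp
        | md j =>
          simp only
          rw [Finset.sum_ite_eq]
          split_ifs <;> omega
    _ = 4 := by simp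

theorem phi_high {D : Dt ι} {J : ℕ} (l : Lt J) {i : ℕ} (hi : J ≤ i) (N : ℕ) :
    phi D l i N = if l = .one then 1 else Ar (D.r i) N := by
  cases l with
  | one => simp [phi]
  | maj => simp [phi]
  | md j =>
    simp only [phi]
    have := j.2
    rw [if_neg (by omega), if_pos (by omega), if_neg (by simp)]

theorem fact4 {D : Dt ι} {J : ℕ} {t : ℝ} (h : Reg D J t) (W : Fin 4 → Lt J)
    (hW : W ≠ blank J) :
    |Ex D.w (wd D W)| ≤ 10 ^ 5 * Real.exp (15 * J) * D.Plow J := by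
  have h0 : ∀ S, |wd D W S| = ∏ i ∈ range D.I, ∏ l, |phi D (W l) i (cnt D.rg i S)| := by
    intro S
    unfold wd
    rw [Finset.prod_congr rfl fun l _ => Fn_eq h (W l) S, Finset.prod_comm, Finset.abs_prod]
    exact Finset.prod_congr rfl fun i _ => Finset.abs_prod _ _
  have h1 := abs_Ex_le h (wd D W)
  have h2 : (fun S => |wd D W S|) =
      fun S => ∏ i ∈ range D.I, (fun i N => ∏ l, |phi D (W l) i N|) i (cnt D.rg i S) := by
    funext S
    exact h0 S
  have h3 := Ex_prod h (fun i N => ∏ l, |phi D (W l) i N|)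
  rw [h2, h3] at h1
  refine le_trans h1 ?_
  have hsplit : range D.I = range J ∪ Ico J D.I := by
    ext i
    have := h.J_le
    simp only [Finset.mem_range, Finset.mem_union, Finset.mem_Ico]
    omega
  have hdis : Disjoint (range J) (Ico J D.I) := by
    rw [Finset.disjoint_left]
    intro i h3 h4
    rw [Finset.mem_range] at h3
    rw [Finset.mem_Ico] at h4
    omega
  rw [hsplit, Finset.prod_union hdis]
  have hnn : ∀ i, 0 ≤ Mi D i (fun N => ∏ l, |phi D (W l) i N|) := fun i =>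
    Mi_nonneg h i fun N => Finset.prod_nonneg fun _ _ => abs_nonneg _
  have hlow : ∏ i ∈ range J, Mi D i (fun N => ∏ l, |phi D (W l) i N|) ≤
      625 * Real.exp (15 * J) := by
    have h3 : ∀ i ∈ range J, Mi D i (fun N => ∏ l, |phi D (W l) i N|) ≤
        5 ^ (nmd W i) * Real.exp 15 := by
      intro i hi
      rw [Finset.mem_range] at hi
      have h4 : ∀ N, ∏ l, |phi D (W l) i N| ≤ 5 ^ (nmd W i) * 16 ^ N := by
        intro N
        calc ∏ l, |phi D (W l) i N| ≤ ∏ l : Fin 4, (5 ^ (match W l with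
              | .md j => (if (j : ℕ) = i then 1 else 0) | _ => 0) * 2 ^ N) :=
              Finset.prod_le_prod (fun _ _ => abs_nonneg _) fun l _ => phi_low h (W l) hi N
          _ = 5 ^ (nmd W i) * 16 ^ N := by
              rw [Finset.prod_mul_distrib, Finset.prod_pow_eq_pow_sum, Finset.prod_const]
              congr 1
              rw [Finset.card_univ, Fintype.card_fin, ← pow_mul, mul_comm, pow_mul]
              norm_num
      have h5 := Mi_mono h i h4
      rw [Mi_smul] at h5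
      refine le_trans h5 ?_
      refine mul_le_mul_of_nonneg_left ?_ (by positivity)
      have h6 := Mi_pow_le h i (z := 16) (by norm_num)
      have h7 : (16 : ℝ) - 1 = 15 := by norm_num
      rwa [h7] at h6
    calc _ ≤ ∏ i ∈ range J, ((5 : ℝ) ^ (nmd W i) * Real.exp 15) :=
          Finset.prod_le_prod (fun i _ => hnn i) h3
      _ = 5 ^ (∑ i ∈ range J, nmd W i) * Real.exp (15 * J) := by
          rw [Finset.prod_mul_distrib, Finset.prod_pow_eq_pow_sum, Finset.prod_const,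
            Finset.card_range, ← Real.exp_nat_mul]
          congr 2
          ring
      _ ≤ 5 ^ 4 * Real.exp (15 * J) := by
          refine mul_le_mul_of_nonneg_right ?_ (Real.exp_pos _).le
          exact pow_le_pow_right₀ (by norm_num) (sum_nmd_le W)
      _ = _ := by norm_num
  have hhigh : ∏ i ∈ Ico J D.I, Mi D i (fun N => ∏ l, |phi D (W l) i N|) ≤
      (∏ i ∈ Ico J D.I, D.P0 i) * Real.exp (4 * 1 * t) := by
    refine prod_le_exp h zero_le_one _ ?_ (fun i _ => hnn i) ?_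
    · intro i hi
      exact Finset.mem_range.2 (Finset.mem_Ico.1 hi).2
    · intro i hi
      have hJi := (Finset.mem_Ico.1 hi).1
      set q := (univ.filter (fun l => ¬ W l = Lt.one)).card with hq
      have h3 : (fun N => ∏ l, |phi D (W l) i N|) = fun N => Ar (D.r i) N ^ q := by
        funext N
        have h4 : ∀ l, |phi D (W l) i N| = if ¬ W l = Lt.one then Ar (D.r i) N else 1 := by
          intro l
          rw [phi_high (W l) hJi N]
          split_ifs
          · exact abs_one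
          · exact abs_of_nonneg (Ar_nonneg (h.even i) N)
        rw [Finset.prod_congr rfl fun l _ => h4 l, ← Finset.prod_filter, Finset.prod_const]
      rw [h3]
      refine Mi_Ar_pow h i q ?_ ?_
      · rw [hq, Nat.one_le_iff_ne_zero, Finset.card_ne_zero]
        by_contra hcon
        rw [Finset.not_nonempty_iff_eq_empty] at hcon
        apply hW
        funext l
        by_contra hl
        have : l ∈ univ.filter (fun l => ¬ W l = Lt.one) :=
          Finset.mem_filter.2 ⟨Finset.mem_univ _, hl⟩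
        rw [hcon] at this
        exact Finset.notMem_empty _ this
      · rw [hq]
        calc _ ≤ (univ : Finset (Fin 4)).card := Finset.card_filter_le _ _
          _ = 4 := by simp
  have h7 : Real.exp (4 * 1 * t) ≤ 3 := by
    have := h.t_le
    have := Real.exp_one_lt_d9
    calc Real.exp (4 * 1 * t) ≤ Real.exp 1 := Real.exp_le_exp.2 (by linarith)
      _ ≤ 3 := by linarith
  have h8 : 0 ≤ ∏ i ∈ Ico J D.I, D.P0 i :=
    Finset.prod_nonneg fun i _ => by have := h.P0_ge i; linarith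
  have h9 : (0 : ℝ) < Real.exp (15 * J) := Real.exp_pos _
  calc _ ≤ 625 * Real.exp (15 * J) * ((∏ i ∈ Ico J D.I, D.P0 i) * Real.exp (4 * 1 * t)) :=
        mul_le_mul hlow hhigh (Finset.prod_nonneg fun i _ => hnn i) (by positivity)
    _ ≤ 625 * Real.exp (15 * J) * ((∏ i ∈ Ico J D.I, D.P0 i) * 3) := by
        refine mul_le_mul_of_nonneg_left ?_ (by positivity)
        exact mul_le_mul_of_nonneg_left h7 h8
    _ = 1875 * (Real.exp (15 * J) * ∏ i ∈ Ico J D.I, D.P0 i) := by ring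
    _ ≤ 10 ^ 5 * (Real.exp (15 * J) * ∏ i ∈ Ico J D.I, D.P0 i) := by
        refine mul_le_mul_of_nonneg_right (by norm_num) (by positivity)
    _ = _ := by rw [Dt.Plow, mul_assoc]

/-! ### Fact 5 -/

/-- The majorant in a range. -/
noncomputable def BB (r N : ℕ) : ℝ := if N = 0 then 1 else if N ≤ r then 0 else 25 * 8 ^ N

theorem BB_nonneg (r N : ℕ) : 0 ≤ BB r N := by
  unfold BB
  split_ifs
  · exact zero_le_one
  · exact le_refl 0
  · positivity

theorem Ar_le_BB {r : ℕ} (hr : Even r) (N : ℕ) : Ar r N ≤ BB r N := by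
  unfold BB
  split_ifs with h1 h2
  · subst h1; rw [Ar_zero]
  · rw [Ar_eq_zero (by omega) h2]
  · have h3 := Ar_le hr N
    have h4 : (2 : ℝ) ^ N ≤ 8 ^ N := pow_le_pow_left₀ (by norm_num) (by norm_num) N
    have h5 : (0 : ℝ) < 8 ^ N := by positivity
    linarith

theorem Ar_cube_le_BB {r : ℕ} (hr : Even r) (N : ℕ) : Ar r N * Ar r N ^ 2 ≤ BB r N := by
  unfold BB
  split_ifs with h1 h2
  · subst h1; rw [Ar_zero]; norm_num
  · rw [Ar_eq_zero (by omega) h2]; simp
  · have h3 := Ar_le hr N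
    have h4 := Ar_nonneg hr N
    have h5 : Ar r N * Ar r N ^ 2 ≤ 8 ^ N := by
      calc Ar r N * Ar r N ^ 2 = Ar r N ^ 3 := by ring
        _ ≤ (2 ^ N) ^ 3 := pow_le_pow_left₀ h4 h3 3
        _ = 8 ^ N := by rw [← pow_mul, mul_comm, pow_mul]; norm_num
    have h6 : (0 : ℝ) < 8 ^ N := by positivity
    linarith

theorem maj_mode_le {D : Dt ι} {J : ℕ} {t : ℝ} (h : Reg D J t) (j : Fin J) (S : Finset ι) :
    Fn D (.maj : Lt J) S * ((J : ℝ) * Fn D (.md j) S) ^ 2 ≤
      ∏ i ∈ range D.I, BB (D.r i) (cnt D.rg i S) := by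
  have hj : (j : ℕ) < D.I := lt_of_lt_of_le j.2 h.J_le
  have hJ : (0 : ℝ) < J := by exact_mod_cast h.J_pos
  have h1 : (J : ℝ) * Fn D (.md j) S = ∏ i ∈ range D.I,
      (if i = (j : ℕ) then (Ar (D.r i) (cnt D.rg i S) - D.a i) / (1 - D.a i)
        else if (j : ℕ) < i then Ar (D.r i) (cnt D.rg i S) else 1) := by
    rw [prod_split D.I j hj (fun i => (Ar (D.r i) (cnt D.rg i S) - D.a i) / (1 - D.a i))
      (fun i => Ar (D.r i) (cnt D.rg i S))]
    show (J : ℝ) * ((1 / (J : ℝ)) * ((D.A j S - D.a j) / (1 - D.a j)) *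
      ∏ i ∈ Ioo (j : ℕ) D.I, D.A i S) = _
    have e1 : (J : ℝ) * (1 / (J : ℝ)) = 1 := by field_simp
    calc _ = ((J : ℝ) * (1 / (J : ℝ))) * (((D.A j S - D.a j) / (1 - D.a j)) *
          ∏ i ∈ Ioo (j : ℕ) D.I, D.A i S) := by ring
      _ = _ := by rw [e1, one_mul]; rfl
  have h2 : Fn D (.maj : Lt J) S = ∏ i ∈ range D.I, Ar (D.r i) (cnt D.rg i S) := rfl
  rw [h1, h2, ← Finset.prod_pow, ← Finset.prod_mul_distrib]
  refine Finset.prod_le_prod (fun i _ => ?_) fun i hi => ?_
  · exact mul_nonneg (Ar_nonneg (h.even i) _) (sq_nonneg _)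
  · by_cases hij : i = (j : ℕ)
    · rw [if_pos hij]
      have hiJ : i < J := hij ▸ j.2
      have ha := h.one_sub_a hiJ
      have ha0 := (h.a_le i (lt_of_lt_of_le hiJ h.J_le)).1
      generalize cnt D.rg i S = N
      unfold BB
      split_ifs with h3 h4
      · subst h3
        rw [Ar_zero, div_self (by linarith)]
        norm_num
      · rw [Ar_eq_zero (by omega) h4]
        simp
      · have e2 := Ar_nonneg (h.even i) N
        have e3 := Ar_le (h.even i) N
        have hp : (1 : ℝ) ≤ 2 ^ N := one_le_pow₀ (by norm_num)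
        have e1 : |Ar (D.r i) N - D.a i| ≤ 2 ^ N := by
          rw [abs_le]
          constructor <;> linarith
        have e4 : |(Ar (D.r i) N - D.a i) / (1 - D.a i)| ≤ 5 * 2 ^ N := by
          rw [abs_div, abs_of_pos (show (0 : ℝ) < 1 - D.a i by linarith),
            div_le_iff₀ (by linarith)]
          nlinarith
        have e5 : ((Ar (D.r i) N - D.a i) / (1 - D.a i)) ^ 2 ≤ (5 * 2 ^ N) ^ 2 := by
          rw [← sq_abs]
          exact pow_le_pow_left₀ (abs_nonneg _) e4 2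
        calc _ ≤ (2 : ℝ) ^ N * (5 * 2 ^ N) ^ 2 :=
              mul_le_mul e3 e5 (sq_nonneg _) (by positivity)
          _ = 25 * (2 ^ N) ^ 3 := by ring
          _ = 25 * 8 ^ N := by
              rw [← pow_mul, mul_comm N 3, pow_mul]
              norm_num
    · rw [if_neg hij]
      split_ifs
      · exact Ar_cube_le_BB (h.even i) _
      · rw [one_pow, mul_one]
        exact Ar_le_BB (h.even i) _

theorem Fn_empty {D : Dt ι} {J : ℕ} {t : ℝ} (h : Reg D J t) (j : Fin J) (S : Finset ι)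
    (hS : ∀ i < D.I, cnt D.rg i S = 0) : Fn D (.md j) S = 1 / (J : ℝ) := by
  have hj : (j : ℕ) < D.I := lt_of_lt_of_le j.2 h.J_le
  have ha := h.one_sub_a j.2
  have e1 : ∀ i < D.I, D.A i S = 1 := by
    intro i hi
    unfold Dt.A
    rw [hS i hi, Ar_zero]
  show (1 / (J : ℝ)) * ((D.A j S - D.a j) / (1 - D.a j)) * ∏ i ∈ Ioo (j : ℕ) D.I, D.A i S = _
  rw [Finset.prod_congr rfl fun i hi => e1 i (Finset.mem_Ioo.1 hi).2, Finset.prod_const_one,
    e1 j hj, div_self (by linarith)]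
  ring

theorem fact5_pt {D : Dt ι} {J : ℕ} {t : ℝ} (h : Reg D J t) (s : Finset (Fin J))
    (S : Finset ι) :
    Fn D (.maj : Lt J) S * (1 - ∑ j ∈ s, Fn D (.md j) S) ^ 2 ≤
      (((J : ℝ) - s.card) / J) * (∏ i ∈ range D.I, (if cnt D.rg i S = 0 then 1 else 0)) +
      ∑ k ∈ range D.I, 4 * ∏ i ∈ range D.I,
        (if i = k then (if D.r i < cnt D.rg i S then BB (D.r i) (cnt D.rg i S) else 0)
          else BB (D.r i) (cnt D.rg i S)) := by
  have hJ : (0 : ℝ) < J := by exact_mod_cast h.J_pos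
  have hs : (s.card : ℝ) ≤ J := by
    have := Finset.card_le_univ s
    rw [Fintype.card_fin] at this
    exact_mod_cast this
  have hc : 0 ≤ ((J : ℝ) - s.card) / J := div_nonneg (by linarith) hJ.le
  have hc1 : ((J : ℝ) - s.card) / J ≤ 1 := by
    rw [div_le_one hJ]
    have : (0 : ℝ) ≤ s.card := Nat.cast_nonneg _
    linarith
  have hT : ∀ k ∈ range D.I, 0 ≤ 4 * ∏ i ∈ range D.I,
        (if i = k then (if D.r i < cnt D.rg i S then BB (D.r i) (cnt D.rg i S) else 0)
          else BB (D.r i) (cnt D.rg i S)) := by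
    intro k _
    refine mul_nonneg (by norm_num) (Finset.prod_nonneg fun i _ => ?_)
    split_ifs
    · exact BB_nonneg _ _
    · exact le_refl 0
    · exact BB_nonneg _ _
  have hI : 0 ≤ ∏ i ∈ range D.I, (if cnt D.rg i S = 0 then (1 : ℝ) else 0) :=
    Finset.prod_nonneg fun i _ => by split_ifs <;> norm_num
  by_cases h0 : ∀ i < D.I, cnt D.rg i S = 0
  · have e1 : Fn D (.maj : Lt J) S = 1 := by
      show ∏ i ∈ range D.I, D.A i S = 1
      refine Finset.prod_eq_one fun i hi => ?_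
      unfold Dt.A
      rw [h0 i (Finset.mem_range.1 hi), Ar_zero]
    have e2 : ∑ j ∈ s, Fn D (.md j) S = s.card / J := by
      rw [Finset.sum_congr rfl fun j _ => Fn_empty h j S h0, Finset.sum_const, nsmul_eq_mul]
      ring
    have e3 : ∏ i ∈ range D.I, (if cnt D.rg i S = 0 then (1 : ℝ) else 0) = 1 :=
      Finset.prod_eq_one fun i hi => if_pos (h0 i (Finset.mem_range.1 hi))
    have e4 : 1 - (s.card : ℝ) / J = ((J : ℝ) - s.card) / J := by field_simp
    rw [e1, e2, e3, e4, one_mul, mul_one]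
    have e5 := Finset.sum_nonneg hT
    nlinarith
  · push Not at h0
    obtain ⟨k, hk, hk0⟩ := h0
    have e0 : 0 ≤ Fn D (.maj : Lt J) S :=
      Finset.prod_nonneg fun i _ => (h.A_facts i S).1
    have hr1 : 0 ≤ (((J : ℝ) - s.card) / J) *
        (∏ i ∈ range D.I, (if cnt D.rg i S = 0 then 1 else 0)) := mul_nonneg hc hI
    by_cases hk1 : cnt D.rg k S ≤ D.r k
    · have e1 : Fn D (.maj : Lt J) S = 0 := by
        show ∏ i ∈ range D.I, D.A i S = 0
        exact Finset.prod_eq_zero (Finset.mem_range.2 hk)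
          ((h.A_facts k S).2.2.2 (by omega) hk1)
      rw [e1, zero_mul]
      have := Finset.sum_nonneg hT
      linarith
    · have e1 : 4 * ∏ i ∈ range D.I, BB (D.r i) (cnt D.rg i S) ≤ ∑ k ∈ range D.I, 4 *
          ∏ i ∈ range D.I, (if i = k then (if D.r i < cnt D.rg i S then
            BB (D.r i) (cnt D.rg i S) else 0) else BB (D.r i) (cnt D.rg i S)) := by
        refine le_trans (le_of_eq ?_) (Finset.single_le_sum hT (Finset.mem_range.2 hk))
        congr 1
        refine Finset.prod_congr rfl fun i _ => ?_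
        split_ifs with h3 h4
        · rfl
        · subst h3
          omega
        · rfl
      set P := ∏ i ∈ range D.I, BB (D.r i) (cnt D.rg i S) with hP
      have hP0 : 0 ≤ P := Finset.prod_nonneg fun i _ => BB_nonneg _ _
      have e2 : Fn D (.maj : Lt J) S ≤ P := by
        show ∏ i ∈ range D.I, D.A i S ≤ P
        exact Finset.prod_le_prod (fun i _ => (h.A_facts i S).1)
          fun i _ => Ar_le_BB (h.even i) _
      have e3 : Fn D (.maj : Lt J) S * (∑ j ∈ s, Fn D (.md j) S) ^ 2 ≤ P := by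
        have f1 : (∑ j ∈ s, Fn D (.md j) S) ^ 2 ≤ s.card * ∑ j ∈ s, Fn D (.md j) S ^ 2 :=
          sq_sum_le_card_mul_sum_sq
        have f2 : ∀ j ∈ s, Fn D (.maj : Lt J) S * Fn D (.md j) S ^ 2 ≤ P / (J : ℝ) ^ 2 := by
          intro j _
          rw [le_div_iff₀ (by positivity)]
          have := maj_mode_le h j S
          calc _ = Fn D (.maj : Lt J) S * ((J : ℝ) * Fn D (.md j) S) ^ 2 := by ring
            _ ≤ P := this
        calc Fn D (.maj : Lt J) S * (∑ j ∈ s, Fn D (.md j) S) ^ 2 ≤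
              Fn D (.maj : Lt J) S * (s.card * ∑ j ∈ s, Fn D (.md j) S ^ 2) :=
              mul_le_mul_of_nonneg_left f1 e0
          _ = s.card * ∑ j ∈ s, Fn D (.maj : Lt J) S * Fn D (.md j) S ^ 2 := by
              rw [← Finset.mul_sum]; ring
          _ ≤ s.card * ∑ j ∈ s, P / (J : ℝ) ^ 2 :=
              mul_le_mul_of_nonneg_left (Finset.sum_le_sum f2) (Nat.cast_nonneg _)
          _ = ((s.card : ℝ) ^ 2 / (J : ℝ) ^ 2) * P := by
              rw [Finset.sum_const, nsmul_eq_mul]; ring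
          _ ≤ 1 * P := by
              refine mul_le_mul_of_nonneg_right ?_ hP0
              rw [div_le_one (by positivity)]
              exact pow_le_pow_left₀ (Nat.cast_nonneg _) hs 2
          _ = P := one_mul P
      have e4 : (1 - ∑ j ∈ s, Fn D (.md j) S) ^ 2 ≤
          2 + 2 * (∑ j ∈ s, Fn D (.md j) S) ^ 2 := by
        nlinarith [sq_nonneg (1 + ∑ j ∈ s, Fn D (.md j) S)]
      calc _ ≤ Fn D (.maj : Lt J) S * (2 + 2 * (∑ j ∈ s, Fn D (.md j) S) ^ 2) :=
            mul_le_mul_of_nonneg_left e4 e0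
        _ = 2 * Fn D (.maj : Lt J) S + 2 * (Fn D (.maj : Lt J) S *
            (∑ j ∈ s, Fn D (.md j) S) ^ 2) := by ring
        _ ≤ 2 * P + 2 * P := by linarith
        _ = 4 * P := by ring
        _ ≤ _ := by linarith

theorem fact5 {D : Dt ι} {J : ℕ} {t : ℝ} (h : Reg D J t) (s : Finset (Fin J)) :
    Ex D.w (fun S => Fn D (.maj : Lt J) S * (1 - ∑ j ∈ s, Fn D (.md j) S) ^ 2) ≤
        D.Pall * (((J : ℝ) - s.card) / J + 2000 * t) := by
  have h1 := Ex_mono h (fact5_pt h s)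
  rw [Ex_add, Ex_smul, Ex_sum] at h1
  rw [Ex_prod h (fun _ N => if N = 0 then 1 else 0)] at h1
  have h2 : ∏ i ∈ range D.I, Mi D i (fun N => if N = 0 then 1 else 0) = D.Pall :=
    Finset.prod_congr rfl fun i _ => Mi_ind D i
  rw [h2] at h1
  have hP : 0 ≤ D.Pall := Finset.prod_nonneg fun i _ => by have := h.P0_ge i; linarith
  have hB : ∀ i, Mi D i (BB (D.r i)) ≤ D.P0 i + 25 * tt (D.r i) := by
    intro i
    refine Mi_bound h i (z := 8) (by norm_num) (by norm_num) (by norm_num) ?_ ?_ ?_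
    · simp [BB]
    · intro N h3 h4
      unfold BB
      rw [if_neg (by omega), if_pos h4]
    · intro N h3
      unfold BB
      rw [if_neg (by omega), if_neg (by omega)]
  have hB' : ∀ i, Mi D i (fun N => if D.r i < N then BB (D.r i) N else 0) ≤
      100 * tt (D.r i) * D.P0 i := by
    intro i
    have h3 : (fun N => if D.r i < N then BB (D.r i) N else 0) =
        fun N => 25 * (if D.r i < N then (8 : ℝ) ^ N else 0) := by
      funext N
      split_ifs with h4
      · unfold BB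
        rw [if_neg (by omega), if_neg (by omega)]
      · simp
    rw [h3, Mi_smul]
    have h4 := Mi_tail h i (z := 8) (by norm_num) (by norm_num)
    have h5 := h.P0_ge i
    have h6 := tt_pos (D.r i)
    nlinarith
  have hk : ∀ k ∈ range D.I, Ex D.w (fun S => 4 * ∏ i ∈ range D.I,
        (if i = k then (if D.r i < cnt D.rg i S then BB (D.r i) (cnt D.rg i S) else 0)
          else BB (D.r i) (cnt D.rg i S))) ≤ 500 * D.Pall * tt (D.r k) := by
    intro k hk
    rw [Ex_smul, Ex_prod h (fun i N => if i = k then (if D.r i < N then BB (D.r i) N else 0)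
      else BB (D.r i) N), ← Finset.mul_prod_erase (range D.I) _ hk]
    have e1 : Mi D k (fun N => if k = k then (if D.r k < N then BB (D.r k) N else 0)
        else BB (D.r k) N) ≤ 100 * tt (D.r k) * D.P0 k := by
      simp only [if_true]
      exact hB' k
    have e1' : 0 ≤ Mi D k (fun N => if k = k then (if D.r k < N then BB (D.r k) N else 0)
        else BB (D.r k) N) := by
      refine Mi_nonneg h k fun N => ?_
      simp only [if_true]
      split_ifs
      · exact BB_nonneg _ _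
      · exact le_refl 0
    have e2 : ∏ i ∈ (range D.I).erase k, Mi D i (fun N => if i = k then
        (if D.r i < N then BB (D.r i) N else 0) else BB (D.r i) N) ≤
        (∏ i ∈ (range D.I).erase k, D.P0 i) * Real.exp (4 * 25 * t) := by
      refine prod_le_exp h (by norm_num) _ (Finset.erase_subset _ _) ?_ ?_
      · intro i hi
        refine Mi_nonneg h i fun N => ?_
        rw [if_neg (Finset.ne_of_mem_erase hi)]
        exact BB_nonneg _ _
      · intro i hi
        have : (fun N => if i = k then (if D.r i < N then BB (D.r i) N else 0)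
            else BB (D.r i) N) = BB (D.r i) := by
          funext N
          rw [if_neg (Finset.ne_of_mem_erase hi)]
        rw [this]
        exact hB i
    have e3 : Real.exp (4 * 25 * t) ≤ 5 / 4 := by
      have h3 := h.t_le
      have h4 : Real.exp (4 * 25 * t) ≤ Real.exp (1 / 10) := Real.exp_le_exp.2 (by linarith)
      refine le_trans h4 ?_
      have h5 := Real.add_one_le_exp (-(1 / 10 : ℝ))
      have h6 : Real.exp (1 / 10) * Real.exp (-(1 / 10)) = 1 := by
        rw [← Real.exp_add]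
        simp
      have h7 := Real.exp_pos (1 / 10 : ℝ)
      nlinarith
    have e4 : 0 ≤ ∏ i ∈ (range D.I).erase k, D.P0 i :=
      Finset.prod_nonneg fun i _ => by have := h.P0_ge i; linarith
    have e5 : D.Pall = D.P0 k * ∏ i ∈ (range D.I).erase k, D.P0 i :=
      (Finset.mul_prod_erase (range D.I) _ hk).symm
    have e6 := tt_pos (D.r k)
    have e7 := h.P0_ge k
    have e8 : 0 ≤ ∏ i ∈ (range D.I).erase k, Mi D i (fun N => if i = k then
        (if D.r i < N then BB (D.r i) N else 0) else BB (D.r i) N) := by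
      refine Finset.prod_nonneg fun i hi => ?_
      refine Mi_nonneg h i fun N => ?_
      rw [if_neg (Finset.ne_of_mem_erase hi)]
      exact BB_nonneg _ _
    calc _ ≤ 4 * ((100 * tt (D.r k) * D.P0 k) *
          ((∏ i ∈ (range D.I).erase k, D.P0 i) * Real.exp (4 * 25 * t))) := by
          refine mul_le_mul_of_nonneg_left ?_ (by norm_num)
          exact mul_le_mul e1 e2 e8 (by positivity)
      _ ≤ 4 * ((100 * tt (D.r k) * D.P0 k) *
          ((∏ i ∈ (range D.I).erase k, D.P0 i) * (5 / 4))) := by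
          refine mul_le_mul_of_nonneg_left ?_ (by norm_num)
          refine mul_le_mul_of_nonneg_left ?_ (by positivity)
          exact mul_le_mul_of_nonneg_left e3 e4
      _ = _ := by rw [e5]; ring
  have h3 := Finset.sum_le_sum hk
  rw [← Finset.mul_sum] at h3
  have h4 : 500 * D.Pall * ∑ k ∈ range D.I, tt (D.r k) ≤ 500 * D.Pall * t :=
    mul_le_mul_of_nonneg_left h.tail (by positivity)
  have h5 : 0 ≤ D.Pall * t := mul_nonneg hP h.t_nonneg
  calc _ ≤ _ := h1
    _ ≤ ((J : ℝ) - s.card) / J * D.Pall + 500 * D.Pall * t := by linarith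
    _ ≤ _ := by nlinarith

end

theorem onePos : OnePos := by
  intro ι _ _ D J t h
  exact ⟨fact1 h, fact2 h, fact3 h, fact4 h, fact5 h⟩

end Pool.Agent.Helper1.LG
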