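import Pool.Agent.Helper1.LG.Defs

set_option autoImplicit false

/-!
LG-R. Facts on the truncated sums `Ar`, on the expectation `Ex` and on one range.
-/

open Finset

namespace Pool.Agent.Helper1.LG

theorem Ar_zero (r : ℕ) : Ar r 0 = 1 := by
  unfold Ar
  rw [Finset.sum_range_succ']
  simp

theorem Ar_succ (r N : ℕ) : Ar r (N + 1) = (-1 : ℝ) ^ r * (N.choose r : ℝ) := by
  induction r with
  | zero => simp [Ar]
  | succ r ih =>
    have h : Ar (r + 1) (N + 1) = Ar r (N + 1) +
        (-1 : ℝ) ^ (r + 1) * (((N + 1).choose (r + 1) : ℕ) : ℝ) := by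
      unfold Ar
      rw [Finset.sum_range_succ _ (r + 1)]
    rw [h, ih, Nat.choose_succ_succ]
    push_cast
    ring

theorem Ar_eq_zero {r N : ℕ} (h1 : 1 ≤ N) (h2 : N ≤ r) : Ar r N = 0 := by
  obtain ⟨M, rfl⟩ := Nat.exists_eq_add_of_le' h1
  rw [Ar_succ, Nat.choose_eq_zero_of_lt (by omega)]
  simp

theorem Ar_nonneg {r : ℕ} (hr : Even r) (N : ℕ) : 0 ≤ Ar r N := by
  rcases N with _ | M
  · rw [Ar_zero]; exact zero_le_one
  · rw [Ar_succ, hr.neg_one_pow, one_mul]; positivity

theorem Ar_le {r : ℕ} (hr : Even r) (N : ℕ) : Ar r N ≤ 2 ^ N := by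
  rcases N with _ | M
  · rw [Ar_zero]; simp
  · rw [Ar_succ, hr.neg_one_pow, one_mul]
    have h : M.choose r ≤ 2 ^ M := by
      rcases le_or_gt r M with h | h
      · calc M.choose r ≤ ∑ m ∈ range (M + 1), M.choose m :=
              Finset.single_le_sum (f := fun m => M.choose m) (fun _ _ => Nat.zero_le _)
                (Finset.mem_range.2 (by omega))
          _ = 2 ^ M := Nat.sum_range_choose M
      · rw [Nat.choose_eq_zero_of_lt h]; exact Nat.zero_le _
    calc ((M.choose r : ℕ) : ℝ) ≤ ((2 ^ M : ℕ) : ℝ) := by exact_mod_cast h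
      _ = 2 ^ M := by push_cast; ring
      _ ≤ 2 ^ (M + 1) := pow_le_pow_right₀ (by norm_num) (by omega)

section

variable {ι : Type} [Fintype ι] [DecidableEq ι]

theorem Ex_eq_Em (w : ι → ℝ) (f : Finset ι → ℝ) : Ex w f = Em univ w (fun p => 1 - w p) f := by
  unfold Ex Em
  rw [Finset.powerset_univ]
  refine Finset.sum_congr rfl fun S _ => ?_
  rw [Finset.compl_eq_univ_sdiff]

/-- Two disjoint parts. -/
theorem Em_union {R1 R2 : Finset ι} (hd : Disjoint R1 R2) (u v : ι → ℝ)
    (g h : Finset ι → ℝ) :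
    Em (R1 ∪ R2) u v (fun S => g (S ∩ R1) * h (S ∩ R2)) = Em R1 u v g * Em R2 u v h := by
  unfold Em
  rw [Finset.sum_mul_sum, ← Finset.sum_product']
  symm
  refine Finset.sum_nbij' (fun x => x.1 ∪ x.2) (fun S => (S ∩ R1, S ∩ R2)) ?_ ?_ ?_ ?_ ?_
  · intro x hx
    rw [Finset.mem_product, Finset.mem_powerset, Finset.mem_powerset] at hx
    exact Finset.mem_powerset.2 (Finset.union_subset_union hx.1 hx.2)
  · intro S hS
    rw [Finset.mem_product, Finset.mem_powerset, Finset.mem_powerset]
    exact ⟨Finset.inter_subset_right, Finset.inter_subset_right⟩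
  · intro x hx
    rw [Finset.mem_product, Finset.mem_powerset, Finset.mem_powerset] at hx
    have h1 : (x.1 ∪ x.2) ∩ R1 = x.1 := by
      rw [Finset.union_inter_distrib_right, Finset.inter_eq_left.2 hx.1,
        Finset.disjoint_iff_inter_eq_empty.1 (Finset.disjoint_of_subset_left hx.2 hd.symm),
        Finset.union_empty]
    have h2 : (x.1 ∪ x.2) ∩ R2 = x.2 := by
      rw [Finset.union_inter_distrib_right, Finset.inter_eq_left.2 hx.2,
        Finset.disjoint_iff_inter_eq_empty.1 (Finset.disjoint_of_subset_left hx.1 hd),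
        Finset.empty_union]
    exact Prod.ext h1 h2
  · intro S hS
    rw [Finset.mem_powerset] at hS
    show S ∩ R1 ∪ S ∩ R2 = S
    rw [← Finset.inter_union_distrib_left, Finset.inter_eq_left.2 hS]
  · intro x hx
    rw [Finset.mem_product, Finset.mem_powerset, Finset.mem_powerset] at hx
    have h1 : (x.1 ∪ x.2) ∩ R1 = x.1 := by
      rw [Finset.union_inter_distrib_right, Finset.inter_eq_left.2 hx.1,
        Finset.disjoint_iff_inter_eq_empty.1 (Finset.disjoint_of_subset_left hx.2 hd.symm),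
        Finset.union_empty]
    have h2 : (x.1 ∪ x.2) ∩ R2 = x.2 := by
      rw [Finset.union_inter_distrib_right, Finset.inter_eq_left.2 hx.2,
        Finset.disjoint_iff_inter_eq_empty.1 (Finset.disjoint_of_subset_left hx.1 hd),
        Finset.empty_union]
    have hd1 : Disjoint x.1 x.2 := Finset.disjoint_of_subset_left hx.1
      (Finset.disjoint_of_subset_right hx.2 hd)
    have h3 : (R1 ∪ R2) \ (x.1 ∪ x.2) = (R1 \ x.1) ∪ (R2 \ x.2) := by
      ext p
      simp only [Finset.mem_sdiff, Finset.mem_union, not_or]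
      have ha : p ∈ R1 → p ∉ R2 := fun h => Finset.disjoint_left.1 hd h
      have hb : p ∈ x.1 → p ∈ R1 := fun h => hx.1 h
      have hc : p ∈ x.2 → p ∈ R2 := fun h => hx.2 h
      tauto
    have hd2 : Disjoint (R1 \ x.1) (R2 \ x.2) :=
      Finset.disjoint_of_subset_left Finset.sdiff_subset
        (Finset.disjoint_of_subset_right Finset.sdiff_subset hd)
    show _ = (∏ p ∈ x.1 ∪ x.2, u p) * (∏ p ∈ (R1 ∪ R2) \ (x.1 ∪ x.2), v p) *
      (g ((x.1 ∪ x.2) ∩ R1) * h ((x.1 ∪ x.2) ∩ R2))
    rw [h1, h2, h3, Finset.prod_union hd1, Finset.prod_union hd2]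
    ring

theorem Em_congr (R : Finset ι) (u v : ι → ℝ) {f g : Finset ι → ℝ} (h : ∀ T ⊆ R, f T = g T) :
    Em R u v f = Em R u v g := by
  unfold Em
  refine Finset.sum_congr rfl fun T hT => ?_
  rw [h T (Finset.mem_powerset.1 hT)]

theorem Em_factor_aux (rg : ι → ℕ) (u v : ι → ℝ) (f : ℕ → Finset ι → ℝ) (I : ℕ) :
    ∀ R : Finset ι, (∀ p ∈ R, rg p < I) →
    Em R u v (fun S => ∏ i ∈ range I, f i (S.filter (fun p => rg p = i))) =
      ∏ i ∈ range I, Em (R.filter (fun p => rg p = i)) u v (f i) := by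
  induction I with
  | zero =>
    intro R hR
    have : R = ∅ := Finset.eq_empty_of_forall_notMem fun p hp => by
      have := hR p hp
      omega
    subst this
    simp [Em]
  | succ I ih =>
    intro R hR
    set R1 := R.filter (fun p => rg p < I) with hR1
    set R2 := R.filter (fun p => rg p = I) with hR2
    have hd : Disjoint R1 R2 := by
      rw [Finset.disjoint_left]
      intro p h1 h2
      rw [hR1, Finset.mem_filter] at h1
      rw [hR2, Finset.mem_filter] at h2
      omega
    have hU : R = R1 ∪ R2 := by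
      ext p
      rw [hR1, hR2, Finset.mem_union, Finset.mem_filter, Finset.mem_filter]
      constructor
      · intro hp
        have := hR p hp
        rcases Nat.lt_or_ge (rg p) I with h | h
        · exact Or.inl ⟨hp, h⟩
        · exact Or.inr ⟨hp, by omega⟩
      · rintro (h | h)
        · exact h.1
        · exact h.1
    have e1 : Em R u v (fun S => ∏ i ∈ range (I + 1), f i (S.filter (fun p => rg p = i))) =
        Em (R1 ∪ R2) u v (fun S => (fun T => ∏ i ∈ range I, f i (T.filter (fun p => rg p = i)))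
          (S ∩ R1) * (fun T => f I T) (S ∩ R2)) := by
      rw [← hU]
      refine Em_congr R u v fun S hS => ?_
      show _ = (∏ i ∈ range I, f i ((S ∩ R1).filter (fun p => rg p = i))) * f I (S ∩ R2)
      rw [Finset.prod_range_succ]
      congr 1
      · refine Finset.prod_congr rfl fun i hi => ?_
        rw [Finset.mem_range] at hi
        congr 1
        ext p
        rw [Finset.mem_filter, Finset.mem_filter, Finset.mem_inter, hR1, Finset.mem_filter]
        constructor
        · rintro ⟨h1, h2⟩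
          exact ⟨⟨h1, hS h1, by omega⟩, h2⟩
        · rintro ⟨⟨h1, _⟩, h2⟩
          exact ⟨h1, h2⟩
      · congr 1
        ext p
        rw [Finset.mem_filter, Finset.mem_inter, hR2, Finset.mem_filter]
        constructor
        · rintro ⟨h1, h2⟩
          exact ⟨h1, hS h1, h2⟩
        · rintro ⟨h1, _, h2⟩
          exact ⟨h1, h2⟩
    rw [e1, Em_union hd u v (fun T => ∏ i ∈ range I, f i (T.filter (fun p => rg p = i)))
      (fun T => f I T), ih R1 (fun p hp => (Finset.mem_filter.1 hp).2), Finset.prod_range_succ]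
    congr 1
    refine Finset.prod_congr rfl fun i hi => ?_
    rw [Finset.mem_range] at hi
    congr 1
    ext p
    simp only [hR1, Finset.mem_filter]
    constructor
    · rintro ⟨⟨h1, _⟩, h2⟩
      exact ⟨h1, h2⟩
    · rintro ⟨h1, h2⟩
      exact ⟨⟨h1, by omega⟩, h2⟩

theorem Em_factor (rg : ι → ℕ) (I : ℕ) (hI : ∀ p, rg p < I) (u v : ι → ℝ)
    (f : ℕ → Finset ι → ℝ) :
    Em univ u v (fun S => ∏ i ∈ range I, f i (S.filter (fun p => rg p = i))) =
      ∏ i ∈ range I, Em (univ.filter (fun p => rg p = i)) u v (f i) :=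
  Em_factor_aux rg u v f I univ (fun p _ => hI p)

theorem Em_total (R : Finset ι) (w : ι → ℝ) (z : ℝ) :
    Em R w (fun p => 1 - w p) (fun T => z ^ T.card) = ∏ p ∈ R, (1 - w p + z * w p) := by
  have h : ∏ p ∈ R, (1 - w p + z * w p) = ∏ p ∈ R, (z * w p + (1 - w p)) :=
    Finset.prod_congr rfl fun p _ => by ring
  rw [h, Finset.prod_add]
  unfold Em
  refine Finset.sum_congr rfl fun T _ => ?_
  rw [Finset.prod_mul_distrib, Finset.prod_const]
  ring

theorem Em_one (R : Finset ι) (w : ι → ℝ) : Em R w (fun p => 1 - w p) (fun _ => 1) = 1 := by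
  have h := Em_total R w 1
  simp only [one_pow, one_mul, sub_add_cancel, Finset.prod_const_one] at h
  exact h

theorem Ex_marg (rg : ι → ℕ) (w : ι → ℝ) (i : ℕ) (f : Finset ι → ℝ) :
    Ex w (fun S => f (S.filter (fun p => rg p = i))) =
      Em (univ.filter (fun p => rg p = i)) w (fun p => 1 - w p) f := by
  set R1 := univ.filter (fun p => rg p = i) with hR1
  set R2 := univ.filter (fun p => ¬ rg p = i) with hR2
  have hd : Disjoint R1 R2 := Finset.disjoint_filter_filter_not _ _ _
  have hU : R1 ∪ R2 = univ := Finset.filter_union_filter_not_eq _ _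
  have h := Em_union hd w (fun p => 1 - w p) f (fun _ => 1)
  rw [Em_one, mul_one, hU] at h
  rw [Ex_eq_Em, ← h]
  refine Em_congr _ _ _ fun S _ => ?_
  show f (S.filter (fun p => rg p = i)) = f (S ∩ R1) * 1
  rw [mul_one]
  congr 1
  ext p
  rw [Finset.mem_filter, Finset.mem_inter, hR1, Finset.mem_filter]
  simp

theorem Em_total_le (R : Finset ι) (w : ι → ℝ) (hw : ∀ p ∈ R, 0 ≤ w p) (hs : ∑ p ∈ R, w p ≤ 1)
    {z : ℝ} (hz : 1 ≤ z) :
    Em R w (fun p => 1 - w p) (fun T => z ^ T.card) ≤ Real.exp (z - 1) := by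
  rw [Em_total]
  calc ∏ p ∈ R, (1 - w p + z * w p) ≤ ∏ p ∈ R, Real.exp ((z - 1) * w p) := by
        refine Finset.prod_le_prod (fun p hp => ?_) fun p hp => ?_
        · have := hw p hp
          nlinarith
        · have h := Real.add_one_le_exp ((z - 1) * w p)
          linarith
    _ = Real.exp ((z - 1) * ∑ p ∈ R, w p) := by rw [← Real.exp_sum, Finset.mul_sum]
    _ ≤ Real.exp (z - 1) := by
        apply Real.exp_le_exp.2
        nlinarith

theorem pow_add_ge (n : ℕ) {x a : ℝ} (hx : 0 ≤ x) (ha : 0 ≤ a) :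
    x ^ (n + 1) + (n + 1) * (a * x ^ n) ≤ (x + a) ^ (n + 1) := by
  induction n with
  | zero => simp
  | succ n ih =>
    have h1 : (x ^ (n + 1) + (n + 1) * (a * x ^ n)) * (x + a) ≤ (x + a) ^ (n + 1) * (x + a) :=
      mul_le_mul_of_nonneg_right ih (by positivity)
    have h2 : 0 ≤ ((n : ℝ) + 1) * (a * x ^ n) * a := by positivity
    calc x ^ (n + 1 + 1) + ((n + 1 : ℕ) + 1) * (a * x ^ (n + 1))
        ≤ x ^ (n + 1 + 1) + ((n + 1 : ℕ) + 1) * (a * x ^ (n + 1)) +
          ((n : ℝ) + 1) * (a * x ^ n) * a := le_add_of_nonneg_right h2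
      _ = (x ^ (n + 1) + (n + 1) * (a * x ^ n)) * (x + a) := by push_cast; ring
      _ ≤ (x + a) ^ (n + 1) * (x + a) := h1
      _ = (x + a) ^ (n + 1 + 1) := by ring

/-- The elementary symmetric sums. -/
theorem esym_le (w : ι → ℝ) (R : Finset ι) : (∀ p ∈ R, 0 ≤ w p) → ∀ n : ℕ,
    ∑ T ∈ R.powersetCard n, ∏ p ∈ T, w p ≤ (∑ p ∈ R, w p) ^ n / (n.factorial : ℝ) := by
  induction R using Finset.induction_on with
  | empty =>
    intro _ n
    rcases n with _ | n
    · simp
    · rw [Finset.powersetCard_eq_empty.2 (by simp)]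
      simp
  | insert a R ha ih =>
    intro hw n
    have hwR : ∀ p ∈ R, 0 ≤ w p := fun p hp => hw p (Finset.mem_insert_of_mem hp)
    have hwa : 0 ≤ w a := hw a (Finset.mem_insert_self a R)
    have hs : 0 ≤ ∑ p ∈ R, w p := Finset.sum_nonneg hwR
    rcases n with _ | n
    · simp
    · rw [Finset.powersetCard_succ_insert ha, Finset.sum_union, Finset.sum_insert ha]
      · have e1 : ∑ T ∈ (R.powersetCard n).image (insert a), ∏ p ∈ T, w p =
            w a * ∑ T ∈ R.powersetCard n, ∏ p ∈ T, w p := by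
          rw [Finset.sum_image, Finset.mul_sum]
          · refine Finset.sum_congr rfl fun T hT => ?_
            rw [Finset.mem_powersetCard] at hT
            rw [Finset.prod_insert (fun h => ha (hT.1 h))]
          · intro T hT T' hT' h
            have hT1 := (Finset.mem_powersetCard.1 (Finset.mem_coe.1 hT)).1
            have hT2 := (Finset.mem_powersetCard.1 (Finset.mem_coe.1 hT')).1
            have h' : (insert a T).erase a = (insert a T').erase a := by
              have h0 : insert a T = insert a T' := h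
              rw [h0]
            rwa [Finset.erase_insert (fun h => ha (hT1 h)),
              Finset.erase_insert (fun h => ha (hT2 h))] at h'
        rw [e1]
        have i1 := ih hwR (n + 1)
        have i2 := mul_le_mul_of_nonneg_left (ih hwR n) hwa
        have i3 := pow_add_ge n hs hwa
        have hf : (0 : ℝ) < ((n + 1).factorial : ℝ) := by exact_mod_cast Nat.factorial_pos _
        have hf' : (0 : ℝ) < (n.factorial : ℝ) := by exact_mod_cast Nat.factorial_pos _
        have hff : ((n + 1).factorial : ℝ) = (n + 1) * (n.factorial : ℝ) := by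
          rw [Nat.factorial_succ]; push_cast; ring
        calc _ ≤ (∑ p ∈ R, w p) ^ (n + 1) / ((n + 1).factorial : ℝ) +
              w a * ((∑ p ∈ R, w p) ^ n / (n.factorial : ℝ)) := add_le_add i1 i2
          _ = ((∑ p ∈ R, w p) ^ (n + 1) + (n + 1) * (w a * (∑ p ∈ R, w p) ^ n)) /
              ((n + 1).factorial : ℝ) := by
              rw [hff]
              have : (n : ℝ) + 1 ≠ 0 := by positivity
              field_simp
          _ ≤ (∑ p ∈ R, w p + w a) ^ (n + 1) / ((n + 1).factorial : ℝ) :=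
              div_le_div_of_nonneg_right i3 hf.le
          _ = (w a + ∑ p ∈ R, w p) ^ (n + 1) / ((n + 1).factorial : ℝ) := by rw [add_comm]
      · rw [Finset.disjoint_left]
        intro T h1 h2
        rw [Finset.mem_powersetCard] at h1
        obtain ⟨T', _, rfl⟩ := Finset.mem_image.1 h2
        exact ha (h1.1 (Finset.mem_insert_self a T'))

theorem Em_tail (R : Finset ι) (w : ι → ℝ) (hw : ∀ p ∈ R, 0 ≤ w p ∧ w p ≤ 1)
    (hs : ∑ p ∈ R, w p ≤ 1) {z : ℝ} (hz : 0 ≤ z) (r : ℕ) :
    Em R w (fun p => 1 - w p) (fun T => if r < T.card then z ^ T.card else 0) ≤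
      z ^ (r + 1) * Real.exp z / ((r + 1).factorial : ℝ) := by
  have hw0 : ∀ p ∈ R, 0 ≤ w p := fun p hp => (hw p hp).1
  have hs0 : 0 ≤ ∑ p ∈ R, w p := Finset.sum_nonneg hw0
  have h1 : Em R w (fun p => 1 - w p) (fun T => if r < T.card then z ^ T.card else 0) ≤
      ∑ T ∈ R.powerset, (∏ p ∈ T, w p) * (if r < T.card then z ^ T.card else 0) := by
    unfold Em
    refine Finset.sum_le_sum fun T hT => ?_
    have hT' := Finset.mem_powerset.1 hT
    have ha : 0 ≤ ∏ p ∈ T, w p := Finset.prod_nonneg fun p hp => hw0 p (hT' hp)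
    have hb : ∏ p ∈ R \ T, (1 - w p) ≤ 1 := by
      refine Finset.prod_le_one (fun p hp => ?_) fun p hp => ?_
      · have := (hw p (Finset.mem_sdiff.1 hp).1).2
        linarith
      · have := (hw p (Finset.mem_sdiff.1 hp).1).1
        linarith
    have hc : (0 : ℝ) ≤ if r < T.card then z ^ T.card else 0 := by
      split_ifs
      · positivity
      · exact le_refl 0
    calc (∏ p ∈ T, w p) * (∏ p ∈ R \ T, (1 - w p)) * (if r < T.card then z ^ T.card else 0)
        ≤ (∏ p ∈ T, w p) * 1 * (if r < T.card then z ^ T.card else 0) :=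
          mul_le_mul_of_nonneg_right (mul_le_mul_of_nonneg_left hb ha) hc
      _ = _ := by rw [mul_one]
  have h2 : ∑ T ∈ R.powerset, (∏ p ∈ T, w p) * (if r < T.card then z ^ T.card else 0) =
      ∑ n ∈ range (R.card + 1), (if r < n then z ^ n else 0) *
        ∑ T ∈ R.powersetCard n, ∏ p ∈ T, w p := by
    rw [Finset.sum_powerset]
    refine Finset.sum_congr rfl fun n _ => ?_
    rw [Finset.mul_sum]
    refine Finset.sum_congr rfl fun T hT => ?_
    rw [(Finset.mem_powersetCard.1 hT).2]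
    ring
  have h3 : ∀ n ∈ range (R.card + 1), (if r < n then z ^ n else 0) *
      ∑ T ∈ R.powersetCard n, ∏ p ∈ T, w p ≤
      if r < n then z ^ (r + 1) / ((r + 1).factorial : ℝ) *
        (z ^ (n - (r + 1)) / ((n - (r + 1)).factorial : ℝ)) else 0 := by
    intro n _
    split_ifs with h
    · have i1 := esym_le w R hw0 n
      have i2 : (∑ p ∈ R, w p) ^ n ≤ 1 := pow_le_one₀ hs0 hs
      have hfn : (0 : ℝ) < (n.factorial : ℝ) := by exact_mod_cast Nat.factorial_pos _
      have hfr : (0 : ℝ) < ((r + 1).factorial : ℝ) := by exact_mod_cast Nat.factorial_pos _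
      have hfd : (0 : ℝ) < ((n - (r + 1)).factorial : ℝ) := by
        exact_mod_cast Nat.factorial_pos _
      have i3 : ((r + 1).factorial : ℝ) * ((n - (r + 1)).factorial : ℝ) ≤ (n.factorial : ℝ) := by
        have hh : (r + 1).factorial * (n - (r + 1)).factorial ∣ n.factorial :=
          Nat.factorial_mul_factorial_dvd_factorial (by omega)
        exact_mod_cast Nat.le_of_dvd (Nat.factorial_pos _) hh
      have i4 : ∑ T ∈ R.powersetCard n, ∏ p ∈ T, w p ≤
          1 / (((r + 1).factorial : ℝ) * ((n - (r + 1)).factorial : ℝ)) := by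
        calc _ ≤ (∑ p ∈ R, w p) ^ n / (n.factorial : ℝ) := i1
          _ ≤ 1 / (n.factorial : ℝ) := div_le_div_of_nonneg_right i2 hfn.le
          _ ≤ _ := one_div_le_one_div_of_le (mul_pos hfr hfd) i3
      have hn : z ^ n = z ^ (r + 1) * z ^ (n - (r + 1)) := by
        rw [← pow_add]; congr 1; omega
      calc z ^ n * ∑ T ∈ R.powersetCard n, ∏ p ∈ T, w p
          ≤ z ^ n * (1 / (((r + 1).factorial : ℝ) * ((n - (r + 1)).factorial : ℝ))) :=
            mul_le_mul_of_nonneg_left i4 (by positivity)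
        _ = _ := by
            rw [hn]
            field_simp
    · rw [zero_mul]
  have h4 : ∑ n ∈ range (R.card + 1), (if r < n then z ^ (r + 1) / ((r + 1).factorial : ℝ) *
        (z ^ (n - (r + 1)) / ((n - (r + 1)).factorial : ℝ)) else 0) ≤
      z ^ (r + 1) / ((r + 1).factorial : ℝ) * Real.exp z := by
    have hfr : (0 : ℝ) < ((r + 1).factorial : ℝ) := by exact_mod_cast Nat.factorial_pos _
    have hc : 0 ≤ z ^ (r + 1) / ((r + 1).factorial : ℝ) := by positivity
    rw [← Finset.sum_filter]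
    have e : ∑ n ∈ (range (R.card + 1)).filter (fun n => r < n),
        z ^ (r + 1) / ((r + 1).factorial : ℝ) *
          (z ^ (n - (r + 1)) / ((n - (r + 1)).factorial : ℝ)) =
        z ^ (r + 1) / ((r + 1).factorial : ℝ) *
          ∑ n ∈ (range (R.card + 1)).filter (fun n => r < n),
            z ^ (n - (r + 1)) / ((n - (r + 1)).factorial : ℝ) := by
      rw [Finset.mul_sum]
    rw [e]
    refine mul_le_mul_of_nonneg_left ?_ hc
    have e2 : ∑ n ∈ (range (R.card + 1)).filter (fun n => r < n),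
        z ^ (n - (r + 1)) / ((n - (r + 1)).factorial : ℝ) =
        ∑ m ∈ ((range (R.card + 1)).filter (fun n => r < n)).image (fun n => n - (r + 1)),
          z ^ m / (m.factorial : ℝ) := by
      rw [Finset.sum_image]
      intro a ha b hb hab
      have ha' := (Finset.mem_filter.1 (Finset.mem_coe.1 ha)).2
      have hb' := (Finset.mem_filter.1 (Finset.mem_coe.1 hb)).2
      have hab' : a - (r + 1) = b - (r + 1) := hab
      omega
    rw [e2]
    calc _ ≤ ∑ m ∈ range (R.card + 1), z ^ m / (m.factorial : ℝ) := by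
          refine Finset.sum_le_sum_of_subset_of_nonneg ?_ fun m _ _ => by positivity
          intro m hm
          obtain ⟨n, hn, rfl⟩ := Finset.mem_image.1 hm
          have := Finset.mem_range.1 (Finset.mem_filter.1 hn).1
          exact Finset.mem_range.2 (by omega)
      _ ≤ Real.exp z := Real.sum_le_exp_of_nonneg hz _
  calc _ ≤ _ := h1
    _ = _ := h2
    _ ≤ _ := Finset.sum_le_sum h3
    _ ≤ z ^ (r + 1) / ((r + 1).factorial : ℝ) * Real.exp z := h4
    _ = _ := by ring

/-- The value at the empty set. -/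
theorem Em_empty (R : Finset ι) (u v : ι → ℝ) :
    Em R u v (fun T => if T = ∅ then 1 else 0) = ∏ p ∈ R, v p := by
  unfold Em
  rw [Finset.sum_eq_single ∅]
  · simp
  · intro T _ hT
    simp [hT]
  · intro h
    exact absurd (Finset.empty_mem_powerset R) h

theorem Em_mono (R : Finset ι) {u v : ι → ℝ} (hu : ∀ p ∈ R, 0 ≤ u p) (hv : ∀ p ∈ R, 0 ≤ v p)
    {f g : Finset ι → ℝ} (h : ∀ T ⊆ R, f T ≤ g T) : Em R u v f ≤ Em R u v g := by
  unfold Em
  refine Finset.sum_le_sum fun T hT => ?_
  have hT' := Finset.mem_powerset.1 hT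
  refine mul_le_mul_of_nonneg_left (h T hT') (mul_nonneg ?_ ?_)
  · exact Finset.prod_nonneg fun p hp => hu p (hT' hp)
  · exact Finset.prod_nonneg fun p hp => hv p (Finset.mem_sdiff.1 hp).1

theorem Em_add (R : Finset ι) (u v : ι → ℝ) (f g : Finset ι → ℝ) :
    Em R u v (fun T => f T + g T) = Em R u v f + Em R u v g := by
  unfold Em
  rw [← Finset.sum_add_distrib]
  exact Finset.sum_congr rfl fun T _ => by ring

theorem Em_smul (R : Finset ι) (u v : ι → ℝ) (c : ℝ) (f : Finset ι → ℝ) :
    Em R u v (fun T => c * f T) = c * Em R u v f := by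
  unfold Em
  rw [Finset.mul_sum]
  exact Finset.sum_congr rfl fun T _ => by ring

/-- Facts for regular data. -/
theorem Reg.P0_ge {D : Dt ι} {J : ℕ} {t : ℝ} (h : Reg D J t) (i : ℕ) : 1 / 4 ≤ D.P0 i := by
  have h1 : ∀ p : ι, Real.exp (-(4 / 3) * D.w p) ≤ 1 - D.w p := by
    intro p
    have h0 := h.w_nonneg p
    have h2 := h.w_le p
    have h3 := Real.add_one_le_exp (4 / 3 * D.w p)
    have h4 : Real.exp (-(4 / 3) * D.w p) * Real.exp (4 / 3 * D.w p) = 1 := by
      rw [← Real.exp_add]
      simp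
    have h5 : 1 ≤ (1 - D.w p) * Real.exp (4 / 3 * D.w p) := by
      calc (1 : ℝ) ≤ (1 - D.w p) * (4 / 3 * D.w p + 1) := by nlinarith
        _ ≤ _ := mul_le_mul_of_nonneg_left h3 (by linarith)
    have h6 := Real.exp_pos (4 / 3 * D.w p)
    by_contra hc
    push Not at hc
    have := mul_lt_mul_of_pos_right hc h6
    rw [h4] at this
    linarith
  have h2 : Real.exp (-(4 / 3)) ≤ D.P0 i := by
    have h3 : Real.exp (-(4 / 3) * D.la i) ≤ D.P0 i := by
      unfold Dt.la Dt.P0
      rw [Finset.mul_sum, Real.exp_sum]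
      exact Finset.prod_le_prod (fun p _ => (Real.exp_pos _).le) fun p _ => h1 p
    refine le_trans (Real.exp_le_exp.2 ?_) h3
    have := h.la_le i
    linarith
  refine le_trans ?_ h2
  have h4 : Real.exp (4 / 3) ≤ 4 := by
    have e1 : Real.exp (4 / 3) ^ 3 = Real.exp 1 ^ 4 := by
      rw [← Real.exp_nat_mul, ← Real.exp_nat_mul]
      norm_num
    have e2 : Real.exp 1 ^ 4 ≤ 4 ^ 3 := by
      have := Real.exp_one_lt_d9
      calc Real.exp 1 ^ 4 ≤ (2.7182818286 : ℝ) ^ 4 :=
            pow_le_pow_left₀ (Real.exp_pos 1).le this.le 4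
        _ ≤ 4 ^ 3 := by norm_num
    rw [← e1] at e2
    exact le_of_pow_le_pow_left₀ (by norm_num) (by norm_num) e2
  rw [Real.exp_neg, one_div]
  exact inv_anti₀ (Real.exp_pos _) h4

theorem Reg.P0_le_one {D : Dt ι} {J : ℕ} {t : ℝ} (h : Reg D J t) (i : ℕ) : D.P0 i ≤ 1 := by
  unfold Dt.P0
  refine Finset.prod_le_one (fun p _ => ?_) fun p _ => ?_
  · have := h.w_le p
    linarith
  · have := h.w_nonneg p
    linarith

theorem Reg.P0_le {D : Dt ι} {J : ℕ} {t : ℝ} (h : Reg D J t) {i : ℕ} (hi : i < J) :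
    D.P0 i ≤ Real.exp (-(1 / 4)) := by
  have h1 : D.P0 i ≤ Real.exp (-D.la i) := by
    unfold Dt.la Dt.P0
    rw [← Finset.sum_neg_distrib, Real.exp_sum]
    refine Finset.prod_le_prod (fun p _ => ?_) fun p _ => ?_
    · have := h.w_le p
      linarith
    · have := Real.add_one_le_exp (-D.w p)
      linarith
  refine le_trans h1 (Real.exp_le_exp.2 ?_)
  have := h.la_ge i hi
  linarith

/-- The mean of `A` as a sum over the subsets of the range. -/
theorem a_eq (D : Dt ι) (i : ℕ) : D.a i =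
    Em (univ.filter (fun p => D.rg p = i)) D.w (fun p => 1 - D.w p)
      (fun T => Ar (D.r i) T.card) := by
  unfold Dt.a
  have h := Ex_marg D.rg D.w i (fun T => Ar (D.r i) T.card)
  rw [← h]
  rfl

/-- The mean of `A`. -/
theorem Reg.a_le {D : Dt ι} {J : ℕ} {t : ℝ} (h : Reg D J t) (i : ℕ) (hi : i < D.I) :
    0 ≤ D.a i ∧ D.a i ≤ D.P0 i + tt (D.r i) := by
  rw [a_eq]
  set R := univ.filter (fun p => D.rg p = i) with hR
  have hu : ∀ p ∈ R, 0 ≤ D.w p := fun p _ => h.w_nonneg p
  have hv : ∀ p ∈ R, 0 ≤ 1 - D.w p := fun p _ => by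
    have := h.w_le p
    linarith
  constructor
  · unfold Em
    refine Finset.sum_nonneg fun T hT => ?_
    have hT' := Finset.mem_powerset.1 hT
    refine mul_nonneg (mul_nonneg ?_ ?_) (Ar_nonneg (h.even i) _)
    · exact Finset.prod_nonneg fun p hp => hu p (hT' hp)
    · exact Finset.prod_nonneg fun p hp => hv p (Finset.mem_sdiff.1 hp).1
  · have h1 : Em R D.w (fun p => 1 - D.w p) (fun T => Ar (D.r i) T.card) ≤
        Em R D.w (fun p => 1 - D.w p) (fun T => (if T = ∅ then 1 else 0) +
          (if D.r i < T.card then (2 : ℝ) ^ T.card else 0)) := by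
      refine Em_mono R hu hv fun T _ => ?_
      by_cases hT : T = ∅
      · subst hT
        rw [Finset.card_empty, Ar_zero]
        simp
      · rw [if_neg hT, zero_add]
        have hc : 1 ≤ T.card := Finset.card_pos.2 (Finset.nonempty_iff_ne_empty.2 hT)
        split_ifs with hlt
        · exact Ar_le (h.even i) _
        · rw [Ar_eq_zero hc (by omega)]
    rw [Em_add, Em_empty] at h1
    have h2 := Em_tail R D.w (fun p _ => ⟨h.w_nonneg p, by have := h.w_le p; linarith⟩)
      (h.la_le i) (z := 2) (by norm_num) (D.r i)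
    have h3 : (2 : ℝ) ^ (D.r i + 1) * Real.exp 2 / ((D.r i + 1).factorial : ℝ) ≤ tt (D.r i) := by
      unfold tt
      have hf : (0 : ℝ) < ((D.r i + 1).factorial : ℝ) := by
        exact_mod_cast Nat.factorial_pos _
      refine div_le_div_of_nonneg_right ?_ hf.le
      exact mul_le_mul (pow_le_pow_left₀ (by norm_num) (by norm_num) _)
        (Real.exp_le_exp.2 (by norm_num)) (Real.exp_pos _).le (by positivity)
    have h4 : ∏ p ∈ R, (1 - D.w p) = D.P0 i := rfl
    rw [h4] at h1
    linarith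

theorem tt_pos (r : ℕ) : 0 < tt r := by
  unfold tt
  have hf : (0 : ℝ) < ((r + 1).factorial : ℝ) := by exact_mod_cast Nat.factorial_pos _
  have := Real.exp_pos 64
  positivity

theorem Reg.tt_le {D : Dt ι} {J : ℕ} {t : ℝ} (h : Reg D J t) {i : ℕ} (hi : i < D.I) :
    tt (D.r i) ≤ 1 / 1000 := by
  have h1 : tt (D.r i) ≤ ∑ i ∈ range D.I, tt (D.r i) :=
    Finset.single_le_sum (f := fun i => tt (D.r i)) (fun j _ => (tt_pos _).le)
      (Finset.mem_range.2 hi)
  have := h.tail
  have := h.t_le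
  linarith

theorem Reg.one_sub_a {D : Dt ι} {J : ℕ} {t : ℝ} (h : Reg D J t) {j : ℕ} (hj : j < J) :
    1 / 5 ≤ 1 - D.a j := by
  have hI : j < D.I := lt_of_lt_of_le hj h.J_le
  have h1 := (h.a_le j hI).2
  have h2 := h.P0_le hj
  have h3 := h.tt_le hI
  have h4 : Real.exp (-(1 / 4)) ≤ 4 / 5 - 1 / 1000 := by
    have h5 : (1 : ℝ) + 1 / 4 + (1 / 4) ^ 2 / 2 ≤ Real.exp (1 / 4) :=
      Real.quadratic_le_exp_of_nonneg (by norm_num)
    rw [Real.exp_neg]
    calc (Real.exp (1 / 4))⁻¹ ≤ ((1 : ℝ) + 1 / 4 + (1 / 4) ^ 2 / 2)⁻¹ :=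
          inv_anti₀ (by norm_num) h5
      _ ≤ 4 / 5 - 1 / 1000 := by norm_num
  linarith

/-- `0 ≤ A`, `A = 1` on sets without points in the range, `A = 0` if the number of the points in
the range is between `1` and the order, `A ≤ 2 ^ cnt`. -/
theorem Reg.A_facts {D : Dt ι} {J : ℕ} {t : ℝ} (h : Reg D J t) (i : ℕ) (S : Finset ι) :
    0 ≤ D.A i S ∧ D.A i S ≤ 2 ^ cnt D.rg i S ∧ (cnt D.rg i S = 0 → D.A i S = 1) ∧
      (1 ≤ cnt D.rg i S → cnt D.rg i S ≤ D.r i → D.A i S = 0) := by
  refine ⟨Ar_nonneg (h.even i) _, Ar_le (h.even i) _, ?_, fun h1 h2 => Ar_eq_zero h1 h2⟩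
  intro h0
  unfold Dt.A
  rw [h0, Ar_zero]

end

end Pool.Agent.Helper1.LG
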