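import Pool.Agent.Helper1.LG.Comb

set_option autoImplicit false

/-!
LG-C2. The sum of the squares (`SumOne` in `Defs.lean`).

`gg K (B n) (v n) ^ 2 = ∑_{φ,ψ ∈ adm} [supp φ ∪ supp ψ ⊆ B n] (-1)^(|supp φ|+|supp ψ|)
∏_i v n i (ofO (φ i)) v n i (ofO (ψ i))`; with `W i = ![ofO (φ i), ofO (ψ i), .one, .one]`
(`v_one`), `UW W = supp φ ∪ supp ψ`, of size `≤ 2 ∑ K j ≤ u0`; the level is
`∑_i (lv (ofO (φ i)) + lv (ofO (ψ i))) ≤ 2 ∑ K j lv (md j) ≤ 1/50`. Apply `est`.
Main term: `∏_i E (W i)` is `0` unless `φ = ψ` (`mean1`, `mean2`, `orth`), and then it is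
`∏_i ev e (φ i)` (`sq`, `E_blank`). So the main terms give
`M ∑_φ dn (supp φ) ∏ ev e (φ i) = M avg (fun a => SS K e (B a))`.
Error: `∑_{φ,ψ} (ε1 + ε2 M dn(U) Plow^|U|)`, `dn(U) = avg [U ⊆ B a]`, and for each `a` the sum over
`φ, ψ` supported in `B a` of `Plow^|U|` is at most `(1 + (J+1)² Plow)^|B a|` (`comb`, `q = 2`).
-/

open Finset

namespace Pool.Agent.Helper1.LG

open Pool.Agent.Helper1.MT (supp cls)

namespace SumOneAux

variable {Y J : ℕ}

/-- The word of a pair of assignments. -/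
def W2 (φ ψ : Asg Y J) : Fin Y → Fin 4 → Lt J := fun i => ![ofO (φ i), ofO (ψ i), .one, .one]

theorem ofO_eq_one (o : Option (Fin J)) : ofO o = Lt.one ↔ o = none := by
  cases o with
  | none => simp [ofO]
  | some j => simp [ofO]

theorem W2_blank (φ ψ : Asg Y J) (i : Fin Y) :
    W2 φ ψ i = blank J ↔ φ i = none ∧ ψ i = none := by
  unfold W2 blank
  constructor
  · intro h
    have h0 := congrFun h 0
    have h1 := congrFun h 1
    simp only [Matrix.cons_val_zero, Matrix.cons_val_one] at h0 h1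
    exact ⟨(ofO_eq_one _).1 h0, (ofO_eq_one _).1 h1⟩
  · rintro ⟨h0, h1⟩
    funext l
    fin_cases l <;> simp [h0, h1, ofO]

theorem UW_W2 (φ ψ : Asg Y J) : UW (W2 φ ψ) = supp φ ∪ supp ψ := by
  ext i
  unfold UW supp
  simp only [mem_filter, mem_univ, true_and, mem_union]
  rw [ne_eq, W2_blank]
  tauto

theorem card_supp_le {K : Fin J → ℕ} {φ : Asg Y J} (h : φ ∈ adm Y K) :
    (supp φ).card ≤ ∑ j, K j := by
  unfold adm at h
  simp only [mem_filter, mem_univ, true_and] at h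
  have h1 : supp φ ⊆ univ.biUnion (fun j => cls φ j) := by
    intro i hi
    unfold supp at hi
    simp only [mem_filter, mem_univ, true_and] at hi
    obtain ⟨j, hj⟩ := Option.ne_none_iff_exists'.1 hi
    simp only [mem_biUnion, mem_univ, true_and]
    exact ⟨j, by unfold cls; simp [hj]⟩
  exact ((card_le_card h1).trans card_biUnion_le).trans (sum_le_sum (fun j _ => h j))

theorem sum_lv {K : Fin J → ℕ} {φ : Asg Y J} (h : φ ∈ adm Y K) (lv : Lt J → ℝ)
    (h0 : ∀ l, 0 ≤ lv l) (h1 : lv .one = 0) :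
    ∑ i, lv (ofO (φ i)) ≤ ∑ j, (K j : ℝ) * lv (.md j) := by
  unfold adm at h
  simp only [mem_filter, mem_univ, true_and] at h
  have h2 : ∀ i, lv (ofO (φ i)) = ∑ j, if φ i = some j then lv (.md j) else 0 := by
    intro i
    cases hi : φ i with
    | none => simp [ofO, h1]
    | some j =>
      simp only [ofO, Option.some.injEq]
      rw [Finset.sum_ite_eq]
      simp
  calc ∑ i, lv (ofO (φ i)) = ∑ i, ∑ j, if φ i = some j then lv (.md j) else 0 :=
        sum_congr rfl (fun i _ => h2 i)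
    _ = ∑ j, ∑ i, if φ i = some j then lv (.md j) else 0 := sum_comm
    _ = ∑ j, ((cls φ j).card : ℝ) * lv (.md j) := by
        refine sum_congr rfl (fun j _ => ?_)
        rw [← sum_filter, sum_const, nsmul_eq_mul]
        rfl
    _ ≤ ∑ j, (K j : ℝ) * lv (.md j) := by
        refine sum_le_sum (fun j _ => ?_)
        exact mul_le_mul_of_nonneg_right (by exact_mod_cast h j) (h0 _)

theorem prod_W2 (v : Fin Y → Lt J → ℝ) (h1 : ∀ i, v i .one = 1) (φ ψ : Asg Y J) :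
    ∏ i, ∏ l, v i (W2 φ ψ i l) = (∏ i, v i (ofO (φ i))) * ∏ i, v i (ofO (ψ i)) := by
  rw [← prod_mul_distrib]
  refine prod_congr rfl (fun i _ => ?_)
  rw [Fin.prod_univ_four]
  unfold W2
  simp [h1]

theorem sum_W2 (lv : Lt J → ℝ) (h1 : lv .one = 0) (φ ψ : Asg Y J) :
    ∑ i, ∑ l, lv (W2 φ ψ i l) = (∑ i, lv (ofO (φ i))) + ∑ i, lv (ofO (ψ i)) := by
  rw [← sum_add_distrib]
  refine sum_congr rfl (fun i _ => ?_)
  rw [Fin.sum_univ_four]
  unfold W2
  simp [h1]

/-- The square of the weight. -/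
theorem gg_sq (K : Fin J → ℕ) (B : Finset (Fin Y)) (v : Fin Y → Lt J → ℝ)
    (h1 : ∀ i, v i .one = 1) :
    gg K B v ^ 2 = ∑ φ ∈ adm Y K, ∑ ψ ∈ adm Y K,
      if UW (W2 φ ψ) ⊆ B then
        ((-1) ^ (supp φ).card * (-1) ^ (supp ψ).card) * ∏ i, ∏ l, v i (W2 φ ψ i l) else 0 := by
  unfold gg
  rw [sq, sum_filter, Finset.sum_mul_sum]
  refine sum_congr rfl (fun φ _ => sum_congr rfl (fun ψ _ => ?_))
  rw [UW_W2, prod_W2 v h1]
  by_cases ha : supp φ ⊆ B
  · by_cases hb : supp ψ ⊆ B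
    · rw [if_pos ha, if_pos hb, if_pos (union_subset ha hb)]
      ring
    · rw [if_neg hb, if_neg (fun hc => hb (subset_union_right.trans hc)), mul_zero]
  · rw [if_neg ha, if_neg (fun hc => ha (subset_union_left.trans hc)), zero_mul]

/-- The product of the expectations. -/
theorem prod_E {R : Fr Y J} (hR : R.Ok) (φ ψ : Asg Y J) :
    ∏ i, R.E (W2 φ ψ i) = if φ = ψ then ∏ i, ev R.e (φ i) else 0 := by
  by_cases h : φ = ψ
  · subst h
    rw [if_pos rfl]
    refine prod_congr rfl (fun i _ => ?_)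
    unfold W2
    cases hi : φ i with
    | none =>
      have hb : (![ofO (none : Option (Fin J)), ofO (none : Option (Fin J)), Lt.one, Lt.one] :
          Fin 4 → Lt J) = blank J := by
        funext l
        fin_cases l <;> simp [ofO, blank]
      rw [hb, hR.E_blank]
      rfl
    | some j =>
      simp only [ofO, ev]
      exact hR.sq j
  · rw [if_neg h]
    obtain ⟨i, hi⟩ : ∃ i, φ i ≠ ψ i := by
      by_contra hc
      push Not at hc
      exact h (funext hc)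
    refine prod_eq_zero (mem_univ i) ?_
    unfold W2
    cases h1 : φ i with
    | none =>
      cases h2 : ψ i with
      | none => exact absurd (h1.trans h2.symm) hi
      | some j =>
        simp only [ofO]
        exact hR.mean2 j
    | some j =>
      cases h2 : ψ i with
      | none =>
        simp only [ofO]
        exact hR.mean1 j
      | some k =>
        simp only [ofO]
        refine hR.orth j k (fun hjk => hi ?_)
        rw [h1, h2, hjk]

/-- `dn` as an average. -/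
theorem dn_eq (Ω : Finset ℕ) (B : ℕ → Finset (Fin Y)) (U : Finset (Fin Y)) :
    dn Ω B U = avg Ω (fun a => if U ⊆ B a then 1 else 0) := by
  unfold dn avg
  rw [sum_ite, sum_const_zero, add_zero, sum_const, nsmul_eq_mul, mul_one]

theorem dn_nonneg (Ω : Finset ℕ) (B : ℕ → Finset (Fin Y)) (U : Finset (Fin Y)) :
    0 ≤ dn Ω B U := by
  unfold dn
  positivity

theorem avg_mono (Ω : Finset ℕ) (f g : ℕ → ℝ) (h : ∀ a ∈ Ω, f a ≤ g a) :
    avg Ω f ≤ avg Ω g := by
  unfold avg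
  exact div_le_div_of_nonneg_right (sum_le_sum h) (by positivity)

/-- The sum over a set of functions on `Fin 2`. -/
theorem sum_fin_two {α : Type} [DecidableEq α] (S : Finset α) (f : (Fin 2 → α) → ℝ) :
    ∑ Φ ∈ Fintype.piFinset (fun _ : Fin 2 => S), f Φ = ∑ a ∈ S, ∑ b ∈ S, f ![a, b] := by
  rw [← sum_product']
  refine sum_bij' (fun Φ _ => (Φ 0, Φ 1)) (fun p _ => ![p.1, p.2]) ?_ ?_ ?_ ?_ ?_
  · intro Φ hΦ
    rw [Fintype.mem_piFinset] at hΦ
    exact mem_product.2 ⟨hΦ 0, hΦ 1⟩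
  · intro p hp
    rw [mem_product] at hp
    rw [Fintype.mem_piFinset]
    intro i
    fin_cases i
    · exact hp.1
    · exact hp.2
  · intro Φ _
    funext i
    fin_cases i <;> rfl
  · intro p _
    rfl
  · intro Φ _
    congr 1
    funext i
    fin_cases i <;> rfl

/-- The sum of the densities. -/
theorem sum_dn (K : Fin J → ℕ) (Ω : Finset ℕ) (B : ℕ → Finset (Fin Y)) (P : ℝ) (hP : 0 ≤ P) :
    ∑ φ ∈ adm Y K, ∑ ψ ∈ adm Y K, dn Ω B (UW (W2 φ ψ)) * P ^ (UW (W2 φ ψ)).card ≤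
      avg Ω (fun a => (1 + ((J : ℝ) + 1) ^ 2 * P) ^ (B a).card) := by
  have h1 : ∑ φ ∈ adm Y K, ∑ ψ ∈ adm Y K, dn Ω B (UW (W2 φ ψ)) * P ^ (UW (W2 φ ψ)).card =
      avg Ω (fun a => ∑ φ ∈ adm Y K, ∑ ψ ∈ adm Y K,
        if UW (W2 φ ψ) ⊆ B a then P ^ (UW (W2 φ ψ)).card else 0) := by
    unfold avg
    rw [sum_comm (s := Ω), sum_div]
    refine sum_congr rfl (fun φ _ => ?_)
    rw [sum_comm (s := Ω), sum_div]
    refine sum_congr rfl (fun ψ _ => ?_)
    rw [dn_eq]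
    unfold avg
    rw [div_mul_eq_mul_div, sum_mul]
    congr 1
    refine sum_congr rfl (fun a _ => ?_)
    rw [ite_mul, one_mul, zero_mul]
  rw [h1]
  refine avg_mono _ _ _ (fun a _ => ?_)
  have h2 := (comb Y J K).2 2 P hP (B a)
  rw [sum_fin_two] at h2
  refine le_trans (le_of_eq ?_) h2
  rw [sum_filter]
  refine sum_congr rfl (fun φ _ => ?_)
  have hU : ∀ ψ : Asg Y J, UW (W2 φ ψ) =
      univ.filter (fun i => ∃ l, (![φ, ψ] : Fin 2 → Asg Y J) l i ≠ none) := by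
    intro ψ
    rw [UW_W2]
    ext i
    unfold supp
    simp only [mem_filter, mem_univ, true_and, mem_union, Fin.exists_fin_two,
      Matrix.cons_val_zero, Matrix.cons_val_one]
  by_cases ha : supp φ ⊆ B a
  · rw [if_pos ha, sum_filter]
    refine sum_congr rfl (fun ψ _ => ?_)
    by_cases hb : supp ψ ⊆ B a
    · rw [if_pos hb, if_pos (by rw [UW_W2]; exact union_subset ha hb), hU]
    · rw [if_neg hb, if_neg (fun hc => hb (subset_union_right.trans (by rwa [UW_W2] at hc)))]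
  · rw [if_neg ha]
    refine sum_eq_zero (fun ψ _ => ?_)
    rw [if_neg (fun hc => ha (subset_union_left.trans (by rwa [UW_W2] at hc)))]

/-- The main term. -/
theorem main_term {R : Fr Y J} (hR : R.Ok) :
    ∑ φ ∈ adm Y R.K, ∑ ψ ∈ adm Y R.K, ((-1) ^ (supp φ).card * (-1) ^ (supp ψ).card) *
      (R.M * dn R.Ω R.B (UW (W2 φ ψ)) * ∏ i, R.E (W2 φ ψ i)) =
      R.M * avg R.Ω (fun a => SS R.K R.e (R.B a)) := by
  have h1 : ∀ φ ∈ adm Y R.K, ∑ ψ ∈ adm Y R.K, ((-1) ^ (supp φ).card * (-1) ^ (supp ψ).card) *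
      (R.M * dn R.Ω R.B (UW (W2 φ ψ)) * ∏ i, R.E (W2 φ ψ i)) =
      R.M * (dn R.Ω R.B (supp φ) * ∏ i, ev R.e (φ i)) := by
    intro φ hφ
    rw [sum_eq_single_of_mem φ hφ]
    · rw [prod_E hR, if_pos rfl, UW_W2, union_self, ← pow_add, Even.neg_one_pow ⟨_, rfl⟩]
      ring
    · intro ψ _ hne
      rw [prod_E hR, if_neg (fun hc => hne hc.symm)]
      ring
  rw [sum_congr rfl h1, ← mul_sum]
  congr 1
  unfold avg SS
  rw [sum_congr rfl (fun a _ => sum_filter _ _), sum_comm, sum_div]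
  refine sum_congr rfl (fun φ _ => ?_)
  rw [dn_eq]
  unfold avg
  rw [div_mul_eq_mul_div, sum_mul]
  congr 1
  refine sum_congr rfl (fun a _ => ?_)
  rw [ite_mul, one_mul, zero_mul]

end SumOneAux

open SumOneAux

theorem sumOne : SumOne := by
  intro Y J R hR
  have h1 : ∑ n ∈ R.F, R.ν n * gg R.K (R.B n) (R.v n) ^ 2 =
      ∑ φ ∈ adm Y R.K, ∑ ψ ∈ adm Y R.K, ((-1) ^ (supp φ).card * (-1) ^ (supp ψ).card) *
        ∑ n ∈ R.F.filter (fun n => UW (W2 φ ψ) ⊆ R.B n),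
          R.ν n * ∏ i, ∏ l, R.v n i (W2 φ ψ i l) := by
    calc ∑ n ∈ R.F, R.ν n * gg R.K (R.B n) (R.v n) ^ 2
        = ∑ n ∈ R.F, ∑ φ ∈ adm Y R.K, ∑ ψ ∈ adm Y R.K, R.ν n * (if UW (W2 φ ψ) ⊆ R.B n then
            ((-1) ^ (supp φ).card * (-1) ^ (supp ψ).card) *
              ∏ i, ∏ l, R.v n i (W2 φ ψ i l) else 0) := by
          refine sum_congr rfl (fun n _ => ?_)
          rw [gg_sq R.K (R.B n) (R.v n) (hR.v_one n), mul_sum]
          exact sum_congr rfl (fun φ _ => mul_sum _ _ _)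
      _ = _ := by
          rw [sum_comm]
          refine sum_congr rfl (fun φ _ => ?_)
          rw [sum_comm]
          refine sum_congr rfl (fun ψ _ => ?_)
          rw [sum_filter, mul_sum]
          refine sum_congr rfl (fun n _ => ?_)
          by_cases hc : UW (W2 φ ψ) ⊆ R.B n
          · rw [if_pos hc, if_pos hc]
            ring
          · rw [if_neg hc, if_neg hc]
            ring
  have h2 : ∀ φ ∈ adm Y R.K, ∀ ψ ∈ adm Y R.K,
      ((-1) ^ (supp φ).card * (-1) ^ (supp ψ).card) *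
        (R.M * dn R.Ω R.B (UW (W2 φ ψ)) * ∏ i, R.E (W2 φ ψ i)) -
        (R.ε1 + R.ε2 * R.M * (dn R.Ω R.B (UW (W2 φ ψ)) * R.Plow ^ (UW (W2 φ ψ)).card)) ≤
      ((-1) ^ (supp φ).card * (-1) ^ (supp ψ).card) *
        ∑ n ∈ R.F.filter (fun n => UW (W2 φ ψ) ⊆ R.B n),
          R.ν n * ∏ i, ∏ l, R.v n i (W2 φ ψ i l) := by
    intro φ hφ ψ hψ
    have hcard : (UW (W2 φ ψ)).card ≤ R.u0 := by
      rw [UW_W2]
      have h3 := card_union_le (supp φ) (supp ψ)
      have h4 := card_supp_le hφ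
      have h5 := card_supp_le hψ
      have h6 := hR.u0_ge
      omega
    have hlev : ∑ i, ∑ l, R.lv (W2 φ ψ i l) ≤ 1 / 50 := by
      rw [sum_W2 _ hR.lv_one]
      have h3 := sum_lv hφ R.lv hR.lv_nonneg hR.lv_one
      have h4 := sum_lv hψ R.lv hR.lv_nonneg hR.lv_one
      have h5 := hR.lev2
      have h6 := hR.lv_nonneg .maj
      linarith
    have h3 := hR.est (W2 φ ψ) hcard hlev
    rw [abs_le] at h3
    obtain ⟨h3, h4⟩ := h3
    rcases neg_one_pow_eq_or ℝ (supp φ).card with ha | ha <;>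
      rcases neg_one_pow_eq_or ℝ (supp ψ).card with hb | hb <;> rw [ha, hb] <;> linarith
  rw [h1]
  have h3 := sum_le_sum (fun φ hφ => sum_le_sum (fun ψ hψ => h2 φ hφ ψ hψ))
  refine le_trans ?_ h3
  simp only [sum_sub_distrib]
  rw [main_term hR]
  refine sub_le_sub_left ?_ _
  have h4 : ∑ φ ∈ adm Y R.K, ∑ ψ ∈ adm Y R.K,
      (R.ε1 + R.ε2 * R.M * (dn R.Ω R.B (UW (W2 φ ψ)) * R.Plow ^ (UW (W2 φ ψ)).card)) =
      R.ε1 * (adm Y R.K).card ^ 2 + R.ε2 * R.M * ∑ φ ∈ adm Y R.K, ∑ ψ ∈ adm Y R.K,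
        dn R.Ω R.B (UW (W2 φ ψ)) * R.Plow ^ (UW (W2 φ ψ)).card := by
    simp only [sum_add_distrib, sum_const, nsmul_eq_mul, mul_sum]
    ring
  rw [h4]
  have h5 := sum_dn R.K R.Ω R.B R.Plow hR.Plow_nonneg
  have h6 := mul_nonneg hR.e2_nonneg hR.M_nonneg
  have h7 := mul_le_mul_of_nonneg_left h5 h6
  linarith

end Pool.Agent.Helper1.LG
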